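import Pool.Agent.Helper49.RA.M_UB

/-! RA module CT: the signed affine action preserves the code. -/

namespace Helper49.RA

namespace CTaux

variable {K : Type} [AddCommGroup K] [Fintype K] [DecidableEq K] {e : K → K → ℤ}

theorem addr (he : IsPair e) (x y z : K) : e x (y + z) = e x y * e x z := by
  rw [he.symm x, he.addl, he.symm y, he.symm z]

theorem one_or (he : IsPair e) (x y : K) : e x y = 1 ∨ e x y = -1 := by
  have h := he.sq x y
  have h2 : (e x y - 1) * (e x y + 1) = 0 := by linear_combination h
  rcases mul_eq_zero.mp h2 with h3 | h3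
  · left; linarith
  · right; linarith

theorem bb_one_or (he : IsPair e) (a b : K × K) : bb e a b = 1 ∨ bb e a b = -1 := by
  unfold bb
  rcases one_or he a.1 b.2 with h1 | h1 <;> rcases one_or he a.2 b.1 with h2 | h2 <;>
    simp [h1, h2]

theorem qq_one_or (he : IsPair e) (a : K × K) : qq e a = 1 ∨ qq e a = -1 := one_or he _ _

theorem bb_addr (he : IsPair e) (a b c : K × K) : bb e a (b + c) = bb e a b * bb e a c := by
  unfold bb
  simp only [Prod.fst_add, Prod.snd_add, addr he]
  ring

theorem bb_addl' (he : IsPair e) (a b c : K × K) : bb e (a + b) c = bb e a c * bb e b c := by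
  unfold bb
  simp only [Prod.fst_add, Prod.snd_add, he.addl]
  ring

theorem bb_symm (he : IsPair e) (a b : K × K) : bb e a b = bb e b a := by
  unfold bb
  rw [he.symm a.1, he.symm a.2, mul_comm]

theorem qq_add (he : IsPair e) (a b : K × K) : qq e (a + b) = qq e a * qq e b * bb e a b := by
  unfold qq bb
  simp only [Prod.fst_add, Prod.snd_add, he.addl, addr he]
  rw [he.symm b.1 a.2]
  ring

theorem sum_two (he : IsPair e) (x y : K) :
    ∑ b, e x b * e b y = if x = y then (Fintype.card K : ℤ) else 0 := by
  have h : ∀ b, e x b * e b y = e (x + y) b := by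
    intro b; rw [he.addl, he.symm b y]
  rw [Finset.sum_congr rfl (fun b _ => h b), he.sum]
  have : x + y = 0 ↔ x = y := by
    constructor
    · intro h
      have h2 := he.two y
      have : x + y = y + y := by rw [h, h2]
      exact add_right_cancel this
    · intro h; rw [h]; exact he.two y
  simp only [this]

/-- Self-duality of a word of the code. -/
theorem sd_of_code (he : IsPair e) {f : K × K → ℤ} (hf : IsCode e f) (b : K × K) :
    ∑ a, bb e a b * f a = (Fintype.card K : ℤ) * f b := by
  have h1 : ∑ a : K × K, bb e a b * f a = ∑ u, e u b.2 * sig e f u b.1 := by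
    rw [Fintype.sum_prod_type]
    refine Finset.sum_congr rfl fun u _ => ?_
    unfold sig bb
    rw [Finset.mul_sum]
    refine Finset.sum_congr rfl fun v _ => ?_
    ring
  rw [h1]
  have h2 : ∑ u, e u b.2 * sig e f u b.1 = ∑ u, ∑ v, e v u * e u b.2 * f (b.1, v) := by
    refine Finset.sum_congr rfl fun u _ => ?_
    rw [hf.2 u b.1]
    unfold sig
    rw [Finset.mul_sum]
    refine Finset.sum_congr rfl fun v _ => ?_
    ring
  rw [h2, Finset.sum_comm]
  have h3 : ∀ v, ∑ u, e v u * e u b.2 * f (b.1, v) =
      if v = b.2 then (Fintype.card K : ℤ) * f b else 0 := by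
    intro v
    rw [← Finset.sum_mul, sum_two he]
    by_cases hv : v = b.2
    · rw [if_pos hv, if_pos hv, hv]
    · rw [if_neg hv, if_neg hv, zero_mul]
  rw [Finset.sum_congr rfl (fun v _ => h3 v), Finset.sum_ite_eq' Finset.univ b.2]
  simp

/-- Conversely, self-dual functions are words of the code. -/
theorem code_of_sd (he : IsPair e) {f : K × K → ℤ} (h0 : ∀ a, qq e a ≠ 1 → f a = 0)
    (hf : ∀ b, ∑ a, bb e a b * f a = (Fintype.card K : ℤ) * f b) : IsCode e f := by
  refine ⟨h0, fun x w => ?_⟩
  have hn : (Fintype.card K : ℤ) ≠ 0 := by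
    have : 0 < Fintype.card K := Fintype.card_pos_iff.mpr ⟨0⟩
    exact_mod_cast this.ne'
  have key : ∑ c, e c x * (∑ a, bb e a (w, c) * f a) =
      ∑ c, e c x * ((Fintype.card K : ℤ) * f (w, c)) :=
    Finset.sum_congr rfl fun c _ => by rw [hf (w, c)]
  have r : ∑ c, e c x * ((Fintype.card K : ℤ) * f (w, c)) =
      (Fintype.card K : ℤ) * sig e f w x := by
    unfold sig
    rw [Finset.mul_sum]
    refine Finset.sum_congr rfl fun v _ => ?_
    ring
  have l : ∑ c, e c x * (∑ a, bb e a (w, c) * f a) = (Fintype.card K : ℤ) * sig e f x w := by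
    have l1 : ∑ c, e c x * (∑ a, bb e a (w, c) * f a) =
        ∑ a : K × K, ∑ c, e a.1 c * e c x * (e a.2 w * f a) := by
      rw [Finset.sum_comm]
      refine Finset.sum_congr rfl fun c _ => ?_
      rw [Finset.mul_sum]
      refine Finset.sum_congr rfl fun a _ => ?_
      unfold bb
      ring
    rw [l1]
    have l2 : ∀ a : K × K, ∑ c, e a.1 c * e c x * (e a.2 w * f a) =
        if a.1 = x then (Fintype.card K : ℤ) * (e a.2 w * f a) else 0 := by
      intro a
      rw [← Finset.sum_mul, sum_two he]
      by_cases h : a.1 = x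
      · rw [if_pos h, if_pos h]
      · rw [if_neg h, if_neg h, zero_mul]
    rw [Finset.sum_congr rfl (fun a _ => l2 a), Fintype.sum_prod_type, Finset.sum_comm]
    unfold sig
    rw [Finset.mul_sum]
    refine Finset.sum_congr rfl fun v _ => ?_
    rw [Finset.sum_ite_eq' Finset.univ x]
    simp
    ring
  rw [l, r] at key
  exact mul_left_cancel₀ hn key

theorem qq_ta (he : IsPair e) (v a : K × K) (h : bb e a v = qq e v) : qq e (a + v) = qq e a := by
  rw [qq_add he, h]
  have := UBaux.qq_sq he v
  linear_combination (qq e a) * this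

/-- The signed affine action preserves the code. -/
theorem code_tf (he : IsPair e) {f : K × K → ℤ} (hf : IsCode e f) (v : K × K) :
    IsCode e (tf e v f) := by
  have hq := UBaux.qq_sq he v
  refine code_of_sd he ?_ ?_
  · intro a ha
    unfold tf
    by_cases h : bb e a v = qq e v
    · rw [if_pos h, hf.1 (a + v) (by rw [qq_ta he v a h]; exact ha), mul_zero]
    · rw [if_neg h, hf.1 a ha]
  · intro b
    -- twice the word in closed form
    have h2 : ∀ a, 2 * tf e v f a = (1 - qq e v * bb e a v) * f a -
        qq e v * (1 + qq e v * bb e a v) * f (a + v) := by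
      intro a
      unfold tf
      by_cases h : bb e a v = qq e v
      · rw [if_pos h, h]
        linear_combination (f a + qq e v * f (a + v)) * hq
      · rw [if_neg h]
        have h3 : bb e a v = - qq e v := by
          rcases bb_one_or he a v with h4 | h4 <;> rcases qq_one_or he v with h5 | h5 <;>
            rw [h4, h5] at h <;> rw [h4, h5] <;> first | exact absurd rfl h | norm_num
        rw [h3]
        linear_combination (- f a - qq e v * f (a + v)) * hq
    have hshift : ∀ g : K × K → ℤ, ∑ a, g (a + v) = ∑ a, g a := by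
      intro g
      exact Fintype.sum_equiv (Equiv.addRight v) _ _ (fun a => rfl)
    have s1 : ∑ a, bb e a b * f a = (Fintype.card K : ℤ) * f b := sd_of_code he hf b
    have s2 : ∑ a, bb e a v * bb e a b * f a = (Fintype.card K : ℤ) * f (b + v) := by
      rw [← sd_of_code he hf (b + v)]
      refine Finset.sum_congr rfl fun a _ => ?_
      rw [bb_addr he]; ring
    have s3 : ∑ a, bb e a b * f (a + v) = bb e v b * ((Fintype.card K : ℤ) * f b) := by
      rw [← s1, Finset.mul_sum, ← hshift (fun a => bb e v b * (bb e a b * f a))]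
      refine Finset.sum_congr rfl fun a _ => ?_
      rw [bb_addl' he]
      have h := (bb_one_or he v b)
      rcases h with h | h <;> rw [h] <;> ring
    have s4 : ∑ a, bb e a v * bb e a b * f (a + v) =
        bb e v b * ((Fintype.card K : ℤ) * f (b + v)) := by
      rw [← s2, Finset.mul_sum, ← hshift (fun a => bb e v b * (bb e a v * bb e a b * f a))]
      refine Finset.sum_congr rfl fun a _ => ?_
      rw [bb_addl' he a v b, bb_addl' he a v v, UBaux.bb_self he v]
      have h := (bb_one_or he v b)
      rcases h with h | h <;> rw [h] <;> ring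
    have tot : 2 * ∑ a, bb e a b * tf e v f a = 2 * ((Fintype.card K : ℤ) * tf e v f b) := by
      have t1 : 2 * ∑ a, bb e a b * tf e v f a =
          ∑ a, (bb e a b * f a - qq e v * (bb e a v * bb e a b * f a) -
            qq e v * (bb e a b * f (a + v)) -
            qq e v * qq e v * (bb e a v * bb e a b * f (a + v))) := by
        rw [Finset.mul_sum]
        refine Finset.sum_congr rfl fun a _ => ?_
        linear_combination (bb e a b) * h2 a
      rw [t1]
      simp only [Finset.sum_sub_distrib, ← Finset.mul_sum]
      rw [s1, s2, s3, s4]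
      rw [bb_symm he v b]
      linear_combination (- (Fintype.card K : ℤ)) * h2 b
    exact mul_left_cancel₀ two_ne_zero tot

end CTaux

open UBaux in
/-- The transformed words are words of the code. -/
theorem code_wordOf (hBR : BRfacts) (l : List ℕ) (hl : ∀ v ∈ l, v < 4096) :
    ∀ F : ℕ → ℤ, IsCode e6 (wordOf F) → IsCode e6 (wordOf (tfsN l F)) := by
  induction l with
  | nil => intro F h; exact h
  | cons v l ih =>
    intro F h
    have hv : v < 4096 := hl v (by simp)
    refine ih (fun w hw => hl w (by simp [hw])) (tfN v F) ?_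
    rw [wordOf_tf hBR F v hv]
    exact CTaux.code_tf hBR.pair h _

end Helper49.RA
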