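import Pool.Agent.Helper49.RA.StC

/-!
Project RA (MP_16b052_ag), module GOOD: facts about the word `f0` on `K6 × K6`.
-/

namespace Helper49.RA

universe u

namespace GOODaux

theorem vals : ((List.range 4096).all fun n => decide ((fBig >>> (3 * n)) % 8 ≤ 4)) = true := by
  decide +kernel

theorem val_cases {n : ℕ} (hn : n < 4096) (h : fN n ≠ 0) :
    fN n = -2 ∨ fN n = -1 ∨ fN n = 1 ∨ fN n = 2 := by
  have h1 := List.all_eq_true.1 vals n (List.mem_range.2 hn)
  have h2 : (fBig >>> (3 * n)) % 8 ≤ 4 := of_decide_eq_true h1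
  unfold fN at h ⊢
  generalize (fBig >>> (3 * n)) % 8 = t at h h2 ⊢
  interval_cases t <;> simp_all

theorem enc_zero (hBR : BRfacts) : enc 0 = (0 : K6) := by
  have h := congrArg Prod.fst hBR.zero
  exact h

theorem dec_zero (hBR : BRfacts) : dec 0 = 0 := by
  have h := hBR.enc 0 (by norm_num)
  rw [hBR.zero] at h
  unfold decE at h
  simp only [Prod.fst_zero, Prod.snd_zero] at h
  omega

theorem dec_enc (hBR : BRfacts) {x : ℕ} (hx : x < 64) : dec (enc x) = x := by
  have h := hBR.enc x (by omega)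
  have h1 : encE x = (enc x, 0) := by
    unfold encE
    rw [Nat.mod_eq_of_lt hx, Nat.div_eq_of_lt hx, enc_zero hBR]
  rw [h1] at h
  unfold decE at h
  simp only [dec_zero hBR] at h
  omega

theorem enc_surj (hBR : BRfacts) (v : K6) : ∃ x : ℕ, x < 64 ∧ enc x = v := by
  have h := (hBR.dec (v, 0)).2
  exact ⟨decE (v, 0) % 64, Nat.mod_lt _ (by norm_num), congrArg Prod.fst h⟩

theorem sum_enc (hBR : BRfacts) (g : K6 → ℤ) : ∑ v, g v = ∑ n ∈ Finset.range 64, g (enc n) := by
  symm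
  refine Finset.sum_bij (fun n _ => enc n) (fun _ _ => Finset.mem_univ _) ?_ ?_ (fun _ _ => rfl)
  · intro a ha b hb hab
    have h1 := dec_enc hBR (Finset.mem_range.1 ha)
    have h2 := dec_enc hBR (Finset.mem_range.1 hb)
    rw [← h1, ← h2, hab]
  · intro v _
    obtain ⟨x, hx, hv⟩ := enc_surj hBR v
    exact ⟨x, Finset.mem_range.2 hx, hv⟩

theorem encE_pair {u v : ℕ} (hu : u < 64) : encE (u + 64 * v) = (enc u, enc v) := by
  unfold encE
  have h1 : (u + 64 * v) % 64 = u := by omega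
  have h2 : (u + 64 * v) / 64 = v := by omega
  rw [h1, h2]

theorem sig_enc (hBR : BRfacts) {u w : ℕ} (hu : u < 64) (hw : w < 64) :
    sig e6 f0 (enc u) (enc w) = ∑ v ∈ Finset.range 64, fN (u + 64 * v) * eN v w := by
  unfold sig
  rw [sum_enc hBR]
  refine Finset.sum_congr rfl fun v hv => ?_
  have hv' := Finset.mem_range.1 hv
  rw [← encE_pair hu, hBR.f _ (by omega), hBR.e v w hv' hw]

theorem encE_surj (hBR : BRfacts) (a : K6 × K6) : ∃ n : ℕ, n < 4096 ∧ encE n = a :=
  ⟨decE a, (hBR.dec a).1, (hBR.dec a).2⟩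

theorem two_pair (hBR : BRfacts) (a : K6 × K6) : a + a = 0 :=
  Prod.ext (hBR.pair.two a.1) (hBR.pair.two a.2)

theorem sum_xor (hBR : BRfacts) (c x : ℕ) : encE x = encE c + encE (c ^^^ x) := by
  rw [hBR.xor, ← add_assoc, two_pair hBR, zero_add]

end GOODaux

open GOODaux in
theorem good : StBR → StCK3 → StCK4 → StGOOD.{u} := by
  intro hBR h3 h4
  have hBR : BRfacts := hBR
  obtain ⟨h31, h32, h33⟩ := h3
  obtain ⟨h41, h42⟩ := h4
  have hsig : sig e6 f0 0 0 = 14 := by
    rw [← enc_zero hBR, sig_enc hBR (by norm_num) (by norm_num), ← h33]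
    refine Finset.sum_congr rfl fun v _ => ?_
    have h1 : eN v 0 = 1 := by
      unfold eN
      rw [Nat.and_zero]
      rfl
    rw [h1, mul_one, zero_add]
  refine ⟨hBR.pair, ⟨⟨?_, ?_⟩, ?_, ?_, ?_⟩, ?_, hsig⟩
  · intro a ha
    obtain ⟨n, hn, rfl⟩ := encE_surj hBR a
    rw [hBR.q n hn] at ha
    rw [hBR.f n hn]
    exact h32 n hn ha
  · intro u w
    obtain ⟨u', hu, rfl⟩ := enc_surj hBR u
    obtain ⟨w', hw, rfl⟩ := enc_surj hBR w
    rw [sig_enc hBR hu hw, sig_enc hBR hw hu]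
    exact h31 u' w' hu hw
  · intro x
    obtain ⟨x', hx, rfl⟩ := encE_surj hBR x
    obtain ⟨c, hc, hc1, hc2⟩ := h41 x' hx
    refine ⟨encE c, encE (c ^^^ x'), ?_, ?_, sum_xor hBR c x'⟩
    · rw [hBR.f c hc]; exact hc1
    · rw [hBR.f _ (hBR.xorlt c x' hc hx)]; exact hc2
  · intro b hb
    obtain ⟨b', hb', rfl⟩ := encE_surj hBR b
    have hb0 : b' ≠ 0 := by
      rintro rfl
      exact hb hBR.zero
    obtain ⟨a, ha, ha1, ha2, ha3⟩ := h42 b' hb' hb0
    refine ⟨encE a, encE (a ^^^ b'), ?_, ?_, ?_, sum_xor hBR a b'⟩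
    · rw [hBR.q a ha]; exact ha1
    · rw [hBR.f a ha]; exact ha2
    · rw [hBR.f _ (hBR.xorlt a b' ha hb')]; exact ha3
  · refine ⟨encE 0, encE 1, ?_, ?_, ?_, ?_, ?_⟩
    · rw [hBR.q 0 (by norm_num)]; decide +kernel
    · rw [hBR.f 0 (by norm_num)]; decide +kernel
    · rw [hBR.q 1 (by norm_num)]; decide +kernel
    · rw [hBR.f 1 (by norm_num)]; decide +kernel
    · intro h
      have h1 : enc 0 = enc 1 := h
      have h2 := dec_enc hBR (x := 0) (by norm_num)
      have h5 := dec_enc hBR (x := 1) (by norm_num)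
      rw [h1, h5] at h2
      exact one_ne_zero h2
  · intro k _ h2
    refine ⟨h2, ?_, ?_, ?_⟩
    · have h1 : Fintype.card K6 = 2 ^ 6 := by
        simp [K6, ZMod.card]
      rw [h1, Nat.cast_pow, Nat.cast_ofNat]
      exact pow_ne_zero 6 h2
    · intro a ha
      obtain ⟨n, hn, rfl⟩ := encE_surj hBR a
      rw [hBR.f n hn] at ha ⊢
      rcases val_cases hn ha with h | h | h | h <;> rw [h]
      · simpa using h2
      · simp
      · simp
      · simpa using h2
    · by_cases h5 : (3 : k) = 0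
      · right
        rw [hsig]
        have h6 : ((14 : ℤ) : k) = 4 * 3 + 2 := by norm_num
        rw [h6, h5, mul_zero, zero_add]
        exact h2
      · left
        exact h5

end Helper49.RA
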