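import Pool.Agent.Helper49.RA.StC

/-!
Project RA (MP_16b052_ag), module BR: comparison of codes with `K6 × K6`.
-/

namespace Helper49.RA

namespace BRaux

private theorem pair_BR : IsPair e6 where
  two x := by
    funext i
    simp only [Pi.add_apply, Pi.zero_apply]
    exact CharTwo.add_self_eq_zero _
  sq x y := by
    unfold e6
    split <;> rfl
  addl x y z := by
    unfold e6
    have h : ∑ i, (x + y) i * z i = ∑ i, x i * z i + ∑ i, y i * z i := by
      rw [← Finset.sum_add_distrib]
      exact Finset.sum_congr rfl fun i _ => by rw [Pi.add_apply, add_mul]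
    rw [h]
    generalize ∑ i, x i * z i = s
    generalize ∑ i, y i * z i = t
    revert s t
    decide
  symm x y := by
    unfold e6
    have h : ∑ i, x i * y i = ∑ i, y i * x i :=
      Finset.sum_congr rfl fun i _ => mul_comm _ _
    rw [h]
  sum x := by
    have hc : (Fintype.card K6 : ℤ) = 64 := by
      have : Fintype.card K6 = 64 := by
        simp [K6, ZMod.card]
      rw [this]; rfl
    rw [hc]
    revert x
    decide +kernel

private theorem enc_xor_BR (a b : ℕ) : enc (a ^^^ b) = enc a + enc b := by
  funext i
  simp only [enc, Pi.add_apply, Nat.testBit_xor]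
  cases a.testBit i <;> cases b.testBit i <;> decide

private theorem mod_xor_BR (a b : ℕ) : (a ^^^ b) % 64 = (a % 64) ^^^ (b % 64) :=
  Nat.xor_mod_two_pow (n := 6)

private theorem div_xor_BR (a b : ℕ) : (a ^^^ b) / 64 = (a / 64) ^^^ (b / 64) :=
  Nat.xor_div_two_pow (n := 6)

private theorem dec_enc_BR : ∀ n : Fin 64, dec (enc n) = n := by
  decide +kernel

private theorem enc_dec_BR : ∀ x : K6, dec x < 64 ∧ enc (dec x) = x := by
  decide +kernel

private theorem e_BR : ∀ x y : Fin 64, e6 (enc x) (enc y) = eN x y := by
  decide +kernel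

end BRaux

open BRaux

theorem bR : StBR := by
  have hx : ∀ a b : ℕ, encE (a ^^^ b) = encE a + encE b := by
    intro a b
    unfold encE
    rw [mod_xor_BR, div_xor_BR, enc_xor_BR, enc_xor_BR]
    rfl
  have he : ∀ x y : ℕ, x < 64 → y < 64 → e6 (Helper49.RA.enc x) (Helper49.RA.enc y) = eN x y :=
    fun x y hx hy => e_BR ⟨x, hx⟩ ⟨y, hy⟩
  have hm : ∀ a : ℕ, a % 64 < 64 := fun a => Nat.mod_lt _ (by norm_num)
  have hd : ∀ a : ℕ, a < 4096 → a / 64 < 64 := fun a ha => by omega
  have hdec : ∀ a : K6 × K6, decE a < 4096 ∧ encE (decE a) = a := by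
    intro a
    have h1 := enc_dec_BR a.1
    have h2 := enc_dec_BR a.2
    refine ⟨by unfold decE; omega, ?_⟩
    unfold encE decE
    have e1 : (dec a.1 + 64 * dec a.2) % 64 = dec a.1 := by omega
    have e2 : (dec a.1 + 64 * dec a.2) / 64 = dec a.2 := by omega
    rw [e1, e2, h1.2, h2.2]
  have henc : ∀ a : ℕ, a < 4096 → decE (encE a) = a := by
    intro a ha
    unfold encE decE
    have h1 := dec_enc_BR ⟨a % 64, hm a⟩
    have h2 := dec_enc_BR ⟨a / 64, hd a ha⟩
    simp only at h1 h2
    rw [h1, h2]
    omega
  have hb : ∀ a b : ℕ, a < 4096 → b < 4096 → bb e6 (encE a) (encE b) = bN a b := by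
    intro a b ha hb
    unfold bb bN encE
    simp only
    rw [he _ _ (hm a) (hd b hb), he _ _ (hd a ha) (hm b)]
  exact
    { pair := pair_BR
      xor := hx
      xorlt := fun a b ha hb => Nat.xor_lt_two_pow (n := 12) ha hb
      zero := by
        unfold encE
        ext i
        · simp [enc]
        · simp [enc]
      dec := hdec
      enc := henc
      e := he
      q := fun a ha => by
        unfold qq qN encE
        exact he _ _ (hm a) (hd a ha)
      b := hb
      tv := by
        intro v b hv hb'
        unfold tv tvN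
        rw [hb b v hb' hv]
        split
        · rfl
        · rw [hx]
      f := fun a ha => by
        unfold f0
        rw [henc a ha] }

end Helper49.RA
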