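import Pool.Agent.Helper49.RA.StC

/-!
Project RA (MP_16b052_ag), module CK1: the two generators preserve the word up to sign.
-/

namespace Helper49.RA

namespace CK1aux

/-- Field of the word. -/
def fld (a : ℕ) : ℕ := Nat.mod (Nat.shiftRight fBig (Nat.mul 3 a)) 8

/-- Parity, raw form. -/
def pR (n : ℕ) : Bool := Nat.beq (Nat.land (Nat.shiftRight 0x6996966996696996 n) 1) 1

/-- Boolean form of the parity of `bN a v`. -/
def bB (a v : ℕ) : Bool := xor (par6 ((a % 64) &&& (v / 64))) (par6 ((a / 64) &&& (v % 64)))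

/-- Boolean form of `qN v`. -/
def qB (v : ℕ) : Bool := par6 ((v % 64) &&& (v / 64))

/-- Raw form of `qB`. -/
def qR (v : ℕ) : Bool := pR (Nat.land (Nat.mod v 64) (Nat.div v 64))

/-- Raw form of the condition. -/
def condR (a v : ℕ) : Bool :=
  pR (Nat.xor (Nat.xor (Nat.land (Nat.mod a 64) (Nat.div v 64))
    (Nat.land (Nat.div a 64) (Nat.mod v 64))) (Nat.land (Nat.mod v 64) (Nat.div v 64)))

/-- Sign of a Boolean. -/
def sg (s : Bool) : ℤ := if s then -1 else 1

/-- The point moved by the list, with the test at the end. `t` is the wanted sign. -/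
def run (x : ℕ) (t : Bool) (l : List ℕ) : ℕ → Bool → Bool :=
  List.rec (motive := fun _ => ℕ → Bool → Bool)
    (fun a s => Bool.rec (Nat.beq (fld a) x) (Nat.beq (Nat.add (fld a) x) 4) (xor s t))
    (fun v _ ih a s => Bool.rec (ih (Nat.xor a v) (xor s (!(qR v)))) (ih a s) (condR a v)) l

lemma sg_xor (s t : Bool) : sg (xor s t) = sg s * sg t := by
  cases s <;> cases t <;> simp [sg]

lemma sg_not (s : Bool) : sg (!s) = - sg s := by
  cases s <;> simp [sg]

lemma sg_inj (s t : Bool) : sg s = sg t ↔ s = t := by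
  cases s <;> cases t <;> simp [sg]

lemma bN_eq (a v : ℕ) : bN a v = sg (bB a v) := by
  rw [bB, sg_xor]; rfl

lemma qN_eq (v : ℕ) : qN v = sg (qB v) := rfl

lemma fN_eq (a : ℕ) : fN a = (fld a : ℤ) - 2 := rfl

lemma pR_eq (n : ℕ) : pR n = par6 n := by
  have e : pR n = Nat.beq ((0x6996966996696996 >>> n) &&& 1) 1 := rfl
  rw [e, par6, Nat.testBit, Nat.and_comm 1]
  rcases Nat.mod_two_eq_zero_or_one (0x6996966996696996 >>> n) with h | h <;>
    rw [Nat.and_one_is_mod, h] <;> rfl

lemma qR_eq (v : ℕ) : qR v = qB v := pR_eq _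

lemma par_xor0 : ∀ x < 64, ∀ y < 64, pR (Nat.xor x y) = xor (pR x) (pR y) := by
  decide +kernel

lemma par_xor {x y : ℕ} (hx : x < 64) (hy : y < 64) : par6 (x ^^^ y) = xor (par6 x) (par6 y) := by
  have h := par_xor0 x hx y hy
  rw [pR_eq, pR_eq, pR_eq] at h
  exact h

lemma condR_eq (a v : ℕ) : condR a v = xor (bB a v) (qB v) := by
  have h1 : (a % 64) &&& (v / 64) < 64 := lt_of_le_of_lt Nat.and_le_left (Nat.mod_lt _ (by norm_num))
  have h2 : (a / 64) &&& (v % 64) < 64 :=
    lt_of_le_of_lt Nat.and_le_right (Nat.mod_lt _ (by norm_num))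
  have h3 : (v % 64) &&& (v / 64) < 64 := lt_of_le_of_lt Nat.and_le_left (Nat.mod_lt _ (by norm_num))
  have h4 : ((a % 64) &&& (v / 64)) ^^^ ((a / 64) &&& (v % 64)) < 64 :=
    Nat.xor_lt_two_pow (n := 6) h1 h2
  have e : condR a v = pR ((((a % 64) &&& (v / 64)) ^^^ ((a / 64) &&& (v % 64))) ^^^
      ((v % 64) &&& (v / 64))) := rfl
  rw [e, pR_eq, par_xor h4 h3, par_xor h1 h2]
  rfl

lemma run_spec (x : ℕ) (t : Bool) (l : List ℕ) : ∀ (a : ℕ) (s : Bool),
    run x t l a s = true →
      sg s * tfsN l.reverse fN a = sg t * ((x : ℤ) - 2) := by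
  induction l with
  | nil =>
    intro a s h
    have e : tfsN [].reverse fN a = fN a := rfl
    rw [e, fN_eq]
    have h' : (Bool.rec (Nat.beq (fld a) x) (Nat.beq (Nat.add (fld a) x) 4) (xor s t) : Bool)
      = true := h
    cases s <;> cases t
    · have := Nat.eq_of_beq_eq_true h'
      rw [this]
    · have h2 : fld a + x = 4 := Nat.eq_of_beq_eq_true h'
      simp only [sg]; push_cast [← h2]; simp; omega
    · have h2 : fld a + x = 4 := Nat.eq_of_beq_eq_true h'
      simp only [sg]; simp; omega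
    · have := Nat.eq_of_beq_eq_true h'
      rw [this]
  | cons v l ih =>
    intro a s h
    have e : tfsN (v :: l).reverse fN a = tfN v (tfsN l.reverse fN) a := by
      rw [List.reverse_cons, tfsN, List.foldl_append]
      rfl
    have h' : (Bool.rec (run x t l (a ^^^ v) (xor s (!(qR v)))) (run x t l a s)
      (condR a v) : Bool) = true := h
    rw [e, tfN, bN_eq, qN_eq]
    rw [condR_eq, qR_eq] at h'
    by_cases hc : bB a v = qB v
    · rw [if_pos ((sg_inj _ _).2 hc)]
      rw [hc, Bool.xor_self] at h'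
      have := ih _ _ h'
      rw [sg_xor, sg_not] at this
      linear_combination this
    · rw [if_neg (fun hh => hc ((sg_inj _ _).1 hh))]
      have hx : xor (bB a v) (qB v) = true := by
        revert hc; cases bB a v <;> cases qB v <;> simp
      rw [hx] at h'
      exact ih _ _ h'

lemma sg_false : sg false = 1 := rfl

lemma sg_true : sg true = -1 := rfl

/-- The whole check. -/
def chk (i : ℕ) : Bool := (List.range 64).all fun j =>
  run (fld (64 * i + j)) false gen1.reverse (64 * i + j) false &&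
    run (fld (64 * i + j)) true gen2.reverse (64 * i + j) false

lemma chk_spec {i j : ℕ} (h : chk i = true) (hj : j < 64) :
    tfsN gen1 fN (64 * i + j) = fN (64 * i + j) ∧
      tfsN gen2 fN (64 * i + j) = - fN (64 * i + j) := by
  have h1 := List.all_eq_true.1 h j (List.mem_range.2 hj)
  rw [Bool.and_eq_true] at h1
  have h2 := run_spec _ _ _ _ _ h1.1
  have h3 := run_spec _ _ _ _ _ h1.2
  rw [List.reverse_reverse, sg_false, one_mul, one_mul] at h2
  rw [List.reverse_reverse, sg_false, sg_true, one_mul] at h3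
  refine ⟨h2, ?_⟩
  rw [h3, fN_eq]; ring

lemma chk_all : ∀ i < 64, chk i = true := by
  decide +kernel

end CK1aux

open CK1aux in
/-- Module CK1. -/
theorem cK1 : StCK1 := by
  intro a ha
  have h := chk_spec (chk_all (a / 64) (by omega)) (Nat.mod_lt a (by norm_num : 0 < 64))
  have e : 64 * (a / 64) + a % 64 = a := Nat.div_add_mod a 64
  rwa [e] at h

end Helper49.RA
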