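import Pool.Agent.Helper49.RA.StC

set_option autoImplicit false

/-!
Project RA (MP_16b052_ag), module CK2: the orbits of the representatives cover everything
(kernel check).
-/

namespace Helper49.RA

universe u

namespace CK2aux

/-- Parity as a number. -/
def pr (n : ℕ) : ℕ := Nat.land 1 (Nat.shiftRight 0x6996966996696996 n)

theorem pr_eq (n : ℕ) : pr n = if par6 n then 1 else 0 := by
  have h1 : pr n = (0x6996966996696996 >>> n) % 2 := Nat.one_and_eq_mod_two _
  have h2 : par6 n = decide ((0x6996966996696996 >>> n) % 2 = 1) := by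
    unfold par6
    rw [Nat.testBit, Nat.one_and_eq_mod_two]
    rcases Nat.mod_two_eq_zero_or_one (0x6996966996696996 >>> n) with h | h <;> rw [h] <;> rfl
  rw [h1, h2]
  rcases Nat.mod_two_eq_zero_or_one (0x6996966996696996 >>> n) with h | h <;> rw [h] <;> rfl

/-- Boolean form of `tvN`. -/
def tvF (v b : ℕ) : ℕ :=
  cond (Nat.beq (pr (Nat.land (Nat.mod b 64) (Nat.div v 64)))
    (pr (Nat.land (Nat.div b 64) (Nat.mod v 64)))) b (Nat.xor b v)

theorem tvF_eq (v b : ℕ) : tvN v b = tvF v b := by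
  have h1 : tvF v b = cond (Nat.beq (pr ((b % 64) &&& (v / 64))) (pr ((b / 64) &&& (v % 64)))) b
    (b ^^^ v) := rfl
  rw [h1, pr_eq, pr_eq]
  unfold tvN bN eN
  cases par6 ((b % 64) &&& (v / 64)) <;> cases par6 ((b / 64) &&& (v % 64)) <;> simp <;> rfl

/-- Boolean form of `tvsN`. -/
def tvsF (l : List ℕ) (b : ℕ) : ℕ := l.foldl (fun b v => tvF v b) b

theorem tvsF_eq (l : List ℕ) : tvsN l = tvsF l := by
  funext b
  unfold tvsN tvsF
  congr 1
  funext b v
  exact tvF_eq v b

/-- The list of the first `n` iterates. -/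
def itL (f : ℕ → ℕ) : ℕ → ℕ → List ℕ
  | 0, _ => []
  | n + 1, x => x :: itL f n (f x)

theorem mem_itL (f : ℕ → ℕ) (n : ℕ) : ∀ x y : ℕ, y ∈ itL f n x → ∃ i : ℕ, y = f^[i] x := by
  induction n with
  | zero =>
    intro x y h
    simp [itL] at h
  | succ n ih =>
    intro x y h
    rw [itL, List.mem_cons] at h
    rcases h with h | h
    · exact ⟨0, h⟩
    · obtain ⟨i, hi⟩ := ih _ _ h
      exact ⟨i + 1, by rw [Function.iterate_succ_apply]; exact hi⟩

/-- The set of bits of a list. -/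
def bits (l : List ℕ) : ℕ := l.foldr (fun c acc => 2 ^ c ||| acc) 0

theorem mem_bits (l : List ℕ) (b : ℕ) (h : (bits l).testBit b = true) : b ∈ l := by
  induction l with
  | nil => simp [bits] at h
  | cons c l ih =>
    have h1 : bits (c :: l) = 2 ^ c ||| bits l := rfl
    rw [h1, Nat.testBit_or, Bool.or_eq_true] at h
    rcases h with h | h
    · rw [Nat.testBit_two_pow] at h
      have h2 : c = b := by simpa using h
      rw [h2]
      exact List.mem_cons_self
    · exact List.mem_cons_of_mem _ (ih h)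

/-- The orbit of a representative. -/
def orb (r : ℕ) : List ℕ := (itL (tvsF gen2) 4 r).flatMap (itL (tvsF gen1) 13)

theorem mem_orb (r b : ℕ) (h : b ∈ orb r) : ∃ i j : ℕ, b = (tvsN gen1)^[i] ((tvsN gen2)^[j] r) := by
  rw [orb, List.mem_flatMap] at h
  obtain ⟨s, hs, hb⟩ := h
  obtain ⟨j, hj⟩ := mem_itL _ _ _ _ hs
  obtain ⟨i, hi⟩ := mem_itL _ _ _ _ hb
  refine ⟨i, j, ?_⟩
  rw [tvsF_eq, tvsF_eq, ← hj]
  exact hi

/-- Everything which is reached. -/
def cov (l : List ℕ) : ℕ := l.foldr (fun r acc => bits (orb r) ||| acc) 0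

theorem mem_cov (l : List ℕ) (b : ℕ) (h : (cov l).testBit b = true) : ∃ r ∈ l, b ∈ orb r := by
  induction l with
  | nil => simp [cov] at h
  | cons c l ih =>
    have h1 : cov (c :: l) = bits (orb c) ||| cov l := rfl
    rw [h1, Nat.testBit_or, Bool.or_eq_true] at h
    rcases h with h | h
    · exact ⟨c, List.mem_cons_self, mem_bits _ _ h⟩
    · obtain ⟨r, hr, hb⟩ := ih h
      exact ⟨r, List.mem_cons_of_mem _ hr, hb⟩

theorem check : cov reps6 = 2 ^ 4096 - 2 := by decide +kernel

theorem tb (n b : ℕ) (hn : n ≠ 0) (hb : b < n) (hb0 : b ≠ 0) :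
    (2 ^ n - 2).testBit b = true := by
  have h3 := Nat.testBit_two_pow_sub_succ (x := 1) (n := n) (Nat.one_lt_two_pow hn) b
  simp only [Nat.reduceAdd] at h3
  rw [h3]
  have h5 : Nat.testBit 1 b = false := by
    cases b with
    | zero => exact absurd rfl hb0
    | succ m => simp [Nat.testBit_succ]
  rw [h5]
  simpa using hb

end CK2aux

theorem cK2 : StCK2 := by
  intro b hb hb0
  have h2 : (CK2aux.cov reps6).testBit b = true := by
    rw [CK2aux.check]
    exact CK2aux.tb 4096 b (by norm_num) hb hb0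
  obtain ⟨r, hr, hbr⟩ := CK2aux.mem_cov _ _ h2
  obtain ⟨i, j, hij⟩ := CK2aux.mem_orb r b hbr
  exact ⟨r, hr, i, j, hij⟩

end Helper49.RA
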