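import Pool.Agent.Helper49.RA.StC

/-!
Project RA (MP_16b052_ag), module CK3: the word is a word of the self-dual code (kernel check).
-/

namespace Helper49.RA

namespace CK3aux

/-- the value plus two -/
def xN (a : ℕ) : ℕ := (fBig >>> (3 * a)) % 8

/-- one term plus six -/
def tN (u w v : ℕ) : ℕ :=
  bif par6 (v &&& w) then 8 - xN (u + 64 * v) else xN (u + 64 * v) + 4

/-- sums -/
def sumTo (f : ℕ → ℕ) : ℕ → ℕ
  | 0 => 0
  | n + 1 => f n + sumTo f n

/-- conjunctions -/
def allTo (p : ℕ → Bool) : ℕ → Bool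
  | 0 => true
  | n + 1 => p n && allTo p n

theorem allTo_spec (p : ℕ → Bool) (n : ℕ) (h : allTo p n = true) : ∀ i < n, p i = true := by
  induction n with
  | zero => intro i hi; omega
  | succ n ih =>
    intro i hi
    unfold allTo at h
    rw [Bool.and_eq_true] at h
    rcases Nat.lt_succ_iff_lt_or_eq.1 hi with h1 | rfl
    · exact ih h.2 i h1
    · exact h.1

theorem sumTo_spec (f : ℕ → ℕ) (n : ℕ) : sumTo f n = ∑ i ∈ Finset.range n, f i := by
  induction n with
  | zero => rfl
  | succ n ih =>
    rw [Finset.sum_range_succ, ← ih]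
    exact Nat.add_comm (f n) (sumTo f n)

theorem xN_lt (a : ℕ) : xN a < 8 := Nat.mod_lt _ (by norm_num)

theorem fN_eq (a : ℕ) : fN a = (xN a : ℤ) - 2 := rfl

theorem tN_eq (u w v : ℕ) : (tN u w v : ℤ) = fN (u + 64 * v) * eN v w + 6 := by
  unfold tN eN
  rw [fN_eq]
  have := xN_lt (u + 64 * v)
  cases par6 (v &&& w)
  · simp only [cond_false]
    push_cast
    simp
    ring
  · simp only [cond_true]
    rw [Nat.cast_sub this.le]
    push_cast
    simp
    ring

theorem sum_eq (u w : ℕ) : ∑ v ∈ Finset.range 64, fN (u + 64 * v) * eN v w =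
    ((sumTo (tN u w) 64 : ℕ) : ℤ) - 384 := by
  rw [sumTo_spec]
  push_cast
  rw [Finset.sum_congr rfl fun v _ => tN_eq u w v, Finset.sum_add_distrib, Finset.sum_const,
    Finset.card_range]
  norm_num

theorem ck1 : allTo (fun u => allTo (fun w =>
    Nat.beq (sumTo (tN u w) 64) (sumTo (tN w u) 64)) u) 64 = true := by
  decide +kernel

theorem ck2 : allTo (fun a => Nat.beq (xN a) 2 || ! par6 ((a % 64) &&& (a / 64))) 4096 = true := by
  decide +kernel

theorem ck3 : Nat.beq (sumTo (fun v => xN (64 * v)) 64) 142 = true := by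
  decide +kernel

end CK3aux

open CK3aux

theorem cK3 : StCK3 := by
  refine ⟨?_, ?_, ?_⟩
  · have key : ∀ u w : ℕ, u < 64 → w < u →
        sumTo (tN u w) 64 = sumTo (tN w u) 64 := by
      intro u w hu hw
      exact Nat.eq_of_beq_eq_true (allTo_spec _ _ (allTo_spec _ _ ck1 u hu) w hw)
    intro u w hu hw
    rw [sum_eq, sum_eq]
    rcases lt_trichotomy w u with h | h | h
    · rw [key u w hu h]
    · rw [h]
    · rw [key w u hw h]
  · intro a ha hq
    have h := allTo_spec _ _ ck2 a ha
    simp only [Bool.or_eq_true] at h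
    rcases h with h | h
    · rw [fN_eq, Nat.eq_of_beq_eq_true h]
      norm_num
    · exfalso
      apply hq
      unfold qN eN
      rw [Bool.not_eq_true'] at h
      rw [h]
      rfl
  · have h := Nat.eq_of_beq_eq_true ck3
    rw [sumTo_spec] at h
    have h2 : ∑ v ∈ Finset.range 64, fN (64 * v) =
        ((∑ v ∈ Finset.range 64, xN (64 * v) : ℕ) : ℤ) - 128 := by
      rw [Finset.sum_congr rfl fun v _ => fN_eq (64 * v), Finset.sum_sub_distrib, Finset.sum_const,
        Finset.card_range]
      push_cast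
      norm_num
    rw [h2, h]
    norm_num

end Helper49.RA
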