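import Pool.Agent.Helper49.RA.StC

set_option autoImplicit false

/-!
# RA, module CK4: `T + T` is everything, `Z + T` is everything nonzero
-/

namespace Helper49.RA

namespace CK4aux

/-- `f` does not vanish at the code `a` -/
def nz (a : ℕ) : Bool := !(Nat.beq ((fBig >>> (3 * a)) % 8) 2)

/-- `f` vanishes at the code `a` -/
def zz (a : ℕ) : Bool := Nat.beq ((fBig >>> (3 * a)) % 8) 2

/-- first check -/
def ck1 (x : ℕ) : Bool :=
  nz ((ttBig >>> (12 * x)) % 4096) && nz (((ttBig >>> (12 * x)) % 4096) ^^^ x)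

/-- second check, body -/
def ck2b (a b : ℕ) : Bool :=
  !(par6 ((a % 64) &&& (a / 64))) && zz a && nz (a ^^^ b)

/-- second check -/
def ck2 (b : ℕ) : Bool := Nat.beq b 0 || ck2b ((ztBig >>> (12 * b)) % 4096) b

set_option maxRecDepth 100000 in
theorem all1 : (List.range 4096).all ck1 = true := by decide +kernel

set_option maxRecDepth 100000 in
theorem all2 : (List.range 4096).all ck2 = true := by decide +kernel

theorem fN_ne {a : ℕ} (h : nz a = true) : fN a ≠ 0 := by
  rw [nz, Bool.not_eq_true'] at h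
  have h1 := Nat.ne_of_beq_eq_false h
  rw [fN]
  omega

theorem fN_eq {a : ℕ} (h : zz a = true) : fN a = 0 := by
  rw [zz] at h
  have h1 := Nat.eq_of_beq_eq_true h
  rw [fN]
  omega

end CK4aux

open CK4aux

/-- CK4 -/
theorem cK4 : StCK4 := by
  refine ⟨fun x hx => ?_, fun b hb hb0 => ?_⟩
  · have h := List.all_eq_true.1 all1 x (List.mem_range.2 hx)
    rw [ck1, Bool.and_eq_true] at h
    exact ⟨(ttBig >>> (12 * x)) % 4096, Nat.mod_lt _ (by norm_num), fN_ne h.1, fN_ne h.2⟩
  · have h := List.all_eq_true.1 all2 b (List.mem_range.2 hb)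
    rw [ck2, Bool.or_eq_true] at h
    rcases h with h | h
    · exact absurd (Nat.eq_of_beq_eq_true h) hb0
    · rw [ck2b, Bool.and_eq_true, Bool.and_eq_true, Bool.not_eq_true'] at h
      refine ⟨(ztBig >>> (12 * b)) % 4096, Nat.mod_lt _ (by norm_num), ?_, fN_eq h.1.2, fN_ne h.2⟩
      rw [qN, eN, h.1.1]
      rfl

end Helper49.RA
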