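import Pool.Agent.Helper49.RA.StC

/-! RA module CL: closure of `Uniq` under the symmetry group. -/

namespace Helper49.RA

universe u

namespace CLaux

theorem tvN_lt (hBR : BRfacts) (v b : ℕ) (hv : v < 4096) (hb : b < 4096) : tvN v b < 4096 := by
  unfold tvN
  split
  · exact hb
  · exact hBR.xorlt b v hb hv

theorem tf_enc (hBR : BRfacts) (f : K6 × K6 → ℤ) (F : ℕ → ℤ)
    (hf : ∀ a : ℕ, a < 4096 → f (encE a) = F a) (v : ℕ) (hv : v < 4096) (a : ℕ) (ha : a < 4096) :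
    tf e6 (encE v) f (encE a) = tfN v F a := by
  unfold tf tfN
  rw [hBR.b a v ha hv, hBR.q v hv, ← hBR.xor a v, hf _ (hBR.xorlt a v ha hv), hf a ha]

theorem step (hTR : StTR.{u}) (hBR : BRfacts) (k : Type u) [Field k] [IsAlgClosed k]
    (h2 : (2 : k) ≠ 0) (f : K6 × K6 → ℤ) (v : ℕ) (hv : v < 4096) (b : ℕ) (hb : b < 4096)
    (h : Uniq k e6 f (encE b)) : Uniq k e6 (tf e6 (encE v) f) (encE (tvN v b)) := by
  obtain ⟨w, hw⟩ := IsAlgClosed.exists_pow_nat_eq (- ((qq e6 (encE v) : ℤ) : k))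
    (n := 2) (by norm_num)
  rw [← hBR.tv v b hv hb]
  exact hTR k K6 e6 hBR.pair h2 f (encE v) (encE b) w (by rw [← hw]; ring) h

theorem listStep (hTR : StTR.{u}) (hBR : BRfacts) (k : Type u) [Field k] [IsAlgClosed k]
    (h2 : (2 : k) ≠ 0) (l : List ℕ) (hl : ∀ v ∈ l, v < 4096) :
    ∀ (f : K6 × K6 → ℤ) (F : ℕ → ℤ), (∀ a : ℕ, a < 4096 → f (encE a) = F a) →
    ∃ f' : K6 × K6 → ℤ, (∀ a : ℕ, a < 4096 → f' (encE a) = tfsN l F a) ∧
      ∀ b : ℕ, b < 4096 → tvsN l b < 4096 ∧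
        (Uniq k e6 f (encE b) → Uniq k e6 f' (encE (tvsN l b))) := by
  induction l with
  | nil =>
    intro f F hf
    exact ⟨f, hf, fun b hb => ⟨hb, fun h => h⟩⟩
  | cons v l ih =>
    intro f F hf
    have hv : v < 4096 := hl v (by simp)
    obtain ⟨f', h1, h2'⟩ := ih (fun w hw => hl w (by simp [hw])) (tf e6 (encE v) f) (tfN v F)
      (fun a ha => tf_enc hBR f F hf v hv a ha)
    refine ⟨f', h1, fun b hb => ?_⟩
    have h3 := h2' (tvN v b) (tvN_lt hBR v b hv hb)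
    exact ⟨h3.1, fun h => h3.2 (step hTR hBR k h2 f v hv b hb h)⟩

theorem gen1_lt : ∀ v ∈ gen1, v < 4096 := by decide

theorem gen2_lt : ∀ v ∈ gen2, v < 4096 := by decide

theorem reps6_lt : ∀ v ∈ reps6, v < 4096 := by decide

end CLaux

open CLaux in
theorem cL : StTR.{u} → StNEG.{u} → StBR → StCK1 → StCK2 → StCL.{u} := by
  intro hTR hNEG hBR hCK1 hCK2 k _ _ h2 hreps h0
  have c1 : ∀ b : ℕ, b < 4096 ∧ Uniq k e6 f0 (encE b) →
      tvsN gen1 b < 4096 ∧ Uniq k e6 f0 (encE (tvsN gen1 b)) := by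
    intro b hb
    obtain ⟨f', h1, h3⟩ := listStep hTR hBR k h2 gen1 gen1_lt f0 fN hBR.f
    have hf' : f' = f0 := by
      funext a
      rw [← (hBR.dec a).2, h1 _ (hBR.dec a).1, (hCK1 _ (hBR.dec a).1).1, hBR.f _ (hBR.dec a).1]
    subst hf'
    exact ⟨(h3 b hb.1).1, (h3 b hb.1).2 hb.2⟩
  have c2 : ∀ b : ℕ, b < 4096 ∧ Uniq k e6 f0 (encE b) →
      tvsN gen2 b < 4096 ∧ Uniq k e6 f0 (encE (tvsN gen2 b)) := by
    intro b hb
    obtain ⟨f', h1, h3⟩ := listStep hTR hBR k h2 gen2 gen2_lt f0 fN hBR.f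
    have hf' : f' = fun a => - f0 a := by
      funext a
      rw [← (hBR.dec a).2, h1 _ (hBR.dec a).1, (hCK1 _ (hBR.dec a).1).2, hBR.f _ (hBR.dec a).1]
    subst hf'
    exact ⟨(h3 b hb.1).1, hNEG k K6 e6 f0 _ ((h3 b hb.1).2 hb.2)⟩
  have i1 : ∀ (i : ℕ) (b : ℕ), b < 4096 ∧ Uniq k e6 f0 (encE b) →
      (tvsN gen1)^[i] b < 4096 ∧ Uniq k e6 f0 (encE ((tvsN gen1)^[i] b)) := by
    intro i
    induction i with
    | zero => intro b hb; exact hb
    | succ i ih =>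
      intro b hb
      rw [Function.iterate_succ_apply']
      exact c1 _ (ih b hb)
  have i2 : ∀ (i : ℕ) (b : ℕ), b < 4096 ∧ Uniq k e6 f0 (encE b) →
      (tvsN gen2)^[i] b < 4096 ∧ Uniq k e6 f0 (encE ((tvsN gen2)^[i] b)) := by
    intro i
    induction i with
    | zero => intro b hb; exact hb
    | succ i ih =>
      intro b hb
      rw [Function.iterate_succ_apply']
      exact c2 _ (ih b hb)
  intro b
  rw [← (hBR.dec b).2]
  by_cases hb : decE b = 0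
  · rw [hb, hBR.zero]; exact h0
  · obtain ⟨r, hr, i, j, hij⟩ := hCK2 (decE b) (hBR.dec b).1 hb
    rw [hij]
    exact (i1 i _ (i2 j r ⟨reps6_lt r hr, hreps r hr⟩)).2

end Helper49.RA
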