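import Pool.Agent.Helper49.RA.StB

/-!
Project RA, module CO: from tables to `Uniq` (helper57).
-/

namespace Helper49.RA

open MvPolynomial

universe u

namespace COaux

variable {K : Type} [AddCommGroup K] [Fintype K] [DecidableEq K]

theorem addr {e : K → K → ℤ} (he : IsPair e) (x y z : K) : e x (y + z) = e x y * e x z := by
  rw [he.symm x (y + z), he.addl, he.symm y x, he.symm z x]

variable (k : Type u) [Field k]

/-- The table of a functional. -/
noncomputable def gam (e : K → K → ℤ) (b : K × K) (G : MvPolynomial K k →ₗ[k] k) (u w : K) : k :=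
  ∑ z, ((e b.2 z : ℤ) : k) * G (X z * X (u + z) * X (w + z) * X (u + w + b.1 + z))

theorem isTab {e : K → K → ℤ} (he : IsPair e) (b : K × K) (G : MvPolynomial K k →ₗ[k] k) :
    IsTab k e b (gam k e b G) where
  s1 u w := by
    unfold gam
    refine Finset.sum_congr rfl fun z _ => ?_
    rw [show w + u + b.1 + z = u + w + b.1 + z by abel]
    congr 2
    ring
  s2 u w := by
    unfold gam
    refine Finset.sum_congr rfl fun z _ => ?_
    have h : u + (u + w + b.1) + b.1 + z = w + z := by
      calc u + (u + w + b.1) + b.1 + z = (u + u) + (b.1 + b.1) + (w + z) := by abel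
        _ = w + z := by rw [he.two, he.two, zero_add, zero_add]
    rw [h]
    congr 2
    ring
  s3 u w := by
    have h1 : gam k e b G u (u + w) = ((e b.2 u : ℤ) : k) * gam k e b G u w := by
      unfold gam
      rw [← Equiv.sum_comp (Equiv.addRight u), Finset.mul_sum]
      refine Finset.sum_congr rfl fun z _ => ?_
      simp only [Equiv.coe_addRight]
      have e1 : u + (z + u) = z := by
        calc u + (z + u) = (u + u) + z := by abel
          _ = z := by rw [he.two, zero_add]
      have e2 : u + w + (z + u) = w + z := by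
        calc u + w + (z + u) = (u + u) + (w + z) := by abel
          _ = w + z := by rw [he.two, zero_add]
      have e3 : u + (u + w) + b.1 + (z + u) = u + w + b.1 + z := by
        calc u + (u + w) + b.1 + (z + u) = (u + u) + (u + w + b.1 + z) := by abel
          _ = u + w + b.1 + z := by rw [he.two, zero_add]
      rw [e1, e2, e3, addr he, show z + u = u + z by abel, Int.cast_mul]
      rw [show (X (u + z) * X z * X (w + z) * X (u + w + b.1 + z) : MvPolynomial K k) =
        X z * X (u + z) * X (w + z) * X (u + w + b.1 + z) by ring]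
      ring
    rw [h1, ← mul_assoc, ← Int.cast_mul, he.sq, Int.cast_one, one_mul]

theorem prod_eq {e : K → K → ℤ} (he : IsPair e) (b : K × K) (G : MvPolynomial K k →ₗ[k] k)
    (a : K × K) : G (pp k e a * pp k e (a + b)) =
      four k e (gam k e b G) a.1 (a.2 + b.2) := by
  have h1 : G (pp k e a * pp k e (a + b)) = ∑ j, ∑ l, ((e a.2 j : ℤ) : k) *
      (((e (a.2 + b.2) l : ℤ) : k) *
        G (X (j + a.1) * X j * (X (l + (a.1 + b.1)) * X l))) := by
    unfold pp
    rw [Finset.sum_mul_sum, map_sum]
    refine Finset.sum_congr rfl fun j _ => ?_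
    rw [map_sum]
    refine Finset.sum_congr rfl fun l _ => ?_
    rw [show (C ((e a.2 j : ℤ) : k) * (X (j + a.1) * X j) *
        (C ((e (a + b).2 l : ℤ) : k) * (X (l + (a + b).1) * X l)) : MvPolynomial K k) =
        C ((e a.2 j : ℤ) : k) * (C ((e (a.2 + b.2) l : ℤ) : k) *
          (X (j + a.1) * X j * (X (l + (a.1 + b.1)) * X l))) by
      rw [Prod.fst_add, Prod.snd_add]; ring]
    rw [C_mul', C_mul', map_smul, map_smul, smul_eq_mul, smul_eq_mul]
  have h2 : ∀ j : K, ∑ l, ((e a.2 j : ℤ) : k) * (((e (a.2 + b.2) l : ℤ) : k) *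
        G (X (j + a.1) * X j * (X (l + (a.1 + b.1)) * X l))) =
      ∑ w, (((e b.2 j : ℤ) : k) * G (X j * X (a.1 + j) * X (w + j) * X (a.1 + w + b.1 + j))) *
        ((e (a.2 + b.2) w : ℤ) : k) := by
    intro j
    rw [← Equiv.sum_comp (Equiv.addLeft j)]
    refine Finset.sum_congr rfl fun w _ => ?_
    simp only [Equiv.coe_addLeft]
    have e1 : ((e a.2 j : ℤ) : k) * (((e (a.2 + b.2) (j + w) : ℤ) : k)) =
        ((e b.2 j : ℤ) : k) * ((e (a.2 + b.2) w : ℤ) : k) := by
      rw [← Int.cast_mul, ← Int.cast_mul]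
      congr 1
      rw [addr he, he.addl a.2 b.2 j]
      have := he.sq a.2 j
      calc e a.2 j * (e a.2 j * e b.2 j * e (a.2 + b.2) w) =
          (e a.2 j * e a.2 j) * (e b.2 j * e (a.2 + b.2) w) := by ring
        _ = e b.2 j * e (a.2 + b.2) w := by rw [this, one_mul]
    have e2 : (X (j + a.1) * X j * (X (j + w + (a.1 + b.1)) * X (j + w)) : MvPolynomial K k) =
        X j * X (a.1 + j) * X (w + j) * X (a.1 + w + b.1 + j) := by
      rw [show j + a.1 = a.1 + j by abel, show j + w + (a.1 + b.1) = a.1 + w + b.1 + j by abel,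
        show j + w = w + j by abel]
      ring
    rw [e2, ← mul_assoc, e1]
    ring
  rw [h1, Finset.sum_congr rfl fun j _ => h2 j, Finset.sum_comm]
  unfold four gam
  refine Finset.sum_congr rfl fun w _ => ?_
  rw [Finset.sum_mul]

omit [Fintype K] [DecidableEq K] in
theorem isTab_comb {e : K → K → ℤ} {b : K × K} {γ δ : K → K → k} (h : IsTab k e b γ)
    (h' : IsTab k e b δ) (c : k) : IsTab k e b (fun u w => γ u w - c * δ u w) where
  s1 u w := by simp only [h.s1 u w, h'.s1 u w]
  s2 u w := by
    rw [← h.s2 u w, ← h'.s2 u w]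
  s3 u w := by
    rw [h.s3 u w, h'.s3 u w]
    ring

omit [AddCommGroup K] [DecidableEq K] in
theorem four_comb (e : K → K → ℤ) (γ δ : K → K → k) (c : k) (u v : K) :
    four k e (fun u w => γ u w - c * δ u w) u v = four k e γ u v - c * four k e δ u v := by
  unfold four
  rw [Finset.mul_sum, ← Finset.sum_sub_distrib]
  refine Finset.sum_congr rfl fun w _ => ?_
  ring

end COaux

open COaux in
/-- CO: from tables to `Uniq`. -/
theorem cO : StGF.{u} → StCO.{u} := by
  intro hGF k _ K _ _ _ e he f hf b m0 hT hg G hG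
  obtain ⟨t1, t2⟩ := hGF k K e he f hf b
  obtain ⟨c0, hc0⟩ : ∃ c0 : k, c0 = gam k e b G m0.1 m0.2 / ((gamF e f b m0.1 m0.2 : ℤ) : k) :=
    ⟨_, rfl⟩
  have hz := hT (fun u w => gam k e b G u w - c0 * ((gamF e f b u w : ℤ) : k))
    (isTab_comb k (isTab k he b G) t1 c0)
    (by
      intro a ha hab hfa hfab
      rw [four_comb, t2 a ha hab, ← prod_eq k he b G a, hG a ha hab hfa hfab]
      have : dd e f b a = 0 := by
        unfold dd
        rw [hfa, hfab, mul_zero, mul_zero, add_zero]
      rw [this, Int.cast_zero, mul_zero, mul_zero, sub_zero])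
    (by
      rw [hc0, div_mul_cancel₀ _ hg, sub_self])
  refine ⟨c0 * (2 * ((Fintype.card K : ℕ) : k)), fun a ha hab => ?_⟩
  have h3 : gam k e b G = fun u w => c0 * ((gamF e f b u w : ℤ) : k) := by
    funext u w
    exact sub_eq_zero.mp (hz u w)
  have h4 : four k e (gam k e b G) a.1 (a.2 + b.2) =
      c0 * four k e (fun u w => ((gamF e f b u w : ℤ) : k)) a.1 (a.2 + b.2) := by
    rw [h3]
    unfold four
    rw [Finset.mul_sum]
    refine Finset.sum_congr rfl fun w _ => ?_
    ring
  rw [prod_eq k he b G a, h4, t2 a ha hab]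
  ring

end Helper49.RA
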