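import Pool.Agent.Helper49.RA.StB

/-! Project RA, module D3: degree three. -/

namespace Helper49.RA

open MvPolynomial

universe u

namespace D3aux

variable {k : Type u} [Field k] {K : Type}

theorem pderiv_comm (i j : K) (p : MvPolynomial K k) :
    pderiv i (pderiv j p) = pderiv j (pderiv i p) := by
  classical
  ext m
  simp only [coeff_pderiv]
  by_cases h : i = j
  · subst h; rfl
  · have h1 : (m + Finsupp.single i 1 : K →₀ ℕ) j = m j := by
      simp [Ne.symm h]
    have h2 : (m + Finsupp.single j 1 : K →₀ ℕ) i = m i := by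
      simp [h]
    rw [h1, h2, add_right_comm]
    ring

theorem homog_zero {p : MvPolynomial K k} (h : p.IsHomogeneous 0) : p = C (coeff 0 p) := by
  rw [← totalDegree_zero_iff_isHomogeneous, totalDegree_eq_zero_iff_eq_C] at h
  exact h

theorem nsmul_C (n : ℕ) (p : MvPolynomial K k) : n • p = C (n : k) * p := by
  rw [nsmul_eq_mul, map_natCast]

variable [Fintype K]

/-- a homogeneous polynomial of degree `n` with `n ≠ 0` in `k` and vanishing derivatives is zero -/
theorem euler_zero {n : ℕ} (hn : (n : k) ≠ 0) {p : MvPolynomial K k} (h : p.IsHomogeneous n)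
    (hp : ∀ i, pderiv i p = 0) : p = 0 := by
  have h1 := h.sum_X_mul_pderiv
  simp only [hp, mul_zero, Finset.sum_const_zero, nsmul_C] at h1
  have h2 : C (n : k) ≠ (0 : MvPolynomial K k) := by
    rwa [Ne, C_eq_zero]
  exact (mul_eq_zero.1 h1.symm).resolve_left h2

theorem euler_two {r : MvPolynomial K k} (h : r.IsHomogeneous 2) :
    C (2 : k) * r = ∑ j, ∑ l, C (coeff 0 (pderiv l (pderiv j r))) * (X j * X l) := by
  have h1 := h.sum_X_mul_pderiv
  rw [nsmul_C] at h1
  rw [show C (2 : k) * r = C (((2 : ℕ) : k)) * r by push_cast; rfl, ← h1]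
  refine Finset.sum_congr rfl fun j _ => ?_
  have hj : (pderiv j r).IsHomogeneous 1 := h.pderiv
  have h2 := hj.sum_X_mul_pderiv
  rw [one_smul] at h2
  rw [← h2, Finset.mul_sum]
  refine Finset.sum_congr rfl fun l _ => ?_
  have hl : (pderiv l (pderiv j r)).IsHomogeneous 0 := hj.pderiv
  rw [h2]
  conv_lhs => rw [homog_zero hl]
  ring

/-- the symmetric table of the third derivatives -/
noncomputable def tt (s : MvPolynomial K k) (i j l : K) : k :=
  coeff 0 (pderiv i (pderiv j (pderiv l s)))

theorem tt_swap12 (s : MvPolynomial K k) (i j l : K) : tt s i j l = tt s j i l := by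
  unfold tt
  rw [pderiv_comm]

theorem tt_swap23 (s : MvPolynomial K k) (i j l : K) : tt s i j l = tt s i l j := by
  unfold tt
  rw [pderiv_comm j l]

variable [AddCommGroup K] [DecidableEq K]

theorem plus {e : K → K → ℤ} {f : K × K → ℤ} (hk : FieldOK k e f)
    {Φ : MvPolynomial K k →ₗ[k] k}
    (hPR : ∀ (i j : K) (c : K × K), Φ (X i * X j * pp k e c) =
      if i = j + c.1 then ((Fintype.card K : ℕ) : k) * ((f c : ℤ) : k) * ((e c.2 j : ℤ) : k) else 0)
    {s : MvPolynomial K k} (hs : s.IsHomogeneous 3) (hI : ∀ i, pderiv i s ∈ annI Φ)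
    {c : K × K} (hc : f c ≠ 0) (i : K) :
    ∑ l, tt s i (l + c.1) l * ((e c.2 l : ℤ) : k) = 0 := by
  have hr : (pderiv i s).IsHomogeneous 2 := hs.pderiv
  have h1 : Φ (C (2 : k) * pderiv i s * pp k e c) = 0 := by
    rw [mul_assoc, C_mul', map_smul, hI i (pp k e c), smul_zero]
  rw [euler_two hr, Finset.sum_mul, map_sum] at h1
  have h2 : ∀ j : K, Φ ((∑ l, C (coeff 0 (pderiv l (pderiv j (pderiv i s)))) * (X j * X l)) *
      pp k e c) = ∑ l, if j = l + c.1 then tt s i j l *
        (((Fintype.card K : ℕ) : k) * ((f c : ℤ) : k) * ((e c.2 l : ℤ) : k)) else 0 := by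
    intro j
    rw [Finset.sum_mul, map_sum]
    refine Finset.sum_congr rfl fun l _ => ?_
    rw [mul_assoc, C_mul', map_smul, hPR, smul_eq_mul]
    have h3 : coeff 0 (pderiv l (pderiv j (pderiv i s))) = tt s i j l := by
      change tt s l j i = tt s i j l
      rw [tt_swap23 s l j i, tt_swap12 s l i j, tt_swap23 s i l j]
    rw [h3]
    split_ifs
    · rfl
    · rw [mul_zero]
  rw [Finset.sum_congr rfl fun j _ => h2 j, Finset.sum_comm] at h1
  simp only [Finset.sum_ite_eq', Finset.mem_univ, if_true] at h1
  have h4 : (((Fintype.card K : ℕ) : k) * ((f c : ℤ) : k)) *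
      ∑ l, tt s i (l + c.1) l * ((e c.2 l : ℤ) : k) = 0 := by
    rw [Finset.mul_sum, ← h1]
    refine Finset.sum_congr rfl fun l _ => by ring
  exact (mul_eq_zero.1 h4).resolve_left (mul_ne_zero hk.card (hk.val c hc))

theorem tt_zero {e : K → K → ℤ} (he : IsPair e) {f : K × K → ℤ} (hk : FieldOK k e f)
    (hA : TabA k e f) {Φ : MvPolynomial K k →ₗ[k] k}
    (hPR : ∀ (i j : K) (c : K × K), Φ (X i * X j * pp k e c) =
      if i = j + c.1 then ((Fintype.card K : ℕ) : k) * ((f c : ℤ) : k) * ((e c.2 j : ℤ) : k) else 0)
    {s : MvPolynomial K k} (hs : s.IsHomogeneous 3) (hI : ∀ i, pderiv i s ∈ annI Φ)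
    (i j l : K) : tt s i j l = 0 := by
  have e0 : ∀ u, e 0 u = 1 := by
    intro u
    have h := he.addl 0 0 u
    rw [add_zero] at h
    have h2 := he.sq 0 u
    rw [h, h2]
  have key : ∀ z : K, ∀ u w, tt s (z + u) (z + w) (z + u + w) = 0 := by
    intro z
    refine hA (fun u w => tt s (z + u) (z + w) (z + u + w)) ⟨?_, ?_, ?_⟩ ?_
    · intro u w
      change tt s (z + u) (z + w) (z + u + w) = tt s (z + w) (z + u) (z + w + u)
      rw [tt_swap12, add_right_comm z u w]
    · intro u w
      change tt s (z + u) (z + w) (z + u + w) =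
        tt s (z + u) (z + (u + w + (0 : K × K).1)) (z + u + (u + w + (0 : K × K).1))
      rw [tt_swap23]
      congr 1
      · rw [Prod.fst_zero, add_zero, add_assoc]
      · rw [Prod.fst_zero, add_zero]
        calc z + w = z + ((u + u) + w) := by rw [he.two, zero_add]
          _ = z + u + (u + w) := by abel
    · intro u w
      change tt s (z + u) (z + w) (z + u + w) =
        ((e (0 : K × K).2 u : ℤ) : k) * tt s (z + u) (z + (u + w)) (z + u + (u + w))
      rw [Prod.snd_zero, e0, Int.cast_one, one_mul, tt_swap23]
      congr 1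
      · rw [add_assoc]
      · calc z + w = z + ((u + u) + w) := by rw [he.two, zero_add]
          _ = z + u + (u + w) := by abel
    · rintro ⟨u, v⟩ hf
      have hp := plus hk hPR hs hI hf (z + u)
      change ∑ w, tt s (z + u) (z + w) (z + u + w) * ((e v w : ℤ) : k) = 0
      have hre : ∑ w, tt s (z + u) (z + w) (z + u + w) * ((e v w : ℤ) : k) =
          ∑ l, tt s (z + u) l (l + u) * ((e v (z + l) : ℤ) : k) := by
        refine Fintype.sum_equiv (Equiv.addLeft z) _ _ fun w => ?_
        simp only [Equiv.coe_addLeft]
        rw [show z + w + u = z + u + w by abel, show z + (z + w) = w by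
          rw [← add_assoc, he.two, zero_add]]
      rw [hre]
      have h5 : ∀ l, tt s (z + u) l (l + u) * ((e v (z + l) : ℤ) : k) =
          ((e v z : ℤ) : k) * (tt s (z + u) (l + u) l * ((e v l : ℤ) : k)) := by
        intro l
        rw [tt_swap23, he.symm v (z + l), he.addl, he.symm z v, he.symm l v]
        push_cast
        ring
      rw [Finset.sum_congr rfl fun l _ => h5 l, ← Finset.mul_sum]
      change ((e v z : ℤ) : k) * ∑ l, tt s (z + u) (l + (u, v).1) l * ((e (u, v).2 l : ℤ) : k) = 0
      rw [hp, mul_zero]
  have h := key (i + j + l) (j + l) (i + l)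
  have h1 : i + j + l + (j + l) = i := by
    calc i + j + l + (j + l) = i + (j + j) + (l + l) := by abel
      _ = i := by rw [he.two, he.two, add_zero, add_zero]
  have h2 : i + j + l + (i + l) = j := by
    calc i + j + l + (i + l) = (i + i) + j + (l + l) := by abel
      _ = j := by rw [he.two, he.two, add_zero, zero_add]
  have h3 : i + (i + l) = l := by rw [← add_assoc, he.two, zero_add]
  rw [h1, h2, h3] at h
  exact h

end D3aux

open D3aux in
theorem d3 : StPR.{u} → StD3.{u} := by
  intro hPR k _ K _ _ _ e he f hk hA Φ hΦ s hs hsI hI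
  have h2 := (hPR k K e he f Φ hΦ).2
  have ht : ∀ i j l, tt s i j l = 0 := fun i j l => tt_zero he hk hA h2 hs hI i j l
  -- all second derivatives vanish
  have hd2 : ∀ j l, pderiv j (pderiv l s) = 0 := by
    intro j l
    have hl : (pderiv l s).IsHomogeneous 2 := hs.pderiv
    have hj : (pderiv j (pderiv l s)).IsHomogeneous 1 := hl.pderiv
    refine euler_zero (n := 1) (by simp) hj fun i => ?_
    have hi : (pderiv i (pderiv j (pderiv l s))).IsHomogeneous 0 := hj.pderiv
    rw [homog_zero hi]
    change C (tt s i j l) = 0
    rw [ht, C_0]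
  have hd1 : ∀ l, pderiv l s = 0 := by
    intro l
    have hl : (pderiv l s).IsHomogeneous 2 := hs.pderiv
    exact euler_zero (n := 2) (by exact_mod_cast hk.two) hl fun j => hd2 j l
  by_cases h3 : (3 : k) = 0
  · have hs0 : ((sig e f 0 0 : ℤ) : k) ≠ 0 := hk.s0.resolve_left (fun h => h h3)
    -- the coefficients
    have hc : ∀ m : K →₀ ℕ, coeff m s ≠ 0 → ∃ i, m = Finsupp.single i 3 := by
      intro m hm
      have hdeg : m.degree = 3 := by
        by_contra hne
        exact hm (hs.coeff_eq_zero hne)
      have hmi : ∀ i, ((m i : ℕ) : k) = 0 := by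
        intro i
        by_cases hi0 : m i = 0
        · rw [hi0, Nat.cast_zero]
        · have h6 := coeff_pderiv (i := i) s (m - Finsupp.single i 1)
          rw [hd1 i, coeff_zero] at h6
          have h7 : m - Finsupp.single i 1 + Finsupp.single i 1 = m :=
            Finsupp.sub_add_single_one_cancel hi0
          rw [h7] at h6
          have h8 := (mul_eq_zero.1 h6.symm).resolve_left hm
          have h9 : ((m - Finsupp.single i 1 : K →₀ ℕ) i : k) + 1 = ((m i : ℕ) : k) := by
            have : (m - Finsupp.single i 1 : K →₀ ℕ) i + 1 = m i := by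
              have := congrArg (fun q : K →₀ ℕ => q i) h7
              simpa using this
            rw [← this]
            push_cast
            rfl
          rw [← h9]
          exact h8
      have hle : ∀ i, m i ≤ 3 := by
        intro i
        rw [← hdeg]
        exact Finsupp.le_degree i m
      have hm0 : ∃ i, m i ≠ 0 := by
        by_contra hcon
        push Not at hcon
        have : m = 0 := Finsupp.ext hcon
        rw [this, map_zero] at hdeg
        omega
      obtain ⟨i, hi⟩ := hm0
      have hi3 : m i = 3 := by
        have h10 := hmi i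
        have h11 := hle i
        interval_cases hmi' : m i
        · exact absurd rfl hi
        · exact absurd h10 (by simp)
        · exact absurd h10 (by exact_mod_cast hk.two)
        · rfl
      refine ⟨i, ?_⟩
      have h12 : Finsupp.single i 3 ≤ m := by
        rw [Finsupp.single_le_iff, hi3]
      have h13 : (m - Finsupp.single i 3).degree = 0 := by
        have h14 : (m - Finsupp.single i 3) + Finsupp.single i 3 = m := tsub_add_cancel_of_le h12
        have h15 := congrArg Finsupp.degree h14
        rw [map_add, hdeg, Finsupp.degree_single] at h15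
        omega
      rw [Finsupp.degree_eq_zero_iff] at h13
      have h14 : (m - Finsupp.single i 3) + Finsupp.single i 3 = m := tsub_add_cancel_of_le h12
      rw [h13, zero_add] at h14
      exact h14.symm
    have hsum : s = ∑ i, C (coeff (Finsupp.single i 3) s) * (X i * X i * X i) := by
      ext m
      rw [coeff_sum]
      have hX : ∀ i : K, (X i * X i * X i : MvPolynomial K k) = monomial (Finsupp.single i 3) 1 := by
        intro i
        rw [show (X i * X i * X i : MvPolynomial K k) = X i ^ 3 by ring, X_pow_eq_monomial]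
      simp only [hX, coeff_C_mul, coeff_monomial]
      by_cases hm : coeff m s = 0
      · rw [hm, eq_comm]
        refine Finset.sum_eq_zero fun i _ => ?_
        split_ifs with h
        · rw [h, hm, zero_mul]
        · rw [mul_zero]
      · obtain ⟨i, hi⟩ := hc m hm
        rw [Finset.sum_eq_single i]
        · rw [hi, if_pos rfl, mul_one]
        · intro j _ hj
          rw [if_neg, mul_zero]
          rw [hi]
          intro h
          exact hj (Finsupp.single_left_injective (by norm_num) h)
        · intro h
          exact absurd (Finset.mem_univ i) h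
    have hco : ∀ j, coeff (Finsupp.single j 3) s = 0 := by
      intro j
      have h0 := hsI (X j)
      rw [hsum, Finset.sum_mul, map_sum] at h0
      have h7 : ∀ i : K, Φ (C (coeff (Finsupp.single i 3) s) * (X i * X i * X i) * X j) =
          if i = j then coeff (Finsupp.single i 3) s * ((sig e f 0 0 : ℤ) : k) else 0 := by
        intro i
        rw [mul_assoc, C_mul', map_smul, hΦ.1, smul_eq_mul, he.two]
        have h8 : (0 : K) + i + j = 0 ↔ i = j := by
          rw [zero_add]
          constructor
          · intro h
            calc i = i + (j + j) := by rw [he.two, add_zero]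
              _ = (i + j) + j := by abel
              _ = j := by rw [h, zero_add]
          · intro h
            rw [h, he.two]
        by_cases hij : i = j
        · rw [if_pos (h8.2 hij), if_pos hij]
        · rw [if_neg (fun h => hij (h8.1 h)), if_neg hij, mul_zero]
      rw [Finset.sum_congr rfl fun i _ => h7 i] at h0
      rw [Finset.sum_ite_eq' Finset.univ j, if_pos (Finset.mem_univ j)] at h0
      exact (mul_eq_zero.1 h0).resolve_right hs0
    rw [hsum]
    refine Finset.sum_eq_zero fun i _ => ?_
    rw [hco, C_0, zero_mul]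
  · exact euler_zero (n := 3) (by exact_mod_cast h3) hs hd1

end Helper49.RA
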