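import Pool.Agent.Helper49.RA.StB

set_option autoImplicit false

/-!
Project RA (MP_16b052_ag), module D4: degree four.
-/

namespace Helper49.RA

open MvPolynomial

universe u

namespace D4aux

private theorem add_self {K : Type} [AddCommGroup K] (h : ∀ x : K, x + x = 0) (a : K × K) :
    a + a = 0 := by
  apply Prod.ext
  · exact h a.1
  · exact h a.2

private theorem add_add {K : Type} [AddCommGroup K] (h : ∀ x : K, x + x = 0) (a c : K × K) :
    a + (a + c) = c := by
  rw [← add_assoc, add_self h, zero_add]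

end D4aux

theorem d4 : StPDD.{u} → StSP4.{u} → StD4.{u} := by
  intro hP hS k _ K _ _ _ e he f hF hU Φ hΦ G hG
  have h2 := hF.two
  have hn := hF.card
  have hex : ∀ b : K × K, ∃ c : k, ∀ a, qq e a = 1 → qq e (a + b) = 1 →
      G (pp k e a * pp k e (a + b)) = c * ((dd e f b a : ℤ) : k) := fun b =>
    hU b G fun a h1 h2 h3 h4 => hG a (a + b) h1 h2 h3 h4
  choose c hc using hex
  have hn2 : (2 : k) * ((Fintype.card K : ℕ) : k) ^ 2 ≠ 0 := mul_ne_zero h2 (pow_ne_zero 2 hn)
  refine ⟨fun b => c b / (2 * ((Fintype.card K : ℕ) : k) ^ 2), ?_⟩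
  intro s hs
  let G' : MvPolynomial K k →ₗ[k] k := G - ∑ b : K × K,
    (c b / (2 * ((Fintype.card K : ℕ) : k) ^ 2)) •
      (Φ ∘ₗ ((Db k e b : Derivation k (MvPolynomial K k) (MvPolynomial K k)) :
        MvPolynomial K k →ₗ[k] MvPolynomial K k))
  have key : ∀ s, G' s = G s - ∑ b : K × K,
      c b / (2 * ((Fintype.card K : ℕ) : k) ^ 2) * Φ (Db k e b s) := by
    intro s
    simp only [G', LinearMap.sub_apply, LinearMap.sum_apply, LinearMap.smul_apply,
      LinearMap.comp_apply, smul_eq_mul]
    rfl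
  have hvan := hS k K e he h2 hn G' ?_ s hs
  · rw [key] at hvan
    exact sub_eq_zero.1 hvan
  · intro a d ha hd
    rw [key, Finset.sum_eq_single (a + d)]
    · rw [hP k K e he h2 f Φ hΦ a (a + d) d ha hd, if_pos (D4aux.add_add he.two a d)]
      have h3 := hc (a + d) a ha (by rw [D4aux.add_add he.two]; exact hd)
      rw [D4aux.add_add he.two] at h3
      rw [h3]
      field_simp
      ring
    · intro b _ hb
      rw [hP k K e he h2 f Φ hΦ a b d ha hd, if_neg, mul_zero]
      intro h4
      apply hb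
      rw [← h4, D4aux.add_add he.two]
    · intro h
      exact absurd (Finset.mem_univ _) h

end Helper49.RA
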