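import Pool.Agent.Helper49.RA.StB

/-! Project RA, module D5: degree five. -/

namespace Helper49.RA

open MvPolynomial

universe u

namespace D5aux

variable {k : Type u} [Field k] {K : Type} [AddCommGroup K] [Fintype K] [DecidableEq K]

section elementary

variable {e : K → K → ℤ}

theorem addr (he : IsPair e) (x y z : K) : e x (y + z) = e x y * e x z := by
  rw [he.symm x (y + z), he.addl, he.symm y x, he.symm z x]

theorem e0 (he : IsPair e) (u : K) : e 0 u = 1 := by
  have h := he.addl 0 0 u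
  rw [add_zero] at h
  have h2 := he.sq 0 u
  rw [h, h2]

theorem canc (he : IsPair e) (x y : K) : x + y + y = x := by
  rw [add_assoc, he.two, add_zero]

theorem sqk (he : IsPair e) (x y : K) : ((e x y : ℤ) : k) * ((e x y : ℤ) : k) = 1 := by
  rw [← Int.cast_mul, he.sq, Int.cast_one]

theorem twoP (he : IsPair e) (a : K × K) : a + a = 0 := by
  ext
  · exact he.two a.1
  · exact he.two a.2

theorem add_eq_iff (he : IsPair e) (a b c : K × K) : a + b = c ↔ b = a + c := by
  constructor
  · intro h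
    rw [← h, ← add_assoc, twoP he, zero_add]
  · intro h
    rw [h, ← add_assoc, twoP he, zero_add]

theorem sumr (he : IsPair e) (x : K) :
    ∑ y, e y x = if x = 0 then (Fintype.card K : ℤ) else 0 := by
  rw [← he.sum x]
  exact Finset.sum_congr rfl fun y _ => he.symm y x

end elementary

theorem step2 {Φ G : MvPolynomial K k →ₗ[k] k} (p : MvPolynomial K k)
    (h2 : ∀ s : MvPolynomial K k, s.IsHomogeneous 3 → (∀ j, Φ (X j * s) = 0) → s ∈ annI Φ)
    (hG : ∀ t : MvPolynomial K k, t.IsHomogeneous 3 → t ∈ annI Φ → G (p * t) = 0) :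
    ∃ v : K → k, ∀ s : MvPolynomial K k, s.IsHomogeneous 3 →
      G (p * s) = ∑ j, v j * Φ (X j * s) := by
  let L : K → (homogeneousSubmodule K k 3) →ₗ[k] k := fun j =>
    Φ ∘ₗ (LinearMap.mulLeft k (X j)) ∘ₗ (homogeneousSubmodule K k 3).subtype
  let M : (homogeneousSubmodule K k 3) →ₗ[k] k :=
    G ∘ₗ (LinearMap.mulLeft k p) ∘ₗ (homogeneousSubmodule K k 3).subtype
  have h : ⨅ j, LinearMap.ker (L j) ≤ LinearMap.ker M := by
    intro s hs
    rw [Submodule.mem_iInf] at hs
    rw [LinearMap.mem_ker]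
    exact hG s s.2 (h2 s s.2 fun j => hs j)
  have h' := mem_span_of_iInf_ker_le_ker h
  rw [Submodule.mem_span_range_iff_exists_fun] at h'
  obtain ⟨v, hv⟩ := h'
  refine ⟨v, fun s hs => ?_⟩
  have h3 := LinearMap.congr_fun hv (⟨s, hs⟩ : homogeneousSubmodule K k 3)
  rw [LinearMap.sum_apply] at h3
  exact h3.symm

section main

variable {e : K → K → ℤ} {f : K × K → ℤ} {Φ G : MvPolynomial K k →ₗ[k] k}

theorem step3 (he : IsPair e) (hk : FieldOK k e f)
    (hPR : ∀ (i j : K) (c : K × K), Φ (X i * X j * pp k e c) =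
      if i = j + c.1 then ((Fintype.card K : ℕ) : k) * ((f c : ℤ) : k) * ((e c.2 j : ℤ) : k) else 0)
    (hDD : ∀ a b c : K × K, qq e a = 1 → qq e c = 1 →
      Φ (Db k e b (pp k e a * pp k e c)) =
        if a + b = c then 2 * ((Fintype.card K : ℕ) : k) ^ 2 * ((dd e f b a : ℤ) : k) else 0)
    (hh : ∀ a, (pp k e a).IsHomogeneous 2)
    {y : K} {m : K × K → k}
    (hm : ∀ s : MvPolynomial K k, s.IsHomogeneous 4 →
      G (X y * s) = ∑ b, m b * Φ (Db k e b s))
    {a c : K × K} (ha : qq e a = 1) (ha0 : f a = 0) (hc : qq e c = 1) (hc0 : f c ≠ 0)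
    {v : K → k}
    (hv : ∀ s : MvPolynomial K k, s.IsHomogeneous 3 →
      G (pp k e a * s) = ∑ j, v j * Φ (X j * s)) :
    2 * ((Fintype.card K : ℕ) : k) * ((ss e (a + c) a : ℤ) : k) * m (a + c) =
      v (y + c.1) * ((e c.2 y : ℤ) : k) := by
  have h1 := hm (pp k e a * pp k e c) ((hh a).mul (hh c))
  have hX : (X y : MvPolynomial K k).IsHomogeneous 1 := isHomogeneous_X k y
  have h2 := hv (X y * pp k e c) (hX.mul (hh c))
  rw [show pp k e a * (X y * pp k e c) = X y * (pp k e a * pp k e c) by ring, h1] at h2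
  rw [Finset.sum_eq_single (a + c)
    (fun b _ hb => by
      rw [hDD a b c ha hc, if_neg (fun h => hb ((add_eq_iff he a b c).1 h)), mul_zero])
    (fun h => absurd (Finset.mem_univ _) h),
    hDD a (a + c) c ha hc, if_pos ((add_eq_iff he a (a + c) c).2 rfl),
    Finset.sum_eq_single (y + c.1)
    (fun j _ hj => by
      rw [← mul_assoc, hPR, if_neg hj, mul_zero])
    (fun h => absurd (Finset.mem_univ _) h), ← mul_assoc (X (y + c.1)), hPR, if_pos rfl] at h2
  have h3 : dd e f (a + c) a = ss e (a + c) a * f c := by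
    rw [dd, ha0, mul_zero, add_zero, ← add_assoc, twoP he, zero_add]
  rw [h3] at h2
  push_cast at h2
  have h4 : (((Fintype.card K : ℕ) : k) * ((f c : ℤ) : k)) ≠ 0 :=
    mul_ne_zero hk.card (hk.val c hc0)
  refine mul_left_cancel₀ h4 ?_
  linear_combination h2

/-- the function `ℓ_a` -/
noncomputable def ell (e : K → K → ℤ) (v : K → k) (a : K × K) (i : K) : k :=
  (2 : k)⁻¹ * ((e a.2 i : ℤ) : k) * v (i + a.1)

theorem v_eq (he : IsPair e) (h2 : (2 : k) ≠ 0) (v : K → k) (a : K × K) (j : K) :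
    v j = 2 * ((e a.2 (j + a.1) : ℤ) : k) * ell e v a (j + a.1) := by
  rw [ell, canc he]
  have h := sqk (k := k) he a.2 (j + a.1)
  have h3 : (2 : k) * 2⁻¹ = 1 := mul_inv_cancel₀ h2
  calc v j = (2 * 2⁻¹) * (((e a.2 (j + a.1) : ℤ) : k) * ((e a.2 (j + a.1) : ℤ) : k)) * v j := by
        rw [h, h3, one_mul, one_mul]
    _ = _ := by ring

theorem qq_add (he : IsPair e) {a c : K × K} (ha : qq e a = 1) (hc : qq e c = 1) :
    qq e (a + c) = e a.1 c.2 * e a.2 c.1 := by
  unfold qq at *
  rw [Prod.fst_add, Prod.snd_add, he.addl, addr he, addr he, ha, hc, he.symm a.2 c.1]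
  ring

theorem step4 (he : IsPair e) (h2 : (2 : k) ≠ 0) {n mm : k} {v : K → k} {a c : K × K} {y : K}
    (ha : qq e a = 1) (hc : qq e c = 1)
    (h : 2 * n * ((ss e (a + c) a : ℤ) : k) * mm = v (y + c.1) * ((e c.2 y : ℤ) : k)) :
    n * mm = ((qq e (a + c) : ℤ) : k) * ((e (a + c).2 y : ℤ) : k) *
      ell e v a (y + (a + c).1) := by
  rw [v_eq he h2 v a (y + c.1)] at h
  have hyc : y + c.1 + a.1 = y + (a + c).1 := by
    rw [Prod.fst_add]; abel
  rw [hyc] at h
  have hs : ((ss e (a + c) a : ℤ) : k) * ((ss e (a + c) a : ℤ) : k) = 1 := by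
    unfold ss
    exact sqk he _ _
  have h5 : n * mm = ((ss e (a + c) a : ℤ) : k) * ((e a.2 (y + (a + c).1) : ℤ) : k) *
      ((e c.2 y : ℤ) : k) * ell e v a (y + (a + c).1) := by
    refine mul_left_cancel₀ h2 ?_
    calc 2 * (n * mm) = ((ss e (a + c) a : ℤ) : k) * ((ss e (a + c) a : ℤ) : k) *
          (2 * (n * mm)) := by rw [hs, one_mul]
      _ = ((ss e (a + c) a : ℤ) : k) * (2 * n * ((ss e (a + c) a : ℤ) : k) * mm) := by ring
      _ = _ := by rw [h]; ring
  rw [h5]
  congr 1
  have h6 : ss e (a + c) a * e a.2 (y + (a + c).1) * e c.2 y =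
      qq e (a + c) * e (a + c).2 y := by
    rw [qq_add he ha hc, ss, Prod.snd_add, Prod.fst_add, he.addl, addr he, addr he, he.addl]
    have h7 := he.sq a.2 a.1
    rw [he.symm a.1 c.2]
    linear_combination (e c.2 a.1 * e a.2 y * e a.2 c.1 * e c.2 y) * h7
  have h8 := congrArg (fun z : ℤ => (z : k)) h6
  push_cast at h8
  exact h8

theorem ell_eq (he : IsPair e) {n : k} {m : K → K × K → k} {l : K → k} {b : K × K}
    (h : ∀ y, n * m y b = ((qq e b : ℤ) : k) * ((e b.2 y : ℤ) : k) * l (y + b.1)) (i : K) :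
    l i = n * ((qq e b : ℤ) : k) * ((e b.2 (i + b.1) : ℤ) : k) * m (i + b.1) b := by
  have h1 := h (i + b.1)
  rw [canc he] at h1
  have hq : ((qq e b : ℤ) : k) * ((qq e b : ℤ) : k) = 1 := by
    unfold qq; exact sqk he _ _
  have h2 := sqk (k := k) he b.2 (i + b.1)
  calc l i = (((qq e b : ℤ) : k) * ((qq e b : ℤ) : k)) *
        (((e b.2 (i + b.1) : ℤ) : k) * ((e b.2 (i + b.1) : ℤ) : k)) * l i := by
        rw [hq, h2, one_mul, one_mul]
    _ = ((qq e b : ℤ) : k) * ((e b.2 (i + b.1) : ℤ) : k) *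
        (((qq e b : ℤ) : k) * ((e b.2 (i + b.1) : ℤ) : k) * l i) := by ring
    _ = _ := by rw [← h1]; ring

theorem dsum {ι : Type} (s : Finset ι)
    (D : ι → Derivation k (MvPolynomial K k) (MvPolynomial K k)) (x : MvPolynomial K k) :
    (∑ i ∈ s, D i) x = ∑ i ∈ s, D i x := by
  classical
  induction s using Finset.induction_on with
  | empty => simp
  | insert a s ha ih => rw [Finset.sum_insert ha, Finset.sum_insert ha, Derivation.add_apply, ih]

/-- the table `m'` -/
noncomputable def mp (e : K → K → ℤ) (l : K → k) (y : K) (b : K × K) : k :=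
  ((Fintype.card K : ℕ) : k)⁻¹ * ((qq e b : ℤ) : k) * ((e b.2 y : ℤ) : k) * l (y + b.1)

theorem der_eq (he : IsPair e) (hn : ((Fintype.card K : ℕ) : k) ≠ 0) (l : K → k) (y : K)
    (s : MvPolynomial K k) :
    ∑ b, C (mp e l y b) * Db k e b s = ∑ i, C (l i) * (X y * pderiv i s) := by
  have hD : (∑ b, (C (mp e l y b) : MvPolynomial K k) • Db k e b) =
      ∑ i, (C (l i) * X y : MvPolynomial K k) • pderiv i := by
    refine derivation_ext fun j => ?_
    rw [dsum, dsum]
    simp only [Derivation.smul_apply, smul_eq_mul, Db, mkDerivation_X, pderiv_X]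
    have hr : ∑ i, C (l i) * X y * (Pi.single i 1 : K → MvPolynomial K k) j = C (l j) * X y := by
      rw [Finset.sum_eq_single j]
      · rw [Pi.single_eq_same, mul_one]
      · intro i _ hi
        rw [Pi.single_eq_of_ne (Ne.symm hi), mul_zero]
      · intro h
        exact absurd (Finset.mem_univ j) h
    rw [hr, Fintype.sum_prod_type]
    have hb : ∀ b1 : K, ∑ b2 : K, C (mp e l y (b1, b2)) *
        (C ((e (b1, b2).2 j : ℤ) : k) * X (j + (b1, b2).1)) =
        if b1 = y + j then C (l j) * (X y : MvPolynomial K k) else 0 := by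
      intro b1
      have h1 : ∀ b2 : K, C (mp e l y (b1, b2)) *
          (C ((e (b1, b2).2 j : ℤ) : k) * X (j + (b1, b2).1)) =
          C (((Fintype.card K : ℕ) : k)⁻¹ * l (y + b1) * ((e b2 (b1 + y + j) : ℤ) : k)) *
            (X (j + b1) : MvPolynomial K k) := by
        intro b2
        rw [← mul_assoc, ← C_mul]
        congr 2
        simp only [mp, qq]
        rw [addr he, addr he, he.symm b1 b2]
        push_cast
        ring
      rw [Finset.sum_congr rfl fun b2 _ => h1 b2, ← Finset.sum_mul, ← map_sum, ← Finset.mul_sum,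
        ← Int.cast_sum, sumr he]
      by_cases hb1 : b1 = y + j
      · subst hb1
        have h3 : y + j + y + j = 0 := by
          calc y + j + y + j = (y + y) + (j + j) := by abel
            _ = 0 := by rw [he.two, he.two, add_zero]
        rw [if_pos h3, if_pos rfl]
        have h4 : y + (y + j) = j := by rw [← add_assoc, he.two, zero_add]
        have h5 : j + (y + j) = y := by
          rw [add_comm y j, ← add_assoc, he.two, zero_add]
        rw [h4, h5]
        congr 2
        push_cast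
        field_simp
      · rw [if_neg hb1, if_neg]
        · simp
        · intro h
          apply hb1
          calc b1 = b1 + (y + y) + (j + j) := by rw [he.two, he.two, add_zero, add_zero]
            _ = (b1 + y + j) + (y + j) := by abel
            _ = y + j := by rw [h, zero_add]
    rw [Finset.sum_congr rfl fun b1 _ => hb b1, Finset.sum_ite_eq' Finset.univ (y + j),
      if_pos (Finset.mem_univ _)]
  have h := DFunLike.congr_fun hD s
  rw [dsum, dsum] at h
  simp only [Derivation.smul_apply, smul_eq_mul] at h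
  rw [h]
  exact Finset.sum_congr rfl fun i _ => by rw [mul_assoc]

theorem D0_eq (he : IsPair e) {s : MvPolynomial K k} {n : ℕ} (hs : s.IsHomogeneous n) :
    Db k e 0 s = n • s := by
  have hD : Db k e 0 = ∑ i, (X i : MvPolynomial K k) • pderiv i := by
    refine derivation_ext fun j => ?_
    rw [dsum]
    simp only [Derivation.smul_apply, smul_eq_mul, Db, mkDerivation_X, pderiv_X]
    rw [Finset.sum_eq_single j]
    · rw [Pi.single_eq_same, mul_one, Prod.snd_zero, Prod.fst_zero, e0 he, Int.cast_one, C_1,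
        one_mul, add_zero]
    · intro i _ hi
      rw [Pi.single_eq_of_ne (Ne.symm hi), mul_zero]
    · intro h
      exact absurd (Finset.mem_univ j) h
  rw [hD, dsum]
  simp only [Derivation.smul_apply, smul_eq_mul]
  exact hs.sum_X_mul_pderiv

/-- the functional `G'` -/
noncomputable def Gp (Φ : MvPolynomial K k →ₗ[k] k) (l : K → k) : MvPolynomial K k →ₗ[k] k :=
  ∑ i, l i • (Φ ∘ₗ (pderiv i : Derivation k (MvPolynomial K k) (MvPolynomial K k)).toLinearMap)

theorem Gp_apply (Φ : MvPolynomial K k →ₗ[k] k) (l : K → k) (s : MvPolynomial K k) :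
    Gp Φ l s = ∑ i, l i * Φ (pderiv i s) := by
  rw [Gp, LinearMap.sum_apply]
  rfl

theorem step6 (he : IsPair e) (hn : ((Fintype.card K : ℕ) : k) ≠ 0) {m : K × K → k} {l : K → k}
    {y : K}
    (hm : ∀ s : MvPolynomial K k, s.IsHomogeneous 4 →
      G (X y * s) = ∑ b, m b * Φ (Db k e b s))
    (hml : ∀ b, b ≠ 0 → ((Fintype.card K : ℕ) : k) * m b =
      ((qq e b : ℤ) : k) * ((e b.2 y : ℤ) : k) * l (y + b.1))
    {s : MvPolynomial K k} (hs : s.IsHomogeneous 4) :
    (G - Gp Φ l) (X y * s) = (4 * (m 0 - mp e l y 0) - l y) * Φ s := by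
  rw [LinearMap.sub_apply, hm s hs, Gp_apply]
  have h1 : ∑ i, l i * Φ (pderiv i (X y * s)) = l y * Φ s + ∑ i, l i * Φ (X y * pderiv i s) := by
    have h2 : ∀ i, l i * Φ (pderiv i (X y * s)) =
        (if i = y then l i * Φ s else 0) + l i * Φ (X y * pderiv i s) := by
      intro i
      rw [pderiv_mul, map_add, mul_add]
      congr 1
      rw [pderiv_X]
      by_cases hi : i = y
      · rw [hi, Pi.single_eq_same, one_mul, if_pos rfl]
      · rw [Pi.single_eq_of_ne (Ne.symm hi), zero_mul, map_zero, mul_zero, if_neg hi]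
    rw [Finset.sum_congr rfl fun i _ => h2 i, Finset.sum_add_distrib,
      Finset.sum_ite_eq' Finset.univ y, if_pos (Finset.mem_univ _)]
  have h3 : ∑ i, l i * Φ (X y * pderiv i s) = ∑ b, mp e l y b * Φ (Db k e b s) := by
    have h4 := congrArg Φ (der_eq he hn l y s)
    rw [map_sum, map_sum] at h4
    simp only [C_mul', map_smul, smul_eq_mul] at h4
    exact h4.symm
  rw [h1, h3]
  have h5 : ∑ b, m b * Φ (Db k e b s) - ∑ b, mp e l y b * Φ (Db k e b s) =
      (m 0 - mp e l y 0) * Φ (Db k e 0 s) := by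
    rw [← Finset.sum_sub_distrib, Finset.sum_eq_single 0]
    · ring
    · intro b _ hb
      have h6 : m b = mp e l y b := by
        refine mul_left_cancel₀ hn ?_
        rw [hml b hb, mp]
        field_simp
      rw [h6, sub_self]
    · intro h
      exact absurd (Finset.mem_univ _) h
  have h7 : Φ (Db k e 0 s) = 4 * Φ s := by
    rw [D0_eq he hs, map_nsmul, nsmul_eq_mul]
    norm_num
  rw [h7] at h5
  linear_combination h5

end main

end D5aux

open D5aux in
theorem d5 : StPZ.{u} → StPR.{u} → StPDD.{u} → StGen.{u} → StZI.{u} → StD4.{u} → StD5.{u} := by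
  intro hPZ hPR hPDD hGen hZI hD4 k _ K _ _ _ e he f hk hf hU Φ hΦ G hG
  have hh : ∀ a, (pp k e a).IsHomogeneous 2 := fun a => (hPZ k K e he hk.two a).2.1
  have hpr := (hPR k K e he f Φ hΦ).2
  have hdd := hPDD k K e he hk.two f Φ hΦ
  obtain ⟨-, hz2, -, hz4, -⟩ := hZI k K e he f hk Φ hΦ
  have hT : ∀ c, f c ≠ 0 → qq e c = 1 := fun c hc => by
    by_contra h
    exact hc (hf.code.1 c h)
  -- step 1
  have h1 : ∀ y : K, ∃ m : K × K → k, ∀ s : MvPolynomial K k, s.IsHomogeneous 4 →
      G (X y * s) = ∑ b, m b * Φ (Db k e b s) := by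
    intro y
    obtain ⟨m, hm⟩ := hD4 k K e he f hk hU Φ hΦ (G ∘ₗ LinearMap.mulLeft k (X y)) (by
      intro a c ha hc ha0 hc0
      rw [LinearMap.comp_apply, LinearMap.mulLeft_apply,
        show X y * (pp k e a * pp k e c) = pp k e a * (X y * pp k e c) by ring]
      refine hG a ha ha0 _ ((isHomogeneous_X k y).mul (hh c)) ?_
      exact Ideal.mul_mem_left _ _ (hz4 c hc0))
    exact ⟨m, fun s hs => hm s hs⟩
  choose m hm using h1
  -- step 2
  have h2 : ∀ a, qq e a = 1 → f a = 0 → ∃ v : K → k, ∀ s : MvPolynomial K k,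
      s.IsHomogeneous 3 → G (pp k e a * s) = ∑ j, v j * Φ (X j * s) := fun a ha ha0 =>
    step2 (pp k e a) hz2 (hG a ha ha0)
  -- steps 3 and 4
  have h4 : ∀ a, qq e a = 1 → f a = 0 → ∃ l : K → k, ∀ c, f c ≠ 0 → ∀ y,
      ((Fintype.card K : ℕ) : k) * m y (a + c) = ((qq e (a + c) : ℤ) : k) *
        ((e (a + c).2 y : ℤ) : k) * l (y + (a + c).1) := by
    intro a ha ha0
    obtain ⟨v, hv⟩ := h2 a ha ha0
    refine ⟨ell e v a, fun c hc y => ?_⟩
    exact step4 he hk.two ha (hT c hc)
      (step3 he hk hpr hdd hh (hm y) ha ha0 (hT c hc) hc hv)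
  -- step 5
  obtain ⟨a0, a1, ha0, ha0', ha1, ha1', hne⟩ := hf.zz
  obtain ⟨l, hl⟩ := h4 a0 ha0 ha0'
  have h5 : ∀ b, b ≠ 0 → ∀ y, ((Fintype.card K : ℕ) : k) * m y b = ((qq e b : ℤ) : k) *
        ((e b.2 y : ℤ) : k) * l (y + b.1) := by
    intro b hb y
    obtain ⟨a, c, ha, ha', hc, hbac⟩ := hf.zt b hb
    obtain ⟨l', hl'⟩ := h4 a ha ha'
    have hll : l' = l := by
      obtain ⟨d, d', hd, hd', hx⟩ := hf.tt (a0 + a)
      have hab : a0 + d = a + d' := by
        calc a0 + d = (a0 + a) + a + d := by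
              rw [add_assoc a0 a a, twoP he, add_zero]
          _ = (d + d) + (a + d') := by rw [hx]; abel
          _ = a + d' := by rw [twoP he, zero_add]
      funext i
      have e1 := ell_eq he (m := m) (l := l) (b := a0 + d) (hl d hd) i
      have e2 := ell_eq he (m := m) (l := l') (b := a + d') (hl' d' hd') i
      rw [e1, e2, hab]
    have h6 := hl' c hc y
    rw [← hbac, hll] at h6
    exact h6
  -- step 6
  have h6 : ∀ (y : K) (s : MvPolynomial K k), s.IsHomogeneous 4 →
      (G - Gp Φ l) (X y * s) = (4 * (m y 0 - mp e l y 0) - l y) * Φ s := fun y s hs =>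
    step6 he hk.card (hm y) (fun b hb => h5 b hb y) hs
  -- step 7
  have h7 : ∀ y : K, 4 * (m y 0 - mp e l y 0) - l y = 0 := by
    intro y
    obtain ⟨z, hz⟩ : ∃ z : K, z ≠ y := by
      by_cases h : a0.1 = y
      · exact ⟨a1.1, fun h' => hne (h.trans h'.symm)⟩
      · exact ⟨a0.1, h⟩
    obtain ⟨c, _, hc, -, -⟩ := hf.tt 0
    have hX : ∀ y : K, (X y : MvPolynomial K k).IsHomogeneous 1 := fun y => isHomogeneous_X k y
    have hs : (X (z + c.1) * pp k e c).IsHomogeneous 3 := (hX (z + c.1)).mul (hh c)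
    have e1 := h6 y (X z * (X (z + c.1) * pp k e c)) ((hX z).mul hs)
    have e2 := h6 z (X y * (X (z + c.1) * pp k e c)) ((hX y).mul hs)
    rw [show X y * (X z * (X (z + c.1) * pp k e c)) = X z * (X y * (X (z + c.1) * pp k e c)) by
      ring, e2, ← mul_assoc (X y), ← mul_assoc (X z), hpr, hpr, canc he, if_pos rfl,
      if_neg (Ne.symm hz), mul_zero] at e1
    refine (mul_eq_zero.1 e1.symm).resolve_right ?_
    refine mul_ne_zero (mul_ne_zero hk.card (hk.val c hc)) ?_
    intro h0
    have := sqk (k := k) he c.2 (z + c.1)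
    rw [h0, mul_zero] at this
    exact zero_ne_one this
  -- step 8
  refine ⟨l, fun s hs => ?_⟩
  have h8 := hGen k K (LinearMap.ker (G - Gp Φ l)) 4 (by
    intro y t ht
    rw [LinearMap.mem_ker, h6 y t ht, h7, zero_mul]) s hs
  rw [LinearMap.mem_ker, LinearMap.sub_apply, sub_eq_zero, Gp_apply] at h8
  exact h8

end Helper49.RA
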