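import Pool.Agent.Helper49.RA.StB

/-!
Project RA (MP_16b052_ag), module D6: degree six.
-/

namespace Helper49.RA

open MvPolynomial

universe u

namespace D6aux

variable {k : Type u} [Field k] {K : Type} [AddCommGroup K] [Fintype K] [DecidableEq K]

theorem cast_ne {e : K → K → ℤ} (he : IsPair e) (x y : K) : ((e x y : ℤ) : k) ≠ 0 := by
  have h := he.sq x y
  have h2 : ((e x y : ℤ) : k) * ((e x y : ℤ) : k) = 1 := by
    rw [← Int.cast_mul, h, Int.cast_one]
  intro h3
  rw [h3, zero_mul] at h2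
  exact zero_ne_one h2

theorem add_cancel2 {e : K → K → ℤ} (he : IsPair e) (x y : K) : x + y + y = x := by
  rw [add_assoc, he.two, add_zero]

/-- values of `G` on `p_a S_4` -/
theorem gval {e : K → K → ℤ} {f : K × K → ℤ} {Φ G : MvPolynomial K k →ₗ[k] k}
    (zi3 : ∀ s : MvPolynomial K k, s.IsHomogeneous 4 → Φ s = 0 → s ∈ annI Φ)
    (zi4 : ∀ a, f a = 0 → pp k e a ∈ annI Φ)
    (hG : ∀ s ∈ annI Φ ^ 2, G s = 0) {s0 : MvPolynomial K k} (hs0 : s0.IsHomogeneous 4)
    (hs0' : Φ s0 ≠ 0) (a : K × K) (ha : f a = 0) (s : MvPolynomial K k)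
    (hs : s.IsHomogeneous 4) : G (pp k e a * s) = Φ s / Φ s0 * G (pp k e a * s0) := by
  have h1 : (s - C (Φ s / Φ s0) * s0).IsHomogeneous 4 := hs.sub (hs0.C_mul _)
  have h2 : Φ (s - C (Φ s / Φ s0) * s0) = 0 := by
    rw [map_sub, ← smul_eq_C_mul, map_smul, smul_eq_mul, div_mul_cancel₀ _ hs0', sub_self]
  have h3 := zi3 _ h1 h2
  have h4 : pp k e a * (s - C (Φ s / Φ s0) * s0) ∈ annI Φ ^ 2 := by
    rw [pow_two]
    exact Ideal.mul_mem_mul (zi4 a ha) h3
  have h5 := hG _ h4
  have h6 : pp k e a * (s - C (Φ s / Φ s0) * s0) =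
      pp k e a * s - C (Φ s / Φ s0) * (pp k e a * s0) := by ring
  rw [h6, map_sub, ← smul_eq_C_mul, map_smul, smul_eq_mul, sub_eq_zero] at h5
  exact h5

end D6aux

open D6aux in
theorem d6 : StPZ.{u} → StPR.{u} → StGen.{u} → StZI.{u} → StD5.{u} → StD6.{u} := by
  intro hPZ hPR hGen hZI hD5 k _ K _ _ _ e he f hk hg hU Φ hΦ G hG s hs
  obtain ⟨zi1, zi2, zi3, zi4, zi5⟩ := hZI k K e he f hk Φ hΦ
  obtain ⟨pr1, pr2⟩ := hPR k K e he f Φ hΦ
  have h2 := hk.two
  have hn := hk.card
  -- the functionals `G_y`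
  have hy : ∀ y : K, ∃ l : K → k, ∀ s : MvPolynomial K k, s.IsHomogeneous 5 →
      G (X y * s) = ∑ i, l i * Φ (pderiv i s) := by
    intro y
    obtain ⟨l, hl⟩ := hD5 k K e he f hk hg hU Φ hΦ
      (G ∘ₗ LinearMap.mulLeft k (X y : MvPolynomial K k)) (by
        intro a _ ha t _ ht
        change G (X y * (pp k e a * t)) = 0
        apply hG
        rw [pow_two]
        exact Ideal.mul_mem_left _ _ (Ideal.mul_mem_mul (zi4 a ha) ht))
    exact ⟨l, fun s hs => hl s hs⟩
  choose l hl using hy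
  obtain ⟨c, _, hc, _, _⟩ := hg.tt 0
  have hcv := hk.val c hc
  have hpc : (pp k e c).IsHomogeneous 2 := (hPZ k K e he h2 c).2.1
  set s0 : MvPolynomial K k := pp k e c * pp k e c with hs0def
  have hs0 : s0.IsHomogeneous 4 := hpc.mul hpc
  have hs0' : Φ s0 ≠ 0 := by
    rw [hs0def, pr1, if_pos rfl]
    exact mul_ne_zero (pow_ne_zero 2 hn) hcv
  have key : ∀ a : K × K, qq e a = 1 → f a = 0 → ∀ y j : K, y ≠ j → l y (j + a.1) = 0 := by
    intro a hqa ha y j hyj
    set w : K := j + c.1 with hw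
    have hwc : w + c.1 = j := by rw [hw, add_cancel2 he]
    have hwh : (X w * pp k e c : MvPolynomial K k).IsHomogeneous 3 :=
      (isHomogeneous_X k w).mul hpc
    have hpa : (pp k e a).IsHomogeneous 2 := (hPZ k K e he h2 a).2.1
    -- first evaluation
    have e1 : G (X y * (pp k e a * (X w * pp k e c))) = 0 := by
      have h3 : X y * (pp k e a * (X w * pp k e c)) = pp k e a * (X y * (X w * pp k e c)) := by
        ring
      rw [h3, gval zi3 zi4 hG hs0 hs0' a ha _ ((isHomogeneous_X k y).mul hwh)]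
      rw [← mul_assoc (X y), pr2, if_neg (by rw [hwc]; exact hyj)]
      simp
    -- second evaluation
    rw [hl y _ (hpa.mul hwh)] at e1
    have e2 : ∀ i, Φ (pderiv i (pp k e a * (X w * pp k e c))) =
        if i = j + a.1 then 2 * ((e a.2 i : ℤ) : k) *
          (((Fintype.card K : ℕ) : k) * ((f c : ℤ) : k) * ((e c.2 w : ℤ) : k)) else 0 := by
      intro i
      rw [Derivation.leibniz, map_add, smul_eq_mul, smul_eq_mul, zi4 a ha, zero_add,
        (hPZ k K e he h2 a).2.2 hqa i]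
      have h3 : X w * pp k e c * (C (2 * ((e a.2 i : ℤ) : k)) * X (i + a.1)) =
          C (2 * ((e a.2 i : ℤ) : k)) * (X (i + a.1) * X w * pp k e c) := by ring
      rw [h3, ← smul_eq_C_mul, map_smul, smul_eq_mul, pr2, hwc]
      by_cases hi : i = j + a.1
      · rw [if_pos hi, if_pos (by rw [hi, add_cancel2 he])]
      · rw [if_neg hi, if_neg, mul_zero]
        intro h4
        apply hi
        rw [← h4, add_cancel2 he]
    simp only [e2] at e1
    rw [Finset.sum_eq_single (j + a.1) (fun i _ hi => by rw [if_neg hi, mul_zero])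
      (fun h => absurd (Finset.mem_univ _) h), if_pos rfl] at e1
    rcases mul_eq_zero.1 e1 with h3 | h3
    · exact h3
    · exfalso
      exact mul_ne_zero (mul_ne_zero h2 (cast_ne he _ _))
        (mul_ne_zero (mul_ne_zero hn hcv) (cast_ne he _ _)) h3
  obtain ⟨a, a', hqa, hfa, hqa', hfa', haa⟩ := hg.zz
  have hzero : ∀ y i : K, l y i = 0 := by
    intro y i
    by_cases h : y = i + a.1
    · have h3 := key a' hqa' hfa' y (i + a'.1) (by
        intro h4
        apply haa
        exact add_left_cancel (h ▸ h4))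
      rwa [add_cancel2 he] at h3
    · have h3 := key a hqa hfa y (i + a.1) h
      rwa [add_cancel2 he] at h3
  have hW := hGen k K (LinearMap.ker G) 5 (by
    intro y t ht
    rw [LinearMap.mem_ker, hl y t ht]
    exact Finset.sum_eq_zero fun i _ => by rw [hzero, zero_mul]) s hs
  exact LinearMap.mem_ker.1 hW

end Helper49.RA
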