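import Pool.Agent.Helper49.RA.StB

/-! Module DP: the action of the derivation `D_b` on the quadric `p_a`. -/

namespace Helper49.RA

open MvPolynomial

universe u

namespace DPaux

variable {K : Type} [AddCommGroup K] [Fintype K] [DecidableEq K] {e : K → K → ℤ}

theorem addr (he : IsPair e) (x y z : K) : e x (y + z) = e x y * e x z := by
  rw [he.symm x (y + z), he.addl, he.symm y x, he.symm z x]

theorem castAddl (k : Type u) [Field k] (he : IsPair e) (x y z : K) :
    ((e (x + y) z : ℤ) : k) = ((e x z : ℤ) : k) * ((e y z : ℤ) : k) := by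
  rw [he.addl, Int.cast_mul]

theorem castAddr (k : Type u) [Field k] (he : IsPair e) (x y z : K) :
    ((e x (y + z) : ℤ) : k) = ((e x y : ℤ) : k) * ((e x z : ℤ) : k) := by
  rw [addr he, Int.cast_mul]

/-- `D_b p_a` before using the parity condition. -/
theorem raw (k : Type u) [Field k] (he : IsPair e) (a b : K × K) :
    Db k e b (pp k e a) =
      C (((e b.2 a.1 : ℤ) : k) + ((e a.2 b.1 : ℤ) : k) * ((e b.2 b.1 : ℤ) : k)) *
        pp k e (a + b) := by
  have h1 : Db k e b (pp k e a) =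
      ∑ j, (C ((e a.2 j : ℤ) : k) * (X (j + a.1) * (C ((e b.2 j : ℤ) : k) * X (j + b.1)))) +
      ∑ j, (C ((e a.2 j : ℤ) : k) *
        (X j * (C ((e b.2 (j + a.1) : ℤ) : k) * X (j + a.1 + b.1)))) := by
    rw [pp, map_sum, ← Finset.sum_add_distrib]
    refine Finset.sum_congr rfl fun j _ => ?_
    rw [Derivation.leibniz, Derivation.leibniz]
    have hC : Db k e b (C ((e a.2 j : ℤ) : k)) = 0 := derivation_C _ _
    rw [hC]
    simp only [Db, mkDerivation_X, smul_eq_mul, mul_zero, add_zero]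
    ring
  have h2 : ∑ j, (C ((e a.2 j : ℤ) : k) *
        (X j * (C ((e b.2 (j + a.1) : ℤ) : k) * X (j + a.1 + b.1)))) =
      C ((e b.2 a.1 : ℤ) : k) * pp k e (a + b) := by
    rw [pp, Finset.mul_sum]
    refine Finset.sum_congr rfl fun j _ => ?_
    rw [castAddr k he, Prod.snd_add, castAddl k he, Prod.fst_add, add_assoc j a.1 b.1,
      C_mul, C_mul]
    ring
  have h3 : ∑ j, (C ((e a.2 j : ℤ) : k) *
        (X (j + a.1) * (C ((e b.2 j : ℤ) : k) * X (j + b.1)))) =
      C (((e a.2 b.1 : ℤ) : k) * ((e b.2 b.1 : ℤ) : k)) * pp k e (a + b) := by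
    rw [← Equiv.sum_comp (Equiv.addRight b.1), pp, Finset.mul_sum]
    refine Finset.sum_congr rfl fun j _ => ?_
    have hb : j + b.1 + b.1 = j := by rw [add_assoc, he.two, add_zero]
    have hab : j + b.1 + a.1 = j + (a.1 + b.1) := by rw [add_assoc, add_comm b.1 a.1]
    rw [Equiv.coe_addRight, hb, hab, castAddr k he, castAddr k he, Prod.snd_add,
      castAddl k he, Prod.fst_add, C_mul, C_mul, C_mul, C_mul]
    ring
  rw [h1, h2, h3, C_add]
  ring

end DPaux

open DPaux in
theorem dP : StPZ.{u} → StDP.{u} := by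
  intro hPZ k _ K _ _ _ e he h2 a b ha
  rw [raw k he a b]
  by_cases hq : qq e (a + b) = 1
  · have hqa : e a.1 a.2 = 1 := ha
    have hqab : e (a.1 + b.1) (a.2 + b.2) = 1 := hq
    rw [he.addl, addr he, addr he, hqa, one_mul] at hqab
    have s1 := he.sq b.2 a.1
    have e1 : e a.1 b.2 = e b.2 a.1 := he.symm _ _
    have e2 : e b.1 a.2 = e a.2 b.1 := he.symm _ _
    have e3 : e b.1 b.2 = e b.2 b.1 := he.symm _ _
    rw [e1, e2, e3] at hqab
    have key : e a.2 b.1 * e b.2 b.1 = e b.2 a.1 := by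
      calc e a.2 b.1 * e b.2 b.1 =
          (e b.2 a.1 * e b.2 a.1) * (e a.2 b.1 * e b.2 b.1) := by rw [s1, one_mul]
        _ = e b.2 a.1 * (e b.2 a.1 * (e a.2 b.1 * e b.2 b.1)) := by ring
        _ = e b.2 a.1 := by rw [hqab, mul_one]
    have keyk : ((e a.2 b.1 : ℤ) : k) * ((e b.2 b.1 : ℤ) : k) = ((e b.2 a.1 : ℤ) : k) := by
      rw [← Int.cast_mul, key]
    rw [keyk, ss, two_mul]
  · rw [(hPZ k K e he h2 (a + b)).1 hq, mul_zero, mul_zero]

end Helper49.RA
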