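import Pool.Agent.Helper49.RA.StA

/-!
Project RA (MP_16b052_ag), module DUAL: module maps from the ideal of a functional to the quotient
are derivations if `I^(2) = I^2`.
-/

namespace Helper49.RA

open MvPolynomial

universe u

namespace DUALaux

variable {k : Type u} [Field k] {ι : Type} (Φ : MvPolynomial ι k →ₗ[k] k)

theorem phi_eq {s t : MvPolynomial ι k}
    (h : Ideal.Quotient.mk (annI Φ) s = Ideal.Quotient.mk (annI Φ) t) : Φ s = Φ t := by
  have h1 : s - t ∈ annI Φ := Ideal.Quotient.eq.1 h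
  have h2 := h1 1
  rw [mul_one, map_sub] at h2
  exact sub_eq_zero.1 h2

theorem si (a : MvPolynomial ι k ⧸ annI Φ) : Ideal.Quotient.mk (annI Φ)
    (Function.surjInv (Ideal.Quotient.mk_surjective (I := annI Φ)) a) = a :=
  Function.surjInv_eq (Ideal.Quotient.mk_surjective (I := annI Φ)) a

/-- The induced functional on the quotient. -/
noncomputable def qf : (MvPolynomial ι k ⧸ annI Φ) →ₗ[k] k where
  toFun a := Φ (Function.surjInv (Ideal.Quotient.mk_surjective (I := annI Φ)) a)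
  map_add' a b := by
    rw [← map_add]
    apply phi_eq
    rw [map_add, si, si, si]
  map_smul' c a := by
    rw [RingHom.id_apply, ← map_smul]
    apply phi_eq
    rw [si]
    have h := si Φ a
    conv_lhs => rw [← h]
    rfl

theorem qf_mk (s : MvPolynomial ι k) : qf Φ (Ideal.Quotient.mk (annI Φ) s) = Φ s := by
  apply phi_eq
  rw [si]

theorem nondeg (a : MvPolynomial ι k ⧸ annI Φ) (h : ∀ b, qf Φ (a * b) = 0) : a = 0 := by
  obtain ⟨s, rfl⟩ := Ideal.Quotient.mk_surjective a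
  rw [Ideal.Quotient.eq_zero_iff_mem]
  intro t
  have h1 := h (Ideal.Quotient.mk (annI Φ) t)
  rwa [← map_mul, qf_mk] at h1

theorem repr_dual [Module.Finite k (MvPolynomial ι k ⧸ annI Φ)]
    (g : (MvPolynomial ι k ⧸ annI Φ) →ₗ[k] k) :
    ∃ a : MvPolynomial ι k ⧸ annI Φ, ∀ b, g b = qf Φ (a * b) := by
  set B : (MvPolynomial ι k ⧸ annI Φ) →ₗ[k] Module.Dual k (MvPolynomial ι k ⧸ annI Φ) :=
    (LinearMap.mul k (MvPolynomial ι k ⧸ annI Φ)).compr₂ (qf Φ) with hB
  have hinj : Function.Injective B := by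
    rw [injective_iff_map_eq_zero]
    intro a ha
    apply nondeg
    intro b
    have := LinearMap.congr_fun ha b
    simpa [hB] using this
  have hsurj : Function.Surjective B :=
    (LinearMap.injective_iff_surjective_of_finrank_eq_finrank
      (Subspace.dual_finrank_eq (K := k) (V := MvPolynomial ι k ⧸ annI Φ)).symm).1 hinj
  obtain ⟨a, ha⟩ := hsurj g
  refine ⟨a, fun b => ?_⟩
  rw [← ha]
  rfl

theorem lam_smul (lam : (annI Φ) →ₗ[MvPolynomial ι k] (MvPolynomial ι k ⧸ annI Φ))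
    (t : MvPolynomial ι k) (s : annI Φ) :
    lam (t • s) = Ideal.Quotient.mk (annI Φ) t * lam s := by
  rw [map_smul]
  obtain ⟨y, hy⟩ := Ideal.Quotient.mk_surjective (lam s)
  rw [← hy]
  rfl

theorem lam_sq (lam : (annI Φ) →ₗ[MvPolynomial ι k] (MvPolynomial ι k ⧸ annI Φ))
    (s : MvPolynomial ι k) (hs : s ∈ annI Φ ^ 2) : ∃ h : s ∈ annI Φ, lam ⟨s, h⟩ = 0 := by
  rw [pow_two] at hs
  refine Submodule.mul_induction_on hs ?_ ?_
  · intro a ha b hb
    refine ⟨Ideal.mul_mem_left _ _ hb, ?_⟩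
    have h1 : (⟨a * b, Ideal.mul_mem_left _ _ hb⟩ : annI Φ) = a • (⟨b, hb⟩ : annI Φ) := rfl
    have h2 : Ideal.Quotient.mk (annI Φ) a = 0 := Ideal.Quotient.eq_zero_iff_mem.2 ha
    rw [h1, lam_smul, h2, zero_mul]
  · rintro x y ⟨hx, hx'⟩ ⟨hy, hy'⟩
    refine ⟨Ideal.add_mem _ hx hy, ?_⟩
    have h1 : (⟨x + y, Ideal.add_mem _ hx hy⟩ : annI Φ) = ⟨x, hx⟩ + ⟨y, hy⟩ := rfl
    rw [h1, map_add, hx', hy', add_zero]

/-- the tuple of the classes of the derivatives -/
noncomputable def DD : (annI Φ) →ₗ[k] (ι → MvPolynomial ι k ⧸ annI Φ) where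
  toFun s := fun i => Ideal.Quotient.mk (annI Φ) (pderiv i (s : MvPolynomial ι k))
  map_add' s t := by
    funext i
    simp
  map_smul' c s := by
    funext i
    simp only [Submodule.coe_smul_of_tower, RingHom.id_apply, Pi.smul_apply]
    rw [Derivation.map_smul]
    rfl

end DUALaux

open DUALaux in
theorem dual : StDual.{u} := by
  intro k _ ι _ Φ _ hsp lam
  classical
  set μ : (annI Φ) →ₗ[k] k := (qf Φ) ∘ₗ (lam.restrictScalars k) with hμ
  have hker : LinearMap.ker (DD Φ) ≤ LinearMap.ker μ := by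
    intro s hs
    rw [LinearMap.mem_ker] at hs ⊢
    have h1 : ∀ i, pderiv i (s : MvPolynomial ι k) ∈ annI Φ := by
      intro i
      have := congrFun hs i
      exact Ideal.Quotient.eq_zero_iff_mem.1 this
    obtain ⟨h2, h3⟩ := lam_sq Φ lam s (hsp s s.2 h1)
    change qf Φ (lam s) = 0
    have h4 : lam s = 0 := h3
    rw [h4, map_zero]
  obtain ⟨ν, hν⟩ : ∃ ν : (ι → MvPolynomial ι k ⧸ annI Φ) →ₗ[k] k, ∀ s, μ s = ν (DD Φ s) := by
    have h1 : μ ∈ LinearMap.range (DD Φ).dualMap := by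
      rw [LinearMap.range_dualMap_eq_dualAnnihilator_ker, Submodule.mem_dualAnnihilator]
      intro w hw
      exact hker hw
    obtain ⟨ν, hν⟩ := h1
    exact ⟨ν, fun s => by rw [← hν]; rfl⟩
  choose a ha using fun i : ι =>
    repr_dual Φ (ν ∘ₗ LinearMap.single k (fun _ : ι => MvPolynomial ι k ⧸ annI Φ) i)
  have hsum : ∀ f : ι → MvPolynomial ι k ⧸ annI Φ, ν f = ∑ i, qf Φ (a i * f i) := by
    intro f
    conv_lhs => rw [← Finset.univ_sum_single f, map_sum]
    refine Finset.sum_congr rfl fun i _ => ?_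
    exact ha i (f i)
  have hmain : ∀ s : annI Φ, qf Φ (lam s) =
      ∑ i, qf Φ (a i * Ideal.Quotient.mk (annI Φ) (pderiv i (s : MvPolynomial ι k))) := by
    intro s
    have h1 := hν s
    rw [hsum] at h1
    exact h1
  refine ⟨a, fun s => ?_⟩
  rw [← sub_eq_zero]
  apply nondeg
  intro b
  obtain ⟨t, rfl⟩ := Ideal.Quotient.mk_surjective b
  have h1 := hmain (t • s)
  have h2 : lam (t • s) = Ideal.Quotient.mk (annI Φ) t * lam s := lam_smul Φ lam t s
  have h3 : ∀ i, Ideal.Quotient.mk (annI Φ) (pderiv i ((t • s : annI Φ) : MvPolynomial ι k)) =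
      Ideal.Quotient.mk (annI Φ) t *
        Ideal.Quotient.mk (annI Φ) (pderiv i (s : MvPolynomial ι k)) := by
    intro i
    have h4 : ((t • s : annI Φ) : MvPolynomial ι k) = t * (s : MvPolynomial ι k) := rfl
    have h5 : Ideal.Quotient.mk (annI Φ) (s : MvPolynomial ι k) = 0 :=
      Ideal.Quotient.eq_zero_iff_mem.2 s.2
    rw [h4, Derivation.leibniz, map_add, smul_eq_mul, smul_eq_mul, map_mul, map_mul, h5, zero_mul,
      add_zero]
  rw [h2] at h1
  simp only [h3] at h1
  rw [sub_mul, map_sub, Finset.sum_mul, map_sum, mul_comm, h1, sub_eq_zero]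
  refine Finset.sum_congr rfl fun i _ => ?_
  congr 1
  ring

end Helper49.RA
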