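import Pool.Agent.Helper49.RA.StB

/-!
Project RA (MP_16b052_ag), module GEN: polynomials of degree `d + 1` are generated by the products
of a variable and a polynomial of degree `d`.
-/

namespace Helper49.RA

open MvPolynomial

universe u

theorem gen : StGen.{u} := by
  intro k _ K W d hW s hs
  rw [s.as_sum]
  refine W.sum_mem fun m hm => ?_
  have hc : coeff m s ≠ 0 := mem_support_iff.1 hm
  have hdeg : m.degree = d + 1 := by
    have h1 := hs hc
    have h2 : m.degree = Finsupp.weight (1 : K → ℕ) m :=
      DFunLike.congr_fun (Finsupp.degree_eq_weight_one (R := ℕ) (σ := K)) m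
    rw [h2]
    exact h1
  have hm0 : m ≠ 0 := by
    rintro rfl
    rw [map_zero] at hdeg
    omega
  obtain ⟨y, hy⟩ := Finsupp.ne_iff.1 hm0
  have hy1 : Finsupp.single y 1 ≤ m := by
    rw [Finsupp.single_le_iff]
    exact Nat.one_le_iff_ne_zero.2 hy
  have hm1 : Finsupp.single y 1 + (m - Finsupp.single y 1) = m := add_tsub_cancel_of_le hy1
  have hsplit : monomial m (coeff m s) = X y * monomial (m - Finsupp.single y 1) (coeff m s) := by
    rw [X, monomial_mul, one_mul, hm1]
  rw [hsplit]
  apply hW
  apply isHomogeneous_monomial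
  have h1 := congrArg Finsupp.degree hm1
  rw [map_add, Finsupp.degree_single, hdeg] at h1
  omega

end Helper49.RA
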