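import Pool.Agent.Helper49.RA.StB

/-!
Project RA (MP_16b052_ag), module GF: the table of `D_b F` and its transform.
-/

namespace Helper49.RA

open MvPolynomial

universe u

namespace GFaux

variable {K : Type} [AddCommGroup K] [Fintype K] [DecidableEq K] {e : K → K → ℤ}

theorem addr (he : IsPair e) (x y z : K) : e x (y + z) = e x y * e x z := by
  rw [he.symm, he.addl, he.symm y x, he.symm z x]

theorem sig_add (he : IsPair e) {f : K × K → ℤ} (hf : IsCode e f) (u w : K) :
    sig e f u (u + w) = sig e f u w := by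
  unfold sig
  refine Finset.sum_congr rfl fun v _ => ?_
  by_cases h : qq e (u, v) = 1
  · rw [addr he, he.symm v u]
    have : e u v = 1 := h
    rw [this, one_mul]
  · rw [hf.1 _ h, zero_mul, zero_mul]

theorem sig_four (he : IsPair e) (f : K × K → ℤ) (u v : K) :
    ∑ w, sig e f u w * e v w = (Fintype.card K : ℤ) * f (u, v) := by
  unfold sig
  calc ∑ w, (∑ v', f (u, v') * e v' w) * e v w
      = ∑ v', f (u, v') * ∑ w, e (v' + v) w := by
        simp only [Finset.sum_mul, Finset.mul_sum]
        rw [Finset.sum_comm]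
        exact Finset.sum_congr rfl fun a _ => Finset.sum_congr rfl fun b _ => by
          rw [he.addl, mul_assoc]
    _ = ∑ v', f (u, v') * (if v' + v = 0 then (Fintype.card K : ℤ) else 0) := by
        exact Finset.sum_congr rfl fun a _ => by rw [he.sum]
    _ = ∑ v', if v' = v then f (u, v') * (Fintype.card K : ℤ) else 0 := by
        refine Finset.sum_congr rfl fun a _ => ?_
        have h : a + v = 0 ↔ a = v := by
          constructor
          · intro h
            have h2 := he.two v
            rw [← h] at h2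
            exact (add_right_cancel h2).symm
          · rintro rfl
            exact he.two _
        simp only [h]
        split_ifs <;> simp
    _ = _ := by
        rw [Finset.sum_ite_eq' Finset.univ v, if_pos (Finset.mem_univ v), mul_comm]

theorem sig_shift (he : IsPair e) (f : K × K → ℤ) (u v c : K) :
    ∑ w, sig e f u (w + c) * e v w = e v c * ((Fintype.card K : ℤ) * f (u, v)) := by
  rw [← sig_four he f u v, Finset.mul_sum]
  refine Fintype.sum_equiv (Equiv.addRight c) _ _ fun w => ?_
  rw [Equiv.coe_addRight, addr he]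
  have h := he.sq v c
  linear_combination (-(sig e f u (w + c) * e v w)) * h

omit [DecidableEq K] in
theorem s1 {f : K × K → ℤ} (hf : IsCode e f) (b : K × K) (u w : K) :
    gamF e f b u w = gamF e f b w u := by
  unfold gamF
  rw [hf.2 (w + b.1) (u + b.1), hf.2 (w + b.1) u, hf.2 w (u + b.1), hf.2 w u, add_comm w u]
  ring

theorem s2 (he : IsPair e) {f : K × K → ℤ} (hf : IsCode e f) (b : K × K) (u w : K) :
    gamF e f b u w = gamF e f b u (u + w + b.1) := by
  have t : b.1 + b.1 = 0 := he.two b.1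
  have tu : u + u = 0 := he.two u
  have e1 : sig e f (u + b.1) (u + w + b.1 + b.1) = sig e f (u + b.1) (w + b.1) := by
    rw [← sig_add he hf (u + b.1) (w + b.1)]
    congr 1
    abel
  have e2 : sig e f (u + b.1) (u + w + b.1) = sig e f (u + b.1) w := by
    rw [← sig_add he hf (u + b.1) w]
    congr 1
    abel
  have e3 : sig e f u (u + w + b.1 + b.1) = sig e f u w := by
    rw [add_assoc, t, add_zero, sig_add he hf]
  have e4 : sig e f u (u + w + b.1) = sig e f u (w + b.1) := by
    rw [add_assoc, sig_add he hf]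
  have e5 : u + (u + w + b.1) + b.1 = w := by
    calc u + (u + w + b.1) + b.1 = (u + u) + w + (b.1 + b.1) := by abel
      _ = w := by rw [t, tu, zero_add, add_zero]
  unfold gamF
  rw [e1, e2, e3, e4, e5]
  ring

theorem s3 (he : IsPair e) {f : K × K → ℤ} (hf : IsCode e f) (b : K × K) (u w : K) :
    gamF e f b u w = e b.2 u * gamF e f b u (u + w) := by
  have t : b.1 + b.1 = 0 := he.two b.1
  have tu : u + u = 0 := he.two u
  have e1 : sig e f (u + b.1) (u + w + b.1) = sig e f (u + b.1) w := by
    rw [← sig_add he hf (u + b.1) w]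
    congr 1
    abel
  have e2 : sig e f (u + b.1) (u + w) = sig e f (u + b.1) (w + b.1) := by
    rw [← sig_add he hf (u + b.1) (w + b.1)]
    have : u + b.1 + (w + b.1) = u + w + (b.1 + b.1) := by abel
    rw [this, t, add_zero]
  have e3 : sig e f u (u + w + b.1) = sig e f u (w + b.1) := by
    rw [add_assoc, sig_add he hf]
  have e5 : u + (u + w) + b.1 = w + b.1 := by
    rw [← add_assoc, tu, zero_add]
  unfold gamF
  rw [e1, e2, e3, e5, sig_add he hf, addr he b.2 u w, addr he b.2 w b.1,
    addr he b.2 (u + w) b.1, addr he b.2 u w]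
  have h := he.sq b.2 u
  linear_combination (-(sig e f (u + b.1) (w + b.1)) - e b.2 w * sig e f u (w + b.1)) * h

theorem tr (he : IsPair e) (f : K × K → ℤ) (b a : K × K) (ha : qq e a = 1)
    (hab : qq e (a + b) = 1) :
    ∑ w, gamF e f b a.1 w * e (a.2 + b.2) w = 2 * (Fintype.card K : ℤ) * dd e f b a := by
  have h2 : b.2 + b.2 = 0 := he.two b.2
  have q1 : e a.1 a.2 = 1 := ha
  have q2 : e (a.1 + b.1) (a.2 + b.2) = 1 := hab
  rw [he.addl, addr he, addr he, q1, one_mul] at q2
  -- `e a1 b2 * (e b1 a2 * e b1 b2) = 1`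
  have k1 : e b.2 a.1 = e a.2 b.1 * e b.2 b.1 := by
    rw [he.symm b.2 a.1, he.symm a.2 b.1, he.symm b.2 b.1]
    have h := he.sq a.1 b.2
    linear_combination (-(e a.1 b.2)) * q2 + (e b.1 a.2 * e b.1 b.2) * h
  have T1 : ∑ w, sig e f (a.1 + b.1) (w + b.1) * e (a.2 + b.2) w =
      e (a.2 + b.2) b.1 * ((Fintype.card K : ℤ) * f (a + b)) := sig_shift he f _ _ _
  have T2 : ∑ w, e b.2 a.1 * sig e f (a.1 + b.1) w * e (a.2 + b.2) w =
      e b.2 a.1 * ((Fintype.card K : ℤ) * f (a + b)) := by
    have h := sig_four he f (a.1 + b.1) (a.2 + b.2)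
    have h' : f (a + b) = f (a.1 + b.1, a.2 + b.2) := rfl
    rw [h', ← h, Finset.mul_sum]
    exact Finset.sum_congr rfl fun w _ => by ring
  have hv : ∀ w, e b.2 w * e (a.2 + b.2) w = e a.2 w := by
    intro w
    rw [← he.addl]
    congr 1
    calc b.2 + (a.2 + b.2) = a.2 + (b.2 + b.2) := by abel
      _ = a.2 := by rw [h2, add_zero]
  have T3 : ∑ w, e b.2 w * sig e f a.1 (w + b.1) * e (a.2 + b.2) w =
      e a.2 b.1 * ((Fintype.card K : ℤ) * f a) := by
    have h := sig_shift he f a.1 a.2 b.1
    have h' : f a = f (a.1, a.2) := rfl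
    rw [h', ← h]
    exact Finset.sum_congr rfl fun w _ => by rw [← hv w]; ring
  have T4 : ∑ w, e b.2 (a.1 + w + b.1) * sig e f a.1 w * e (a.2 + b.2) w =
      e b.2 (a.1 + b.1) * ((Fintype.card K : ℤ) * f a) := by
    have h := sig_four he f a.1 a.2
    have h' : f a = f (a.1, a.2) := rfl
    rw [h', ← h, Finset.mul_sum]
    refine Finset.sum_congr rfl fun w _ => ?_
    have h5 : a.1 + w + b.1 = (a.1 + b.1) + w := by abel
    rw [← hv w, h5, addr he b.2 (a.1 + b.1) w]
    ring
  have hsum : ∑ w, gamF e f b a.1 w * e (a.2 + b.2) w =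
      ∑ w, sig e f (a.1 + b.1) (w + b.1) * e (a.2 + b.2) w +
      ∑ w, e b.2 a.1 * sig e f (a.1 + b.1) w * e (a.2 + b.2) w +
      ∑ w, e b.2 w * sig e f a.1 (w + b.1) * e (a.2 + b.2) w +
      ∑ w, e b.2 (a.1 + w + b.1) * sig e f a.1 w * e (a.2 + b.2) w := by
    rw [← Finset.sum_add_distrib, ← Finset.sum_add_distrib, ← Finset.sum_add_distrib]
    exact Finset.sum_congr rfl fun w _ => by unfold gamF; ring
  have hdd : dd e f b a = e b.2 a.1 * f (a + b) + e b.2 (a.1 + b.1) * f a := rfl
  rw [hsum, T1, T2, T3, T4, hdd, he.addl, addr he b.2 a.1 b.1, k1]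
  have h := he.sq b.2 b.1
  linear_combination (-(e a.2 b.1 * ((Fintype.card K : ℤ) * f a))) * h

end GFaux

open GFaux

theorem gF : StGF.{u} := by
  intro k _ K _ _ _ e he f hf b
  refine ⟨⟨?_, ?_, ?_⟩, ?_⟩
  · intro u w
    rw [GFaux.s1 hf]
  · intro u w
    rw [GFaux.s2 he hf]
  · intro u w
    rw [GFaux.s3 he hf]
    push_cast
    ring
  · intro a ha hab
    have h := tr he f b a ha hab
    have h2 := congrArg (fun z : ℤ => (z : k)) h
    push_cast at h2
    rw [← h2]
    rfl

end Helper49.RA
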