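import Pool.Agent.Helper49.RA.StA

/-!
Module LOC: the algebra of a nonzero homogeneous functional of degree four is finite, local, of
dimension at least two.
-/

namespace Helper49.RA

open MvPolynomial

universe u

namespace LOCaux

variable {k : Type u} [Field k] {ι : Type}

theorem monomial_mem (Φ : MvPolynomial ι k →ₗ[k] k)
    (h : ∀ (d : ℕ) (s : MvPolynomial ι k), s.IsHomogeneous d → d ≠ 4 → Φ s = 0)
    (d : ι →₀ ℕ) (c : k) (hd : 5 ≤ d.degree) : monomial d c ∈ annI Φ := by
  intro t
  induction t using MvPolynomial.induction_on' with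
  | monomial e a =>
    rw [monomial_mul]
    exact h (d + e).degree _ (isHomogeneous_monomial _ rfl) (by rw [map_add]; omega)
  | add p q hp hq => rw [mul_add, map_add, hp, hq, add_zero]

theorem fin [Fintype ι] (Φ : MvPolynomial ι k →ₗ[k] k)
    (h : ∀ (d : ℕ) (s : MvPolynomial ι k), s.IsHomogeneous d → d ≠ 4 → Φ s = 0) :
    Module.Finite k (MvPolynomial ι k ⧸ annI Φ) := by
  classical
  have hfin : {d : ι →₀ ℕ | d.degree ≤ 4}.Finite := Finsupp.finite_of_degree_le 4
  refine ⟨⟨hfin.toFinset.image
    (fun d => Ideal.Quotient.mk (annI Φ) (monomial d (1 : k))), ?_⟩⟩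
  rw [eq_top_iff]
  rintro x -
  obtain ⟨s, rfl⟩ := Ideal.Quotient.mk_surjective x
  induction s using MvPolynomial.induction_on' with
  | monomial e a =>
    by_cases he : e.degree ≤ 4
    · have h1 : Ideal.Quotient.mk (annI Φ) (monomial e a) =
          a • Ideal.Quotient.mk (annI Φ) (monomial e (1 : k)) := by
        have h2 : (monomial e a : MvPolynomial ι k) = a • monomial e (1 : k) := by
          rw [smul_monomial, smul_eq_mul, mul_one]
        rw [h2]
        rfl
      rw [h1]
      refine Submodule.smul_mem _ _ (Submodule.subset_span ?_)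
      simp only [Finset.coe_image, Set.Finite.coe_toFinset]
      exact ⟨e, he, rfl⟩
    · have h1 : Ideal.Quotient.mk (annI Φ) (monomial e a) = 0 :=
        Ideal.Quotient.eq_zero_iff_mem.mpr (monomial_mem Φ h e a (by omega))
      rw [h1]
      exact Submodule.zero_mem _
  | add p q hp hq =>
    rw [map_add]
    exact Submodule.add_mem _ hp hq

theorem nilp (Φ : MvPolynomial ι k →ₗ[k] k)
    (h : ∀ (d : ℕ) (s : MvPolynomial ι k), s.IsHomogeneous d → d ≠ 4 → Φ s = 0)
    (s : MvPolynomial ι k) (hs : coeff 0 s = 0) :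
    IsNilpotent (Ideal.Quotient.mk (annI Φ) s) := by
  rw [← mem_nilradical, s.as_sum, map_sum]
  refine Ideal.sum_mem _ fun d hd => ?_
  rw [mem_nilradical]
  refine ⟨5, ?_⟩
  rw [← map_pow, monomial_pow, Ideal.Quotient.eq_zero_iff_mem]
  apply monomial_mem Φ h
  have hd0 : d ≠ 0 := by
    rintro rfl
    exact (mem_support_iff.mp hd) hs
  have h1 : d.degree ≠ 0 := fun h0 => hd0 ((Finsupp.degree_eq_zero_iff d).mp h0)
  rw [map_nsmul, smul_eq_mul]
  omega

theorem exists_mon (Φ : MvPolynomial ι k →ₗ[k] k) (hΦ : Φ ≠ 0) :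
    ∃ d : ι →₀ ℕ, Φ (monomial d 1) ≠ 0 := by
  by_contra hcon
  push Not at hcon
  apply hΦ
  refine LinearMap.ext fun s => ?_
  induction s using MvPolynomial.induction_on' with
  | monomial e a =>
    have h7 : (monomial e a : MvPolynomial ι k) = a • monomial e (1 : k) := by
      rw [smul_monomial, smul_eq_mul, mul_one]
    rw [h7, map_smul, hcon e, smul_zero, LinearMap.zero_apply]
  | add p q hp hq => rw [map_add, map_add, hp, hq]

end LOCaux

open LOCaux in
theorem loc : StLoc.{u} := by
  intro k _ ι _ Φ h hΦ
  obtain ⟨d, hd⟩ := exists_mon Φ hΦ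
  have hdeg : d.degree = 4 := by
    by_contra hne
    exact hd (h _ _ (isHomogeneous_monomial 1 rfl) hne)
  have hfin := fin Φ h
  have hone : (1 : MvPolynomial ι k) ∉ annI Φ := by
    intro h1
    have h2 := h1 (monomial d 1)
    rw [one_mul] at h2
    exact hd h2
  have hnt : Nontrivial (MvPolynomial ι k ⧸ annI Φ) := by
    apply Ideal.Quotient.nontrivial_iff.mpr
    intro htop
    exact hone (htop ▸ Submodule.mem_top)
  refine ⟨hfin, ?_, ?_⟩
  · apply IsLocalRing.of_isUnit_or_isUnit_one_sub_self
    intro x
    obtain ⟨s, rfl⟩ := Ideal.Quotient.mk_surjective x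
    have hn := nilp Φ h (s - C (coeff 0 s)) (by simp)
    have hs : Ideal.Quotient.mk (annI Φ) s = Ideal.Quotient.mk (annI Φ) (C (coeff 0 s)) +
        Ideal.Quotient.mk (annI Φ) (s - C (coeff 0 s)) := by
      rw [← map_add]
      congr 1
      ring
    by_cases hc : coeff 0 s = 0
    · right
      have h3 := nilp Φ h s hc
      exact h3.isUnit_one_sub
    · left
      have hu : IsUnit (Ideal.Quotient.mk (annI Φ) (C (coeff 0 s))) := by
        have h4 : IsUnit (coeff 0 s) := IsUnit.mk0 _ hc
        exact (h4.map C).map (Ideal.Quotient.mk (annI Φ))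
      rw [hs]
      exact hn.isUnit_add_left_of_commute hu (Commute.all _ _)
  · have hli : LinearIndependent k ![(1 : MvPolynomial ι k ⧸ annI Φ),
        Ideal.Quotient.mk (annI Φ) (monomial d (1 : k))] := by
      rw [LinearIndependent.pair_iff]
      intro c c' hcc
      have h5 : (C c + C c' * monomial d (1 : k) : MvPolynomial ι k) ∈ annI Φ := by
        rw [← Ideal.Quotient.eq_zero_iff_mem, ← hcc]
        have e1 : (c • (1 : MvPolynomial ι k ⧸ annI Φ)) =
            Ideal.Quotient.mk (annI Φ) (C c) := by
          have e3 : (C c : MvPolynomial ι k) = c • (1 : MvPolynomial ι k) := by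
            rw [C_eq_smul_one]
          rw [e3]
          rfl
        have e2 : (c' • Ideal.Quotient.mk (annI Φ) (monomial d (1 : k))) =
            Ideal.Quotient.mk (annI Φ) (C c' * monomial d (1 : k)) := by
          rw [C_mul']
          rfl
        rw [e1, e2, ← map_add]
      have h6 := h5 (monomial d 1)
      rw [add_mul, map_add, C_mul_monomial, C_mul_monomial, monomial_mul,
        h (d + d).degree _ (isHomogeneous_monomial _ rfl) (by rw [map_add]; omega),
        add_zero, mul_one] at h6
      have h7 : (monomial d c : MvPolynomial ι k) = c • monomial d (1 : k) := by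
        rw [smul_monomial, smul_eq_mul, mul_one]
      rw [h7, map_smul, smul_eq_mul] at h6
      have hc : c = 0 := (mul_eq_zero.mp h6).resolve_right hd
      refine ⟨hc, ?_⟩
      have h8 := h5 1
      rw [mul_one, hc, map_zero, zero_add, C_mul_monomial, mul_one] at h8
      have h9 : (monomial d c' : MvPolynomial ι k) = c' • monomial d (1 : k) := by
        rw [smul_monomial, smul_eq_mul, mul_one]
      rw [h9, map_smul, smul_eq_mul] at h8
      exact (mul_eq_zero.mp h8).resolve_right hd
    have h10 := hli.fintype_card_le_finrank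
    simpa using h10

end Helper49.RA
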