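import Pool.Agent.Helper49.RA.StC

namespace Helper49.RA

open MvPolynomial

universe u

/-- NEG: `Uniq` for `-f` implies `Uniq` for `f`. -/
theorem nEG : StNEG.{u} := by
  intro k _ K _ _ _ e f b h G hG
  obtain ⟨c, hc⟩ := h G (fun a h1 h2 h3 h4 => hG a h1 h2 (by simpa using h3) (by simpa using h4))
  refine ⟨-c, fun a h1 h2 => ?_⟩
  rw [hc a h1 h2]
  have hd : dd e (fun a => - f a) b a = - dd e f b a := by
    simp only [dd]; ring
  rw [hd]
  push_cast
  ring

end Helper49.RA
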