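import Pool.Agent.Helper49.RA.StB

/-!
Project RA (MP_16b052_ag), module PDD: the values `Φ (D_b (p_a p_c))`.
-/

namespace Helper49.RA

open MvPolynomial

universe u

namespace PDDaux

theorem lin {k : Type u} [Field k] {K : Type} (Φ : MvPolynomial K k →ₗ[k] k) (r : k)
    (x y : MvPolynomial K k) : Φ (x * (C r * y)) = r * Φ (x * y) := by
  rw [mul_left_comm, ← smul_eq_C_mul, map_smul, smul_eq_mul]

end PDDaux

theorem pDD : StDP.{u} → StPR.{u} → StPDD.{u} := by
  intro hDP hPR k _ K _ _ _ e he h2 f Φ hΦ a b c ha hc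
  have htwo : ∀ x : K × K, x + x = 0 := fun x => Prod.ext (he.two x.1) (he.two x.2)
  obtain ⟨h1, -⟩ := hPR k K e he f Φ hΦ
  have hiff : a = c + b ↔ a + b = c := by
    constructor
    · rintro rfl
      rw [add_assoc, htwo, add_zero]
    · rintro rfl
      rw [add_assoc, htwo, add_zero]
  rw [Derivation.leibniz, smul_eq_mul, smul_eq_mul, hDP k K e he h2 c b hc,
    hDP k K e he h2 a b ha, map_add, PDDaux.lin, PDDaux.lin, h1, h1]
  by_cases h : a + b = c
  · rw [if_pos h, if_pos (hiff.2 h), if_pos h.symm]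
    subst h
    unfold dd
    push_cast
    ring
  · rw [if_neg h, if_neg (fun h' => h (hiff.1 h')), if_neg (fun h' => h h'.symm), mul_zero,
      mul_zero, add_zero]

end Helper49.RA
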