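import Pool.Agent.Helper49.RA.StB

/-!
Project RA (MP_16b052_ag), module PHI: existence of the quartic functional.
-/

namespace Helper49.RA

open MvPolynomial

universe u

namespace PHIaux

theorem perm_inv {α β : Type*} (F : List α → β)
    (h : ∀ (l1 : List α) (a b : α) (l2 : List α), F (l1 ++ a :: b :: l2) = F (l1 ++ b :: a :: l2))
    {L L' : List α} (hp : L.Perm L') : ∀ l1 : List α, F (l1 ++ L) = F (l1 ++ L') := by
  induction hp with
  | nil => intro l1; rfl
  | cons x _ ih =>
    intro l1
    have h1 := ih (l1 ++ [x])
    rw [List.append_assoc, List.append_assoc] at h1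
    exact h1
  | swap x y l => intro l1; exact h l1 y x l
  | trans _ _ ih1 ih2 => intro l1; exact (ih1 l1).trans (ih2 l1)

/-- a function of four arguments as a function of lists -/
def onList {α β : Type*} [Zero β] (R : α → α → α → α → β) : List α → β
  | [i, j, l, m] => R i j l m
  | _ => 0

theorem onList_ne {α β : Type*} [Zero β] (R : α → α → α → α → β) (L : List α)
    (h : L.length ≠ 4) : onList R L = 0 := by
  rcases L with _ | ⟨a, _ | ⟨b, _ | ⟨c, _ | ⟨d, _ | ⟨x, L⟩⟩⟩⟩⟩
  · rfl
  · rfl
  · rfl
  · rfl
  · exact absurd rfl h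
  · rfl

theorem onList_swap {α β : Type*} [Zero β] (R : α → α → α → α → β)
    (h1 : ∀ i j l m, R i j l m = R j i l m) (h2 : ∀ i j l m, R i j l m = R i l j m)
    (h3 : ∀ i j l m, R i j l m = R i j m l) (l1 : List α) (a b : α) (l2 : List α) :
    onList R (l1 ++ a :: b :: l2) = onList R (l1 ++ b :: a :: l2) := by
  by_cases hlen : l1.length + l2.length = 2
  · rcases l1 with _ | ⟨x, _ | ⟨y, _ | ⟨z, l1⟩⟩⟩
    · rcases l2 with _ | ⟨c, _ | ⟨d, _ | ⟨w, l2⟩⟩⟩
      · simp at hlen
      · simp at hlen
      · exact h1 a b c d
      · simp at hlen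
    · rcases l2 with _ | ⟨c, _ | ⟨d, l2⟩⟩
      · simp at hlen
      · exact h2 x a b c
      · simp at hlen
        omega
    · rcases l2 with _ | ⟨c, l2⟩
      · exact h3 x y a b
      · simp at hlen
    · simp at hlen
      omega
  · rw [onList_ne, onList_ne]
    · simp only [List.length_append, List.length_cons]
      omega
    · simp only [List.length_append, List.length_cons]
      omega

/-- a symmetric function of four arguments as a function of multisets -/
def onMul {α β : Type*} [Zero β] (R : α → α → α → α → β)
    (h1 : ∀ i j l m, R i j l m = R j i l m) (h2 : ∀ i j l m, R i j l m = R i l j m)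
    (h3 : ∀ i j l m, R i j l m = R i j m l) (s : Multiset α) : β :=
  Quotient.lift (onList R) (fun _ _ hp =>
    perm_inv (onList R) (onList_swap R h1 h2 h3) hp []) s

theorem onMul_ne {α β : Type*} [Zero β] (R : α → α → α → α → β)
    (h1 : ∀ i j l m, R i j l m = R j i l m) (h2 : ∀ i j l m, R i j l m = R i l j m)
    (h3 : ∀ i j l m, R i j l m = R i j m l) (s : Multiset α) (hs : s.card ≠ 4) :
    onMul R h1 h2 h3 s = 0 := by
  induction s using Quotient.inductionOn with
  | h L => exact onList_ne R L hs

section

variable {K : Type} [AddCommGroup K] [Fintype K] [DecidableEq K] {e : K → K → ℤ}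

theorem addr (he : IsPair e) (x y z : K) : e x (y + z) = e x y * e x z := by
  rw [he.symm, he.addl, he.symm y x, he.symm z x]

theorem sig_add (he : IsPair e) {f : K × K → ℤ} (hf : IsCode e f) (u w : K) :
    sig e f u (u + w) = sig e f u w := by
  unfold sig
  refine Finset.sum_congr rfl fun v _ => ?_
  by_cases h : qq e (u, v) = 1
  · rw [addr he, he.symm v u]
    have : e u v = 1 := h
    rw [this, one_mul]
  · rw [hf.1 _ h, zero_mul, zero_mul]

/-- the values of the functional -/
def Rf (k : Type u) [Field k] (e : K → K → ℤ) (f : K × K → ℤ) (i j l m : K) : k :=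
  if i + j + l + m = 0 then ((sig e f (i + j) (i + l) : ℤ) : k) else 0

variable (k : Type u) [Field k]

theorem r1 (he : IsPair e) {f : K × K → ℤ} (hf : IsCode e f) (i j l m : K) :
    Rf k e f i j l m = Rf k e f j i l m := by
  unfold Rf
  have h : sig e f (j + i) (j + l) = sig e f (i + j) (i + l) := by
    rw [← sig_add he hf (i + j) (i + l), add_comm j i]
    congr 1
    calc j + l = 0 + (j + l) := by rw [zero_add]
      _ = (i + i) + (j + l) := by rw [he.two]
      _ = _ := by abel
  rw [h, add_comm j i]

theorem r2 {f : K × K → ℤ} (hf : IsCode e f) (i j l m : K) :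
    Rf k e f i j l m = Rf k e f i l j m := by
  unfold Rf
  have h : i + l + j + m = i + j + l + m := by abel
  rw [h, hf.2 (i + l) (i + j)]

theorem r3 (he : IsPair e) {f : K × K → ℤ} (hf : IsCode e f) (i j l m : K) :
    Rf k e f i j l m = Rf k e f i j m l := by
  unfold Rf
  have h : i + j + m + l = i + j + l + m := by abel
  rw [h]
  split_ifs with h0
  · have h2 := he.two (i + j + l)
    have hm : m = i + j + l := by
      have h3 : m - (i + j + l) = (i + j + l + m) - ((i + j + l) + (i + j + l)) := by abel
      rw [h0, h2, sub_zero] at h3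
      exact sub_eq_zero.1 h3
    have h4 : sig e f (i + j) (i + m) = sig e f (i + j) (i + l) := by
      rw [← sig_add he hf (i + j) (i + l), hm]
      congr 1
      abel
    rw [h4]
  · rfl

end

theorem toMul {K : Type} (i j l m : K) :
    Finsupp.toMultiset (Finsupp.single i 1 + Finsupp.single j 1 + Finsupp.single l 1 +
      Finsupp.single m 1) = (([i, j, l, m] : List K) : Multiset K) := by
  rw [map_add, map_add, map_add, Finsupp.toMultiset_single, Finsupp.toMultiset_single,
    Finsupp.toMultiset_single, Finsupp.toMultiset_single, one_smul, one_smul, one_smul, one_smul]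
  rfl

end PHIaux

open PHIaux

theorem phi : StPhi.{u} := by
  intro k _ K _ _ _ e he f hf
  let G : Multiset K → k := onMul (Rf k e f) (r1 k he hf) (r2 k hf) (r3 k he hf)
  let Φ : MvPolynomial K k →ₗ[k] k :=
    (MvPolynomial.basisMonomials K k).constr k fun m => G (Finsupp.toMultiset m)
  have hΦ : ∀ (m : K →₀ ℕ) (a : k), Φ (monomial m a) = a * G (Finsupp.toMultiset m) := by
    intro m a
    have h1 : Φ (monomial m 1) = G (Finsupp.toMultiset m) := by
      have h := (MvPolynomial.basisMonomials K k).constr_basis k
        (fun m => G (Finsupp.toMultiset m)) m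
      rw [MvPolynomial.coe_basisMonomials] at h
      exact h
    have h2 : (monomial m a : MvPolynomial K k) = a • monomial m 1 := by
      rw [MvPolynomial.smul_monomial, smul_eq_mul, mul_one]
    rw [h2, map_smul, h1, smul_eq_mul]
  refine ⟨Φ, ?_, ?_⟩
  · intro i j l m
    have h1 : (X i * X j * X l * X m : MvPolynomial K k) =
        monomial (Finsupp.single i 1 + Finsupp.single j 1 + Finsupp.single l 1 +
          Finsupp.single m 1) 1 := by
      simp only [MvPolynomial.X, MvPolynomial.monomial_mul, mul_one]
    rw [h1, hΦ, one_mul, toMul]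
    rfl
  · intro d s hs hd
    rw [← MvPolynomial.support_sum_monomial_coeff s, map_sum]
    refine Finset.sum_eq_zero fun m hm => ?_
    rw [hΦ]
    have h1 : m.degree = d := by
      by_contra h
      exact (MvPolynomial.mem_support_iff.1 hm) (hs.coeff_eq_zero h)
    have h2 : (Finsupp.toMultiset m).card ≠ 4 := by
      rw [Finsupp.card_toMultiset]
      intro h
      apply hd
      rw [← h1, ← h]
      rfl
    have h3 : G (Finsupp.toMultiset m) = 0 := onMul_ne _ _ _ _ _ h2
    rw [h3, mul_zero]

end Helper49.RA
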