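import Pool.Agent.Helper49.RA.StB

/-!
Project RA (MP_16b052_ag), module PR: the pairing of quadrics.
-/

namespace Helper49.RA

open MvPolynomial

universe u

namespace PRaux

variable {K : Type} [AddCommGroup K] [Fintype K] [DecidableEq K] {e : K → K → ℤ}

theorem addr (hp : IsPair e) (x y z : K) : e x (y + z) = e x y * e x z := by
  rw [hp.symm x (y + z), hp.addl, hp.symm y x, hp.symm z x]

theorem add_eq_zero (hp : IsPair e) (x y : K) : x + y = 0 ↔ x = y := by
  constructor
  · intro h
    have h2 := hp.two y
    calc x = x + (y + y) := by rw [h2, add_zero]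
      _ = (x + y) + y := by abel
      _ = y := by rw [h, zero_add]
  · rintro rfl
    exact hp.two x

theorem orth (hp : IsPair e) (x y : K) :
    ∑ l, e x l * e y l = if x = y then (Fintype.card K : ℤ) else 0 := by
  have h1 : ∀ l, e x l * e y l = e (x + y) l := fun l => (hp.addl x y l).symm
  rw [Finset.sum_congr rfl fun l _ => h1 l, hp.sum]
  simp only [add_eq_zero hp]

theorem key (hp : IsPair e) (f : K × K → ℤ) (c : K × K) (j : K) :
    ∑ l, e c.2 l * sig e f c.1 (j + l) = (Fintype.card K : ℤ) * f c * e c.2 j := by
  have h1 : ∀ l, e c.2 l * sig e f c.1 (j + l) =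
      ∑ v, f (c.1, v) * e v j * (e c.2 l * e v l) := by
    intro l
    rw [sig, Finset.mul_sum]
    refine Finset.sum_congr rfl fun v _ => ?_
    rw [addr hp]
    ring
  rw [Finset.sum_congr rfl fun l _ => h1 l, Finset.sum_comm]
  have h2 : ∀ v, ∑ l, f (c.1, v) * e v j * (e c.2 l * e v l) =
      if c.2 = v then f (c.1, v) * e v j * (Fintype.card K : ℤ) else 0 := by
    intro v
    rw [← Finset.mul_sum, orth hp]
    split_ifs <;> simp
  rw [Finset.sum_congr rfl fun v _ => h2 v, Finset.sum_ite_eq Finset.univ c.2]
  simp only [Finset.mem_univ, if_true, Prod.mk.eta]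
  ring

end PRaux

open PRaux in
theorem pR : StPR.{u} := by
  intro k _ K _ _ _ e hp f Φ hΦ
  have second : ∀ (i j : K) (c : K × K), Φ (X i * X j * pp k e c) =
      if i = j + c.1 then ((Fintype.card K : ℕ) : k) * ((f c : ℤ) : k) * ((e c.2 j : ℤ) : k)
        else 0 := by
    intro i j c
    have h1 : X i * X j * pp k e c =
        ∑ l, ((e c.2 l : ℤ) : k) • (X i * X j * X (l + c.1) * X l : MvPolynomial K k) := by
      rw [pp, Finset.mul_sum]
      refine Finset.sum_congr rfl fun l _ => ?_
      rw [smul_eq_C_mul]
      ring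
    rw [h1, map_sum]
    have h2 : ∀ l, i + j + (l + c.1) + l = 0 ↔ i = j + c.1 := by
      intro l
      have e1 : i + j + (l + c.1) + l = i + (j + c.1) := by
        have := hp.two l
        calc i + j + (l + c.1) + l = i + (j + c.1) + (l + l) := by abel
          _ = i + (j + c.1) := by rw [this, add_zero]
      rw [e1, add_eq_zero hp]
    have h3 : ∀ l, Φ (((e c.2 l : ℤ) : k) • (X i * X j * X (l + c.1) * X l : MvPolynomial K k)) =
        if i = j + c.1 then ((e c.2 l * sig e f c.1 (j + l) : ℤ) : k) else 0 := by
      intro l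
      rw [map_smul, hΦ.1, smul_eq_mul]
      by_cases h : i = j + c.1
      · rw [if_pos ((h2 l).mpr h), if_pos h]
        have e1 : i + j = c.1 := by
          have := hp.two j
          rw [h]
          calc j + c.1 + j = c.1 + (j + j) := by abel
            _ = c.1 := by rw [this, add_zero]
        have e2 : i + (l + c.1) = j + l := by
          have := hp.two c.1
          rw [h]
          calc j + c.1 + (l + c.1) = j + l + (c.1 + c.1) := by abel
            _ = j + l := by rw [this, add_zero]
        rw [e1, e2]
        push_cast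
        ring
      · rw [if_neg (fun h' => h ((h2 l).mp h')), if_neg h, mul_zero]
    rw [Finset.sum_congr rfl fun l _ => h3 l]
    by_cases h : i = j + c.1
    · simp only [if_pos h]
      rw [← Int.cast_sum, key hp]
      push_cast
      ring
    · simp only [if_neg h, Finset.sum_const_zero]
  refine ⟨?_, second⟩
  intro a c
  have h1 : pp k e a * pp k e c =
      ∑ j, ((e a.2 j : ℤ) : k) • (X (j + a.1) * X j * pp k e c : MvPolynomial K k) := by
    conv_lhs => rw [pp, Finset.sum_mul]
    refine Finset.sum_congr rfl fun j _ => ?_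
    rw [smul_eq_C_mul]
    ring
  rw [h1, map_sum]
  have h3 : ∀ j, Φ (((e a.2 j : ℤ) : k) • (X (j + a.1) * X j * pp k e c : MvPolynomial K k)) =
      if a.1 = c.1 then ((Fintype.card K : ℕ) : k) * ((f c : ℤ) : k) *
        ((e a.2 j * e c.2 j : ℤ) : k) else 0 := by
    intro j
    rw [map_smul, second, smul_eq_mul]
    by_cases h : a.1 = c.1
    · rw [if_pos h, if_pos (by rw [h])]
      push_cast
      ring
    · rw [if_neg h, if_neg (fun h' => h (add_left_cancel h')), mul_zero]
  rw [Finset.sum_congr rfl fun j _ => h3 j]
  by_cases h : a.1 = c.1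
  · simp only [if_pos h]
    rw [← Finset.mul_sum, ← Int.cast_sum, orth hp]
    by_cases h' : a.2 = c.2
    · have hac : a = c := Prod.ext h h'
      rw [if_pos h', if_pos hac, hac]
      push_cast
      ring
    · rw [if_neg h', if_neg (fun hh => h' (by rw [hh]))]
      simp
  · simp only [if_neg h, Finset.sum_const_zero]
    rw [if_neg (fun hh => h (by rw [hh]))]

end Helper49.RA
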