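import Pool.Agent.Helper49.RA.StB

/-! RA module SP4: quartics are spanned by the products `p_a p_c`. -/

namespace Helper49.RA

open MvPolynomial

universe u

theorem sP4 : StPZ.{u} → StXX.{u} → StGen.{u} → StSP4.{u} := by
  intro hPZ hXX hGen k _ K _ _ _ e he h2 hn G hG s hs
  have key : ∀ a c : K × K, G (pp k e a * pp k e c) = 0 := by
    intro a c
    by_cases ha : qq e a = 1
    · by_cases hc : qq e c = 1
      · exact hG a c ha hc
      · rw [(hPZ k K e he h2 c).1 hc, mul_zero, map_zero]
    · rw [(hPZ k K e he h2 a).1 ha, zero_mul, map_zero]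
  have hC : ∀ (c : k) (P : MvPolynomial K k), G (C c * P) = c * G P := by
    intro c P
    rw [← smul_eq_C_mul, map_smul, smul_eq_mul]
  have q4 : ∀ i j l m : K, G ((X i * X j) * (X l * X m)) = 0 := by
    intro i j l m
    have h1 : C ((Fintype.card K : ℕ) : k) * (C ((Fintype.card K : ℕ) : k) *
        ((X i * X j) * (X l * X m))) =
        (∑ v, C ((e v j : ℤ) : k) * pp k e (i + j, v)) *
          (∑ w, C ((e w m : ℤ) : k) * pp k e (l + m, w)) := by
      rw [← hXX k K e he i j, ← hXX k K e he l m]; ring
    have h3 : G ((∑ v, C ((e v j : ℤ) : k) * pp k e (i + j, v)) *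
          (∑ w, C ((e w m : ℤ) : k) * pp k e (l + m, w))) = 0 := by
      rw [Finset.sum_mul_sum, map_sum]
      refine Finset.sum_eq_zero fun v _ => ?_
      rw [map_sum]
      refine Finset.sum_eq_zero fun w _ => ?_
      have h4 : C ((e v j : ℤ) : k) * pp k e (i + j, v) *
          (C ((e w m : ℤ) : k) * pp k e (l + m, w)) =
          C ((e v j : ℤ) : k) * (C ((e w m : ℤ) : k) *
            (pp k e (i + j, v) * pp k e (l + m, w))) := by ring
      rw [h4, hC, hC, key, mul_zero, mul_zero]
    rw [← h1, hC, hC] at h3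
    have h5 := (mul_eq_zero.mp h3).resolve_left hn
    exact (mul_eq_zero.mp h5).resolve_left hn
  -- degree reduction
  have r0 : ∀ y z w v : K, ∀ t : MvPolynomial K k, t.IsHomogeneous 0 →
      G (X y * (X z * (X w * (X v * t)))) = 0 := by
    intro y z w v t ht
    have ht' : t = C (coeff 0 t) := by
      have := (totalDegree_eq_zero_iff_eq_C (p := t)).mp
        (Nat.le_zero.mp ht.totalDegree_le)
      exact this
    have h6 : X y * (X z * (X w * (X v * t))) =
        C (coeff 0 t) * ((X y * X z) * (X w * X v)) := by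
      rw [ht']; simp only [coeff_C, if_true]; ring
    rw [h6, hC, q4, mul_zero]
  have r1 : ∀ y z w : K, ∀ t : MvPolynomial K k, t.IsHomogeneous 1 →
      G (X y * (X z * (X w * t))) = 0 := by
    intro y z w t ht
    have := hGen k K (LinearMap.ker (G ∘ₗ LinearMap.mulLeft k (X y) ∘ₗ
      LinearMap.mulLeft k (X z) ∘ₗ LinearMap.mulLeft k (X w))) 0
      (fun v t ht => by
        simpa [LinearMap.mem_ker] using r0 y z w v t ht) t ht
    simpa [LinearMap.mem_ker] using this
  have r2 : ∀ y z : K, ∀ t : MvPolynomial K k, t.IsHomogeneous 2 →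
      G (X y * (X z * t)) = 0 := by
    intro y z t ht
    have := hGen k K (LinearMap.ker (G ∘ₗ LinearMap.mulLeft k (X y) ∘ₗ
      LinearMap.mulLeft k (X z))) 1
      (fun v t ht => by
        simpa [LinearMap.mem_ker] using r1 y z v t ht) t ht
    simpa [LinearMap.mem_ker] using this
  have r3 : ∀ y : K, ∀ t : MvPolynomial K k, t.IsHomogeneous 3 →
      G (X y * t) = 0 := by
    intro y t ht
    have := hGen k K (LinearMap.ker (G ∘ₗ LinearMap.mulLeft k (X y))) 2
      (fun v t ht => by
        simpa [LinearMap.mem_ker] using r2 y v t ht) t ht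
    simpa [LinearMap.mem_ker] using this
  have := hGen k K (LinearMap.ker G) 3
    (fun v t ht => by
      simpa [LinearMap.mem_ker] using r3 v t ht) s hs
  simpa [LinearMap.mem_ker] using this

end Helper49.RA
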