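import Pool.Agent.Helper49.RA.Defs
import Pool.Agent.Helper47.Rig.Defs

/-!
Project RA (MP_16b052_ag, a rigid local Artinian algebra), statements of part 1 and part 2, with
proofs in the docstrings.  All modules are independent of each other: a module proves
`theorem x : StX` or `theorem x : StY → StZ → StX` as said in its docstring.
-/

namespace Helper49.RA

open MvPolynomial

universe u v

/-- OPEN1.  A square system of equations with unit Jacobian determinant defines an algebra whose
map of spectra is open.

PROOF.  `B := MvPolynomial σ R ⧸ span (range v)`.  `Algebra.PreSubmersivePresentation.naive`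
(with `a := id`, `ι := σ`) in `Mathlib.RingTheory.Extension.Presentation.Submersive` is a
presubmersive presentation of `B` with relations `v`; its `jacobiMatrix` has the entries
`pderiv (a i) (v j)` (lemma `jacobiMatrix_naive`, the transposed of the matrix of the statement,
so the determinants agree by `Matrix.det_transpose`) and `jacobian_eq_jacobiMatrix_det` says that
the jacobian is the image of this determinant in `B`, a unit by hypothesis.  So `B` has a
`SubmersivePresentation`, hence `Algebra.IsStandardSmooth R B`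
(`Algebra.SubmersivePresentation.isStandardSmooth`), hence `Algebra.Smooth R B` (instance), hence
`Module.Flat R B` (`Algebra.Smooth.flat`, file `RingTheory/Smooth/Flat.lean`) and
`Algebra.FinitePresentation R B`.  Flat maps satisfy going down (`Algebra.HasGoingDown` instance
for flat algebras) and `PrimeSpectrum.isOpenMap_comap_of_hasGoingDown_of_finitePresentation`
(file `RingTheory/Spectrum/Prime/Chevalley.lean`) gives the claim. -/
def StOpen1 : Prop := ∀ (R : Type u) [CommRing R] (σ : Type) [Fintype σ] [DecidableEq σ]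
  (v : σ → MvPolynomial σ R),
  IsUnit (Ideal.Quotient.mk (Ideal.span (Set.range v))
    (Matrix.of fun i j => pderiv j (v i)).det) →
  IsOpenMap (PrimeSpectrum.comap
    (algebraMap R (MvPolynomial σ R ⧸ Ideal.span (Set.range v))))

/-- OPEN2 (to prove: `theorem open2 : StOpen1.{u} → StOpen2.{u}`).  Near a solution `(y, z)` of a
square system where the Jacobian in the unknowns and `h` do not vanish, the system stays solvable
with `h ≠ 0` on a Zariski neighbourhood of `y`.

PROOF.  Let `R := MvPolynomial κ k`, `σ := Option ι`, and let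
`T : MvPolynomial (κ ⊕ ι) k →ₐ[k] MvPolynomial σ R` be the algebra map `X (inl a) ↦ C (X a)`,
`X (inr i) ↦ X (some i)`.  Let `J := det (pderiv (inr j) (P i))` (a polynomial),
`v (some i) := T (P i)`, `v none := X none * T (h * J) - 1`,
`B := MvPolynomial σ R ⧸ span (range v)`.  In `B` the element `T (h * J)` is a unit with inverse
`X none`.  For every `Q`: `pderiv (some j) (T Q) = T (pderiv (inr j) Q)`,
`pderiv none (T Q) = 0` (both sides of the first are derivations along `T`; check on variables, or
induction on `Q`).  So the Jacobian matrix of `v` has the row `none` with entry `T (h * J)` in the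
column `none`, the rows `some i` with entry `0` in the column `none` and `T (pderiv (inr j) (P i))`
in the column `some j`; its determinant is `T (h * J) * T J` (`Matrix.det_succ`-like expansion
along the column `none`, or `Matrix.det_fromBlocks_zero₁₂` after reindexing `Option ι ≃ ι ⊕ Unit`),
a unit in `B` (a divisor of a unit).  By `StOpen1` the map `Spec B → Spec R` is open.

The values `X (some i) ↦ z i`, `X none ↦ (h J)(y,z)⁻¹`, `X a ↦ y a` define a ring homomorphism
`B → k` (the relations vanish); its kernel is a prime of `B` over the prime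
`p_y = {F : eval y F = 0}` of `R`.  So the image of `Spec B` is an open set containing `p_y`, so it
contains a basic open set `D(F)` with `F ∉ p_y`, i.e. `eval y F ≠ 0`.  Let `eval y' F ≠ 0`.  Then
`p_{y'} ∈ D(F)`, so some prime `q` of `B` lies over `p_{y'}`.  Let `𝔮` be the preimage of `q` under
the composite `MvPolynomial (κ ⊕ Option ι) k → MvPolynomial (Option ι) R → B` (surjective, first
map an isomorphism, e.g. `MvPolynomial.sumAlgEquiv` after `Equiv.sumComm`); it is a proper ideal of
a polynomial ring in finitely many variables over an algebraically closed field, so by the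
Nullstellensatz (`MvPolynomial.isMaximal_iff_eq_vanishingIdeal_singleton` for a maximal ideal
containing `𝔮`) there is a common zero `(y'', z'', w)` of `𝔮`.  As `X a - C (y' a) ∈ 𝔮`, `y'' = y'`.
The relations give `P i (y', z'') = 0` and `w * (h J)(y', z'') = 1`, so `h (y', z'') ≠ 0`. -/
def StOpen2 : Prop := ∀ (k : Type u) [Field k] [IsAlgClosed k] (κ ι : Type) [Fintype κ]
  [Fintype ι] [DecidableEq ι] (P : ι → MvPolynomial (κ ⊕ ι) k) (h : MvPolynomial (κ ⊕ ι) k)
  (y : κ → k) (z : ι → k),
  (∀ i, eval (Sum.elim y z) (P i) = 0) → eval (Sum.elim y z) h ≠ 0 →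
  (Matrix.of fun i j => eval (Sum.elim y z) (pderiv (Sum.inr j) (P i))).det ≠ 0 →
  ∃ F : MvPolynomial κ k, eval y F ≠ 0 ∧ ∀ y' : κ → k, eval y' F ≠ 0 →
    ∃ z' : ι → k, (∀ i, eval (Sum.elim y' z') (P i) = 0) ∧ eval (Sum.elim y' z') h ≠ 0

/-- SL1 (linear algebra; no dependence).

PROOF.  Let `E1 = (N → N → N → k)`.  `B := range (cob x)`, `S` a complement of `B` in `E1`
(`Submodule.exists_isCompl`).  Choose a linear section: a linear `t' : E1 → (N → N → k)` with
`cob x (t' ξ) = ξ` for `ξ ∈ B` (`LinearMap.exists_rightInverse_of_surjective` for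
`cob x` with codomain restricted to its range, composed with a projection).  With the projections
`πB, πS` of the decomposition put `tL ξ := - t' (πB ξ)`, `sL ξ := πS ξ`; then
`sL ξ - cob x (tL ξ) = πS ξ + πB ξ = ξ`.
The linear map `d ξ := (linAssoc x ξ, anti ξ)` is injective on `S`: if `d s = 0` then `s` is
symmetric and a cocycle, so `s ∈ B` by `CoordT1`, and `B ⊓ S = ⊥`.  So `d` restricted to `S` has a
linear left inverse (`LinearMap.exists_leftInverse_of_injective`); `lam` is this left inverse
followed by the inclusion `S ⊆ E1`. -/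
def StSL1 : Prop := ∀ (k : Type u) [Field k] (N : Type) [Fintype N] [DecidableEq N]
  (x : N → N → N → k), CoordT1 x →
  ∃ (tL : (N → N → N → k) →ₗ[k] (N → N → k)) (sL : (N → N → N → k) →ₗ[k] (N → N → N → k))
    (lam : ((N → N → N → N → k) × (N → N → N → k)) →ₗ[k] (N → N → N → k)),
    (∀ ξ, sL ξ - cob x (tL ξ) = ξ) ∧
    ∀ ξ, lam (linAssoc x (sL ξ), anti (sL ξ)) = sL ξ

/-- SL2 (polynomials; no dependence).  The equation `P` says that `1 + t` maps the product `x + s`
to the product `y`; its Jacobian in the unknown `ξ` at `(x, 0)` is the identity.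

PROOF.  Let `Rg := MvPolynomial ((N × N × N) ⊕ (N × N × N)) k`.  For a linear map
`L : (N → N → N → k) → (M → k)` (any finite `M`) the polynomial
`Σ_{a b c} C (L (single a b c) m) * X (inr (a, b, c))` evaluates at `(y, ξ)` to `(L ξ) m`
(here `single a b c` is the table which is `1` at `(a,b,c)` and `0` elsewhere, and `ξ` is the sum of
`ξ a b c • single a b c`).  In this way get `T i j`, `S i j l : Rg` for `tL`, `sL`.  Put
`P (i,j,l) := Σ_m (C (x i j m) + S i j m) * (δ_{ml} + T m l)
   - Σ_m Σ_{m'} (δ_{im} + T i m) * (δ_{jm'} + T j m') * X (inl (m, m', l))`.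
Its evaluation is as claimed.  For the derivative: `pderiv (inr β)` of `T i j` is the constant
`C (tL (single β) i j)`, of `S` the constant `C (sL (single β) i j l)`, of `X (inl _)` zero; at
`ξ = 0` the values of `T`, `S` are `0`; so at `(x, 0)` the derivative of `P (i,j,l)` is
`sL(single β) i j l + Σ_m x i j m * tL(single β) m l - Σ_m tL(single β) i m * x m j l
 - Σ_m tL(single β) j m * x i m l = (sL (single β) - cob x (tL (single β))) i j l
 = (single β) i j l = if (i,j,l) = β then 1 else 0`.
The polynomial `h`: the first factor is the determinant of the matrix `δ_{ij} + T i j` over `Rg`;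
the second the determinant of the matrix over `Rg` indexed by `N × N × N` with entries
`δ_{αβ} + (lam (assoc2 (sL ξ) (single β), 0)) α`, which are again polynomials in `ξ`: the map
`ξ ↦ lam (assoc2 (sL ξ) (single β), 0) α` is linear, use the first remark.  `eval` is a ring
homomorphism, so it commutes with `det` (`RingHom.map_det`), and the matrix of the linear
endomorphism `1 + lam (assoc2 (sL ξ) ·, 0)` has this determinant; the statement below only asks:
if `eval h ≠ 0` then `1 + tL ξ` has nonzero determinant and the endomorphism is injective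
(`Matrix.mulVec` injective for nonzero determinant, `Matrix.exists_mulVec_eq_zero_iff`). And
`eval (x,0) h = 1` because both matrices are then the identity. -/
def StSL2 : Prop := ∀ (k : Type u) [Field k] (N : Type) [Fintype N] [DecidableEq N]
  (x : N → N → N → k)
  (tL : (N → N → N → k) →ₗ[k] (N → N → k)) (sL : (N → N → N → k) →ₗ[k] (N → N → N → k))
  (lam : ((N → N → N → N → k) × (N → N → N → k)) →ₗ[k] (N → N → N → k)),
  (∀ ξ, sL ξ - cob x (tL ξ) = ξ) →
  ∃ (P : N × N × N → MvPolynomial ((N × N × N) ⊕ (N × N × N)) k)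
    (h : MvPolynomial ((N × N × N) ⊕ (N × N × N)) k),
    (∀ (y ξ : N → N → N → k) (i j l : N),
      eval (Sum.elim (fun a : N × N × N => y a.1 a.2.1 a.2.2) (fun a : N × N × N => ξ a.1 a.2.1 a.2.2))
        (P (i, j, l)) =
      ∑ m, (x i j m + sL ξ i j m) * ((if m = l then 1 else 0) + tL ξ m l) -
        ∑ m, ∑ m', ((if i = m then 1 else 0) + tL ξ i m) * ((if j = m' then 1 else 0) + tL ξ j m') *
          y m m' l) ∧
    (∀ (y ξ : N → N → N → k),
      eval (Sum.elim (fun a : N × N × N => y a.1 a.2.1 a.2.2) (fun a : N × N × N => ξ a.1 a.2.1 a.2.2))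
        h ≠ 0 →
      (Matrix.of fun i j => (if i = j then 1 else 0) + tL ξ i j).det ≠ 0 ∧
      ∀ s' : N → N → N → k, s' + lam (assoc2 (sL ξ) s', 0) = 0 → s' = 0) ∧
    eval (Sum.elim (fun a : N × N × N => x a.1 a.2.1 a.2.2) (fun _ => 0)) h ≠ 0 ∧
    ∀ a b : N × N × N, eval (Sum.elim (fun a : N × N × N => x a.1 a.2.1 a.2.2) (fun _ => 0))
      (pderiv (Sum.inr b) (P a)) = if a = b then 1 else 0

/-- SL3 (to prove: `theorem sl3 : StOpen2.{u} → StSL1.{u} → StSL2.{u} → StSL3.{u}`).  The slice
argument: near `x` every commutative associative product is isomorphic to `x`.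

PROOF.  Take `tL, sL, lam` from SL1 and `P, h` from SL2, apply OPEN2 with `κ = ι = N × N × N`,
`y = x` and `z = 0`: `P (x,0) = 0` by the formula (all `tL 0 = 0`, `sL 0 = 0`, the two sums are
`x i j l`), `h (x,0) ≠ 0`, the Jacobian matrix is the identity matrix.  Get `F`.  Let `y` be
commutative and associative with `eval y F ≠ 0`; get `ξ` with `P (y,ξ) = 0`, `h (y, ξ) ≠ 0`.  Put
`g i j := δ_{ij} + tL ξ i j` (determinant `≠ 0`), `s := sL ξ`, `z := x + s`.  Then
(E) `Σ_m z i j m * g m l = Σ_m Σ_{m'} g i m * g j m' * y m m' l`.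
Symmetry of `y` gives `Σ_m (z i j m - z j i m) g m l = 0` for all `l`, so `z` is symmetric since
`g` is invertible.  Associativity of `z`: for all `q`,
`Σ_n (Σ_m z i j m z m l n) g n q = Σ_m z i j m Σ_{a,b} g m a g l b y a b q
  = Σ_{a,b} (Σ_{c,d} g i c g j d y c d a) g l b y a b q`, and in the same way
`Σ_n (Σ_m z j l m z i m n) g n q = Σ_{c,d,b,a} g i c g j d g l b (y d b a y c a q)`, equal by the
associativity `Σ_a y c d a y a b q = Σ_a y d b a y c a q` of `y`.  So `z` is associative.
Expanding `z = x + s`: `linAssoc x s + assoc2 s s = 0` (as `x` is associative) and `anti s = 0` (as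
`x` is symmetric).  Apply `lam`: `s = lam (linAssoc x s, anti s) = - lam (assoc2 s s, 0)`, that is
`s + lam (assoc2 (sL ξ) s, 0) = 0`, so `s = 0` by the second property of `h`.  Then (E) with
`z = x` is the claim, with `g` as matrix. -/
def StSL3 : Prop := ∀ (k : Type u) [Field k] [IsAlgClosed k] (N : Type) [Fintype N]
  [DecidableEq N] (x : N → N → N → k), CommAssoc x → CoordT1 x →
  ∃ F : MvPolynomial (N × N × N) k, eval (fun a : N × N × N => x a.1 a.2.1 a.2.2) F ≠ 0 ∧
    ∀ y : N → N → N → k, CommAssoc y → eval (fun a : N × N × N => y a.1 a.2.1 a.2.2) F ≠ 0 →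
      ∃ g : Matrix N N k, IsUnit g.det ∧
        ∀ i j l, ∑ m, x i j m * g m l = ∑ m, ∑ m', g i m * g j m' * y m m' l

/-- RIG (to prove: `theorem rig : StSL3.{u} → StRig.{u}`).  If all symmetric cocycles are
coboundaries then `A` is rigid.

PROOF.  `r := finrank k A`, `N := Fin r`.  Let `S` be the set of the polynomials `f` such that
every point `p` of `Alg_r` with `eval p.coord f ≠ 0` represents `A`.  If `f ∈ S` and
`eval p.coord f ≠ 0` then `p` represents `A`.  Conversely let `p0` represent `A` in the basis `b`,
`x := p0.mul`.  `CommAssoc x`: from `IsAlg`.  `CoordT1 x`: a table `s` defines the bilinear map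
`c (b i) (b j) = Σ_l s i j l • b l`; it is symmetric, and the cocycle identity on basis vectors
`b i, b j, b l`: `b_i c(b_j,b_l) - c(b_i b_j, b_l) + c(b_i, b_j b_l) - c(b_i,b_j) b_l` has `n`-th
coordinate `Σ_m s_{jlm} x_{imn} - Σ_m x_{ijm} s_{mln} + Σ_m x_{jlm} s_{imn} - Σ_m s_{ijm} x_{mln}
= - linAssoc x s i j l n = 0`; so `c` is a cocycle (trilinearity).  By `VanT1` there is `φ`; with
`φ (b i) = Σ_m t i m • b m` the identity `c a b = a φ b - φ (ab) + φ a b` on basis vectors is
`s = cob x t`.
SL3 gives `F`; put `f := rename Sum.inl F`.  Then `eval p0.coord f ≠ 0`.  `f ∈ S`: let `p` be a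
point with `eval p.coord f ≠ 0`, `y := p.mul`.  SL3 gives `g`.  Put
`b' l := Σ_m g⁻¹ l m • b m`, a basis of `A` (`Basis` from an invertible matrix, e.g.
`Basis.mk` or `b.map` of the linear automorphism with matrix `g⁻¹`); so `b m = Σ_l g m l • b' l`.
The relation of SL3 says `b_i b_j = Σ_m x i j m b_m = Σ_{m,m'} g i m g j m' Σ_l y m m' l • b' l`,
while `b_i b_j = Σ_{m,m'} g i m g j m' b'_m b'_{m'}`; multiplying with the inverse matrix twice
gives `b'_m b'_{m'} = Σ_l y m m' l • b' l`.  The element `u := Σ p.one i • b' i` satisfies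
`u * b' j = b' j` for all `j` by `IsAlg.unit`, so `u = 1`. -/
def StRig : Prop := ∀ (k : Type u) [Field k] [IsAlgClosed k] (A : Type u) [CommRing A]
  [Algebra k A] [Module.Finite k A], VanT1 k A → Helper47.Rig.Rigid k A

/-- EXT (no dependence).  A cocycle becomes a twisted derivation on a polynomial ring.

PROOF.  Let `E` be the type `A × A` (a structure wrapper) with componentwise addition and the
product `(a, m) (b, m') := (a b, a m' + b m + c a b)`, unit `(1, - c 1 1)`.  It is a commutative
ring: commutativity from `c a b = c b a`; associativity: the second component of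
`((a,m)(b,m'))(d,m'')` is `ab m'' + d (a m' + b m + c a b) + c (a b) d`, that of
`(a,m)((b,m')(d,m''))` is `a (b m'' + d m' + c b d) + b d m + c a (b d)`, and they agree by the
cocycle identity; unit: `(1, -c 1 1)(b, m') = (b, m' - b c 1 1 + c 1 b)` and `c 1 b = b * c 1 1`
(cocycle identity with `a = b = 1`: `c 1 d - c 1 d + c 1 d - c 1 1 * d = 0`).  It is a `k`-algebra
with `algebraMap r = r • 1` (`Algebra.ofModule` or a ring homomorphism `k → E`,
`r ↦ (r • 1, - r • c 1 1)`).  The projection to the first component is an algebra map.  Let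
`Ψ := aeval (fun i => (x i, 0)) : MvPolynomial ι k → E`.  Its first component is `aeval x`
(algebra maps agreeing on the variables), `ψ` is its second component. -/
def StExt : Prop := ∀ (k : Type u) [Field k] (A : Type u) [CommRing A] [Algebra k A]
  (c : A →ₗ[k] A →ₗ[k] A), IsCocycle c → ∀ (ι : Type) (x : ι → A),
  ∃ ψ : MvPolynomial ι k →ₗ[k] A, ∀ s t : MvPolynomial ι k,
    ψ (s * t) = aeval x s * ψ t + aeval x t * ψ s + c (aeval x s) (aeval x t)

/-- DUAL (no dependence).  Module maps from the ideal to the quotient are derivations.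

PROOF.  `S = MvPolynomial ι k`, `I = annI Φ`, `A = S ⧸ I`, `π` the quotient map.  `Φ` vanishes on
`I` (take `t = 1`), let `Φ' : A → k` be the induced functional.  It is nondegenerate: if
`Φ' (a * b) = 0` for all `b` then `a = 0` (definition of `I`).  As `A` is finite-dimensional, every
functional on `A` is `b ↦ Φ' (a * b)` for some `a` (the injective linear map `A → Dual k A` is
bijective by equality of dimensions).
Let `μ s := Φ' (λ s)` for `s ∈ I` and `D s := (fun i => π (pderiv i s))`, linear maps
`I → k`, `I → (ι → A)` over `k`.  If `D s = 0` then all `pderiv i s ∈ I`, so `s ∈ I ^ 2` by the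
hypothesis; and `λ` vanishes on `I ^ 2 = I * I`: it is spanned by products `a * b` with
`a, b ∈ I` and `λ (a * b) = a • λ b = π a * λ b = 0`.  So `ker D ≤ ker μ` and there is a linear
`ν : (ι → A) → k` with `μ = ν ∘ D` (linear algebra over a field).  Each functional
`b ↦ ν (Pi.single i b)` is `b ↦ Φ' (a i * b)`; so `Φ' (λ s) = Σ_i Φ' (a i * π (pderiv i s))` for
all `s ∈ I`.  For `t ∈ S`, `s ∈ I`: `Φ' (π t * λ s) = Φ' (λ (t * s))
= Σ_i Φ' (a i * π (pderiv i (t * s))) = Σ_i Φ' (a i * π t * π (pderiv i s))` since
`pderiv i (t * s) = t * pderiv i s + s * pderiv i t` and `π s = 0`.  By nondegeneracy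
`λ s = Σ_i a i * π (pderiv i s)`. -/
def StDual : Prop := ∀ (k : Type u) [Field k] (ι : Type) [Fintype ι]
  (Φ : MvPolynomial ι k →ₗ[k] k), Module.Finite k (MvPolynomial ι k ⧸ annI Φ) →
  SecondPower Φ →
  ∀ lam : (annI Φ) →ₗ[MvPolynomial ι k] (MvPolynomial ι k ⧸ annI Φ),
    ∃ a : ι → MvPolynomial ι k ⧸ annI Φ, ∀ s : annI Φ,
      lam s = ∑ i, a i * Ideal.Quotient.mk (annI Φ) (pderiv i (s : MvPolynomial ι k))

/-- T1 (to prove: `theorem t1 : StExt.{u} → StDual.{u} → StT1.{u}`).

PROOF.  `S = MvPolynomial ι k`, `I = annI Φ`, `A = S ⧸ I`, `π` the quotient map, which is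
`aeval x` for `x i = π (X i)`.  Let `c` be a symmetric cocycle, `ψ` from EXT.  For `s ∈ S`,
`t ∈ I`: `ψ (s * t) = π s * ψ t + π t * ψ s + c (π s) (π t) = π s * ψ t`, so `ψ` restricts to an
`S`-linear map `λ : I → A`.  By DUAL `λ t = Σ_i a i * π (pderiv i t)`.  Put
`ψ' s := ψ s - Σ_i a i * π (pderiv i s)`; by the Leibniz rule it satisfies the same identity
`ψ' (s t) = π s ψ' t + π t ψ' s + c (π s) (π t)` and vanishes on `I`; so it induces
`φ' : A → A` linear with `φ' (a b) = a φ' b + b φ' a + c a b`.  So `φ := -φ'` satisfies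
`a φ b - φ (ab) + φ a b = - a φ' b + φ' (a b) - φ' a b = c a b`. -/
def StT1 : Prop := ∀ (k : Type u) [Field k] (ι : Type) [Fintype ι]
  (Φ : MvPolynomial ι k →ₗ[k] k), Module.Finite k (MvPolynomial ι k ⧸ annI Φ) →
  SecondPower Φ → VanT1 k (MvPolynomial ι k ⧸ annI Φ)

/-- LOC (no dependence).  The algebra of a nonzero homogeneous functional of degree `4` is local,
finite-dimensional, of dimension at least two.

PROOF.  `Φ` vanishes on the homogeneous polynomials of degree `≠ 4`; so if `s` is homogeneous of
degree `d > 4` then `s ∈ I = annI Φ`: for `t` decompose `t` into homogeneous components, each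
`s * t_j` is homogeneous of degree `≥ 5`.  So `A = S ⧸ I` is spanned by the images of the finitely
many monomials of degree `≤ 4` (every polynomial is the sum of its monomials; those of degree
`≥ 5` are in `I`): `Module.Finite`.
Let `𝔪 ⊂ A` be the image of the polynomials with constant coefficient zero.  For `s` with constant
coefficient `0`, `s ^ 5` is a sum of monomials of degree `≥ 5`, so `π s` is nilpotent.  Every
element of `A` is `c + π s` with `c ∈ k` and `s` of this kind: if `c ≠ 0` it is a unit (unit plus
nilpotent), if `c = 0` it is nilpotent and not a unit (A is nontrivial: `Φ ≠ 0`, so `1 ∉ I`).  For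
`a`, either `a` or `1 - a` is a unit since one of the constants is nonzero; so `A` is local
(`IsLocalRing.of_isUnit_or_isUnit_one_sub_self`).
`2 ≤ finrank`: there is `t` homogeneous of degree `4` with `Φ t ≠ 0` (from `Φ (t0) ≠ 0` for some
`t0`, take the component of degree `4`), so `t ∉ I`; `1` and `π t` are linearly independent: if
`c + c' t ∈ I` then multiplying by `t`: `Φ (c t + c' t²) = c Φ t = 0` gives `c = 0`, then
`c' Φ t = 0`.  (`finrank ≤ 1` would contradict, e.g. via `LinearIndependent` cardinality.) -/
def StLoc : Prop := ∀ (k : Type u) [Field k] (ι : Type) [Fintype ι]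
  (Φ : MvPolynomial ι k →ₗ[k] k),
  (∀ (d : ℕ) (s : MvPolynomial ι k), s.IsHomogeneous d → d ≠ 4 → Φ s = 0) → Φ ≠ 0 →
  Module.Finite k (MvPolynomial ι k ⧸ annI Φ) ∧ IsLocalRing (MvPolynomial ι k ⧸ annI Φ) ∧
    2 ≤ Module.finrank k (MvPolynomial ι k ⧸ annI Φ)

end Helper49.RA
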