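import Mathlib
import Pool.Agent.Helper49.RA.StA

set_option autoImplicit false

/-!
Module T1 of the project RA (MP_16b052_ag): the combination of EXT and DUAL.
-/

namespace Helper49.RA

open MvPolynomial

universe u

namespace T1aux

/-- The aeval at the images of the variables is the quotient map. -/
private theorem aeval_mk {k : Type u} [Field k] {ι : Type} (I : Ideal (MvPolynomial ι k))
    (s : MvPolynomial ι k) :
    aeval (fun i => Ideal.Quotient.mk I (X i)) s = Ideal.Quotient.mk I s := by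
  have h : aeval (fun i => Ideal.Quotient.mk I (X i)) = Ideal.Quotient.mkₐ k I := by
    apply MvPolynomial.algHom_ext
    intro i
    rw [aeval_X]
    rfl
  rw [h]
  rfl

end T1aux

open T1aux in
theorem t1 : StExt.{u} → StDual.{u} → StT1.{u} := by
  intro hExt hDual k _ ι _ Φ hfin hSP c hc
  classical
  obtain ⟨ψ, hψ⟩ := hExt k (MvPolynomial ι k ⧸ annI Φ) c hc ι
    (fun i => Ideal.Quotient.mk (annI Φ) (X i))
  simp only [aeval_mk] at hψ
  have hπ0 : ∀ t ∈ annI Φ, Ideal.Quotient.mk (annI Φ) t = 0 := fun t ht =>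
    Ideal.Quotient.eq_zero_iff_mem.mpr ht
  -- the restriction to the ideal
  let lam : (annI Φ) →ₗ[MvPolynomial ι k] (MvPolynomial ι k ⧸ annI Φ) :=
    { toFun := fun t => ψ (t : MvPolynomial ι k)
      map_add' := fun a b => by
        simp only [Submodule.coe_add, map_add]
      map_smul' := fun s t => by
        have h1 : ((s • t : annI Φ) : MvPolynomial ι k) = s * (t : MvPolynomial ι k) := rfl
        rw [h1, hψ, hπ0 _ t.2, zero_mul, map_zero, add_zero, add_zero, RingHom.id_apply]
        obtain ⟨w, hw⟩ := Ideal.Quotient.mk_surjective (ψ (t : MvPolynomial ι k))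
        rw [← hw]
        rfl }
  obtain ⟨a, ha⟩ := hDual k ι Φ hfin hSP lam
  -- the corrected map
  let D : MvPolynomial ι k →ₗ[k] (MvPolynomial ι k ⧸ annI Φ) :=
    ∑ i, (LinearMap.mulLeft k (a i)) ∘ₗ (Ideal.Quotient.mkₐ k (annI Φ)).toLinearMap ∘ₗ
      (pderiv i).toLinearMap
  have hD : ∀ s, D s = ∑ i, a i * Ideal.Quotient.mk (annI Φ) (pderiv i s) := by
    intro s
    simp only [D, LinearMap.sum_apply]
    rfl
  let ψ' : MvPolynomial ι k →ₗ[k] (MvPolynomial ι k ⧸ annI Φ) := ψ - D
  have hψ' : ∀ s, ψ' s = ψ s - ∑ i, a i * Ideal.Quotient.mk (annI Φ) (pderiv i s) := by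
    intro s
    rw [← hD]
    rfl
  have hmul : ∀ s t, ψ' (s * t) = Ideal.Quotient.mk (annI Φ) s * ψ' t +
      Ideal.Quotient.mk (annI Φ) t * ψ' s +
      c (Ideal.Quotient.mk (annI Φ) s) (Ideal.Quotient.mk (annI Φ) t) := by
    intro s t
    rw [hψ', hψ', hψ', hψ]
    have h2 : ∑ i, a i * Ideal.Quotient.mk (annI Φ) (pderiv i (s * t)) =
        Ideal.Quotient.mk (annI Φ) s * (∑ i, a i * Ideal.Quotient.mk (annI Φ) (pderiv i t)) +
        Ideal.Quotient.mk (annI Φ) t * (∑ i, a i * Ideal.Quotient.mk (annI Φ) (pderiv i s)) := by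
      rw [Finset.mul_sum, Finset.mul_sum, ← Finset.sum_add_distrib]
      refine Finset.sum_congr rfl fun i _ => ?_
      rw [Derivation.leibniz, smul_eq_mul, smul_eq_mul, map_add, map_mul, map_mul]
      ring
    rw [h2]
    ring
  have hker : ∀ t ∈ annI Φ, ψ' t = 0 := by
    intro t ht
    have h3 := ha ⟨t, ht⟩
    rw [hψ', ← h3]
    exact sub_self _
  let φ' : (MvPolynomial ι k ⧸ annI Φ) →ₗ[k] (MvPolynomial ι k ⧸ annI Φ) :=
    { toFun := fun x => Quotient.liftOn' x (fun s => ψ' s) (by
        intro s t hst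
        have h4 : s - t ∈ annI Φ := (Submodule.quotientRel_def _).mp hst
        have h5 := hker _ h4
        rw [map_sub, sub_eq_zero] at h5
        exact h5)
      map_add' := by
        intro x y
        obtain ⟨s, rfl⟩ := Ideal.Quotient.mk_surjective x
        obtain ⟨t, rfl⟩ := Ideal.Quotient.mk_surjective y
        exact map_add ψ' s t
      map_smul' := by
        intro r x
        obtain ⟨s, rfl⟩ := Ideal.Quotient.mk_surjective x
        exact map_smul ψ' r s }
  have hφ' : ∀ s, φ' (Ideal.Quotient.mk (annI Φ) s) = ψ' s := fun s => rfl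
  refine ⟨-φ', fun x y => ?_⟩
  obtain ⟨s, rfl⟩ := Ideal.Quotient.mk_surjective x
  obtain ⟨t, rfl⟩ := Ideal.Quotient.mk_surjective y
  rw [LinearMap.neg_apply, LinearMap.neg_apply, LinearMap.neg_apply, ← map_mul, hφ', hφ', hφ',
    hmul]
  ring

end Helper49.RA
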