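import Pool.Agent.Helper49.RA.StB

/-!
Project RA (MP_16b052_ag), module TR: transfer of `Uniq` by the signed affine action of `v`.
-/

set_option autoImplicit false

namespace Helper49.RA

open MvPolynomial

universe u

namespace TRaux

section pair

variable {K : Type} [AddCommGroup K] [Fintype K] [DecidableEq K] {e : K → K → ℤ} (h : IsPair e)

include h

theorem addr (x y z : K) : e x (y + z) = e x y * e x z := by
  rw [h.symm x (y + z), h.addl, h.symm y, h.symm z]

theorem val (x y : K) : e x y = 1 ∨ e x y = -1 := by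
  have h1 := h.sq x y
  have h2 : (e x y - 1) * (e x y + 1) = 0 := by linear_combination h1
  rcases mul_eq_zero.1 h2 with h3 | h3
  · left; omega
  · right; omega

theorem bbval (a b : K × K) : bb e a b = 1 ∨ bb e a b = -1 := by
  unfold bb
  rcases val h a.1 b.2 with h1 | h1 <;> rcases val h a.2 b.1 with h2 | h2 <;> rw [h1, h2] <;> norm_num

theorem qqval (a : K × K) : qq e a = 1 ∨ qq e a = -1 := val h a.1 a.2

theorem bb_add (a b v : K × K) : bb e (a + b) v = bb e a v * bb e b v := by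
  unfold bb
  rw [Prod.fst_add, Prod.snd_add, h.addl, h.addl]; ring

theorem bb_self (v : K × K) : bb e v v = 1 := by
  unfold bb
  rw [h.symm v.2 v.1]
  exact h.sq _ _

theorem qq_add (a b : K × K) : qq e (a + b) = qq e a * qq e b * bb e a b := by
  unfold qq bb
  rw [Prod.fst_add, Prod.snd_add, h.addl, addr h, addr h, h.symm b.1 a.2]; ring

theorem two' (a : K × K) : a + a = 0 := Prod.ext (h.two a.1) (h.two a.2)

theorem qq_ta (v a : K × K) : qq e (ta e v a) = qq e a := by
  unfold ta
  split_ifs with h1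
  · rw [qq_add h, h1]
    have h2 : qq e v * qq e v = 1 := h.sq _ _
    linear_combination (qq e a) * h2
  · rfl

theorem ta_ta (v a : K × K) : ta e v (ta e v a) = a := by
  by_cases h1 : bb e a v = qq e v
  · have h2 : ta e v a = a + v := if_pos h1
    have h3 : bb e (a + v) v = qq e v := by rw [bb_add h, bb_self h, mul_one, h1]
    rw [h2]
    have h4 : ta e v (a + v) = a + v + v := if_pos h3
    rw [h4, add_assoc, two' h, add_zero]
  · have h2 : ta e v a = a := if_neg h1
    rw [h2, h2]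

theorem ta_add (v a b : K × K) : ta e v (a + tv e v b) = ta e v a + b := by
  have hq : qq e v ≠ - qq e v := by
    rcases qqval h v with h1 | h1 <;> rw [h1] <;> norm_num
  by_cases hb : bb e b v = 1
  · have h2 : tv e v b = b := if_pos hb
    have h3 : bb e (a + b) v = bb e a v := by rw [bb_add h, hb, mul_one]
    rw [h2]
    by_cases h1 : bb e a v = qq e v
    · have h4 : ta e v a = a + v := if_pos h1
      have h5 : ta e v (a + b) = a + b + v := if_pos (h3.trans h1)
      rw [h4, h5]; abel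
    · have h4 : ta e v a = a := if_neg h1
      have h5 : ta e v (a + b) = a + b := if_neg (fun h6 => h1 (h3.symm.trans h6))
      rw [h4, h5]
  · have h2 : tv e v b = b + v := if_neg hb
    have hb' : bb e b v = -1 := (bbval h b v).resolve_left hb
    have h3 : bb e (a + (b + v)) v = - bb e a v := by
      rw [bb_add h, bb_add h, bb_self h, hb']; ring
    rw [h2]
    by_cases h1 : bb e a v = qq e v
    · have h4 : ta e v a = a + v := if_pos h1
      have h5 : ta e v (a + (b + v)) = a + (b + v) := if_neg (fun h6 => by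
        rw [h3, h1] at h6; exact hq h6.symm)
      rw [h4, h5]; abel
    · have h4 : ta e v a = a := if_neg h1
      have h6 : bb e a v = - qq e v := by
        rcases bbval h a v with h7 | h7 <;> rcases qqval h v with h8 | h8 <;> rw [h7, h8] at h1 ⊢ <;>
          simp at h1 ⊢
      have h5 : ta e v (a + (b + v)) = a + (b + v) + v := if_pos (by rw [h3, h6, neg_neg])
      rw [h4, h5, add_assoc, add_assoc, two' h, add_zero]

end pair

section poly

variable {k : Type u} [Field k] {K : Type} [AddCommGroup K] [Fintype K] [DecidableEq K]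
  {e : K → K → ℤ}

/-- the sign as an element of the field -/
def ek (k : Type u) [Field k] (e : K → K → ℤ) (x y : K) : k := ((e x y : ℤ) : k)

omit [Fintype K] [DecidableEq K] [AddCommGroup K] in
theorem ek_eq (x y : K) : ((e x y : ℤ) : k) = ek k e x y := rfl

/-- the substitution -/
noncomputable def Uw (e : K → K → ℤ) (v : K × K) (w : k) :
    MvPolynomial K k →ₐ[k] MvPolynomial K k :=
  aeval fun j => X j + C (w * ek k e v.2 j) * X (j + v.1)

/-- the factor -/
def kap (e : K → K → ℤ) (v : K × K) (w : k) (a : K × K) : k :=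
  if bb e a v = qq e v then 2 * w * ((ss e v a : ℤ) : k) else 2

variable (h : IsPair e)
include h

theorem ekl (x y z : K) : ek k e (x + y) z = ek k e x z * ek k e y z := by
  unfold ek; rw [h.addl]; push_cast; ring

theorem ekr (x y z : K) : ek k e x (y + z) = ek k e x y * ek k e x z := by
  unfold ek; rw [addr h]; push_cast; ring

theorem eksq (x y : K) : ek k e x y * ek k e x y = 1 := by
  unfold ek; exact_mod_cast congrArg (Int.cast : ℤ → k) (h.sq x y)

theorem eksymm (x y : K) : ek k e x y = ek k e y x := by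
  unfold ek; rw [h.symm]

theorem U_pp_aux (v : K × K) (w : k) (a : K × K) :
    Uw e v w (pp k e a) =
      C (1 + w * w * (ek k e v.2 a.1 * ek k e a.2 v.1)) * pp k e a +
        C (w * (ek k e a.2 v.1 * ek k e v.2 v.1 + ek k e v.2 a.1)) * pp k e (a + v) := by
  have hshift : ∀ j : K, j + v.1 + v.1 = j := fun j => by rw [add_assoc, h.two, add_zero]
  unfold pp
  rw [map_sum]
  have step : ∀ j : K, Uw e v w (C ((e a.2 j : ℤ) : k) * (X (j + a.1) * X j)) =
      C (ek k e a.2 j) * (X (j + a.1) * X j) +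
      C (w * ek k e v.2 a.1) * (C (ek k e (a.2 + v.2) j) * (X (j + (a.1 + v.1)) * X j)) +
      (C (w * ek k e a.2 j * ek k e v.2 j) * (X (j + a.1) * X (j + v.1)) +
      C (w * w * ek k e v.2 a.1 * ek k e a.2 j) * (X (j + a.1 + v.1) * X (j + v.1))) := by
    intro j
    rw [map_mul, map_mul, Uw, aeval_X, aeval_X, algHom_C, algebraMap_eq, ek_eq,
      ekl h a.2 v.2 j, ekr h v.2 j a.1, show j + (a.1 + v.1) = j + a.1 + v.1 by abel]
    have h1 := eksq (k := k) h v.2 j
    have h2 : (C (ek k e v.2 j) : MvPolynomial K k) * C (ek k e v.2 j) = 1 := by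
      rw [← C_mul, h1, C_1]
    simp only [C_mul]
    linear_combination (C w * C w * C (ek k e a.2 j) * C (ek k e v.2 a.1) * X (j + a.1 + v.1) *
      X (j + v.1)) * h2
  rw [Finset.sum_congr rfl fun j _ => step j, Finset.sum_add_distrib, Finset.sum_add_distrib]
  have h3 : ∑ j : K, (C (w * ek k e a.2 j * ek k e v.2 j) * (X (j + a.1) * X (j + v.1)) +
      C (w * w * ek k e v.2 a.1 * ek k e a.2 j) * (X (j + a.1 + v.1) * X (j + v.1))) =
      ∑ j : K, (C (w * (ek k e a.2 v.1 * ek k e v.2 v.1)) * (C (ek k e (a.2 + v.2) j) *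
        (X (j + (a.1 + v.1)) * X j)) +
      C (w * w * (ek k e v.2 a.1 * ek k e a.2 v.1)) * (C (ek k e a.2 j) * (X (j + a.1) * X j))) := by
    refine Fintype.sum_equiv (Equiv.addRight v.1) _ _ ?_
    intro j
    change _ = C (w * (ek k e a.2 v.1 * ek k e v.2 v.1)) * (C (ek k e (a.2 + v.2) (j + v.1)) *
        (X (j + v.1 + (a.1 + v.1)) * X (j + v.1))) +
      C (w * w * (ek k e v.2 a.1 * ek k e a.2 v.1)) * (C (ek k e a.2 (j + v.1)) *
        (X (j + v.1 + a.1) * X (j + v.1)))
    have h5 : j + v.1 + (a.1 + v.1) = j + a.1 := by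
      rw [show j + v.1 + (a.1 + v.1) = j + a.1 + v.1 + v.1 by abel, hshift]
    have h6 : j + v.1 + a.1 = j + a.1 + v.1 := by abel
    rw [h5, h6, ekl h a.2 v.2, ekr h a.2 j v.1, ekr h v.2 j v.1]
    have h1 := eksq (k := k) h a.2 v.1
    have h2 := eksq (k := k) h v.2 v.1
    have h7 : (C (ek k e a.2 v.1) : MvPolynomial K k) * C (ek k e a.2 v.1) = 1 := by
      rw [← C_mul, h1, C_1]
    have h8 : (C (ek k e v.2 v.1) : MvPolynomial K k) * C (ek k e v.2 v.1) = 1 := by
      rw [← C_mul, h2, C_1]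
    simp only [C_mul]
    linear_combination (- C w * C (ek k e a.2 j) * C (ek k e v.2 j) * X (j + a.1) * X (j + v.1) *
      C (ek k e a.2 v.1) * C (ek k e a.2 v.1)) * h8 -
      (C w * C (ek k e a.2 j) * C (ek k e v.2 j) * X (j + a.1) * X (j + v.1)) * h7 -
      (C w * C w * C (ek k e v.2 a.1) * C (ek k e a.2 j) * X (j + a.1 + v.1) * X (j + v.1)) * h7
  rw [h3, Finset.sum_add_distrib, ← Finset.mul_sum, ← Finset.mul_sum, ← Finset.mul_sum]
  simp only [ek_eq, Prod.fst_add, Prod.snd_add]
  simp only [C_mul, C_add, C_1]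
  ring

theorem bbk (a v : K × K) : ((bb e a v : ℤ) : k) = ek k e v.2 a.1 * ek k e a.2 v.1 := by
  unfold bb
  rw [Int.cast_mul, ek_eq, ek_eq, eksymm h a.1 v.2]

theorem qqk (v : K × K) : ((qq e v : ℤ) : k) = ek k e v.2 v.1 := by
  unfold qq
  rw [ek_eq, eksymm h v.1 v.2]

omit h [AddCommGroup K] [Fintype K] [DecidableEq K] in
theorem ssk (a b : K × K) : ((ss e a b : ℤ) : k) = ek k e a.2 b.1 := rfl

theorem qq2 (v : K × K) : ek k e v.2 v.1 * ek k e v.2 v.1 = 1 := eksq h _ _

theorem bb_neg (v a : K × K) (h1 : bb e a v ≠ qq e v) : bb e a v = - qq e v := by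
  rcases bbval h a v with h7 | h7 <;> rcases qqval h v with h8 | h8 <;> rw [h7, h8] at h1 ⊢ <;>
    simp at h1 ⊢

theorem U_pp (v : K × K) (w : k) (hw : w * w = - ((qq e v : ℤ) : k)) (a : K × K) :
    Uw e v w (pp k e a) = C (kap e v w a) * pp k e (ta e v a) := by
  rw [U_pp_aux h, hw, ← bbk h a v]
  have h2 : ek k e v.2 v.1 * ek k e v.2 v.1 = 1 := qq2 h v
  have h9 : ek k e a.2 v.1 * ek k e a.2 v.1 = 1 := eksq h _ _
  by_cases h1 : bb e a v = qq e v
  · have h4 : ta e v a = a + v := if_pos h1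
    have h5 : kap e v w a = 2 * w * ((ss e v a : ℤ) : k) := if_pos h1
    have h6 : ek k e v.2 a.1 * ek k e a.2 v.1 = ek k e v.2 v.1 := by
      rw [← bbk h a v, h1, qqk h v]
    have h7 : ek k e a.2 v.1 * ek k e v.2 v.1 = ek k e v.2 a.1 := by
      linear_combination (-ek k e a.2 v.1) * h6 + (ek k e v.2 a.1) * h9
    rw [h1, qqk h v, h7, h4, h5, ssk]
    have h8 : (1 : k) + -(ek k e v.2 v.1) * ek k e v.2 v.1 = 0 := by linear_combination -h2
    have h10 : w * (ek k e v.2 a.1 + ek k e v.2 a.1) = 2 * w * ek k e v.2 a.1 := by ring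
    rw [h8, h10, C_0, zero_mul, zero_add]
  · have h4 : ta e v a = a := if_neg h1
    have h5 : kap e v w a = 2 := if_neg h1
    have h1' := bb_neg h v a h1
    have h6 : ek k e v.2 a.1 * ek k e a.2 v.1 = - ek k e v.2 v.1 := by
      rw [← bbk h a v, h1', Int.cast_neg, qqk h v]
    have h7 : ek k e a.2 v.1 * ek k e v.2 v.1 + ek k e v.2 a.1 = 0 := by
      linear_combination (ek k e a.2 v.1) * h6 - (ek k e v.2 a.1) * h9
    rw [h1', Int.cast_neg, qqk h v, h7, h4, h5]
    have h8 : (1 : k) + -(ek k e v.2 v.1) * -ek k e v.2 v.1 = 2 := by linear_combination h2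
    rw [h8, mul_zero, C_0, zero_mul, add_zero]

theorem kap_ne (h2 : (2 : k) ≠ 0) (v : K × K) (w : k) (hw : w * w = - ((qq e v : ℤ) : k))
    (a : K × K) : kap e v w a ≠ 0 := by
  unfold kap
  split_ifs
  · have h3 : w ≠ 0 := by
      rintro rfl
      have h4 : ek k e v.2 v.1 * ek k e v.2 v.1 = 1 := qq2 h v
      rw [qqk h v] at hw
      have h5 : ek k e v.2 v.1 = 0 := by linear_combination hw
      rw [h5, zero_mul] at h4
      exact zero_ne_one h4
    have h6 : ((ss e v a : ℤ) : k) ≠ 0 := by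
      rw [ssk]
      intro h7
      have h8 : ek k e v.2 a.1 * ek k e v.2 a.1 = 1 := eksq h _ _
      rw [h7, zero_mul] at h8
      exact zero_ne_one h8
    exact mul_ne_zero (mul_ne_zero h2 h3) h6
  · exact h2

theorem kap_mul (v : K × K) (w : k) (hw : w * w = - ((qq e v : ℤ) : k)) (a : K × K) :
    kap e v w a * kap e v (-w) (ta e v a) = 4 := by
  have h2 : ek k e v.2 v.1 * ek k e v.2 v.1 = 1 := qq2 h v
  by_cases h1 : bb e a v = qq e v
  · have h4 : ta e v a = a + v := if_pos h1
    have h5 : kap e v w a = 2 * w * ((ss e v a : ℤ) : k) := if_pos h1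
    have h3 : bb e (a + v) v = qq e v := by rw [bb_add h, bb_self h, mul_one, h1]
    have h6 : kap e v (-w) (a + v) = 2 * (-w) * ((ss e v (a + v) : ℤ) : k) := if_pos h3
    rw [h4, h5, h6, ssk, ssk, Prod.fst_add, ekr h]
    rw [qqk h v] at hw
    have h8 : ek k e v.2 a.1 * ek k e v.2 a.1 = 1 := eksq h _ _
    linear_combination (-4 * ek k e v.2 a.1 * ek k e v.2 a.1 * ek k e v.2 v.1) * hw +
      (4 * ek k e v.2 v.1 * ek k e v.2 v.1) * h8 + 4 * h2
  · have h4 : ta e v a = a := if_neg h1
    have h5 : kap e v w a = 2 := if_neg h1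
    have h6 : kap e v (-w) a = 2 := if_neg h1
    rw [h4, h5, h6]; norm_num

theorem U_U (v : K × K) (w : k) (hw : w * w = - ((qq e v : ℤ) : k)) (a : K × K) :
    Uw e v (-w) (Uw e v w (pp k e a)) = C 4 * pp k e a := by
  have hw' : -w * -w = - ((qq e v : ℤ) : k) := by rw [neg_mul_neg, hw]
  rw [U_pp h v w hw, map_mul, U_pp h v (-w) hw', algHom_C, algebraMap_eq, ta_ta h, ← mul_assoc,
    ← C_mul, kap_mul h v w hw]

/-- the sign identity -/
theorem sign (v b : K × K) (w : k) (hw : w * w = - ((qq e v : ℤ) : k)) : ∃ μ : k, ∀ a : K × K,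
    4 * kap e v w a * ((ss e b (ta e v a) : ℤ) : k) =
      μ * ((ss e (tv e v b) a : ℤ) : k) * kap e v w (a + tv e v b) := by
  have hq : qq e v ≠ - qq e v := by
    rcases qqval h v with h1 | h1 <;> rw [h1] <;> norm_num
  rw [qqk h v] at hw
  have h2 : ek k e v.2 v.1 * ek k e v.2 v.1 = 1 := qq2 h v
  by_cases hb : bb e b v = 1
  · have h0 : tv e v b = b := if_pos hb
    refine ⟨4, fun a => ?_⟩
    have h3 : bb e (a + b) v = bb e a v := by rw [bb_add h, hb, mul_one]
    have hbk : ek k e v.2 b.1 * ek k e b.2 v.1 = 1 := by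
      rw [← bbk h b v, hb, Int.cast_one]
    have hs : ek k e v.2 b.1 * ek k e v.2 b.1 = 1 := eksq h _ _
    rw [h0]
    by_cases h1 : bb e a v = qq e v
    · have h4 : ta e v a = a + v := if_pos h1
      have h5 : kap e v w a = 2 * w * ((ss e v a : ℤ) : k) := if_pos h1
      have h6 : kap e v w (a + b) = 2 * w * ((ss e v (a + b) : ℤ) : k) := if_pos (h3.trans h1)
      rw [h4, h5, h6, ssk, ssk, ssk, ssk, Prod.fst_add, Prod.fst_add, ekr h, ekr h]
      linear_combination (8 * w * ek k e v.2 a.1 * ek k e b.2 a.1 * ek k e v.2 b.1) * hbk -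
        (8 * w * ek k e v.2 a.1 * ek k e b.2 a.1 * ek k e b.2 v.1) * hs
    · have h4 : ta e v a = a := if_neg h1
      have h5 : kap e v w a = 2 := if_neg h1
      have h6 : kap e v w (a + b) = 2 := if_neg (fun h7 => h1 (h3.symm.trans h7))
      rw [h4, h5, h6]; ring
  · have h0 : tv e v b = b + v := if_neg hb
    have hb' : bb e b v = -1 := (bbval h b v).resolve_left hb
    have hbk : ek k e v.2 b.1 * ek k e b.2 v.1 = -1 := by
      rw [← bbk h b v, hb', Int.cast_neg, Int.cast_one]
    refine ⟨4 * w * ((ss e b v : ℤ) : k), fun a => ?_⟩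
    have h3 : bb e (a + (b + v)) v = - bb e a v := by
      rw [bb_add h, bb_add h, bb_self h, hb']; ring
    have hs : ek k e v.2 a.1 * ek k e v.2 a.1 = 1 := eksq h _ _
    rw [h0]
    by_cases h1 : bb e a v = qq e v
    · have h4 : ta e v a = a + v := if_pos h1
      have h5 : kap e v w a = 2 * w * ((ss e v a : ℤ) : k) := if_pos h1
      have h6 : kap e v w (a + (b + v)) = 2 := if_neg (fun h6 => by
        rw [h3, h1] at h6; exact hq h6.symm)
      rw [h4, h5, h6, ssk, ssk, ssk, ssk, Prod.fst_add, Prod.snd_add, ekr h, ekl h]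
      ring
    · have h4 : ta e v a = a := if_neg h1
      have h5 : kap e v w a = 2 := if_neg h1
      have h7 := bb_neg h v a h1
      have h6 : kap e v w (a + (b + v)) = 2 * w * ((ss e v (a + (b + v)) : ℤ) : k) :=
        if_pos (by rw [h3, h7, neg_neg])
      rw [h4, h5, h6, ssk, ssk, ssk, ssk, Prod.fst_add, Prod.fst_add, Prod.snd_add, ekr h, ekr h,
        ekl h]
      linear_combination (-8 * ek k e b.2 v.1 * ek k e b.2 a.1 * ek k e v.2 a.1 *
          ek k e v.2 a.1 * ek k e v.2 b.1 * ek k e v.2 v.1) * hw +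
        (8 * ek k e b.2 v.1 * ek k e b.2 a.1 * ek k e v.2 b.1 * ek k e v.2 v.1 *
          ek k e v.2 v.1) * hs +
        (8 * ek k e b.2 v.1 * ek k e b.2 a.1 * ek k e v.2 b.1) * h2 +
        (8 * ek k e b.2 a.1) * hbk

theorem kap_sq (v : K × K) (w : k) (hw : w * w = - ((qq e v : ℤ) : k)) (f : K × K → ℤ)
    (a : K × K) : kap e v w a * kap e v w a * ((f (ta e v a) : ℤ) : k) =
      4 * ((tf e v f a : ℤ) : k) := by
  by_cases h1 : bb e a v = qq e v
  · have h4 : ta e v a = a + v := if_pos h1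
    have h5 : kap e v w a = 2 * w * ((ss e v a : ℤ) : k) := if_pos h1
    have h6 : tf e v f a = - qq e v * f (a + v) := if_pos h1
    have h8 : ek k e v.2 a.1 * ek k e v.2 a.1 = 1 := eksq h _ _
    rw [h4, h5, h6, ssk, Int.cast_mul, Int.cast_neg]
    linear_combination (4 * ek k e v.2 a.1 * ek k e v.2 a.1 * ((f (a + v) : ℤ) : k)) * hw -
      (4 * ((qq e v : ℤ) : k) * ((f (a + v) : ℤ) : k)) * h8
  · have h4 : ta e v a = a := if_neg h1
    have h5 : kap e v w a = 2 := if_neg h1
    have h6 : tf e v f a = f a := if_neg h1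
    rw [h4, h5, h6]; ring

theorem tf_zero (v : K × K) (f : K × K → ℤ) (a : K × K) (hf : f a = 0) :
    tf e v f (ta e v a) = 0 := by
  by_cases h1 : bb e a v = qq e v
  · have h4 : ta e v a = a + v := if_pos h1
    have h3 : bb e (a + v) v = qq e v := by rw [bb_add h, bb_self h, mul_one, h1]
    have h6 : tf e v f (a + v) = - qq e v * f (a + v + v) := if_pos h3
    rw [h4, h6, add_assoc, two' h, add_zero, hf, mul_zero]
  · have h4 : ta e v a = a := if_neg h1
    have h6 : tf e v f a = f a := if_neg h1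
    rw [h4, h6, hf]

end poly

end TRaux

theorem tR : StTR.{u} := by
  intro k _ K _ _ _ e h h2 f v b w hw H G hG
  set b' := tv e v b with hb'
  have hadd : ∀ a, TRaux.Uw e v (-w) (TRaux.Uw e v w (pp k e a * pp k e (a + b'))) =
      C 16 * (pp k e a * pp k e (a + b')) := by
    intro a
    rw [map_mul, map_mul, TRaux.U_U h v w hw, TRaux.U_U h v w hw]
    have : (C 16 : MvPolynomial K k) = C 4 * C 4 := by rw [← C_mul]; norm_num
    rw [this]; ring
  have hval : ∀ a, 16 * G (pp k e a * pp k e (a + b')) =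
      TRaux.kap e v w a * TRaux.kap e v w (a + b') *
        (G ∘ₗ (TRaux.Uw e v (-w)).toLinearMap)
          (pp k e (ta e v a) * pp k e (ta e v a + b)) := by
    intro a
    have h3 := hadd a
    rw [map_mul (TRaux.Uw e v w), TRaux.U_pp h v w hw, TRaux.U_pp h v w hw,
      TRaux.ta_add h v a b] at h3
    have h4 : C (TRaux.kap e v w a) * pp k e (ta e v a) *
        (C (TRaux.kap e v w (a + b')) * pp k e (ta e v a + b)) =
        (TRaux.kap e v w a * TRaux.kap e v w (a + b')) •
          (pp k e (ta e v a) * pp k e (ta e v a + b)) := by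
      rw [smul_eq_C_mul, C_mul]; ring
    rw [h4, map_smul, ← smul_eq_C_mul] at h3
    have h5 := congrArg G h3
    rw [map_smul, map_smul, smul_eq_mul, smul_eq_mul] at h5
    rw [LinearMap.comp_apply, AlgHom.toLinearMap_apply, h5]
  obtain ⟨c0, hc0⟩ := H (G ∘ₗ (TRaux.Uw e v (-w)).toLinearMap) (by
    intro c hqc hqcb hfc hfcb
    have h3 := hval (ta e v c)
    have h4 : ta e v (ta e v c + b') = c + b := by
      rw [hb', TRaux.ta_add h, TRaux.ta_ta h]
    have h5 : ta e v (c + b) = ta e v c + b' := by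
      rw [← h4, TRaux.ta_ta h]
    rw [hG (ta e v c) (by rw [TRaux.qq_ta h, hqc]) (by rw [← h5, TRaux.qq_ta h, hqcb])
      (TRaux.tf_zero h v f c hfc) (by rw [← h5]; exact TRaux.tf_zero h v f _ hfcb), mul_zero,
      TRaux.ta_ta h] at h3
    rcases mul_eq_zero.1 h3.symm with h6 | h6
    · rcases mul_eq_zero.1 h6 with h7 | h7
      · exact absurd h7 (TRaux.kap_ne h h2 v w hw _)
      · exact absurd h7 (TRaux.kap_ne h h2 v w hw _)
    · exact h6)
  obtain ⟨μ, hμ⟩ := TRaux.sign h v b w hw
  refine ⟨c0 * μ / 16, fun a hqa hqab => ?_⟩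
  have h3 := hval a
  rw [hc0 (ta e v a) (by rw [TRaux.qq_ta h, hqa]) (by
    rw [← TRaux.ta_add h, TRaux.qq_ta h, hqab])] at h3
  have h4 := hμ a
  have h5 := hμ (a + b')
  have h6 : a + b' + b' = a := by rw [add_assoc, TRaux.two' h, add_zero]
  rw [← hb'] at h4 h5
  rw [h6] at h5
  have h7 := TRaux.kap_sq h v w hw f a
  have h8 := TRaux.kap_sq h v w hw f (a + b')
  have h9 : ta e v (a + b') = ta e v a + b := TRaux.ta_add h v a b
  rw [h9] at h5 h8
  have h16 : (16 : k) ≠ 0 := by
    have : (16 : k) = 2 * 2 * 2 * 2 := by norm_num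
    rw [this]; exact mul_ne_zero (mul_ne_zero (mul_ne_zero h2 h2) h2) h2
  have h4' : (4 : k) ≠ 0 := by
    have : (4 : k) = 2 * 2 := by norm_num
    rw [this]; exact mul_ne_zero h2 h2
  unfold dd at h3 ⊢
  push_cast at h3 ⊢
  rw [div_mul_eq_mul_div, eq_div_iff h16]
  apply mul_left_cancel₀ h4'
  linear_combination 4 * h3 + (c0 * TRaux.kap e v w (a + b') * ((f (ta e v a + b) : ℤ) : k)) * h4 +
    (c0 * TRaux.kap e v w a * ((f (ta e v a) : ℤ) : k)) * h5 +
    (c0 * μ * ((ss e b' a : ℤ) : k)) * h8 + (c0 * μ * ((ss e b' (a + b') : ℤ) : k)) * h7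

end Helper49.RA
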