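import Pool.Agent.Helper49.RA.M_CL

/-! RA module UB: from `Uniq` for a transformed word at the transformed place back to the word. -/

namespace Helper49.RA

universe u

/-- The word on `K6 × K6` with given values on codes. -/
def wordOf (F : ℕ → ℤ) (a : K6 × K6) : ℤ := F (decE a)

namespace UBaux

open CLaux

theorem wordOf_enc (hBR : BRfacts) (F : ℕ → ℤ) (a : ℕ) (ha : a < 4096) :
    wordOf F (encE a) = F a := by
  unfold wordOf; rw [hBR.enc a ha]

theorem wordOf_tf (hBR : BRfacts) (F : ℕ → ℤ) (v : ℕ) (hv : v < 4096) :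
    wordOf (tfN v F) = tf e6 (encE v) (wordOf F) := by
  funext a
  obtain ⟨h1, h2⟩ := hBR.dec a
  rw [← h2, tf_enc hBR (wordOf F) F (wordOf_enc hBR F) v hv _ h1, wordOf_enc hBR _ _ h1]

section Inv

variable {K : Type} [AddCommGroup K] [Fintype K] [DecidableEq K] {e : K → K → ℤ}

theorem bb_self (he : IsPair e) (v : K × K) : bb e v v = 1 := by
  unfold bb; rw [he.symm v.2 v.1]; exact he.sq _ _

theorem bb_addl (he : IsPair e) (a v : K × K) : bb e (a + v) v = bb e a v := by
  have h := bb_self he v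
  unfold bb at *
  simp only [Prod.fst_add, Prod.snd_add, he.addl]
  linear_combination (e a.1 v.2 * e a.2 v.1) * h

theorem add_add_self (he : IsPair e) (a v : K × K) : a + v + v = a := by
  rw [add_assoc]
  have : v + v = 0 := by
    ext
    · exact he.two _
    · exact he.two _
  rw [this, add_zero]

theorem qq_sq (he : IsPair e) (v : K × K) : qq e v * qq e v = 1 := he.sq _ _

theorem tf_tf (he : IsPair e) (v : K × K) (f : K × K → ℤ) : tf e v (tf e v f) = f := by
  funext a
  unfold tf
  by_cases h : bb e a v = qq e v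
  · rw [if_pos h, bb_addl he, if_pos h, add_add_self he]
    have := qq_sq he v
    linear_combination (f a) * this
  · rw [if_neg h, if_neg h]

theorem tv_tv (he : IsPair e) (v b : K × K) : tv e v (tv e v b) = b := by
  unfold tv
  by_cases h : bb e b v = 1
  · rw [if_pos h, if_pos h]
  · rw [if_neg h, bb_addl he, if_neg h, add_add_self he]

end Inv

theorem back (hTR : StTR.{u}) (hBR : BRfacts) (k : Type u) [Field k] [IsAlgClosed k]
    (h2 : (2 : k) ≠ 0) (f : K6 × K6 → ℤ) (v b : K6 × K6)
    (h : Uniq k e6 (tf e6 v f) (tv e6 v b)) : Uniq k e6 f b := by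
  obtain ⟨w, hw⟩ := IsAlgClosed.exists_pow_nat_eq (- ((qq e6 v : ℤ) : k))
    (n := 2) (by norm_num)
  have h3 := hTR k K6 e6 hBR.pair h2 (tf e6 v f) v (tv e6 v b) w (by rw [← hw]; ring) h
  rwa [tf_tf hBR.pair, tv_tv hBR.pair] at h3

end UBaux

open UBaux CLaux in
/-- From the transformed word back. -/
theorem uB (hTR : StTR.{u}) (hBR : BRfacts) (k : Type u) [Field k] [IsAlgClosed k]
    (h2 : (2 : k) ≠ 0) (l : List ℕ) (hl : ∀ v ∈ l, v < 4096) :
    ∀ (F : ℕ → ℤ) (b : ℕ), b < 4096 →
      Uniq k e6 (wordOf (tfsN l F)) (encE (tvsN l b)) → Uniq k e6 (wordOf F) (encE b) := by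
  induction l with
  | nil => intro F b _ h; exact h
  | cons v l ih =>
    intro F b hb h
    have hv : v < 4096 := hl v (by simp)
    have h3 := ih (fun w hw => hl w (by simp [hw])) (tfN v F) (tvN v b) (tvN_lt hBR v b hv hb) h
    rw [wordOf_tf hBR F v hv, ← hBR.tv v b hv hb] at h3
    exact back hTR hBR k h2 _ _ _ h3

end Helper49.RA
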