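import Pool.Agent.Helper49.RA.StB

/-!
Project RA (MP_16b052_ag), module XX: Fourier inversion for the products of two variables.
-/

namespace Helper49.RA

open MvPolynomial

universe u

namespace XXaux

variable {K : Type} [AddCommGroup K] [Fintype K] [DecidableEq K] {e : K → K → ℤ}

lemma orth (he : IsPair e) (j l : K) :
    ∑ v, e v j * e v l = if l = j then (Fintype.card K : ℤ) else 0 := by
  have h1 : ∀ v, e v j * e v l = e (l + j) v := by
    intro v
    rw [he.addl, he.symm v j, he.symm v l, mul_comm]
  rw [Finset.sum_congr rfl fun v _ => h1 v, he.sum]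
  have h2 : l + j = 0 ↔ l = j := by
    constructor
    · intro h
      have h3 : l + j + j = j := by rw [h, zero_add]
      rwa [add_assoc, he.two, add_zero] at h3
    · rintro rfl
      exact he.two l
  simp only [h2]

end XXaux

theorem xX : StXX.{u} := by
  intro k _ K _ _ _ e he i j
  have h1 : ∀ v : K, C ((e v j : ℤ) : k) * pp k e (i + j, v) =
      ∑ l, C (((e v j * e v l : ℤ)) : k) * (X (l + (i + j)) * X l) := by
    intro v
    rw [pp, Finset.mul_sum]
    refine Finset.sum_congr rfl fun l _ => ?_
    rw [Int.cast_mul, C_mul, mul_assoc]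
  rw [Finset.sum_congr rfl fun v _ => h1 v, Finset.sum_comm]
  have h2 : ∀ l : K, ∑ v, C (((e v j * e v l : ℤ)) : k) * (X (l + (i + j)) * X l) =
      C (((if l = j then (Fintype.card K : ℤ) else 0 : ℤ)) : k) *
        (X (l + (i + j)) * X l : MvPolynomial K k) := by
    intro l
    rw [← Finset.sum_mul, ← map_sum, ← Int.cast_sum, XXaux.orth he]
  rw [Finset.sum_congr rfl fun l _ => h2 l, Finset.sum_eq_single j]
  · have h3 : j + (i + j) = i := by
      rw [add_comm i j, ← add_assoc, he.two, zero_add]
    rw [if_pos rfl, h3, Int.cast_natCast]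
  · intro l _ hl
    rw [if_neg hl, Int.cast_zero, C_0, zero_mul]
  · intro h
    exact absurd (Finset.mem_univ j) h

end Helper49.RA
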