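import Pool.Agent.Helper49.RA.StB

set_option autoImplicit false

namespace Helper49.RA

open MvPolynomial

universe u

namespace ZIaux

variable {k : Type u} [Field k] {K : Type}

theorem decomp (t : MvPolynomial K k) :
    t = ∑ i ∈ Finset.range (t.totalDegree + 1), homogeneousComponent i t :=
  (sum_homogeneousComponent t).symm

theorem memAnn (Φ : MvPolynomial K k →ₗ[k] k) (s : MvPolynomial K k)
    (h : ∀ (j : ℕ) (t : MvPolynomial K k), t.IsHomogeneous j → Φ (s * t) = 0) :
    s ∈ annI Φ := by
  show ∀ t, Φ (s * t) = 0
  intro t
  rw [decomp t, Finset.mul_sum, map_sum]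
  exact Finset.sum_eq_zero fun i _ => h i _ (homogeneousComponent_isHomogeneous i t)

theorem annMem {Φ : MvPolynomial K k →ₗ[k] k} {s : MvPolynomial K k} (h : s ∈ annI Φ)
    (t : MvPolynomial K k) : Φ (s * t) = 0 := h t

theorem hom0 (t : MvPolynomial K k) (ht : t.IsHomogeneous 0) : ∃ c : k, t = C c := by
  refine ⟨coeff 0 t, ?_⟩
  by_cases h0 : t = 0
  · rw [h0]; simp
  · exact (totalDegree_eq_zero_iff_eq_C).1 (ht.totalDegree h0)

theorem gen (W : Submodule k (MvPolynomial K k)) (d : ℕ)
    (hW : ∀ (y : K) (t : MvPolynomial K k), t.IsHomogeneous d → X y * t ∈ W)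
    (s : MvPolynomial K k) (hs : s.IsHomogeneous (d + 1)) : s ∈ W := by
  classical
  rw [s.as_sum]
  refine Submodule.sum_mem W fun m hm => ?_
  have hdeg : m.degree = d + 1 := by
    have h1 := hs (mem_support_iff.1 hm)
    rw [← h1, Finsupp.degree_eq_weight_one]
    rfl
  have hm0 : m ≠ 0 := by
    intro h
    rw [h] at hdeg
    simp at hdeg
  obtain ⟨y, hy⟩ : ∃ y, m y ≠ 0 := by
    by_contra hcon
    push Not at hcon
    exact hm0 (Finsupp.ext hcon)
  have hle : Finsupp.single y 1 ≤ m := by
    rw [Finsupp.single_le_iff]
    omega
  have hsplit : Finsupp.single y 1 + (m - Finsupp.single y 1) = m := add_tsub_cancel_of_le hle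
  have hmon : monomial m (coeff m s) =
      X y * monomial (m - Finsupp.single y 1) (coeff m s) := by
    rw [X, monomial_mul, hsplit, one_mul]
  rw [hmon]
  apply hW
  apply isHomogeneous_monomial
  have h2 : (Finsupp.single y 1 + (m - Finsupp.single y 1)).degree = d + 1 := by
    rw [hsplit]; exact hdeg
  rw [map_add, Finsupp.degree_single] at h2
  omega

end ZIaux

open ZIaux in
theorem zI : StPR.{u} → StZI.{u} := by
  intro hPR k _ K _ _ _ e he f hF Φ hΦ
  have hΦ2 := hΦ.2
  refine ⟨?_, ?_, ?_, ?_, ?_⟩
  · intro s hs d
    apply memAnn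
    intro j t ht
    by_cases hdj : d + j = 4
    · have h1 : Φ (s * t) = 0 := annMem hs t
      rw [decomp s, Finset.sum_mul, map_sum] at h1
      by_cases hd : d ∈ Finset.range (s.totalDegree + 1)
      · rw [Finset.sum_eq_single_of_mem d hd] at h1
        · exact h1
        · intro i _ hi
          exact hΦ2 (i + j) _ ((homogeneousComponent_isHomogeneous i s).mul ht) (by omega)
      · have h0 : homogeneousComponent d s = 0 := by
          apply homogeneousComponent_eq_zero
          rw [Finset.mem_range] at hd
          omega
        rw [h0, zero_mul, map_zero]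
    · exact hΦ2 (d + j) _ ((homogeneousComponent_isHomogeneous d s).mul ht) hdj
  · intro s hs hj
    apply memAnn
    intro j t ht
    by_cases h1 : j = 1
    · subst h1
      let W : Submodule k (MvPolynomial K k) := LinearMap.ker (Φ ∘ₗ LinearMap.mulLeft k s)
      have hmem : t ∈ W := by
        refine gen W 0 ?_ t ht
        intro y t' ht'
        obtain ⟨c, rfl⟩ := hom0 t' ht'
        show Φ (s * (X y * C c)) = 0
        have : s * (X y * C c) = c • (X y * s) := by
          rw [smul_eq_C_mul]; ring
        rw [this, map_smul, hj y, smul_zero]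
      exact hmem
    · exact hΦ2 (3 + j) _ (hs.mul ht) (by omega)
  · intro s hs h0
    apply memAnn
    intro j t ht
    by_cases h1 : j = 0
    · subst h1
      obtain ⟨c, rfl⟩ := hom0 t ht
      have : s * C c = c • s := by rw [smul_eq_C_mul]; ring
      rw [this, map_smul, h0, smul_zero]
    · exact hΦ2 (4 + j) _ (hs.mul ht) (by omega)
  · intro a ha
    have hpa : (pp k e a).IsHomogeneous 2 := by
      unfold pp
      apply IsHomogeneous.sum
      intro j _
      have h1 : (C ((e a.2 j : ℤ) : k) * (X (j + a.1) * X j) : MvPolynomial K k).IsHomogeneous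
          (0 + (1 + 1)) :=
        (isHomogeneous_C K _).mul ((isHomogeneous_X k _).mul (isHomogeneous_X k _))
      exact h1
    apply memAnn
    intro j t ht
    by_cases h2 : j = 2
    · subst h2
      let W : Submodule k (MvPolynomial K k) :=
        LinearMap.ker (Φ ∘ₗ LinearMap.mulLeft k (pp k e a))
      have hmem : t ∈ W := by
        refine gen W 1 ?_ t ht
        intro y t' ht'
        let W' : Submodule k (MvPolynomial K k) :=
          LinearMap.ker (Φ ∘ₗ LinearMap.mulLeft k (pp k e a * X y))
        have hmem' : t' ∈ W' := by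
          refine gen W' 0 ?_ t' ht'
          intro z t'' ht''
          obtain ⟨c, rfl⟩ := hom0 t'' ht''
          show Φ (pp k e a * X y * (X z * C c)) = 0
          have : pp k e a * X y * (X z * C c) = c • (X y * X z * pp k e a) := by
            rw [smul_eq_C_mul]; ring
          rw [this, map_smul, (hPR k K e he f Φ hΦ).2 y z a, ha]
          simp
        have h3 : Φ (pp k e a * X y * t') = 0 := hmem'
        show Φ (pp k e a * (X y * t')) = 0
        rw [← mul_assoc]
        exact h3
      exact hmem
    · exact hΦ2 (2 + j) _ (hpa.mul ht) (by omega)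
  · rintro ⟨c, hc⟩ s hs hsI
    have hexp : s = ∑ i, C (coeff (Finsupp.single i 1) s) * X i := by
      let W : Submodule k (MvPolynomial K k) :=
        { carrier := {s | s = ∑ i, C (coeff (Finsupp.single i 1) s) * X i}
          add_mem' := by
            intro a b ha hb
            show a + b = ∑ i, C (coeff (Finsupp.single i 1) (a + b)) * X i
            simp only [coeff_add, C_add, add_mul, Finset.sum_add_distrib]
            exact congrArg₂ (· + ·) ha hb
          zero_mem' := by
            show (0 : MvPolynomial K k) = ∑ i, C (coeff (Finsupp.single i 1) 0) * X i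
            simp
          smul_mem' := by
            intro r a ha
            show r • a = ∑ i, C (coeff (Finsupp.single i 1) (r • a)) * X i
            simp only [coeff_smul, smul_eq_mul, C_mul, mul_assoc]
            rw [← Finset.mul_sum, ← smul_eq_C_mul]
            exact congrArg (fun z => r • z) ha }
      have hmem : s ∈ W := by
        refine gen W 0 ?_ s hs
        intro y t' ht'
        obtain ⟨r, rfl⟩ := hom0 t' ht'
        show X y * C r = ∑ i, C (coeff (Finsupp.single i 1) (X y * C r)) * X i
        rw [Finset.sum_eq_single y]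
        · rw [mul_comm (X y) (C r), coeff_C_mul, coeff_X, if_pos rfl, mul_one]
        · intro i _ hi
          rw [mul_comm (X y) (C r), coeff_C_mul, coeff_X, if_neg, mul_zero, C_0, zero_mul]
          intro hh
          exact hi ((Finsupp.single_left_injective one_ne_zero hh).symm)
        · intro hh
          exact absurd (Finset.mem_univ y) hh
      exact hmem
    have hcoef : ∀ i, coeff (Finsupp.single i 1) s = 0 := by
      intro i
      set w : K := i + c.1 with hw
      have hwi : w + c.1 = i := by
        rw [hw, add_assoc, he.two, add_zero]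
      have h0 : Φ (s * (X w * pp k e c)) = 0 := annMem hsI _
      have h1 : s * (X w * pp k e c) =
          ∑ j, (coeff (Finsupp.single j 1) s) • (X j * X w * pp k e c) := by
        conv_lhs => rw [hexp]
        rw [Finset.sum_mul]
        refine Finset.sum_congr rfl fun j _ => ?_
        rw [smul_eq_C_mul]; ring
      rw [h1, map_sum, Finset.sum_eq_single i] at h0
      · rw [map_smul, (hPR k K e he f Φ hΦ).2 i w c, if_pos hwi.symm, smul_eq_mul] at h0
        have hn : ((Fintype.card K : ℕ) : k) ≠ 0 := hF.card
        have hfc : ((f c : ℤ) : k) ≠ 0 := hF.val c hc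
        have hew : ((e c.2 w : ℤ) : k) ≠ 0 := by
          intro h
          have h2 := he.sq c.2 w
          have h3 : ((e c.2 w * e c.2 w : ℤ) : k) = 1 := by rw [h2]; simp
          rw [Int.cast_mul, h, zero_mul] at h3
          exact zero_ne_one h3
        rcases mul_eq_zero.1 h0 with h | h
        · exact h
        · exact absurd h (mul_ne_zero (mul_ne_zero hn hfc) hew)
      · intro j _ hj
        rw [map_smul, (hPR k K e he f Φ hΦ).2 j w c, if_neg, smul_zero]
        rw [hwi]; exact hj
      · intro hh
        exact absurd (Finset.mem_univ i) hh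
    rw [hexp]
    exact Finset.sum_eq_zero fun i _ => by rw [hcoef i, C_0, zero_mul]

end Helper49.RA
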