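import Pool.Agent.Helper49.RA.M_PZ
import Pool.Agent.Helper49.RA.M_XX
import Pool.Agent.Helper49.RA.M_DP
import Pool.Agent.Helper49.RA.M_PR
import Pool.Agent.Helper49.RA.M_PDD
import Pool.Agent.Helper49.RA.M_GEN
import Pool.Agent.Helper49.RA.M_SP4
import Pool.Agent.Helper49.RA.M_ZI
import Pool.Agent.Helper49.RA.M_D4
import Pool.Agent.Helper49.RA.M_D5
import Pool.Agent.Helper49.RA.M_D6
import Pool.Agent.Helper49.RA.M_D3
import Pool.Agent.Helper49.RA.M_SEC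
import Pool.Agent.Helper49.RA.M_PHI
import Pool.Agent.Helper49.RA.M_GF
import Pool.Agent.Helper49.RA.M_CO
import Pool.Agent.Helper49.RA.M_TR
import Pool.Agent.Helper49.RA.M_NEG
import Pool.Agent.Helper49.RA.M_BR
import Pool.Agent.Helper49.RA.M_CK1
import Pool.Agent.Helper49.RA.M_CK2
import Pool.Agent.Helper49.RA.M_CK3
import Pool.Agent.Helper49.RA.M_CK4
import Pool.Agent.Helper49.RA.M_GOOD
import Pool.Agent.Helper49.RA.M_CL
import Pool.Agent.Helper49.RA.M_EXT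
import Pool.Agent.Helper49.RA.M_DUAL
import Pool.Agent.Helper49.RA.M_T1
import Pool.Agent.Helper49.RA.M_LOC
import Pool.Agent.Helper49.RA.M_UB
import Pool.Agent.Helper49.RA.M_CT
import Pool.Agent.Helper47.RL.Main

/-! RA: assembly.  From the kernel computations (hypotheses) to the rigid algebra. -/

namespace Helper49.RA

open MvPolynomial

universe u

theorem sP4' : StSP4.{u} := sP4 pZ xX gen
theorem dP' : StDP.{u} := dP pZ
theorem pDD' : StPDD.{u} := pDD dP' pR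
theorem zI' : StZI.{u} := zI pR
theorem d4' : StD4.{u} := d4 pDD' sP4'
theorem d5' : StD5.{u} := d5 pZ pR pDD' gen zI' d4'
theorem d6' : StD6.{u} := d6 pZ pR gen zI' d5'
theorem d3' : StD3.{u} := d3 pR
theorem sec' : StSec.{u} := sec gen zI' d4' d5' d6' d3'
theorem cO' : StCO.{u} := cO gF
theorem good' : StGOOD.{u} := good bR cK3 cK4
theorem cL' : StCL.{u} := cL tR nEG bR cK1 cK2
theorem t1' : StT1.{u} := t1 ext dual

/-- The criterion for the concrete word. -/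
theorem second (k : Type u) [Field k] [IsAlgClosed k] (h2 : (2 : k) ≠ 0)
    (hB : ∀ r ∈ reps6, Uniq k e6 f0 (encE r)) (h0 : Uniq k e6 f0 0) (hA : TabA k e6 f0) :
    ∃ Φ : MvPolynomial K6 k →ₗ[k] k, IsPhi k e6 f0 Φ ∧ SecondPower Φ := by
  obtain ⟨hp, hg, hf, -⟩ := good'.{u}
  obtain ⟨Φ, hΦ⟩ := phi k K6 e6 hp f0 hg.code
  exact ⟨Φ, hΦ, sec' k K6 e6 hp f0 (hf k h2) hg (cL' k h2 hB h0) hA Φ hΦ⟩

theorem phi_ne (k : Type u) [Field k] (h2 : (2 : k) ≠ 0)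
    (Φ : MvPolynomial K6 k →ₗ[k] k) (hΦ : IsPhi k e6 f0 Φ) : Φ ≠ 0 := by
  obtain ⟨hp, hg, hf, -⟩ := good'.{u}
  obtain ⟨c, -, hc, -, -⟩ := hg.tt 0
  intro h
  have h1 := (pR k K6 e6 hp f0 Φ hΦ).1 c c
  rw [h, if_pos rfl] at h1
  have h3 := hf k h2
  have : ((Fintype.card K6 : ℕ) : k) ^ 2 * ((f0 c : ℤ) : k) ≠ 0 :=
    mul_ne_zero (pow_ne_zero _ h3.card) (h3.val c hc)
  exact this (by rw [← h1]; rfl)

/-- The algebra. -/
theorem main_of (k : Type u) [Field k] [IsAlgClosed k] (h2 : (2 : k) ≠ 0)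
    (hB : ∀ r ∈ reps6, Uniq k e6 f0 (encE r)) (h0 : Uniq k e6 f0 0) (hA : TabA k e6 f0) :
    ∃ (A : Type u) (_ : CommRing A) (_ : Algebra k A) (_ : IsLocalRing A)
      (_ : Module.Finite k A), 2 ≤ Module.finrank k A ∧ Helper47.Rig.Rigid k A := by
  obtain ⟨Φ, hΦ, hs⟩ := second k h2 hB h0 hA
  obtain ⟨h3, h4, h5⟩ := loc k K6 Φ hΦ.2 (phi_ne k h2 Φ hΦ)
  refine ⟨MvPolynomial K6 k ⧸ annI Φ, inferInstance, inferInstance, h4, h3, h5, ?_⟩
  have hT := t1' k K6 Φ h3 hs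
  refine Helper47.RL.rigid_of_H2 k _ ?_
  intro f hf1 hf2
  obtain ⟨φ, hφ⟩ := hT f ⟨hf1, hf2⟩
  refine ⟨φ, fun a b => ?_⟩
  rw [hφ a b]
  ring

end Helper49.RA
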