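import Mathlib

/-!
Definitions for MP_16b052_ag (a rigid local Artinian algebra).

Part 1: coordinates of bilinear maps (slice argument).
Part 2: the Gorenstein ideal of a functional on a polynomial ring.
Part 3: Heisenberg combinatorics over a finite group `K` of exponent two with a perfect pairing
`e : K → K → ℤ` with values `1, -1`.
-/

namespace Helper49.RA

open MvPolynomial

universe u v

/-! ### Part 1 -/

section Slice

variable {k : Type u} [Field k] {N : Type} [Fintype N] [DecidableEq N]

/-- The coboundary of the linear map `t` (with `t e_i = Σ_m t i m e_m`) for the product `x`: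
`a t(b) - t(ab) + t(a) b`. -/
def cob (x : N → N → N → k) : (N → N → k) →ₗ[k] (N → N → N → k) where
  toFun t := fun i j l => ∑ m, (t i m * x m j l + t j m * x i m l - x i j m * t m l)
  map_add' t t' := by
    funext i j l
    simp only [Pi.add_apply, ← Finset.sum_add_distrib]
    exact Finset.sum_congr rfl fun m _ => by ring
  map_smul' c t := by
    funext i j l
    simp only [Pi.smul_apply, smul_eq_mul, RingHom.id_apply, Finset.mul_sum]
    exact Finset.sum_congr rfl fun m _ => by ring

/-- The bilinear associator `(ab)c - a(bc)`, first product `s`, second product `s'`. -/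
def assoc2 (s s' : N → N → N → k) : N → N → N → N → k := fun i j l n =>
  ∑ m, s i j m * s' m l n - ∑ m, s j l m * s' i m n

/-- The linearised associator at `x`. -/
def linAssoc (x : N → N → N → k) : (N → N → N → k) →ₗ[k] (N → N → N → N → k) where
  toFun s := fun i j l n => ∑ m, (s i j m * x m l n + x i j m * s m l n) -
    ∑ m, (s j l m * x i m n + x j l m * s i m n)
  map_add' s s' := by
    funext i j l n
    simp only [Pi.add_apply, ← Finset.sum_sub_distrib, ← Finset.sum_add_distrib]
    exact Finset.sum_congr rfl fun m _ => by ring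
  map_smul' c s := by
    funext i j l n
    simp only [Pi.smul_apply, smul_eq_mul, RingHom.id_apply, ← Finset.sum_sub_distrib,
      Finset.mul_sum]
    exact Finset.sum_congr rfl fun m _ => by ring

/-- The antisymmetric part of a product. -/
def anti : (N → N → N → k) →ₗ[k] (N → N → N → k) where
  toFun s := fun i j l => s i j l - s j i l
  map_add' s s' := by funext i j l; simp only [Pi.add_apply]; ring
  map_smul' c s := by
    funext i j l; simp only [Pi.smul_apply, smul_eq_mul, RingHom.id_apply]; ring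

/-- `x` is a commutative associative product. -/
def CommAssoc (x : N → N → N → k) : Prop :=
  (∀ i j l, x i j l = x j i l) ∧
    ∀ i j l n, ∑ m, x i j m * x m l n = ∑ m, x j l m * x i m n

/-- Every symmetric cocycle of `x` is a coboundary (coordinate form). -/
def CoordT1 (x : N → N → N → k) : Prop :=
  ∀ s : N → N → N → k, (∀ i j l, s i j l = s j i l) → linAssoc x s = 0 → ∃ t, s = cob x t

end Slice

/-- Symmetric two-cocycles of a commutative algebra with values in itself. -/
def IsCocycle {k : Type u} [Field k] {A : Type v} [CommRing A] [Algebra k A]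
    (c : A →ₗ[k] A →ₗ[k] A) : Prop :=
  (∀ a b, c a b = c b a) ∧ ∀ a b d, a * c b d - c (a * b) d + c a (b * d) - c a b * d = 0

/-- Every symmetric two-cocycle is a coboundary. -/
def VanT1 (k : Type u) [Field k] (A : Type v) [CommRing A] [Algebra k A] : Prop :=
  ∀ c : A →ₗ[k] A →ₗ[k] A, IsCocycle c →
    ∃ φ : A →ₗ[k] A, ∀ a b, c a b = a * φ b - φ (a * b) + φ a * b

/-! ### Part 2 -/

/-- The largest ideal of the polynomial ring inside the kernel of `Φ`. -/
def annI {k : Type u} [Field k] {ι : Type} (Φ : MvPolynomial ι k →ₗ[k] k) :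
    Ideal (MvPolynomial ι k) where
  carrier := {s | ∀ t, Φ (s * t) = 0}
  add_mem' := by
    intro a b ha hb t
    rw [add_mul, map_add, ha t, hb t, add_zero]
  zero_mem' := by intro t; rw [zero_mul, map_zero]
  smul_mem' := by
    intro c x hx t
    rw [smul_eq_mul, mul_assoc, mul_left_comm]
    exact hx (c * t)

/-- The criterion `I^(2) = I^2`. -/
def SecondPower {k : Type u} [Field k] {ι : Type} (Φ : MvPolynomial ι k →ₗ[k] k) : Prop :=
  ∀ s ∈ annI Φ, (∀ i, pderiv i s ∈ annI Φ) → s ∈ annI Φ ^ 2

/-! ### Part 3 -/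

/-- `e` is a perfect symmetric pairing with values `1, -1` on the finite group `K` of exponent
two. -/
structure IsPair {K : Type} [AddCommGroup K] [Fintype K] [DecidableEq K] (e : K → K → ℤ) :
    Prop where
  two : ∀ x : K, x + x = 0
  sq : ∀ x y, e x y * e x y = 1
  addl : ∀ x y z, e (x + y) z = e x z * e y z
  symm : ∀ x y, e x y = e y x
  sum : ∀ x, ∑ y, e x y = if x = 0 then (Fintype.card K : ℤ) else 0

section Heis

variable {K : Type} [AddCommGroup K] [Fintype K] [DecidableEq K]

/-- The sign `(-1)^{Q(a)}`: the Pauli matrix `P_a` is symmetric iff it is `1`. -/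
def qq (e : K → K → ℤ) (a : K × K) : ℤ := e a.1 a.2

/-- The sign in `P_b P_a = s(b,a) P_{b+a}`. -/
def ss (e : K → K → ℤ) (b a : K × K) : ℤ := e b.2 a.1

/-- The commutation sign `P_a P_b = β(a,b) P_b P_a`. -/
def bb (e : K → K → ℤ) (a b : K × K) : ℤ := e a.1 b.2 * e a.2 b.1

/-- The function `σ`, Fourier transform of `f` in the second variable. -/
def sig (e : K → K → ℤ) (f : K × K → ℤ) (u w : K) : ℤ := ∑ v, f (u, v) * e v w

/-- `f` is a word of the self-dual code: zero where the Pauli matrices are antisymmetric, and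
`σ` is symmetric. -/
def IsCode (e : K → K → ℤ) (f : K × K → ℤ) : Prop :=
  (∀ a, qq e a ≠ 1 → f a = 0) ∧ ∀ u w, sig e f u w = sig e f w u

/-- `D_b F` in terms of `f`: `Φ(D_b(p_a p_{a+b})) = 2 n² δ_b f(a)`. -/
def dd (e : K → K → ℤ) (f : K × K → ℤ) (b a : K × K) : ℤ :=
  ss e b a * f (a + b) + ss e b (a + b) * f a

/-- The transvection of `v` (linear part). -/
def tv (e : K → K → ℤ) (v a : K × K) : K × K := if bb e a v = 1 then a else a + v

/-- The affine involution attached to `v`. -/
def ta (e : K → K → ℤ) (v a : K × K) : K × K := if bb e a v = qq e v then a + v else a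

/-- The signed affine action of `v` on functions. -/
def tf (e : K → K → ℤ) (v : K × K) (f : K × K → ℤ) (a : K × K) : ℤ :=
  if bb e a v = qq e v then - qq e v * f (a + v) else f a

variable (k : Type u) [Field k]

/-- The quadric `p_a = Σ_j (-1)^{a_2 · j} x_{j + a_1} x_j`. -/
noncomputable def pp (e : K → K → ℤ) (a : K × K) : MvPolynomial K k :=
  ∑ j, C ((e a.2 j : ℤ) : k) * (X (j + a.1) * X j)

/-- The derivation `D_b`: `x_j ↦ (-1)^{b_2 · j} x_{j + b_1}`. -/
noncomputable def Db (e : K → K → ℤ) (b : K × K) :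
    Derivation k (MvPolynomial K k) (MvPolynomial K k) :=
  mkDerivation k fun j => C ((e b.2 j : ℤ) : k) * X (j + b.1)

/-- `Φ` is the functional of the quartic form attached to `f`. -/
def IsPhi (e : K → K → ℤ) (f : K × K → ℤ) (Φ : MvPolynomial K k →ₗ[k] k) : Prop :=
  (∀ i j l m : K, Φ (X i * X j * X l * X m) =
      if i + j + l + m = 0 then ((sig e f (i + j) (i + l) : ℤ) : k) else 0) ∧
    ∀ (d : ℕ) (s : MvPolynomial K k), s.IsHomogeneous d → d ≠ 4 → Φ s = 0

/-- Condition `(B)` for the character `b`. -/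
def Uniq (e : K → K → ℤ) (f : K × K → ℤ) (b : K × K) : Prop :=
  ∀ G : MvPolynomial K k →ₗ[k] k,
    (∀ a, qq e a = 1 → qq e (a + b) = 1 → f a = 0 → f (a + b) = 0 →
      G (pp k e a * pp k e (a + b)) = 0) →
    ∃ c : k, ∀ a, qq e a = 1 → qq e (a + b) = 1 →
      G (pp k e a * pp k e (a + b)) = c * ((dd e f b a : ℤ) : k)

/-- Symmetric type of the tables `γ` of character `b`. -/
structure IsTab (e : K → K → ℤ) (b : K × K) (γ : K → K → k) : Prop where
  s1 : ∀ u w, γ u w = γ w u
  s2 : ∀ u w, γ u w = γ u (u + w + b.1)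
  s3 : ∀ u w, γ u w = ((e b.2 u : ℤ) : k) * γ u (u + w)

/-- The linear form `Σ_w γ(u,w) (-1)^{v · w}`. -/
def four (e : K → K → ℤ) (γ : K → K → k) (u v : K) : k := ∑ w, γ u w * ((e v w : ℤ) : k)

/-- Coordinate form of condition `(B)` for `b`: the tables of character `b` which vanish on the
pairs `a, a + b` of zeros of `f` and at the place `m0` are zero. -/
def TabB (e : K → K → ℤ) (f : K × K → ℤ) (b : K × K) (m0 : K × K) : Prop :=
  ∀ γ : K → K → k, IsTab k e b γ →
    (∀ a, qq e a = 1 → qq e (a + b) = 1 → f a = 0 → f (a + b) = 0 →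
      four k e γ a.1 (a.2 + b.2) = 0) →
    γ m0.1 m0.2 = 0 → ∀ u w, γ u w = 0

/-- Coordinate form of condition `(A)`. -/
def TabA (e : K → K → ℤ) (f : K × K → ℤ) : Prop :=
  ∀ γ : K → K → k, IsTab k e 0 γ →
    (∀ a, f a ≠ 0 → four k e γ a.1 a.2 = 0) → ∀ u w, γ u w = 0

/-- The table of `D_b F`. -/
def gamF (e : K → K → ℤ) (f : K × K → ℤ) (b : K × K) (u w : K) : ℤ :=
  sig e f (u + b.1) (w + b.1) + e b.2 u * sig e f (u + b.1) w + e b.2 w * sig e f u (w + b.1) +
    e b.2 (u + w + b.1) * sig e f u w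

/-- Everything which is used about `f`. -/
structure Good (e : K → K → ℤ) (f : K × K → ℤ) : Prop where
  code : IsCode e f
  tt : ∀ x : K × K, ∃ c c' : K × K, f c ≠ 0 ∧ f c' ≠ 0 ∧ x = c + c'
  zt : ∀ b : K × K, b ≠ 0 → ∃ a c : K × K, qq e a = 1 ∧ f a = 0 ∧ f c ≠ 0 ∧ b = a + c
  zz : ∃ a a' : K × K, qq e a = 1 ∧ f a = 0 ∧ qq e a' = 1 ∧ f a' = 0 ∧ a.1 ≠ a'.1

/-- The non-vanishing conditions on the field. -/
structure FieldOK (e : K → K → ℤ) (f : K × K → ℤ) : Prop where
  two : (2 : k) ≠ 0
  card : ((Fintype.card K : ℕ) : k) ≠ 0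
  val : ∀ a, f a ≠ 0 → ((f a : ℤ) : k) ≠ 0
  s0 : (3 : k) ≠ 0 ∨ ((sig e f 0 0 : ℤ) : k) ≠ 0

end Heis

end Helper49.RA
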