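import Pool.Agent.Helper49.RA.StA

/-!
Project RA (MP_16b052_ag), module EXT: square zero extension by a cocycle, and its values on
polynomial rings.
-/

namespace Helper49.RA

open MvPolynomial

universe u

namespace EXTaux

variable {k : Type u} [Field k] {A : Type u} [CommRing A] [Algebra k A]

/-- The extension of `A` by `A` with the cocycle `c`. -/
@[ext] structure Tw (c : A →ₗ[k] A →ₗ[k] A) (hc : IsCocycle c) where
  /-- first component -/
  fst : A
  /-- second component -/
  snd : A

variable {c : A →ₗ[k] A →ₗ[k] A} {hc : IsCocycle c}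

/-- pairs -/
def eqv (c : A →ₗ[k] A →ₗ[k] A) (hc : IsCocycle c) : Tw c hc ≃ A × A where
  toFun a := (a.fst, a.snd)
  invFun a := ⟨a.1, a.2⟩
  left_inv _ := rfl
  right_inv _ := rfl

instance : AddCommGroup (Tw c hc) := (eqv c hc).addCommGroup

instance : Module k (Tw c hc) := (eqv c hc).module k

theorem add_fst (a b : Tw c hc) : (a + b).fst = a.fst + b.fst := rfl

theorem add_snd (a b : Tw c hc) : (a + b).snd = a.snd + b.snd := rfl

theorem zero_fst : (0 : Tw c hc).fst = 0 := rfl

theorem zero_snd : (0 : Tw c hc).snd = 0 := rfl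

theorem smul_fst (r : k) (a : Tw c hc) : (r • a).fst = r • a.fst := rfl

theorem smul_snd (r : k) (a : Tw c hc) : (r • a).snd = r • a.snd := rfl

instance : Mul (Tw c hc) :=
  ⟨fun a b => ⟨a.fst * b.fst, a.fst * b.snd + b.fst * a.snd + c a.fst b.fst⟩⟩

instance : One (Tw c hc) := ⟨⟨1, - c 1 1⟩⟩

theorem mul_fst (a b : Tw c hc) : (a * b).fst = a.fst * b.fst := rfl

theorem mul_snd (a b : Tw c hc) :
    (a * b).snd = a.fst * b.snd + b.fst * a.snd + c a.fst b.fst := rfl

theorem one_fst : (1 : Tw c hc).fst = 1 := rfl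

theorem one_snd : (1 : Tw c hc).snd = - c 1 1 := rfl

theorem c_one (hc : IsCocycle c) (b : A) : c 1 b = b * c 1 1 := by
  have h := hc.2 1 1 b
  rw [one_mul, one_mul, one_mul] at h
  linear_combination h

theorem tmul_comm (a b : Tw c hc) : a * b = b * a := by
  apply Tw.ext
  · rw [mul_fst, mul_fst, mul_comm]
  · rw [mul_snd, mul_snd, hc.1 a.fst b.fst]
    ring

theorem tmul_assoc (a b d : Tw c hc) : a * b * d = a * (b * d) := by
  apply Tw.ext
  · rw [mul_fst, mul_fst, mul_fst, mul_fst, mul_assoc]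
  · rw [mul_snd, mul_snd, mul_snd, mul_snd, mul_fst, mul_fst]
    have h := hc.2 a.fst b.fst d.fst
    linear_combination -h

theorem tone_mul (a : Tw c hc) : 1 * a = a := by
  apply Tw.ext
  · rw [mul_fst, one_fst, one_mul]
  · rw [mul_snd, one_fst, one_snd, c_one hc a.fst]
    ring

theorem tadd_mul (a b d : Tw c hc) : (a + b) * d = a * d + b * d := by
  apply Tw.ext
  · rw [mul_fst, add_fst, add_fst, mul_fst, mul_fst, add_mul]
  · rw [mul_snd, add_fst, add_snd, add_snd, mul_snd, mul_snd, map_add, LinearMap.add_apply]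
    ring

theorem tsmul_mul (r : k) (a b : Tw c hc) : (r • a) * b = r • (a * b) := by
  apply Tw.ext
  · rw [mul_fst, smul_fst, smul_fst, mul_fst, smul_mul_assoc]
  · rw [mul_snd, smul_fst, smul_snd, smul_snd, mul_snd, map_smul, LinearMap.smul_apply,
      smul_mul_assoc, mul_smul_comm, smul_add, smul_add]

noncomputable instance : CommRing (Tw c hc) :=
  { (inferInstance : AddCommGroup (Tw c hc)) with
    mul_assoc := tmul_assoc
    one_mul := tone_mul
    mul_one := fun a => by rw [tmul_comm, tone_mul]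
    left_distrib := fun a b d => by
      rw [tmul_comm, tadd_mul, tmul_comm b, tmul_comm d]
    right_distrib := tadd_mul
    zero_mul := fun a => by
      have h := tadd_mul 0 0 a
      rw [add_zero] at h
      exact left_eq_add.1 h
    mul_zero := fun a => by
      have h := tadd_mul 0 0 a
      rw [add_zero] at h
      rw [tmul_comm]
      exact left_eq_add.1 h
    mul_comm := tmul_comm }

noncomputable instance : Algebra k (Tw c hc) :=
  Algebra.ofModule tsmul_mul fun r a b => by
    rw [tmul_comm, tsmul_mul, tmul_comm b]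

/-- the first component -/
noncomputable def fstHom (c : A →ₗ[k] A →ₗ[k] A) (hc : IsCocycle c) : Tw c hc →ₐ[k] A :=
  AlgHom.ofLinearMap
    { toFun := fun a => a.fst
      map_add' := fun _ _ => rfl
      map_smul' := fun _ _ => rfl } rfl fun _ _ => rfl

/-- the second component -/
def sndLin (c : A →ₗ[k] A →ₗ[k] A) (hc : IsCocycle c) : Tw c hc →ₗ[k] A where
  toFun a := a.snd
  map_add' _ _ := rfl
  map_smul' _ _ := rfl

end EXTaux

open EXTaux

theorem ext : StExt.{u} := by
  intro k _ A _ _ c hc ι x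
  let Ψ : MvPolynomial ι k →ₐ[k] Tw c hc := aeval fun i => (⟨x i, 0⟩ : Tw c hc)
  have h1 : (fstHom c hc).comp Ψ = aeval x := by
    apply MvPolynomial.algHom_ext
    intro i
    rw [AlgHom.comp_apply, aeval_X, aeval_X]
    rfl
  have h2 : ∀ s, (Ψ s).fst = aeval x s := fun s => by
    rw [← h1]
    rfl
  refine ⟨(sndLin c hc).comp Ψ.toLinearMap, ?_⟩
  intro s t
  have h3 : Ψ (s * t) = Ψ s * Ψ t := map_mul Ψ s t
  change (Ψ (s * t)).snd = aeval x s * (Ψ t).snd + aeval x t * (Ψ s).snd +
    c (aeval x s) (aeval x t)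
  rw [h3, mul_snd, h2, h2]

end Helper49.RA
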