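import Pool.Agent.Helper49.RA.StC

/-!
Project RA (MP_16b052_ag), module FIN: assembly of the integer `N`.
-/

namespace Helper49.RA

open MvPolynomial

universe u

namespace FINaux

theorem e_zero {K : Type} [AddCommGroup K] [Fintype K] [DecidableEq K] {e : K → K → ℤ}
    (h : IsPair e) (y : K) : e 0 y = 1 := by
  have h1 := h.addl 0 0 y
  rw [add_zero, h.sq] at h1
  exact h1

theorem e_zero' {K : Type} [AddCommGroup K] [Fintype K] [DecidableEq K] {e : K → K → ℤ}
    (h : IsPair e) (y : K) : e y 0 = 1 := by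
  rw [h.symm, e_zero h]

theorem sig_self {K : Type} [AddCommGroup K] [Fintype K] [DecidableEq K] {e : K → K → ℤ}
    (h : IsPair e) {f : K × K → ℤ} (hf : IsCode e f) (u : K) : sig e f u u = sig e f u 0 := by
  unfold sig
  refine Finset.sum_congr rfl fun v _ => ?_
  rw [e_zero' h]
  by_cases h1 : qq e (u, v) = 1
  · have h2 : e v u = 1 := by rw [h.symm]; exact h1
    rw [h2]
  · rw [hf.1 _ h1, zero_mul, zero_mul]

theorem gamF_ne {K : Type} [AddCommGroup K] [Fintype K] [DecidableEq K] {e : K → K → ℤ}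
    (h : IsPair e) {f : K × K → ℤ} (hf : IsCode e f) (h0 : sig e f 0 0 = 14) (b : K × K) :
    ((gamF e f b 0 0 : ℤ) : ZMod 3) ≠ 0 := by
  have h1 : gamF e f b 0 0 = 3 * sig e f b.1 0 + e b.2 b.1 * 14 := by
    unfold gamF
    rw [zero_add, zero_add, zero_add, e_zero' h, sig_self h hf, hf.2 0 b.1, h0]
    ring
  rw [h1]
  have h3 : (3 : ZMod 3) = 0 := by decide
  rcases mul_self_eq_one_iff.1 (h.sq b.2 b.1) with h2 | h2 <;> rw [h2] <;> push_cast <;>
    rw [h3, zero_mul, zero_add] <;> decide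

theorem two_ne : ((2 : ℤ) : ZMod 3) ≠ 0 := by decide

theorem list_prod_ne {α : Type} (g : α → ℤ) (L : List α)
    (h : ∀ r ∈ L, ((g r : ℤ) : ZMod 3) ≠ 0) : (((L.map g).prod : ℤ) : ZMod 3) ≠ 0 := by
  have : Fact (Nat.Prime 3) := ⟨Nat.prime_three⟩
  induction L with
  | nil => simp
  | cons a L ih =>
    rw [List.map_cons, List.prod_cons, Int.cast_mul]
    exact mul_ne_zero (h a List.mem_cons_self) (ih fun r hr => h r (List.mem_cons_of_mem _ hr))

theorem cast_ne_of_dvd {k : Type u} [Field k] {x y : ℤ} (h : x ∣ y) (hy : (y : k) ≠ 0) :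
    (x : k) ≠ 0 := by
  obtain ⟨c, rfl⟩ := h
  intro hx
  apply hy
  rw [Int.cast_mul, hx, zero_mul]

theorem sum_sig {K : Type} [AddCommGroup K] [Fintype K] [DecidableEq K] {e : K → K → ℤ}
    (h : IsPair e) (f : K × K → ℤ) (u v : K) :
    ∑ w, sig e f u w * e v w = (Fintype.card K : ℤ) * f (u, v) := by
  unfold sig
  simp only [Finset.sum_mul]
  rw [Finset.sum_comm]
  have h1 : ∀ v' : K, ∑ w, f (u, v') * e v' w * e v w =
      if v' = v then (Fintype.card K : ℤ) * f (u, v') else 0 := by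
    intro v'
    have h2 : ∀ w, f (u, v') * e v' w * e v w = f (u, v') * e (v' + v) w := by
      intro w
      rw [h.addl]; ring
    rw [Finset.sum_congr rfl fun w _ => h2 w, ← Finset.mul_sum, h.sum]
    by_cases hv : v' = v
    · have : v' + v = 0 := by rw [hv]; exact h.two v
      rw [if_pos this, if_pos hv]; ring
    · have : v' + v ≠ 0 := by
        intro h3
        apply hv
        calc v' = v' + (v + v) := by rw [h.two, add_zero]
          _ = v' + v + v := by rw [add_assoc]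
          _ = v := by rw [h3, zero_add]
      rw [if_neg this, if_neg hv]; ring
  rw [Finset.sum_congr rfl fun v' _ => h1 v', Finset.sum_ite_eq' Finset.univ v]
  simp

theorem phi_ne {k : Type u} [Field k] {K : Type} [AddCommGroup K] [Fintype K] [DecidableEq K]
    {e : K → K → ℤ} (h : IsPair e) {f : K × K → ℤ} (hok : FieldOK k e f) (c : K × K)
    (hc : f c ≠ 0) {Φ : MvPolynomial K k →ₗ[k] k} (hΦ : IsPhi k e f Φ) : Φ ≠ 0 := by
  rintro rfl
  have h1 : ∀ u w : K, ((sig e f u w : ℤ) : k) = 0 := by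
    intro u w
    have h2 := hΦ.1 0 u w (u + w)
    have h3 : (0 : K) + u + w + (u + w) = 0 := by
      rw [zero_add]; exact h.two (u + w)
    rw [if_pos h3, zero_add, zero_add, LinearMap.zero_apply] at h2
    exact h2.symm
  have h4 : ((∑ w, sig e f c.1 w * e c.2 w : ℤ) : k) = 0 := by
    rw [Int.cast_sum]
    refine Finset.sum_eq_zero fun w _ => ?_
    rw [Int.cast_mul, h1, zero_mul]
  rw [sum_sig h, Int.cast_mul, Int.cast_natCast] at h4
  exact mul_ne_zero hok.card (hok.val c hc) h4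

end FINaux

open FINaux in
/-- Assembly. -/
theorem fin (hLTB : StLTB.{u}) (hCO : StCO.{u}) (hCL : StCL.{u}) (hGOOD : StGOOD.{u})
    (hSec : StSec.{u}) (hPhi : StPhi.{u}) : StFIN.{u} := by
  intro hr h0 hA
  obtain ⟨hpair, hgood, hfield, hs⟩ := hGOOD
  obtain ⟨hB, hTA⟩ := hLTB K6 e6 f0
  obtain ⟨D0, hD0, hD0'⟩ := hB 0 0 h0
  obtain ⟨DA, hDA, hDA'⟩ := hTA hA
  have hex : ∀ r : ℕ, ∃ D : ℤ, r ∈ reps6 → ((D : ZMod 3) = 1 ∧
      ∀ (k : Type u) [Field k], (D : k) ≠ 0 → TabB k e6 f0 (encE r) 0) := by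
    intro r
    by_cases h : r ∈ reps6
    · obtain ⟨D, h1, h2⟩ := hB (encE r) 0 (hr r h)
      exact ⟨D, fun _ => ⟨h1, h2⟩⟩
    · exact ⟨1, fun h' => absurd h' h⟩
  choose D hD using hex
  have : Fact (Nat.Prime 3) := ⟨Nat.prime_three⟩
  obtain ⟨M, hM⟩ : ∃ M : ℤ, M = 2 * D0 * DA * (reps6.map D).prod * gamF e6 f0 0 0 0 *
      (reps6.map fun r => gamF e6 f0 (encE r) 0 0).prod := ⟨_, rfl⟩
  have hM3 : (M : ZMod 3) ≠ 0 := by
    rw [hM]
    have p1 : (((reps6.map D).prod : ℤ) : ZMod 3) ≠ 0 := by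
      refine list_prod_ne D reps6 fun r h => ?_
      rw [(hD r h).1]; exact one_ne_zero
    have p2 : (((reps6.map fun r => gamF e6 f0 (encE r) 0 0).prod : ℤ) : ZMod 3) ≠ 0 :=
      list_prod_ne (fun r => gamF e6 f0 (encE r) 0 0) reps6
        fun r _ => gamF_ne hpair hgood.code hs (encE r)
    have p3 : ((gamF e6 f0 0 0 0 : ℤ) : ZMod 3) ≠ 0 := gamF_ne hpair hgood.code hs 0
    have p4 : (D0 : ZMod 3) ≠ 0 := by rw [hD0]; exact one_ne_zero
    have p5 : (DA : ZMod 3) ≠ 0 := by rw [hDA]; exact one_ne_zero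
    have p6 : ((2 : ℤ) : ZMod 3) ≠ 0 := two_ne
    rw [Int.cast_mul, Int.cast_mul, Int.cast_mul, Int.cast_mul, Int.cast_mul]
    exact mul_ne_zero (mul_ne_zero (mul_ne_zero (mul_ne_zero (mul_ne_zero p6 p4) p5) p1) p3) p2
  have hcast : ∀ (R : Type u) [CommRing R], (M : R) = 0 → ((M.natAbs : ℕ) : R) = 0 := by
    intro R _ h
    rcases Int.natAbs_eq M with h1 | h1
    · rw [h1, Int.cast_natCast] at h; exact h
    · rw [h1, Int.cast_neg, Int.cast_natCast, neg_eq_zero] at h; exact h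
  have hN3 : ¬ 3 ∣ M.natAbs := by
    intro h
    apply hM3
    rw [ZMod.intCast_zmod_eq_zero_iff_dvd]
    exact Int.natCast_dvd.2 h
  refine ⟨M.natAbs, ?_, hN3, ?_⟩
  · rcases Nat.eq_zero_or_pos M.natAbs with h | h
    · rw [h] at hN3
      exact absurd (dvd_zero 3) hN3
    · exact h
  · intro k _ _ hN
    have hMk : (M : k) ≠ 0 := fun h => hN (hcast k h)
    have hdvd : ∀ x : ℤ, x ∣ M → (x : k) ≠ 0 := fun x hx => cast_ne_of_dvd hx hMk
    have d1 : (2 : ℤ) ∣ M := by
      rw [hM]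
      exact Dvd.intro (D0 * DA * (reps6.map D).prod * gamF e6 f0 0 0 0 *
        (reps6.map fun r => gamF e6 f0 (encE r) 0 0).prod) (by ring)
    have d2 : D0 ∣ M := by
      rw [hM]
      exact Dvd.intro (2 * DA * (reps6.map D).prod * gamF e6 f0 0 0 0 *
        (reps6.map fun r => gamF e6 f0 (encE r) 0 0).prod) (by ring)
    have d3 : DA ∣ M := by
      rw [hM]
      exact Dvd.intro (2 * D0 * (reps6.map D).prod * gamF e6 f0 0 0 0 *
        (reps6.map fun r => gamF e6 f0 (encE r) 0 0).prod) (by ring)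
    have d4 : (reps6.map D).prod ∣ M := by
      rw [hM]
      exact Dvd.intro (2 * D0 * DA * gamF e6 f0 0 0 0 *
        (reps6.map fun r => gamF e6 f0 (encE r) 0 0).prod) (by ring)
    have d5 : gamF e6 f0 0 0 0 ∣ M := by
      rw [hM]
      exact Dvd.intro (2 * D0 * DA * (reps6.map D).prod *
        (reps6.map fun r => gamF e6 f0 (encE r) 0 0).prod) (by ring)
    have d6 : (reps6.map fun r => gamF e6 f0 (encE r) 0 0).prod ∣ M := by
      rw [hM]
      exact Dvd.intro (2 * D0 * DA * (reps6.map D).prod * gamF e6 f0 0 0 0) (by ring)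
    have two : (2 : k) ≠ 0 := by
      have := hdvd 2 d1
      exact_mod_cast this
    have hok := hfield k two
    have hU : ∀ r ∈ reps6, Uniq k e6 f0 (encE r) := by
      intro r h
      refine hCO k K6 e6 hpair f0 hgood.code (encE r) 0 ((hD r h).2 k (hdvd _ ?_)) (hdvd _ ?_)
      · exact dvd_trans (List.dvd_prod (List.mem_map_of_mem h)) d4
      · exact dvd_trans (List.dvd_prod (List.mem_map.2 ⟨r, h, rfl⟩)) d6
    have hU0 : Uniq k e6 f0 0 :=
      hCO k K6 e6 hpair f0 hgood.code 0 0 (hD0' k (hdvd _ d2)) (hdvd _ d5)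
    have hall := hCL k two hU hU0
    obtain ⟨Φ, hΦ⟩ := hPhi k K6 e6 hpair f0 hgood.code
    obtain ⟨c, _, hc, _, _⟩ := hgood.tt 0
    exact ⟨Φ, hΦ, phi_ne hpair hok c hc hΦ,
      hSec k K6 e6 hpair f0 hok hgood hall (hDA' k (hdvd _ d3)) Φ hΦ⟩

end Helper49.RA
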