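import Pool.Agent.Helper49.RA.StC

/-!
Project RA (MP_16b052_ag), module LIFT: injectivity modulo three of an integer matrix lifts to all
fields in which a certain integer does not vanish.
-/

namespace Helper49.RA

universe u

namespace LIFTaux

lemma leftInv {F : Type u} [Field F] {α β : Type} [Fintype α] [DecidableEq α] [Fintype β]
    [DecidableEq β] (M : Matrix β α F) (h : ∀ x : α → F, M.mulVec x = 0 → x = 0) :
    ∃ N : Matrix α β F, N * M = 1 := by
  have hk : LinearMap.ker (Matrix.toLin' M) = ⊥ := by
    rw [LinearMap.ker_eq_bot']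
    intro x hx
    exact h x (by simpa using hx)
  obtain ⟨g, hg⟩ := (Matrix.toLin' M).exists_leftInverse_of_injective hk
  refine ⟨LinearMap.toMatrix' g, ?_⟩
  have h1 : LinearMap.toMatrix' (g.comp (Matrix.toLin' M)) = 1 := by
    rw [hg]; exact LinearMap.toMatrix'_id
  rw [LinearMap.toMatrix'_comp, LinearMap.toMatrix'_toLin'] at h1
  exact h1

end LIFTaux

theorem lIFT : StLIFT.{u} := by
  classical
  intro α β _ _ _ M hM
  have h3 : Fact (Nat.Prime 3) := ⟨Nat.prime_three⟩
  obtain ⟨N3, hN3⟩ := LIFTaux.leftInv (F := ZMod 3)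
    (Matrix.of fun (r : β) (a : α) => ((M r a : ℤ) : ZMod 3)) (by
      intro x hx
      refine hM x fun r => ?_
      have := congrFun hx r
      simpa [Matrix.mulVec, dotProduct] using this)
  choose N hN using fun (a : α) (r : β) => ZMod.intCast_surjective (N3 a r)
  let Mm : Matrix β α ℤ := Matrix.of M
  let Nm : Matrix α β ℤ := Matrix.of N
  refine ⟨(Nm * Mm).det, ?_, ?_⟩
  · have h1 : (Int.castRingHom (ZMod 3)) (Nm * Mm).det = 1 := by
      rw [RingHom.map_det, RingHom.mapMatrix_apply, Matrix.map_mul]
      have h2 : Nm.map (Int.castRingHom (ZMod 3)) = N3 := by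
        ext a r
        exact hN a r
      have h4 : Mm.map (Int.castRingHom (ZMod 3)) =
          Matrix.of fun (r : β) (a : α) => ((M r a : ℤ) : ZMod 3) := by
        ext r a
        rfl
      rw [h2, h4, hN3, Matrix.det_one]
    exact h1
  · intro k _ hD x hx
    have h1 : (Int.castRingHom k) (Nm * Mm).det ≠ 0 := hD
    rw [RingHom.map_det, RingHom.mapMatrix_apply] at h1
    have h2 : ((Nm * Mm).map (Int.castRingHom k)).mulVec x = 0 := by
      rw [Matrix.map_mul, ← Matrix.mulVec_mulVec]
      have h4 : (Mm.map (Int.castRingHom k)).mulVec x = 0 := by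
        funext r
        exact hx r
      rw [h4, Matrix.mulVec_zero]
    exact Matrix.eq_zero_of_mulVec_eq_zero h1 h2

end Helper49.RA
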