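import Pool.Agent.Helper49.RA.StC

/-!
Project RA (MP_16b052_ag), module LTB: lifting of `TabB` and `TabA` from `ZMod 3`.
-/

namespace Helper49.RA

universe u

namespace LTBaux

open Classical in
/-- The integer matrix of the system. -/
noncomputable def rws {K : Type} [AddCommGroup K] (e : K → K → ℤ) (b : K × K)
    (P : K × K → Prop) (m : Option (K × K)) : Fin 5 × (K × K) → K × K → ℤ := fun r c =>
  if r.1 = 0 then (if c = r.2 then 1 else 0) - (if c = (r.2.2, r.2.1) then 1 else 0)
  else if r.1 = 1 then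
    (if c = r.2 then 1 else 0) - (if c = (r.2.1, r.2.1 + r.2.2 + b.1) then 1 else 0)
  else if r.1 = 2 then
    (if c = r.2 then 1 else 0) - (if c = (r.2.1, r.2.1 + r.2.2) then e b.2 r.2.1 else 0)
  else if r.1 = 3 then
    (if P r.2 then (if c.1 = r.2.1 then e (r.2.2 + b.2) c.2 else 0) else 0)
  else (if m = some c then 1 else 0)

theorem rws_iff {K : Type} [AddCommGroup K] [Fintype K] (e : K → K → ℤ)
    (b : K × K) (P : K × K → Prop) (m : Option (K × K)) (k : Type u) [Field k]
    (γ : K → K → k) :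
    (∀ r, ∑ c, ((rws e b P m r c : ℤ) : k) * γ c.1 c.2 = 0) ↔
      (IsTab k e b γ ∧ (∀ a, P a → four k e γ a.1 (a.2 + b.2) = 0) ∧
        ∀ c, m = some c → γ c.1 c.2 = 0) := by
  classical
  have h0 : ∀ p : K × K, ∑ c, ((rws e b P m (0, p) c : ℤ) : k) * γ c.1 c.2 =
      γ p.1 p.2 - γ p.2 p.1 := by
    intro p
    simp only [rws, if_true]
    push_cast
    simp only [sub_mul, Finset.sum_sub_distrib, ite_mul, one_mul, zero_mul]
    rw [Finset.sum_ite_eq' Finset.univ p, Finset.sum_ite_eq' Finset.univ (p.2, p.1)]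
    simp
  have h1 : ∀ p : K × K, ∑ c, ((rws e b P m (1, p) c : ℤ) : k) * γ c.1 c.2 =
      γ p.1 p.2 - γ p.1 (p.1 + p.2 + b.1) := by
    intro p
    have h10 : (1 : Fin 5) ≠ 0 := by decide
    simp only [rws, if_true, if_neg h10]
    push_cast
    simp only [sub_mul, Finset.sum_sub_distrib, ite_mul, one_mul, zero_mul]
    rw [Finset.sum_ite_eq' Finset.univ p,
      Finset.sum_ite_eq' Finset.univ (p.1, p.1 + p.2 + b.1)]
    simp
  have h2 : ∀ p : K × K, ∑ c, ((rws e b P m (2, p) c : ℤ) : k) * γ c.1 c.2 =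
      γ p.1 p.2 - ((e b.2 p.1 : ℤ) : k) * γ p.1 (p.1 + p.2) := by
    intro p
    have h20 : (2 : Fin 5) ≠ 0 := by decide
    have h21 : (2 : Fin 5) ≠ 1 := by decide
    simp only [rws, if_true, if_neg h20, if_neg h21]
    push_cast
    simp only [sub_mul, Finset.sum_sub_distrib, ite_mul, one_mul, zero_mul]
    rw [Finset.sum_ite_eq' Finset.univ p,
      Finset.sum_ite_eq' Finset.univ (p.1, p.1 + p.2)]
    simp
  have h3 : ∀ p : K × K, ∑ c, ((rws e b P m (3, p) c : ℤ) : k) * γ c.1 c.2 =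
      if P p then four k e γ p.1 (p.2 + b.2) else 0 := by
    intro p
    have h30 : (3 : Fin 5) ≠ 0 := by decide
    have h31 : (3 : Fin 5) ≠ 1 := by decide
    have h32 : (3 : Fin 5) ≠ 2 := by decide
    simp only [rws, if_true, if_neg h30, if_neg h31, if_neg h32]
    by_cases hP : P p
    · simp only [if_pos hP]
      push_cast
      rw [Fintype.sum_prod_type]
      rw [Finset.sum_eq_single p.1]
      · simp only [if_true, four]
        exact Finset.sum_congr rfl fun w _ => by rw [mul_comm]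
      · intro u _ hu
        simp [hu]
      · intro h
        exact absurd (Finset.mem_univ _) h
    · simp [hP]
  have h4 : ∀ p : K × K, ∑ c, ((rws e b P m (4, p) c : ℤ) : k) * γ c.1 c.2 =
      ∑ c, (if m = some c then γ c.1 c.2 else 0) := by
    intro p
    have h40 : (4 : Fin 5) ≠ 0 := by decide
    have h41 : (4 : Fin 5) ≠ 1 := by decide
    have h42 : (4 : Fin 5) ≠ 2 := by decide
    have h43 : (4 : Fin 5) ≠ 3 := by decide
    simp only [rws, if_neg h40, if_neg h41, if_neg h42, if_neg h43]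
    refine Finset.sum_congr rfl fun c _ => ?_
    split_ifs <;> simp
  have h4' : (∑ c, (if m = some c then γ c.1 c.2 else 0)) = 0 ↔
      ∀ c, m = some c → γ c.1 c.2 = 0 := by
    cases m with
    | none => simp
    | some d =>
      have : ∀ c : K × K, (some d = some c) = (d = c) := fun c => by simp
      simp only [this]
      rw [Finset.sum_ite_eq Finset.univ d]
      simp
  constructor
  · intro h
    refine ⟨⟨?_, ?_, ?_⟩, ?_, ?_⟩
    · intro u w
      have := h (0, (u, w))
      rw [h0] at this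
      exact sub_eq_zero.1 this
    · intro u w
      have := h (1, (u, w))
      rw [h1] at this
      exact sub_eq_zero.1 this
    · intro u w
      have := h (2, (u, w))
      rw [h2] at this
      exact sub_eq_zero.1 this
    · intro a ha
      have := h (3, a)
      rw [h3, if_pos ha] at this
      exact this
    · have := h (4, 0)
      rw [h4] at this
      exact h4'.1 this
  · rintro ⟨⟨s1, s2, s3⟩, hP, hm⟩ ⟨i, p⟩
    fin_cases i
    · exact (h0 p).trans (sub_eq_zero.2 (s1 _ _))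
    · exact (h1 p).trans (sub_eq_zero.2 (s2 _ _))
    · exact (h2 p).trans (sub_eq_zero.2 (s3 _ _))
    · refine (h3 p).trans ?_
      split_ifs with h
      · exact hP p h
      · rfl
    · exact (h4 p).trans (h4'.2 hm)

theorem key (hL : StLIFT.{u}) {K : Type} [AddCommGroup K] [Fintype K]
    (e : K → K → ℤ) (b : K × K) (P : K × K → Prop) (m : Option (K × K))
    (h3 : ∀ γ : K → K → ZMod 3, IsTab (ZMod 3) e b γ →
      (∀ a, P a → four (ZMod 3) e γ a.1 (a.2 + b.2) = 0) →
      (∀ c, m = some c → γ c.1 c.2 = 0) → ∀ u w, γ u w = 0) :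
    ∃ D : ℤ, (D : ZMod 3) = 1 ∧ ∀ (k : Type u) [Field k], (D : k) ≠ 0 →
      ∀ γ : K → K → k, IsTab k e b γ →
        (∀ a, P a → four k e γ a.1 (a.2 + b.2) = 0) →
        (∀ c, m = some c → γ c.1 c.2 = 0) → ∀ u w, γ u w = 0 := by
  classical
  obtain ⟨D, hD, hk⟩ := hL (K × K) (Fin 5 × (K × K)) (rws e b P m) (by
    intro x hx
    have hx' : ∀ r, ∑ c, ((rws e b P m r c : ℤ) : ZMod 3) *
        (fun u w => x (u, w)) c.1 c.2 = 0 := hx
    obtain ⟨g1, g2, g3⟩ := (rws_iff e b P m (ZMod 3) (fun u w => x (u, w))).1 hx'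
    funext c
    exact h3 _ g1 g2 g3 c.1 c.2)
  refine ⟨D, hD, fun k _ hDk γ g1 g2 g3 u w => ?_⟩
  have h := hk k hDk (fun c => γ c.1 c.2)
    ((rws_iff e b P m k γ).2 ⟨g1, g2, g3⟩)
  exact congrFun h (u, w)

end LTBaux

/-- Module LTB. -/
theorem lTB : StLIFT.{u} → StLTB.{u} := by
  intro hL K _ _ _ e f
  constructor
  · intro b m0 h3
    obtain ⟨D, hD, hk⟩ := LTBaux.key hL e b
      (fun a => qq e a = 1 ∧ qq e (a + b) = 1 ∧ f a = 0 ∧ f (a + b) = 0) (some m0) (by
        intro γ g1 g2 g3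
        exact h3 γ g1 (fun a a1 a2 a3 a4 => g2 a ⟨a1, a2, a3, a4⟩) (g3 m0 rfl))
    refine ⟨D, hD, fun k _ hDk γ g1 g2 g3 => ?_⟩
    refine hk k hDk γ g1 (fun a ha => g2 a ha.1 ha.2.1 ha.2.2.1 ha.2.2.2) ?_
    intro c hc
    have : m0 = c := Option.some.inj hc
    rw [← this]
    exact g3
  · intro h3
    obtain ⟨D, hD, hk⟩ := LTBaux.key hL e 0 (fun a => f a ≠ 0) none (by
      intro γ g1 g2 _
      refine h3 γ g1 (fun a ha => ?_)
      have := g2 a ha
      rwa [Prod.snd_zero, add_zero] at this)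
    refine ⟨D, hD, fun k _ hDk γ g1 g2 => ?_⟩
    refine hk k hDk γ g1 (fun a ha => ?_) (fun c hc => ?_)
    · have := g2 a ha
      rwa [Prod.snd_zero, add_zero]
    · cases hc

end Helper49.RA
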