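import Pool.Agent.Helper49.RA.StA

/-!
Project RA (MP_16b052_ag), module OPEN1: a square system of equations with unit Jacobian
determinant defines an algebra whose map of spectra is open.
-/

namespace Helper49.RA

open MvPolynomial

universe u

theorem open1 : StOpen1.{u} := by
  classical
  intro R _ σ _ _ v hv
  let P0 : Algebra.PreSubmersivePresentation R (MvPolynomial σ R ⧸ Ideal.span (Set.range v)) σ σ :=
    Algebra.PreSubmersivePresentation.naive (v := v) id Function.injective_id
  have hjac : IsUnit P0.jacobian := by
    rw [Algebra.PreSubmersivePresentation.jacobian_eq_jacobiMatrix_det]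
    have h1 : P0.jacobiMatrix = (Matrix.of fun i j => pderiv j (v i)).transpose := by
      ext1 i j
      rw [Matrix.transpose_apply, Matrix.of_apply]
      exact Algebra.PreSubmersivePresentation.jacobiMatrix_apply P0 i j
    rw [h1, Matrix.det_transpose]
    exact hv
  let P : Algebra.SubmersivePresentation R (MvPolynomial σ R ⧸ Ideal.span (Set.range v)) σ σ :=
    { toPreSubmersivePresentation := P0, jacobian_isUnit := hjac }
  have h2 : Algebra.IsStandardSmooth R (MvPolynomial σ R ⧸ Ideal.span (Set.range v)) :=
    P.isStandardSmooth
  have h3 : Algebra.Smooth R (MvPolynomial σ R ⧸ Ideal.span (Set.range v)) := inferInstance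
  have h4 : Module.Flat R (MvPolynomial σ R ⧸ Ideal.span (Set.range v)) :=
    Algebra.Smooth.flat R _
  have h5 : Algebra.FinitePresentation R (MvPolynomial σ R ⧸ Ideal.span (Set.range v)) :=
    inferInstance
  exact PrimeSpectrum.isOpenMap_comap_of_hasGoingDown_of_finitePresentation

end Helper49.RA
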