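import Pool.Agent.Helper49.RA.StA

set_option autoImplicit false

/-!
# RA, module OPEN2: solvability of a square system is an open condition
-/

namespace Helper49.RA

open MvPolynomial

universe u v

namespace OPEN2aux

section

variable {k : Type u} [Field k] {κ ι : Type}

/-- the change of viewpoint: polynomials in the unknowns over the polynomials in the parameters -/
noncomputable def T (k : Type u) [Field k] (κ ι : Type) :
    MvPolynomial (κ ⊕ ι) k →ₐ[k] MvPolynomial (Option ι) (MvPolynomial κ k) :=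
  aeval (Sum.elim (fun a => C (X a)) (fun i => X (some i)))

theorem T_inl (a : κ) : T k κ ι (X (Sum.inl a)) = C (X a) := by simp [T]
theorem T_inr (i : ι) : T k κ ι (X (Sum.inr i)) = X (some i) := by simp [T]
theorem T_C (c : k) : T k κ ι (C c) = C (C c) := by
  rw [T, aeval_C]; rfl

theorem pderiv_some (j : ι) (Q : MvPolynomial (κ ⊕ ι) k) :
    pderiv (some j) (T k κ ι Q) = T k κ ι (pderiv (Sum.inr j) Q) := by
  classical
  induction Q using MvPolynomial.induction_on with
  | C a => rw [T_C, pderiv_C, pderiv_C, map_zero]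
  | add p q hp hq => simp only [map_add, hp, hq]
  | mul_X p x hp =>
    rw [map_mul, Derivation.leibniz, Derivation.leibniz, hp, map_add, smul_eq_mul, smul_eq_mul,
      smul_eq_mul, smul_eq_mul, map_mul, map_mul]
    congr 2
    rcases x with a | i
    · rw [T_inl, pderiv_C, pderiv_X, Pi.single_eq_of_ne (by simp), map_zero]
    · rw [T_inr, pderiv_X, pderiv_X]
      by_cases h : i = j
      · subst h
        rw [Pi.single_eq_same, Pi.single_eq_same, map_one]
      · rw [Pi.single_eq_of_ne (by simpa using h), Pi.single_eq_of_ne (by simpa using h), map_zero]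

theorem pderiv_none (Q : MvPolynomial (κ ⊕ ι) k) : pderiv none (T k κ ι Q) = 0 := by
  classical
  induction Q using MvPolynomial.induction_on with
  | C a => rw [T_C, pderiv_C]
  | add p q hp hq => rw [map_add, map_add, hp, hq, add_zero]
  | mul_X p x hp =>
    rw [map_mul, Derivation.leibniz, hp, smul_zero, add_zero]
    rcases x with a | i
    · rw [T_inl, pderiv_C, smul_zero]
    · rw [T_inr, pderiv_X, Pi.single_eq_of_ne (by simp), smul_zero]

theorem eval_T (ψ : MvPolynomial (Option ι) (MvPolynomial κ k) →+* k) (y : κ → k) (z : ι → k)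
    (hc : ∀ c, ψ (C (C c)) = c) (hy : ∀ a, ψ (C (X a)) = y a) (hz : ∀ i, ψ (X (some i)) = z i)
    (Q : MvPolynomial (κ ⊕ ι) k) : ψ (T k κ ι Q) = eval (Sum.elim y z) Q := by
  induction Q using MvPolynomial.induction_on with
  | C a => rw [T_C, hc, eval_C]
  | add p q hp hq => rw [map_add, map_add, hp, hq, map_add]
  | mul_X p x hp =>
    rw [map_mul, map_mul, hp, map_mul, eval_X]
    rcases x with a | i
    · rw [T_inl, hy]; rfl
    · rw [T_inr, hz]; rfl

/-- the relations -/
noncomputable def v (P : ι → MvPolynomial (κ ⊕ ι) k) (q : MvPolynomial (κ ⊕ ι) k) :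
    Option ι → MvPolynomial (Option ι) (MvPolynomial κ k)
  | none => X none * T k κ ι q - 1
  | some i => T k κ ι (P i)

theorem det_v [Fintype ι] [DecidableEq ι] (P : ι → MvPolynomial (κ ⊕ ι) k)
    (q : MvPolynomial (κ ⊕ ι) k) :
    (Matrix.of fun i j => pderiv j (v P q i)).det =
      T k κ ι (Matrix.of fun i j => pderiv (Sum.inr j) (P i)).det * T k κ ι q := by
  rw [← Matrix.det_reindex_self (Equiv.optionEquivSumPUnit.{0} ι)]
  have : Matrix.reindex (Equiv.optionEquivSumPUnit.{0} ι) (Equiv.optionEquivSumPUnit.{0} ι)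
      (Matrix.of fun i j => pderiv j (v P q i)) =
      Matrix.fromBlocks ((T k κ ι).toRingHom.mapMatrix
        (Matrix.of fun i j => pderiv (Sum.inr j) (P i))) 0
        (Matrix.of fun _ j => pderiv (some j) (v P q none))
        (Matrix.of fun _ _ => T k κ ι q) := by
    ext1 i j
    rcases i with i | i <;> rcases j with j | j
    · simp only [Matrix.reindex_apply, Matrix.submatrix_apply, Equiv.optionEquivSumPUnit_symm_inl,
        Matrix.of_apply, Matrix.fromBlocks_apply₁₁, RingHom.mapMatrix_apply, Matrix.map_apply]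
      exact pderiv_some j (P i)
    · simp only [Matrix.reindex_apply, Matrix.submatrix_apply, Equiv.optionEquivSumPUnit_symm_inl,
        Equiv.optionEquivSumPUnit_symm_inr, Matrix.of_apply, Matrix.fromBlocks_apply₁₂,
        Matrix.zero_apply]
      exact pderiv_none (P i)
    · simp only [Matrix.reindex_apply, Matrix.submatrix_apply, Equiv.optionEquivSumPUnit_symm_inl,
        Equiv.optionEquivSumPUnit_symm_inr, Matrix.of_apply, Matrix.fromBlocks_apply₂₁]
    · simp only [Matrix.reindex_apply, Matrix.submatrix_apply,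
        Equiv.optionEquivSumPUnit_symm_inr, Matrix.of_apply, Matrix.fromBlocks_apply₂₂]
      rw [v, map_sub, Derivation.map_one_eq_zero, sub_zero, Derivation.leibniz, pderiv_none,
        smul_zero, zero_add, pderiv_X_self, smul_eq_mul, mul_one]
  rw [this, Matrix.det_fromBlocks_zero₁₂, ← RingHom.map_det]
  congr 1
  rw [Matrix.det_unique]
  rfl

theorem isUnit_det' [Fintype ι] [DecidableEq ι] {B : Type u} [CommRing B]
    (π : MvPolynomial (Option ι) (MvPolynomial κ k) →+* B) (P : ι → MvPolynomial (κ ⊕ ι) k)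
    (h : MvPolynomial (κ ⊕ ι) k)
    (hπ : π (v P (h * (Matrix.of fun i j => pderiv (Sum.inr j) (P i)).det) none) = 0) :
    IsUnit (π (Matrix.of fun i j => pderiv j
        (v P (h * (Matrix.of fun i j => pderiv (Sum.inr j) (P i)).det) i)).det) := by
  rw [det_v]
  obtain ⟨J, hJ⟩ : ∃ J : MvPolynomial (κ ⊕ ι) k,
    J = (Matrix.of fun i j => pderiv (Sum.inr j) (P i)).det := ⟨_, rfl⟩
  rw [← hJ] at hπ ⊢
  have h1 : π (X none) * π (T k κ ι (h * J)) = 1 := by
    rw [v, map_sub, map_mul, map_one, sub_eq_zero] at hπ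
    exact hπ
  have h2 : IsUnit (π (T k κ ι (h * J))) := IsUnit.of_mul_eq_one_right _ h1
  rw [map_mul π]
  refine IsUnit.mul ?_ h2
  rw [map_mul, map_mul] at h2
  exact isUnit_of_mul_isUnit_right h2

theorem core [IsAlgClosed k] [Fintype κ] [Fintype ι] {B : Type u} [CommRing B]
    [Algebra (MvPolynomial κ k) B]
    (π : MvPolynomial (Option ι) (MvPolynomial κ k) →+* B) (hsurj : Function.Surjective π)
    (hπC : ∀ r, π (C r) = algebraMap (MvPolynomial κ k) B r)
    (P : ι → MvPolynomial (κ ⊕ ι) k) (q : MvPolynomial (κ ⊕ ι) k)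
    (hker : RingHom.ker π = Ideal.span (Set.range (v P q)))
    (hopen : IsOpenMap (PrimeSpectrum.comap (algebraMap (MvPolynomial κ k) B)))
    (y : κ → k) (z : ι → k) (hP : ∀ i, eval (Sum.elim y z) (P i) = 0)
    (hw0 : eval (Sum.elim y z) q ≠ 0) :
    ∃ F : MvPolynomial κ k, eval y F ≠ 0 ∧ ∀ y' : κ → k, eval y' F ≠ 0 →
      ∃ z' : ι → k, (∀ i, eval (Sum.elim y' z') (P i) = 0) ∧ eval (Sum.elim y' z') q ≠ 0 := by
  -- the given point
  obtain ⟨G, hG⟩ : ∃ G : MvPolynomial (Option ι) (MvPolynomial κ k) →+* k,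
      G = eval₂Hom (eval y) (fun o => o.elim (eval (Sum.elim y z) q)⁻¹ z) := ⟨_, rfl⟩
  have hGC : ∀ r, G (C r) = eval y r := fun r => by rw [hG, eval₂Hom_C]
  have hGT : ∀ Q, G (T k κ ι Q) = eval (Sum.elim y z) Q := by
    apply eval_T
    · intro c; rw [hGC, eval_C]
    · intro a; rw [hGC, eval_X]
    · intro i; rw [hG, eval₂Hom_X']; rfl
  have hGn : G (X none) = (eval (Sum.elim y z) q)⁻¹ := by
    rw [hG, eval₂Hom_X']; rfl
  have hGv : RingHom.ker π ≤ RingHom.ker G := by
    rw [hker, Ideal.span_le]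
    rintro _ ⟨o, rfl⟩
    rw [SetLike.mem_coe, RingHom.mem_ker]
    rcases o with _ | i
    · rw [v, map_sub, map_mul, hGT, hGn, map_one, inv_mul_cancel₀ hw0, sub_self]
    · rw [v, hGT, hP]
  obtain ⟨g, hg⟩ : ∃ g : B →+* k, ∀ x, g (π x) = G x :=
    ⟨RingHom.liftOfSurjective π hsurj ⟨G, hGv⟩, fun x =>
      RingHom.liftOfRightInverse_comp_apply _ _ _ _ x⟩
  have hgC : ∀ r : MvPolynomial κ k, g (algebraMap (MvPolynomial κ k) B r) = eval y r := by
    intro r
    rw [← hπC, hg, hGC]
  obtain ⟨s, hs⟩ := PrimeSpectrum.isOpen_iff _ |>.1 hopen.isOpen_range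
  have hmem : (⟨RingHom.ker (eval y), RingHom.ker_isPrime _⟩ : PrimeSpectrum (MvPolynomial κ k)) ∈
      Set.range (PrimeSpectrum.comap (algebraMap (MvPolynomial κ k) B)) := by
    refine ⟨⟨RingHom.ker g, RingHom.ker_isPrime _⟩, ?_⟩
    apply PrimeSpectrum.ext
    ext r
    simp only [PrimeSpectrum.comap_asIdeal, Ideal.mem_comap, RingHom.mem_ker, hgC]
  have hnot : (⟨RingHom.ker (eval y), RingHom.ker_isPrime _⟩ : PrimeSpectrum (MvPolynomial κ k)) ∉
      PrimeSpectrum.zeroLocus s := by
    rw [← hs]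
    exact fun hc => hc hmem
  rw [PrimeSpectrum.mem_zeroLocus, Set.not_subset] at hnot
  obtain ⟨F, hFs, hF⟩ := hnot
  refine ⟨F, fun h0 => hF (by simpa [RingHom.mem_ker] using h0), ?_⟩
  intro y' hy'
  have hmem' : (⟨RingHom.ker (eval y'), RingHom.ker_isPrime _⟩ :
      PrimeSpectrum (MvPolynomial κ k)) ∈
      Set.range (PrimeSpectrum.comap (algebraMap (MvPolynomial κ k) B)) := by
    by_contra hc
    have h1 : (⟨RingHom.ker (eval y'), RingHom.ker_isPrime _⟩ :
      PrimeSpectrum (MvPolynomial κ k)) ∈ PrimeSpectrum.zeroLocus s := by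
      rw [← hs]
      exact hc
    rw [PrimeSpectrum.mem_zeroLocus] at h1
    exact hy' (by simpa [RingHom.mem_ker] using h1 hFs)
  obtain ⟨q', hq⟩ := hmem'
  have hq' : ∀ r : MvPolynomial κ k, eval y' r = 0 →
      algebraMap (MvPolynomial κ k) B r ∈ q'.asIdeal := by
    intro r hr
    have h1 := congrArg PrimeSpectrum.asIdeal hq
    have h2 : r ∈ RingHom.ker (eval y') := hr
    rw [← show _ = RingHom.ker (eval y') from h1] at h2
    exact h2
  obtain ⟨m, hm, hqm⟩ := Ideal.exists_le_maximal q'.asIdeal q'.isPrime.ne_top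
  haveI := hm
  letI : Field (B ⧸ m) := Ideal.Quotient.field m
  letI algB : Algebra k B := ((algebraMap (MvPolynomial κ k) B).comp C).toAlgebra
  haveI f1 : Algebra.FiniteType k (MvPolynomial (Option ι) (MvPolynomial κ k)) :=
    Algebra.FiniteType.trans (S := MvPolynomial κ k) inferInstance inferInstance
  haveI f2 : Algebra.FiniteType k B :=
    Algebra.FiniteType.of_surjective (A := MvPolynomial (Option ι) (MvPolynomial κ k))
      { π with
        commutes' := fun c => by
          change π (C (C c)) = _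
          rw [hπC]
          rfl } hsurj
  haveI f3 : Algebra.FiniteType k (B ⧸ m) :=
    Algebra.FiniteType.of_surjective (Ideal.Quotient.mkₐ k m) Ideal.Quotient.mk_surjective
  haveI f4 : Module.Finite k (B ⧸ m) := finite_of_finite_type_of_isJacobsonRing _ _
  have hbij : Function.Bijective (algebraMap k (B ⧸ m)) :=
    IsAlgClosed.algebraMap_bijective_of_isIntegral
  obtain ⟨E, hE⟩ : ∃ E : k ≃+* (B ⧸ m), E = RingEquiv.ofBijective _ hbij := ⟨_, rfl⟩
  obtain ⟨ψ, hψ⟩ : ∃ ψ : MvPolynomial (Option ι) (MvPolynomial κ k) →+* k,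
    ψ = E.symm.toRingHom.comp ((Ideal.Quotient.mk m).comp π) := ⟨_, rfl⟩
  have hψa : ∀ x, ψ x = E.symm (Ideal.Quotient.mk m (π x)) := fun x => by rw [hψ]; rfl
  have hψv : ∀ o, ψ (v P q o) = 0 := by
    intro o
    have : v P q o ∈ RingHom.ker π := by
      rw [hker]; exact Ideal.subset_span ⟨o, rfl⟩
    rw [hψa, RingHom.mem_ker.1 this, map_zero, map_zero]
  have hψc : ∀ c, ψ (C (C c)) = c := by
    intro c
    rw [hψa]
    have : (Ideal.Quotient.mk m) (π (C (C c))) = E c := by
      rw [hE, hπC]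
      rfl
    rw [this]
    exact E.symm_apply_apply c
  have hψ0 : ∀ r, eval y' r = 0 → ψ (C r) = 0 := by
    intro r hr
    rw [hψa, hπC, Ideal.Quotient.eq_zero_iff_mem.2 (hqm (hq' r hr)), map_zero]
  have hψy : ∀ a, ψ (C (X a)) = y' a := by
    intro a
    have h1 := hψ0 (X a - C (y' a)) (by simp)
    rw [map_sub, map_sub, hψc, sub_eq_zero] at h1
    exact h1
  have hψT := eval_T ψ y' (fun i => ψ (X (some i))) hψc hψy (fun _ => rfl)
  refine ⟨fun i => ψ (X (some i)), fun i => ?_, fun h0 => ?_⟩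
  · rw [← hψT]
    exact hψv (some i)
  · have h1 := hψv none
    rw [v, map_sub, map_mul, hψT, h0, mul_zero, map_one, zero_sub] at h1
    exact one_ne_zero (neg_eq_zero.1 h1)

end

theorem abstr (hO : StOpen1.{u}) (R : Type u) [CommRing R] (σ : Type) [Fintype σ] [DecidableEq σ]
    (v : σ → MvPolynomial σ R)
    (hu : ∀ (B : Type u) [CommRing B] (π : MvPolynomial σ R →+* B), (∀ i, π (v i) = 0) →
      IsUnit (π (Matrix.of fun i j => pderiv j (v i)).det)) :
    ∃ (B : Type u) (_ : CommRing B) (_ : Algebra R B) (π : MvPolynomial σ R →+* B),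
      Function.Surjective π ∧ (∀ r, π (C r) = algebraMap R B r) ∧
      RingHom.ker π = Ideal.span (Set.range v) ∧
      IsOpenMap (PrimeSpectrum.comap (algebraMap R B)) :=
  ⟨MvPolynomial σ R ⧸ Ideal.span (Set.range v), inferInstance, inferInstance,
    Ideal.Quotient.mk (Ideal.span (Set.range v)), Ideal.Quotient.mk_surjective, fun _ => rfl,
    Ideal.mk_ker, hO R σ v (hu _ _ fun i =>
      Ideal.Quotient.eq_zero_iff_mem.2 (Ideal.subset_span ⟨i, rfl⟩))⟩

end OPEN2aux

open OPEN2aux

/-- OPEN2 -/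
theorem open2 : StOpen1.{u} → StOpen2.{u} := by
  intro hO k _ _ κ ι _ _ _ P h y z hP hh hJ
  obtain ⟨J, hJdef⟩ : ∃ J : MvPolynomial (κ ⊕ ι) k,
    J = (Matrix.of fun i j => pderiv (Sum.inr j) (P i)).det := ⟨_, rfl⟩
  have hJ0 : eval (Sum.elim y z) J ≠ 0 := by
    rw [hJdef, RingHom.map_det]
    exact hJ
  obtain ⟨B, _, _, π, hsurj, hπC, hker, hopen⟩ := abstr hO (MvPolynomial κ k) (Option ι)
    (v P (h * J)) (by
      intro B _ π hπ
      have h1 := hπ none
      rw [hJdef] at h1 ⊢
      exact isUnit_det' π P h h1)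
  obtain ⟨F, hF, hF'⟩ := core π hsurj hπC P (h * J) hker hopen y z hP
    (by rw [map_mul]; exact mul_ne_zero hh hJ0)
  refine ⟨F, hF, fun y' hy' => ?_⟩
  obtain ⟨z', h1, h2⟩ := hF' y' hy'
  refine ⟨z', h1, fun h0 => h2 ?_⟩
  rw [map_mul, h0, zero_mul]

end Helper49.RA
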