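import Pool.Agent.Helper49.RA.StB

/-!
Project RA (MP_16b052_ag), module PZ (helper17): the quadrics `p_a`.
-/

namespace Helper49.RA

open MvPolynomial

universe u

namespace PZaux

variable {k : Type u} [Field k] {K : Type} [AddCommGroup K] [Fintype K] [DecidableEq K]
  {e : K → K → ℤ}

theorem add_add_self (he : IsPair e) (x y : K) : x + y + y = x := by
  rw [add_assoc, he.two, add_zero]

theorem e_add_right (he : IsPair e) (x y z : K) : e x (y + z) = e x y * e x z := by
  rw [he.symm x (y + z), he.addl, he.symm y x, he.symm z x]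

theorem e_shift (he : IsPair e) (a : K × K) (j : K) :
    e a.2 (j + a.1) = e a.2 j * qq e a := by
  rw [e_add_right he, qq, he.symm a.1 a.2]

theorem pp_eq (he : IsPair e) (a : K × K) :
    pp k e a = C ((qq e a : ℤ) : k) * pp k e a := by
  have h1 : pp k e a =
      ∑ j, C ((e a.2 (j + a.1) : ℤ) : k) * (X (j + a.1 + a.1) * X (j + a.1)) :=
    (Equiv.sum_comp (Equiv.addRight a.1)
      (fun j => C ((e a.2 j : ℤ) : k) * (X (j + a.1) * X j) : K → MvPolynomial K k)).symm
  conv_lhs => rw [h1]
  rw [pp, Finset.mul_sum]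
  refine Finset.sum_congr rfl fun j _ => ?_
  rw [add_add_self he, e_shift he, Int.cast_mul, C_mul]
  ring

theorem qq_cases (he : IsPair e) (a : K × K) (h : qq e a ≠ 1) : qq e a = -1 := by
  have h1 : qq e a * qq e a = 1 := he.sq a.1 a.2
  have h2 : (qq e a - 1) * (qq e a + 1) = 0 := by linear_combination h1
  rcases mul_eq_zero.1 h2 with h3 | h3
  · exact absurd (by linarith) h
  · linarith

omit [AddCommGroup K] in
theorem single_sum (i : K) (F : K → MvPolynomial K k) :
    ∑ j, F j * (Pi.single i 1 : K → MvPolynomial K k) j = F i := by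
  rw [Finset.sum_eq_single i]
  · rw [Pi.single_eq_same, mul_one]
  · intro j _ hj
    rw [Pi.single_eq_of_ne hj, mul_zero]
  · intro h
    exact absurd (Finset.mem_univ i) h

end PZaux

open PZaux in
theorem pZ : StPZ.{u} := by
  intro k _ K _ _ _ e he h2 a
  refine ⟨fun hq => ?_, ?_, fun hq i => ?_⟩
  · have h1 := pp_eq (k := k) he a
    rw [qq_cases he a hq] at h1
    have h3 : C (2 : k) * pp k e a = 0 := by
      have h4 : (C (((-1 : ℤ) : ℤ) : k) : MvPolynomial K k) = -1 := by
        rw [Int.cast_neg, Int.cast_one, C_neg, C_1]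
      rw [h4] at h1
      have h5 : (C (2 : k) : MvPolynomial K k) = 1 + 1 := by
        rw [← C_1, ← C_add]
        congr 1
        norm_num
      rw [h5]
      linear_combination h1
    rcases mul_eq_zero.1 h3 with h4 | h4
    · exact absurd (C_eq_zero.1 h4) h2
    · exact h4
  · refine IsHomogeneous.sum _ _ _ fun j _ => ?_
    exact (isHomogeneous_C K _).mul ((isHomogeneous_X k _).mul (isHomogeneous_X k _))
  · have hs : ∀ j : K, pderiv i (C ((e a.2 j : ℤ) : k) * (X (j + a.1) * X j)) =
        C ((e a.2 j : ℤ) : k) * X (j + a.1) * (Pi.single i 1 : K → MvPolynomial K k) j +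
        C ((e a.2 j : ℤ) : k) * X j * (Pi.single i 1 : K → MvPolynomial K k) (j + a.1) := by
      intro j
      rw [pderiv_C_mul, pderiv_mul, pderiv_X, pderiv_X]
      ring
    have h1 : ∑ j : K, C ((e a.2 j : ℤ) : k) * X j *
        (Pi.single i 1 : K → MvPolynomial K k) (j + a.1) =
        ∑ j : K, C ((e a.2 j : ℤ) : k) * X (j + a.1) *
          (Pi.single i 1 : K → MvPolynomial K k) j := by
      rw [← Equiv.sum_comp (Equiv.addRight a.1)
        (fun j => C ((e a.2 j : ℤ) : k) * X j *
          (Pi.single i 1 : K → MvPolynomial K k) (j + a.1))]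
      refine Finset.sum_congr rfl fun j _ => ?_
      show C ((e a.2 (j + a.1) : ℤ) : k) * X (j + a.1) *
        (Pi.single i 1 : K → MvPolynomial K k) (j + a.1 + a.1) = _
      rw [add_add_self he, e_shift he, hq, mul_one]
    rw [pp, map_sum, Finset.sum_congr rfl (fun j _ => hs j), Finset.sum_add_distrib, h1,
      single_sum i (fun j => C ((e a.2 j : ℤ) : k) * X (j + a.1))]
    rw [C_mul]
    have h5 : (C (2 : k) : MvPolynomial K k) = 1 + 1 := by
      rw [← C_1, ← C_add]
      congr 1
      norm_num
    rw [h5]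
    ring

end Helper49.RA
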