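import Pool.Agent.Helper49.RA.StA

/-! Project RA, module RIG: vanishing of `T^1` implies rigidity. -/

namespace Helper49.RA

open MvPolynomial

universe u

namespace RIGaux

open Helper47.Rig Module

variable {k : Type u} [Field k] {A : Type u} [CommRing A] [Algebra k A] {r : ℕ}

/-- the bilinear map with a given table -/
noncomputable def bil (b : Basis (Fin r) k A) (s : Fin r → Fin r → Fin r → k) :
    A →ₗ[k] A →ₗ[k] A :=
  b.constr k fun i => b.constr k fun j => ∑ l, s i j l • b l

theorem bil_apply (b : Basis (Fin r) k A) (s : Fin r → Fin r → Fin r → k) (i j : Fin r) :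
    bil b s (b i) (b j) = ∑ l, s i j l • b l := by
  rw [bil, Basis.constr_basis, Basis.constr_basis]

theorem bil_symm (b : Basis (Fin r) k A) (s : Fin r → Fin r → Fin r → k)
    (hs : ∀ i j l, s i j l = s j i l) (a a' : A) : bil b s a a' = bil b s a' a := by
  have h : bil b s = (bil b s).flip := by
    refine b.ext fun i => b.ext fun j => ?_
    rw [LinearMap.flip_apply, bil_apply, bil_apply]
    exact Finset.sum_congr rfl fun l _ => by rw [hs]
  conv_lhs => rw [h]
  rfl

theorem bil_cocycle (b : Basis (Fin r) k A) (x s : Fin r → Fin r → Fin r → k)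
    (hb : ∀ i j, b i * b j = ∑ l, x i j l • b l) (hl : linAssoc x s = 0) (a a' d : A) :
    a * bil b s a' d - bil b s (a * a') d + bil b s a (a' * d) - bil b s a a' * d = 0 := by
  have h3 : ∀ i j l, b i * bil b s (b j) (b l) - bil b s (b i * b j) (b l) +
      bil b s (b i) (b j * b l) - bil b s (b i) (b j) * b l = 0 := by
    intro i j l
    have e1 : b i * bil b s (b j) (b l) = ∑ n, (∑ m, s j l m * x i m n) • b n := by
      rw [bil_apply, Finset.mul_sum]
      simp only [mul_smul_comm, hb, Finset.smul_sum, smul_smul, Finset.sum_smul]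
      exact Finset.sum_comm
    have e2 : bil b s (b i * b j) (b l) = ∑ n, (∑ m, x i j m * s m l n) • b n := by
      rw [hb, map_sum, LinearMap.sum_apply]
      simp only [map_smul, LinearMap.smul_apply, bil_apply, Finset.smul_sum, smul_smul,
        Finset.sum_smul]
      exact Finset.sum_comm
    have e3 : bil b s (b i) (b j * b l) = ∑ n, (∑ m, x j l m * s i m n) • b n := by
      rw [hb, map_sum]
      simp only [map_smul, bil_apply, Finset.smul_sum, smul_smul, Finset.sum_smul]
      exact Finset.sum_comm
    have e4 : bil b s (b i) (b j) * b l = ∑ n, (∑ m, s i j m * x m l n) • b n := by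
      rw [bil_apply, Finset.sum_mul]
      simp only [smul_mul_assoc, hb, Finset.smul_sum, smul_smul, Finset.sum_smul]
      exact Finset.sum_comm
    rw [e1, e2, e3, e4, ← Finset.sum_sub_distrib, ← Finset.sum_add_distrib,
      ← Finset.sum_sub_distrib]
    refine Finset.sum_eq_zero fun n _ => ?_
    rw [← sub_smul, ← add_smul, ← sub_smul]
    have h4 := congrFun (congrFun (congrFun (congrFun hl i) j) l) n
    simp only [linAssoc, LinearMap.coe_mk, AddHom.coe_mk, Pi.zero_apply,
      Finset.sum_add_distrib] at h4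
    have h5 : ∑ m, s j l m * x i m n - ∑ m, x i j m * s m l n + ∑ m, x j l m * s i m n -
        ∑ m, s i j m * x m l n = 0 := by
      linear_combination -h4
    rw [h5, zero_smul]
  have h2 : ∀ i j d, b i * bil b s (b j) d - bil b s (b i * b j) d +
      bil b s (b i) (b j * d) - bil b s (b i) (b j) * d = 0 := by
    intro i j d
    have hL : LinearMap.mulLeft k (b i) ∘ₗ bil b s (b j) - bil b s (b i * b j) +
        bil b s (b i) ∘ₗ LinearMap.mulLeft k (b j) - LinearMap.mulLeft k (bil b s (b i) (b j)) =
        0 := b.ext fun l => h3 i j l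
    exact congrFun (congrArg DFunLike.coe hL) d
  have h1 : ∀ i a' d, b i * bil b s a' d - bil b s (b i * a') d +
      bil b s (b i) (a' * d) - bil b s (b i) a' * d = 0 := by
    intro i a' d
    have hL : LinearMap.mulLeft k (b i) ∘ₗ (bil b s).flip d -
        (bil b s).flip d ∘ₗ LinearMap.mulLeft k (b i) +
        bil b s (b i) ∘ₗ LinearMap.mulRight k d - LinearMap.mulRight k d ∘ₗ bil b s (b i) =
        0 := b.ext fun j => h2 i j d
    exact congrFun (congrArg DFunLike.coe hL) a'
  have hL : LinearMap.mulRight k (bil b s a' d) -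
        (bil b s).flip d ∘ₗ LinearMap.mulRight k a' +
        (bil b s).flip (a' * d) - LinearMap.mulRight k d ∘ₗ (bil b s).flip a' =
        0 := b.ext fun i => h1 i a' d
  exact congrFun (congrArg DFunLike.coe hL) a

theorem coordT1 (hV : VanT1 k A) (b : Basis (Fin r) k A) (x : Fin r → Fin r → Fin r → k)
    (hb : ∀ i j, b i * b j = ∑ l, x i j l • b l) : CoordT1 x := by
  intro s hs hl
  obtain ⟨φ, hφ⟩ := hV (bil b s) ⟨bil_symm b s hs, bil_cocycle b x s hb hl⟩
  refine ⟨fun i m => b.repr (φ (b i)) m, ?_⟩
  have hφb : ∀ i, φ (b i) = ∑ m, b.repr (φ (b i)) m • b m := fun i => (b.sum_repr _).symm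
  have hlin : ∀ v w : Fin r → k, ∑ l, v l • b l = ∑ l, w l • b l → v = w := by
    intro v w hvw
    have h := congrArg (fun a => b.equivFun a) hvw
    funext l
    have hl := congrFun h l
    simpa [Finset.sum_apply, Pi.smul_apply, Finsupp.single_apply] using hl
  funext i j
  apply hlin
  have h1 := hφ (b i) (b j)
  rw [bil_apply] at h1
  rw [h1]
  have e1 : b i * φ (b j) = ∑ l, (∑ m, b.repr (φ (b j)) m * x i m l) • b l := by
    conv_lhs => rw [hφb j]
    rw [Finset.mul_sum]
    simp only [mul_smul_comm, hb, Finset.smul_sum, smul_smul, Finset.sum_smul]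
    exact Finset.sum_comm
  have e2 : φ (b i * b j) = ∑ l, (∑ m, x i j m * b.repr (φ (b m)) l) • b l := by
    rw [hb, map_sum]
    simp only [map_smul]
    conv_lhs =>
      enter [2, m]
      rw [hφb m, Finset.smul_sum]
    simp only [smul_smul, Finset.sum_smul]
    exact Finset.sum_comm
  have e3 : φ (b i) * b j = ∑ l, (∑ m, b.repr (φ (b i)) m * x m j l) • b l := by
    conv_lhs => rw [hφb i]
    rw [Finset.sum_mul]
    simp only [smul_mul_assoc, hb, Finset.smul_sum, smul_smul, Finset.sum_smul]
    exact Finset.sum_comm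
  rw [e1, e2, e3, ← Finset.sum_sub_distrib, ← Finset.sum_add_distrib]
  refine Finset.sum_congr rfl fun l _ => ?_
  rw [← sub_smul, ← add_smul]
  congr 1
  simp only [cob, LinearMap.coe_mk, AddHom.coe_mk, Finset.sum_add_distrib,
    Finset.sum_sub_distrib]
  ring

theorem rep_of_iso (b : Basis (Fin r) k A) (x : Fin r → Fin r → Fin r → k)
    (hb : ∀ i j, b i * b j = ∑ l, x i j l • b l) (p : Tab k r) (hp : IsAlg p)
    (g : Matrix (Fin r) (Fin r) k) (hg : IsUnit g.det)
    (h : ∀ i j l, ∑ m, x i j m * g m l = ∑ m, ∑ m', g i m * g j m' * p.mul m m' l) :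
    Represents A p := by
  have hgt : IsUnit g.transpose.det := by rwa [Matrix.det_transpose]
  set E := Matrix.toLinearEquiv b g.transpose hgt with hE
  have hEb : ∀ m, E (b m) = ∑ l, g m l • b l := by
    intro m
    have : E (b m) = Matrix.toLin b b g.transpose (b m) := rfl
    rw [this, Matrix.toLin_self]
    rfl
  set b' := b.map E.symm with hb'
  have hbb : ∀ m, b m = ∑ l, g m l • b' l := by
    intro m
    have h1 : E.symm (E (b m)) = ∑ l, g m l • b' l := by
      rw [hEb, map_sum]
      refine Finset.sum_congr rfl fun l _ => ?_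
      rw [map_smul, hb', Basis.map_apply]
    rw [LinearEquiv.symm_apply_apply] at h1
    exact h1
  have hmul : LinearMap.mul k A = bil b' p.mul := by
    refine b.ext fun i => b.ext fun j => ?_
    rw [LinearMap.mul_apply', hb]
    have h1 : bil b' p.mul (b i) (b j) =
        ∑ l, (∑ m, ∑ m', g i m * g j m' * p.mul m m' l) • b' l := by
      rw [hbb i, hbb j]
      simp only [map_sum, LinearMap.sum_apply, map_smul, LinearMap.smul_apply, bil_apply,
        Finset.smul_sum, smul_smul, Finset.sum_smul]
      calc ∑ m', ∑ m, ∑ l, (g j m' * (g i m * p.mul m m' l)) • b' l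
          = ∑ m, ∑ m', ∑ l, (g j m' * (g i m * p.mul m m' l)) • b' l := Finset.sum_comm
        _ = ∑ m, ∑ l, ∑ m', (g j m' * (g i m * p.mul m m' l)) • b' l :=
            Finset.sum_congr rfl fun m _ => Finset.sum_comm
        _ = ∑ l, ∑ m, ∑ m', (g j m' * (g i m * p.mul m m' l)) • b' l := Finset.sum_comm
        _ = _ := by
            refine Finset.sum_congr rfl fun l _ => Finset.sum_congr rfl fun m _ =>
              Finset.sum_congr rfl fun m' _ => ?_
            congr 1
            ring
    rw [h1]
    have h2 : ∑ l, x i j l • b l = ∑ l, (∑ m, x i j m * g m l) • b' l := by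
      conv_lhs =>
        enter [2, m]
        rw [hbb m, Finset.smul_sum]
      simp only [smul_smul, Finset.sum_smul]
      exact Finset.sum_comm
    rw [h2]
    exact Finset.sum_congr rfl fun l _ => by rw [h]
  have hmul' : ∀ i j, b' i * b' j = ∑ l, p.mul i j l • b' l := by
    intro i j
    rw [← bil_apply, ← hmul]
    rfl
  refine ⟨b', hmul', ?_⟩
  set w : A := ∑ i, p.one i • b' i with hw
  have h1 : LinearMap.mulLeft k w = LinearMap.id := by
    refine b'.ext fun j => ?_
    rw [LinearMap.mulLeft_apply, LinearMap.id_apply, hw, Finset.sum_mul]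
    simp only [smul_mul_assoc, hmul', Finset.smul_sum, smul_smul]
    rw [Finset.sum_comm]
    simp only [← Finset.sum_smul, hp.unit]
    simp
  have h2 := congrFun (congrArg DFunLike.coe h1) (1 : A)
  rw [LinearMap.mulLeft_apply, mul_one] at h2
  exact h2.symm

end RIGaux

open RIGaux in
theorem rig : StSL3.{u} → StRig.{u} := by
  intro hSL3 k _ _ A _ _ _ hV
  refine ⟨{f | ∀ p : Helper47.Rig.Tab k (Module.finrank k A), Helper47.Rig.IsAlg p →
    eval p.coord f ≠ 0 → Helper47.Rig.Represents A p}, ?_⟩
  intro p hp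
  constructor
  · rintro ⟨b, hb, hone⟩
    obtain ⟨F, hF0, hF⟩ := hSL3 k (Fin (Module.finrank k A)) p.mul ⟨hp.comm, hp.assoc⟩
      (coordT1 hV b p.mul hb)
    refine ⟨rename Sum.inl F, ?_, ?_⟩
    · intro p' hp' hne
      rw [eval_rename] at hne
      obtain ⟨g, hg, h⟩ := hF p'.mul ⟨hp'.comm, hp'.assoc⟩ hne
      exact rep_of_iso b p.mul hb p' hp' g hg h
    · rw [eval_rename]
      exact hF0
  · rintro ⟨f, hf, hne⟩
    exact hf p hp hne

end Helper49.RA
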