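import Pool.Agent.Helper49.RA.StB

/-! Project RA (MP_16b052_ag), module SEC. -/

set_option autoImplicit false

namespace Helper49.RA

open MvPolynomial

universe u

namespace SECaux

private theorem pd_comp {k : Type u} [Field k] {K : Type} (s : MvPolynomial K k) (i : K)
    (d : ℕ) : pderiv i (homogeneousComponent (d + 1) s) = homogeneousComponent d (pderiv i s) := by
  have h1 : pderiv i s = ∑ j ∈ Finset.range (s.totalDegree + 1 + d + 1),
      pderiv i (homogeneousComponent j s) := by
    have h2 : s = ∑ j ∈ Finset.range (s.totalDegree + 1 + d + 1), homogeneousComponent j s := by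
      conv_lhs => rw [← sum_homogeneousComponent s]
      refine Finset.sum_subset (Finset.range_mono (by omega)) fun j _ hj => ?_
      refine homogeneousComponent_eq_zero _ _ ?_
      simpa using hj
    conv_lhs => rw [h2]
    rw [map_sum]
  rw [h1, map_sum, Finset.sum_eq_single (d + 1)]
  · have h3 : (pderiv i (homogeneousComponent (d + 1) s)).IsHomogeneous d :=
      (homogeneousComponent_isHomogeneous (d + 1) s).pderiv
    rw [homogeneousComponent_of_mem h3, if_pos rfl]
  · intro j _ hj
    rcases j with _ | j
    · rw [homogeneousComponent_zero, pderiv_C, map_zero]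
    · have h3 : (pderiv i (homogeneousComponent (j + 1) s)).IsHomogeneous j :=
        (homogeneousComponent_isHomogeneous (j + 1) s).pderiv
      rw [homogeneousComponent_of_mem h3, if_neg]
      omega
  · intro h
    exfalso
    apply h
    rw [Finset.mem_range]
    omega

private theorem sum_der {k : Type u} [Field k] {K : Type} (t : Finset K)
    (D : K → Derivation k (MvPolynomial K k) (MvPolynomial K k)) (r : MvPolynomial K k) :
    (∑ i ∈ t, D i) r = ∑ i ∈ t, D i r := by
  classical
  induction t using Finset.induction_on with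
  | empty => rw [Finset.sum_empty, Finset.sum_empty]; rfl
  | insert a t ha ih => rw [Finset.sum_insert ha, Finset.sum_insert ha, Derivation.add_apply, ih]

private theorem der_sum {k : Type u} [Field k] {K : Type} [Fintype K] [DecidableEq K]
    (D : Derivation k (MvPolynomial K k) (MvPolynomial K k)) (r : MvPolynomial K k) :
    D r = ∑ i, D (X i) * pderiv i r := by
  have h : D = ∑ i, D (X i) • (pderiv i : Derivation k (MvPolynomial K k) (MvPolynomial K k)) := by
    refine MvPolynomial.derivation_ext fun j => ?_
    rw [sum_der, Finset.sum_eq_single j]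
    · rw [Derivation.smul_apply, pderiv_X_self, smul_eq_mul, mul_one]
    · intro i _ hij
      rw [Derivation.smul_apply, pderiv_X_of_ne hij.symm, smul_zero]
    · intro h; exact absurd (Finset.mem_univ _) h
  conv_lhs => rw [h]
  rw [sum_der]
  exact Finset.sum_congr rfl fun i _ => by rw [Derivation.smul_apply, smul_eq_mul]

private theorem sep {k : Type u} [Field k] {K : Type} (J : Ideal (MvPolynomial K k))
    (r : MvPolynomial K k) (hr : r ∉ J) :
    ∃ G : MvPolynomial K k →ₗ[k] k, G r ≠ 0 ∧ ∀ s ∈ J, G s = 0 := by
  have hr' : r ∉ J.restrictScalars k := hr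
  obtain ⟨G, h1, h2⟩ := Submodule.exists_le_ker_of_notMem hr'
  exact ⟨G, h1, fun s hs => LinearMap.mem_ker.1 (h2 hs)⟩

end SECaux

open SECaux

theorem sec : StGen.{u} → StZI.{u} → StD4.{u} → StD5.{u} → StD6.{u} → StD3.{u} → StSec.{u} := by
  intro hGen hZI hD4 hD5 hD6 hD3 k _ K _ _ _ e he f hF hG hU hA Φ hΦ s hs hds
  obtain ⟨z1, z2, z3, z4, z5⟩ := hZI k K e he f hF Φ hΦ
  have hT : ∃ c, f c ≠ 0 := by
    obtain ⟨c, -, hc, -⟩ := hG.tt 0
    exact ⟨c, hc⟩
  have hz : ∀ r ∈ annI Φ, Φ r = 0 := by
    intro r hr
    have := hr 1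
    rwa [mul_one] at this
  -- degree six and above
  have h6 : ∀ d : ℕ, ∀ r : MvPolynomial K k, r.IsHomogeneous (d + 6) → r ∈ annI Φ ^ 2 := by
    intro d
    induction d with
    | zero =>
      intro r hr
      by_contra hn
      obtain ⟨G, hG1, hG2⟩ := sep _ r hn
      exact hG1 (hD6 k K e he f hF hG hU Φ hΦ G hG2 r hr)
    | succ d ih =>
      intro r hr
      have := hGen k K ((annI Φ ^ 2).restrictScalars k) (d + 6)
        (fun y t ht => Ideal.mul_mem_left _ _ (ih t ht)) r (by
          have e1 : d + 1 + 6 = d + 6 + 1 := by omega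
          rwa [e1] at hr)
      exact this
  -- homogeneous elements
  have key : ∀ d : ℕ, ∀ r : MvPolynomial K k, r.IsHomogeneous d → r ∈ annI Φ →
      (∀ i, pderiv i r ∈ annI Φ) → r ∈ annI Φ ^ 2 := by
    intro d r hr hrI hrd
    rcases Nat.lt_or_ge d 6 with hd | hd
    · interval_cases d
      · -- degree zero
        have h1 : (X 0 * r : MvPolynomial K k) = 0 := by
          refine z5 hT _ ?_ (Ideal.mul_mem_left _ _ hrI)
          exact (isHomogeneous_X k (0 : K)).mul hr
        have h2 : r = 0 := by
          rcases mul_eq_zero.1 h1 with h | h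
          · exact absurd h (X_ne_zero _)
          · exact h
        rw [h2]; exact Ideal.zero_mem _
      · rw [z5 hT r hr hrI]; exact Ideal.zero_mem _
      · have h0 : ∀ i, pderiv i r = 0 := fun i => z5 hT _ hr.pderiv (hrd i)
        have h1 := hr.sum_X_mul_pderiv
        rw [Finset.sum_eq_zero fun i _ => by rw [h0 i, mul_zero]] at h1
        have h2 : r = 0 := by
          have h3 : (C (2 : k) : MvPolynomial K k) * r = 0 := by
            rw [map_ofNat, ← Nat.cast_ofNat, ← nsmul_eq_mul]
            exact h1.symm
          rcases mul_eq_zero.1 h3 with h | h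
          · exact absurd (C_eq_zero.1 h) hF.two
          · exact h
        rw [h2]; exact Ideal.zero_mem _
      · rw [hD3 k K e he f hF hA Φ hΦ r hr hrI hrd]; exact Ideal.zero_mem _
      · by_contra hn
        obtain ⟨G, hG1, hG2⟩ := sep _ r hn
        obtain ⟨m, hm⟩ := hD4 k K e he f hF hU Φ hΦ G fun a c _ _ ha hc =>
          hG2 _ (by rw [pow_two]; exact Ideal.mul_mem_mul (z4 a ha) (z4 c hc))
        apply hG1
        rw [hm r hr]
        refine Finset.sum_eq_zero fun b _ => ?_
        rw [hz, mul_zero]
        rw [der_sum (Db k e b) r]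
        exact Ideal.sum_mem _ fun i _ => Ideal.mul_mem_left _ _ (hrd i)
      · by_contra hn
        obtain ⟨G, hG1, hG2⟩ := sep _ r hn
        obtain ⟨l, hl⟩ := hD5 k K e he f hF hG hU Φ hΦ G fun a _ ha t _ htI =>
          hG2 _ (by rw [pow_two]; exact Ideal.mul_mem_mul (z4 a ha) htI)
        apply hG1
        rw [hl r hr]
        exact Finset.sum_eq_zero fun i _ => by rw [hz _ (hrd i), mul_zero]
    · obtain ⟨d', rfl⟩ := Nat.exists_eq_add_of_le' hd
      exact h6 d' r hr
  rw [← sum_homogeneousComponent s]
  refine Ideal.sum_mem _ fun d _ => ?_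
  refine key d _ (homogeneousComponent_isHomogeneous d s) (z1 s hs d) fun i => ?_
  rcases d with _ | d
  · rw [homogeneousComponent_zero, pderiv_C]
    exact Ideal.zero_mem _
  · rw [pd_comp]
    exact z1 _ (hds i) d

end Helper49.RA
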