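import Pool.Agent.Helper49.RA.StA

/-!
Project RA (MP_16b052_ag), module SL1: a complement of the coboundaries and a left inverse of the
linearised associator.
-/

namespace Helper49.RA

universe u

theorem sl1 : StSL1.{u} := by
  intro k _ N _ _ x hx
  obtain ⟨S, hS⟩ := Submodule.exists_isCompl (LinearMap.range (cob x))
  obtain ⟨g, hg⟩ := (cob x).rangeRestrict.exists_rightInverse_of_surjective
    (LinearMap.range_eq_top.2 (cob x).surjective_rangeRestrict)
  let d : S →ₗ[k] ((N → N → N → N → k) × (N → N → N → k)) :=
    ((linAssoc x).prod anti).comp S.subtype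
  have hd : LinearMap.ker d = ⊥ := by
    rw [LinearMap.ker_eq_bot']
    intro s hs
    have h1 : linAssoc x s.1 = 0 := congrArg Prod.fst hs
    have h2 : anti s.1 = 0 := congrArg Prod.snd hs
    have h3 : ∀ i j l, s.1 i j l = s.1 j i l := by
      intro i j l
      have h4 := congrFun (congrFun (congrFun h2 i) j) l
      exact sub_eq_zero.1 h4
    obtain ⟨t, ht⟩ := hx s.1 h3 h1
    have h5 : s.1 ∈ LinearMap.range (cob x) ⊓ S := ⟨⟨t, ht.symm⟩, s.2⟩
    rw [hS.inf_eq_bot, Submodule.mem_bot] at h5
    exact Subtype.ext h5
  obtain ⟨e, he⟩ := d.exists_leftInverse_of_injective hd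
  refine ⟨-(g.comp ((LinearMap.range (cob x)).projectionOnto S hS)),
    S.subtype.comp (S.projectionOnto (LinearMap.range (cob x)) hS.symm),
    S.subtype.comp e, ?_, ?_⟩
  · intro ξ
    have h1 : cob x (g ((LinearMap.range (cob x)).projectionOnto S hS ξ)) =
        ((LinearMap.range (cob x)).projectionOnto S hS ξ : N → N → N → k) := by
      have h2 := LinearMap.congr_fun hg ((LinearMap.range (cob x)).projectionOnto S hS ξ)
      exact congrArg Subtype.val h2
    rw [LinearMap.neg_apply, map_neg, sub_neg_eq_add, LinearMap.comp_apply, LinearMap.comp_apply,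
      h1, add_comm]
    exact Submodule.projection_add_projection_eq_self hS ξ
  · intro ξ
    have h1 := LinearMap.congr_fun he (S.projectionOnto (LinearMap.range (cob x)) hS.symm ξ)
    exact congrArg Subtype.val h1

end Helper49.RA
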