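import Pool.Agent.Helper49.RA.StA

/-! Project RA, module SL2: explicit polynomials. -/

namespace Helper49.RA

open MvPolynomial

universe u

namespace SL2aux

variable {k : Type u} [Field k] {N : Type} [Fintype N] [DecidableEq N]

/-- the table which is one at `a` and zero elsewhere -/
def sg (k : Type u) [Field k] (a : N × N × N) : N → N → N → k :=
  fun i j l => if (i, j, l) = a then 1 else 0

/-- the table of a function on triples -/
def tb (v : N × N × N → k) : N → N → N → k := fun i j l => v (i, j, l)

theorem tb_eq_sum (v : N × N × N → k) : tb v = ∑ a, v a • sg k a := by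
  funext i j l
  simp [tb, sg, Finset.sum_apply, Pi.smul_apply]

/-- linear polynomials in the second group of variables -/
noncomputable def lp (f : (N → N → N → k) →ₗ[k] k) :
    MvPolynomial ((N × N × N) ⊕ (N × N × N)) k :=
  ∑ a : N × N × N, C (f (sg k a)) * X (Sum.inr a)

theorem eval_lp (f : (N → N → N → k) →ₗ[k] k) (y v : N × N × N → k) :
    eval (Sum.elim y v) (lp f) = f (tb v) := by
  rw [tb_eq_sum, map_sum]
  simp only [lp, map_sum, map_mul, eval_C, eval_X, Sum.elim_inr, map_smul, smul_eq_mul]
  exact Finset.sum_congr rfl fun a _ => mul_comm _ _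

theorem pderiv_lp (f : (N → N → N → k) →ₗ[k] k) (b : N × N × N) :
    pderiv (Sum.inr b) (lp f) = C (f (sg k b)) := by
  classical
  rw [lp, map_sum]
  rw [Finset.sum_eq_single b]
  · rw [pderiv_C_mul, pderiv_X_self, mul_one]
  · intro a _ hab
    rw [pderiv_C_mul, pderiv_X_of_ne, mul_zero]
    intro h
    exact hab (Sum.inr_injective h)
  · intro h
    exact absurd (Finset.mem_univ b) h

/-- the coordinate functional -/
def ev2 (i j : N) : (N → N → k) →ₗ[k] k where
  toFun t := t i j
  map_add' _ _ := rfl
  map_smul' _ _ := rfl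

/-- the coordinate functional -/
def ev3 (i j l : N) : (N → N → N → k) →ₗ[k] k where
  toFun t := t i j l
  map_add' _ _ := rfl
  map_smul' _ _ := rfl

/-- the associator as a bilinear map -/
def A2 : (N → N → N → k) →ₗ[k] (N → N → N → k) →ₗ[k] (N → N → N → N → k) :=
  LinearMap.mk₂ k assoc2
    (by
      intro s t s'
      funext i j l n
      simp only [assoc2, Pi.add_apply, add_mul, mul_add, Finset.sum_add_distrib]
      ring)
    (by
      intro c s s'
      funext i j l n
      simp only [assoc2, Pi.smul_apply, smul_eq_mul, mul_sub, Finset.mul_sum]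
      congr 1
      · exact Finset.sum_congr rfl fun m _ => by ring
      · exact Finset.sum_congr rfl fun m _ => by ring)
    (by
      intro s s' t'
      funext i j l n
      simp only [assoc2, Pi.add_apply, add_mul, mul_add, Finset.sum_add_distrib]
      ring)
    (by
      intro c s s'
      funext i j l n
      simp only [assoc2, Pi.smul_apply, smul_eq_mul, mul_sub, Finset.mul_sum]
      congr 1
      · exact Finset.sum_congr rfl fun m _ => by ring
      · exact Finset.sum_congr rfl fun m _ => by ring)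

variable (x : N → N → N → k)
  (tL : (N → N → N → k) →ₗ[k] (N → N → k)) (sL : (N → N → N → k) →ₗ[k] (N → N → N → k))
  (lam : ((N → N → N → N → k) × (N → N → N → k)) →ₗ[k] (N → N → N → k))

/-- entries of the second matrix -/
def mf (a b : N × N × N) : (N → N → N → k) →ₗ[k] k :=
  ev3 a.1 a.2.1 a.2.2 ∘ₗ lam ∘ₗ LinearMap.inl k _ _ ∘ₗ (A2 (k := k) (N := N)).flip (sg k b) ∘ₗ sL

theorem mf_apply (a b : N × N × N) (ξ : N → N → N → k) :
    mf sL lam a b ξ = lam (assoc2 (sL ξ) (sg k b), 0) a.1 a.2.1 a.2.2 := rfl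

/-- the equations -/
noncomputable def PP (a : N × N × N) : MvPolynomial ((N × N × N) ⊕ (N × N × N)) k :=
  ∑ m, (C (x a.1 a.2.1 m) + lp (ev3 a.1 a.2.1 m ∘ₗ sL)) *
      (C (if m = a.2.2 then 1 else 0) + lp (ev2 m a.2.2 ∘ₗ tL)) -
    ∑ m, ∑ m', (C (if a.1 = m then 1 else 0) + lp (ev2 a.1 m ∘ₗ tL)) *
      (C (if a.2.1 = m' then 1 else 0) + lp (ev2 a.2.1 m' ∘ₗ tL)) * X (Sum.inl (m, m', a.2.2))

theorem eval_PP (y v : N × N × N → k) (i j l : N) :
    eval (Sum.elim y v) (PP x tL sL (i, j, l)) =
      ∑ m, (x i j m + sL (tb v) i j m) * ((if m = l then 1 else 0) + tL (tb v) m l) -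
        ∑ m, ∑ m', ((if i = m then 1 else 0) + tL (tb v) i m) *
          ((if j = m' then 1 else 0) + tL (tb v) j m') * y (m, m', l) := by
  simp only [PP, map_sub, map_sum, map_mul, map_add, eval_C, eval_lp, eval_X, Sum.elim_inl]
  rfl

theorem eval_pderiv_PP (y : N × N × N → k) (i j l : N) (b : N × N × N) :
    eval (Sum.elim y (fun _ => (0 : k))) (pderiv (Sum.inr b) (PP x tL sL (i, j, l))) =
      (∑ m, x i j m * tL (sg k b) m l + sL (sg k b) i j l) -
        (∑ m', tL (sg k b) j m' * y (i, m', l) + ∑ m, tL (sg k b) i m * y (m, j, l)) := by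
  classical
  have h0 : ∀ f : (N → N → N → k) →ₗ[k] k,
      eval (Sum.elim y (fun _ => (0 : k))) (lp f) = 0 := by
    intro f
    rw [eval_lp]
    have : tb (fun _ : N × N × N => (0 : k)) = 0 := rfl
    rw [this, map_zero]
  have hX : ∀ c : N × N × N, pderiv (Sum.inr b)
      (X (Sum.inl c) : MvPolynomial ((N × N × N) ⊕ (N × N × N)) k) = 0 := by
    intro c
    rw [pderiv_X_of_ne]
    exact Sum.inl_ne_inr
  have h1 : ∀ m, eval (Sum.elim y (fun _ => (0 : k))) (pderiv (Sum.inr b)
      ((C (x i j m) + lp (ev3 i j m ∘ₗ sL)) *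
        (C (if m = l then 1 else 0) + lp (ev2 m l ∘ₗ tL)))) =
      x i j m * tL (sg k b) m l + (if m = l then 1 else 0) * sL (sg k b) i j m := by
    intro m
    simp only [Derivation.leibniz, map_add, pderiv_C, zero_add, pderiv_lp, smul_eq_mul, map_mul,
      eval_C, h0, add_zero]
    rfl
  have h2 : ∀ m m', eval (Sum.elim y (fun _ => (0 : k))) (pderiv (Sum.inr b)
      ((C (if i = m then 1 else 0) + lp (ev2 i m ∘ₗ tL)) *
      (C (if j = m' then 1 else 0) + lp (ev2 j m' ∘ₗ tL)) * X (Sum.inl (m, m', l)))) =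
      ((if i = m then 1 else 0) * tL (sg k b) j m' + (if j = m' then 1 else 0) * tL (sg k b) i m) *
        y (m, m', l) := by
    intro m m'
    simp only [Derivation.leibniz, map_add, pderiv_C, zero_add, pderiv_lp, smul_eq_mul, map_mul,
      eval_C, h0, add_zero, hX, mul_zero, eval_X, Sum.elim_inl]
    rw [mul_comm]
    rfl
  simp only [PP, map_sub, map_sum, h1, h2]
  congr 1
  · rw [Finset.sum_add_distrib]
    simp
  · simp only [add_mul, Finset.sum_add_distrib]
    congr 1
    · simp
    · simp

/-- the nonvanishing condition -/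
noncomputable def HH : MvPolynomial ((N × N × N) ⊕ (N × N × N)) k :=
  (Matrix.of fun i j : N => C (if i = j then 1 else 0) + lp (ev2 i j ∘ₗ tL)).det *
    (Matrix.of fun a b : N × N × N => C (if a = b then 1 else 0) + lp (mf sL lam a b)).det

theorem eval_HH (y v : N × N × N → k) :
    eval (Sum.elim y v) (HH tL sL lam) =
      (Matrix.of fun i j : N => (if i = j then 1 else 0) + tL (tb v) i j).det *
      (Matrix.of fun a b : N × N × N => (if a = b then 1 else 0) + mf sL lam a b (tb v)).det := by
  rw [HH, map_mul, RingHom.map_det, RingHom.map_det]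
  congr 2
  · ext i j
    simp only [RingHom.mapMatrix_apply, Matrix.map_apply, Matrix.of_apply, map_add, eval_C,
      eval_lp]
    rfl
  · ext a b
    simp only [RingHom.mapMatrix_apply, Matrix.map_apply, Matrix.of_apply, map_add, eval_C,
      eval_lp]

end SL2aux

open SL2aux in
theorem sl2 : StSL2.{u} := by
  intro k _ N _ _ x tL sL lam hsec
  refine ⟨PP x tL sL, HH tL sL lam, ?_, ?_, ?_, ?_⟩
  · intro y ξ i j l
    rw [eval_PP]
    rfl
  · intro y ξ hne
    rw [eval_HH] at hne
    have htb : tb (fun a : N × N × N => ξ a.1 a.2.1 a.2.2) = ξ := rfl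
    rw [htb] at hne
    refine ⟨left_ne_zero_of_mul hne, ?_⟩
    intro s' hs'
    have hdet := right_ne_zero_of_mul hne
    have hv : (Matrix.of fun a b : N × N × N => (if a = b then 1 else 0) + mf sL lam a b ξ).mulVec
        (fun a => s' a.1 a.2.1 a.2.2) = 0 := by
      funext a
      have hsum : s' = ∑ b : N × N × N, s' b.1 b.2.1 b.2.2 • sg k b :=
        tb_eq_sum (fun a => s' a.1 a.2.1 a.2.2)
      have h1 : lam (assoc2 (sL ξ) s', 0) =
          ∑ b : N × N × N, s' b.1 b.2.1 b.2.2 • lam (assoc2 (sL ξ) (sg k b), 0) := by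
        have h2 : lam (assoc2 (sL ξ) s', 0) = (lam ∘ₗ LinearMap.inl k _ _ ∘ₗ A2 (sL ξ)) s' := rfl
        rw [h2]
        conv_lhs => rw [hsum]
        rw [map_sum]
        refine Finset.sum_congr rfl fun b _ => ?_
        rw [map_smul]
        rfl
      have h3 : s' a.1 a.2.1 a.2.2 + lam (assoc2 (sL ξ) s', 0) a.1 a.2.1 a.2.2 = 0 := by
        have := congrFun (congrFun (congrFun hs' a.1) a.2.1) a.2.2
        simpa using this
      rw [h1] at h3
      simp only [Matrix.mulVec, dotProduct, Matrix.of_apply, add_mul, Finset.sum_add_distrib,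
        mf_apply, Pi.zero_apply]
      refine Eq.trans ?_ h3
      congr 1
      · simp
      · simp only [Finset.sum_apply, Pi.smul_apply, smul_eq_mul]
        exact Finset.sum_congr rfl fun b _ => mul_comm _ _
    have := Matrix.eq_zero_of_mulVec_eq_zero hdet hv
    funext i j l
    exact congrFun this (i, j, l)
  · rw [eval_HH]
    have h0 : tb (fun _ : N × N × N => (0 : k)) = 0 := rfl
    rw [h0]
    have e1 : (Matrix.of fun i j : N => (if i = j then (1 : k) else 0) +
        tL (0 : N → N → N → k) i j) = 1 := by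
      ext i j
      rw [Matrix.of_apply, map_zero, Matrix.one_apply]
      simp
    have e2 : (Matrix.of fun a b : N × N × N => (if a = b then (1 : k) else 0) +
        mf sL lam a b (0 : N → N → N → k)) = 1 := by
      ext a b
      rw [Matrix.of_apply, map_zero, Matrix.one_apply, add_zero]
    rw [e1, e2, Matrix.det_one, Matrix.det_one, mul_one]
    exact one_ne_zero
  · rintro ⟨i, j, l⟩ b
    rw [eval_pderiv_PP]
    have h := congrFun (congrFun (congrFun (hsec (sg k b)) i) j) l
    have h2 : sg k b i j l = if (i, j, l) = b then 1 else 0 := rfl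
    rw [h2] at h
    rw [← h]
    simp only [Pi.sub_apply, cob, LinearMap.coe_mk, AddHom.coe_mk, Finset.sum_sub_distrib,
      Finset.sum_add_distrib]
    ring

end Helper49.RA
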