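import Pool.Agent.Helper49.RA.StA

/-!
Project RA (MP_16b052_ag), module SL3: the slice argument.
-/

namespace Helper49.RA

open MvPolynomial

universe u

namespace SL3aux

variable {k : Type u} [Field k] {N : Type} [Fintype N]

/-- The relation saying that `g` maps the product `z` to the product `y`. -/
def Rel (z y : N → N → N → k) (g : Matrix N N k) : Prop :=
  ∀ i j l, ∑ m, z i j m * g m l = ∑ m, ∑ m', g i m * g j m' * y m m' l

theorem symm_of_rel [DecidableEq N] {z y : N → N → N → k} {g : Matrix N N k} (hg : g.det ≠ 0)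
    (hE : Rel z y g) (hy : ∀ i j l, y i j l = y j i l) : ∀ i j l, z i j l = z j i l := by
  intro i j l
  have hv : (fun m => z i j m - z j i m) = 0 := by
    refine Matrix.eq_zero_of_vecMul_eq_zero hg ?_
    funext q
    have h1 : (Matrix.vecMul (fun m => z i j m - z j i m) g) q =
        ∑ m, z i j m * g m q - ∑ m, z j i m * g m q := by
      simp only [Matrix.vecMul, dotProduct]
      rw [← Finset.sum_sub_distrib]
      exact Finset.sum_congr rfl fun m _ => by ring
    rw [h1, hE, hE, Pi.zero_apply, sub_eq_zero]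
    rw [Finset.sum_comm]
    exact Finset.sum_congr rfl fun a _ => Finset.sum_congr rfl fun b _ => by
      rw [hy b a q]
      ring
  have := congrFun hv l
  simp only [Pi.zero_apply] at this
  exact sub_eq_zero.1 this

theorem left_sum {z y : N → N → N → k} {g : Matrix N N k} (hE : Rel z y g) (i j l q : N) :
    ∑ n, (∑ m, z i j m * z m l n) * g n q =
      ∑ c, ∑ d, ∑ b, g i c * g j d * g l b * ∑ a, y c d a * y a b q := by
  calc ∑ n, (∑ m, z i j m * z m l n) * g n q
      = ∑ m, z i j m * ∑ n, z m l n * g n q := by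
        simp only [Finset.sum_mul, Finset.mul_sum]
        rw [Finset.sum_comm]
        exact Finset.sum_congr rfl fun a _ => Finset.sum_congr rfl fun b _ => by ring
    _ = ∑ m, z i j m * ∑ a, ∑ b, g m a * g l b * y a b q := by
        exact Finset.sum_congr rfl fun m _ => by rw [hE m l q]
    _ = ∑ a, (∑ m, z i j m * g m a) * ∑ b, g l b * y a b q := by
        simp only [Finset.sum_mul, Finset.mul_sum]
        rw [Finset.sum_comm]
        refine Finset.sum_congr rfl fun a _ => ?_
        rw [Finset.sum_comm]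
        exact Finset.sum_congr rfl fun b _ => Finset.sum_congr rfl fun m _ => by ring
    _ = ∑ a, (∑ c, ∑ d, g i c * g j d * y c d a) * ∑ b, g l b * y a b q := by
        exact Finset.sum_congr rfl fun a _ => by rw [hE i j a]
    _ = ∑ a, ∑ c, ∑ d, ∑ b, g i c * g j d * g l b * (y c d a * y a b q) := by
        refine Finset.sum_congr rfl fun a _ => ?_
        rw [Finset.sum_mul]
        refine Finset.sum_congr rfl fun c _ => ?_
        rw [Finset.sum_mul]
        refine Finset.sum_congr rfl fun d _ => ?_
        rw [Finset.mul_sum]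
        exact Finset.sum_congr rfl fun b _ => by ring
    _ = ∑ c, ∑ d, ∑ b, g i c * g j d * g l b * ∑ a, y c d a * y a b q := by
        rw [Finset.sum_comm]
        refine Finset.sum_congr rfl fun c _ => ?_
        rw [Finset.sum_comm]
        refine Finset.sum_congr rfl fun d _ => ?_
        rw [Finset.sum_comm]
        exact Finset.sum_congr rfl fun b _ => by rw [Finset.mul_sum]

theorem right_sum {z y : N → N → N → k} {g : Matrix N N k} (hE : Rel z y g) (i j l q : N) :
    ∑ n, (∑ m, z j l m * z i m n) * g n q =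
      ∑ c, ∑ d, ∑ b, g i c * g j d * g l b * ∑ a, y d b a * y c a q := by
  calc ∑ n, (∑ m, z j l m * z i m n) * g n q
      = ∑ m, z j l m * ∑ n, z i m n * g n q := by
        simp only [Finset.sum_mul, Finset.mul_sum]
        rw [Finset.sum_comm]
        exact Finset.sum_congr rfl fun a _ => Finset.sum_congr rfl fun b _ => by ring
    _ = ∑ m, z j l m * ∑ c, ∑ a, g i c * g m a * y c a q := by
        exact Finset.sum_congr rfl fun m _ => by rw [hE i m q]
    _ = ∑ c, ∑ a, (∑ m, z j l m * g m a) * (g i c * y c a q) := by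
        simp only [Finset.sum_mul, Finset.mul_sum]
        rw [Finset.sum_comm]
        refine Finset.sum_congr rfl fun a _ => ?_
        rw [Finset.sum_comm]
        exact Finset.sum_congr rfl fun b _ => Finset.sum_congr rfl fun m _ => by ring
    _ = ∑ c, ∑ a, (∑ d, ∑ b, g j d * g l b * y d b a) * (g i c * y c a q) := by
        exact Finset.sum_congr rfl fun c _ => Finset.sum_congr rfl fun a _ => by rw [hE j l a]
    _ = ∑ c, ∑ a, ∑ d, ∑ b, g i c * g j d * g l b * (y d b a * y c a q) := by
        refine Finset.sum_congr rfl fun c _ => ?_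
        refine Finset.sum_congr rfl fun a _ => ?_
        rw [Finset.sum_mul]
        refine Finset.sum_congr rfl fun d _ => ?_
        rw [Finset.sum_mul]
        exact Finset.sum_congr rfl fun b _ => by ring
    _ = ∑ c, ∑ d, ∑ b, g i c * g j d * g l b * ∑ a, y d b a * y c a q := by
        refine Finset.sum_congr rfl fun c _ => ?_
        rw [Finset.sum_comm]
        refine Finset.sum_congr rfl fun d _ => ?_
        rw [Finset.sum_comm]
        exact Finset.sum_congr rfl fun b _ => by rw [Finset.mul_sum]

theorem assoc_of_rel [DecidableEq N] {z y : N → N → N → k} {g : Matrix N N k} (hg : g.det ≠ 0)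
    (hE : Rel z y g) (hy : ∀ i j l n, ∑ m, y i j m * y m l n = ∑ m, y j l m * y i m n) :
    ∀ i j l n, ∑ m, z i j m * z m l n = ∑ m, z j l m * z i m n := by
  intro i j l n
  have hv : (fun n => ∑ m, z i j m * z m l n - ∑ m, z j l m * z i m n) = 0 := by
    refine Matrix.eq_zero_of_vecMul_eq_zero hg ?_
    funext q
    have h1 : (Matrix.vecMul (fun n => ∑ m, z i j m * z m l n - ∑ m, z j l m * z i m n) g) q =
        ∑ n, (∑ m, z i j m * z m l n) * g n q - ∑ n, (∑ m, z j l m * z i m n) * g n q := by
      simp only [Matrix.vecMul, dotProduct]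
      rw [← Finset.sum_sub_distrib]
      exact Finset.sum_congr rfl fun m _ => by ring
    rw [h1, left_sum hE, right_sum hE, Pi.zero_apply, sub_eq_zero]
    exact Finset.sum_congr rfl fun c _ => Finset.sum_congr rfl fun d _ =>
      Finset.sum_congr rfl fun b _ => by rw [hy c d b q]
  have := congrFun hv n
  simp only [Pi.zero_apply] at this
  exact sub_eq_zero.1 this

end SL3aux

open SL3aux

theorem sl3 : StOpen2.{u} → StSL1.{u} → StSL2.{u} → StSL3.{u} := by
  intro h2 s1 s2 k _ _ N _ _ x hx hT
  obtain ⟨tL, sL, lam, ht, hl⟩ := s1 k N x hT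
  obtain ⟨P, h, hP, hh, h0, hJ⟩ := s2 k N x tL sL lam ht
  obtain ⟨F, hF, hF'⟩ := h2 k (N × N × N) (N × N × N) P h
    (fun a : N × N × N => x a.1 a.2.1 a.2.2) (fun _ => 0) (by
      rintro ⟨i, j, l⟩
      have h1 := hP x 0 i j l
      refine h1.trans ?_
      simp [map_zero, Finset.sum_ite_eq]) h0 (by
      have h1 : (Matrix.of fun i j : N × N × N =>
          eval (Sum.elim (fun a : N × N × N => x a.1 a.2.1 a.2.2) (fun _ => 0))
            (pderiv (Sum.inr j) (P i))) = 1 := by
        ext a b
        rw [Matrix.of_apply, hJ a b, Matrix.one_apply]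
      rw [h1, Matrix.det_one]
      exact one_ne_zero)
  refine ⟨F, hF, ?_⟩
  intro y hy hyF
  obtain ⟨z', hz1, hz2⟩ := hF' _ hyF
  obtain ⟨ξ, hξ⟩ : ∃ ξ : N → N → N → k, z' = fun a : N × N × N => ξ a.1 a.2.1 a.2.2 :=
    ⟨fun i j l => z' (i, j, l), rfl⟩
  subst hξ
  obtain ⟨hdet, hinj⟩ := hh y ξ hz2
  have hE : Rel (fun i j l => x i j l + sL ξ i j l) y
      (Matrix.of fun i j => (if i = j then 1 else 0) + tL ξ i j) := by
    intro i j l
    have h1 := (hP y ξ i j l).symm.trans (hz1 (i, j, l))
    exact sub_eq_zero.1 h1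
  have hzs := symm_of_rel hdet hE hy.1
  have hza := assoc_of_rel hdet hE hy.2
  have hanti : anti (sL ξ) = 0 := by
    funext i j l
    have h1 := hzs i j l
    have h3 := hx.1 i j l
    change sL ξ i j l - sL ξ j i l = 0
    rw [h3] at h1
    linear_combination h1
  have hlin : linAssoc x (sL ξ) = - assoc2 (sL ξ) (sL ξ) := by
    funext i j l n
    have h1 := hza i j l n
    have h3 := hx.2 i j l n
    change ∑ m, (sL ξ i j m * x m l n + x i j m * sL ξ m l n) -
      ∑ m, (sL ξ j l m * x i m n + x j l m * sL ξ i m n) =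
      - (∑ m, sL ξ i j m * sL ξ m l n - ∑ m, sL ξ j l m * sL ξ i m n)
    have e1 : ∑ m, (x i j m + sL ξ i j m) * (x m l n + sL ξ m l n) =
        ∑ m, x i j m * x m l n + ∑ m, (sL ξ i j m * x m l n + x i j m * sL ξ m l n) +
          ∑ m, sL ξ i j m * sL ξ m l n := by
      rw [← Finset.sum_add_distrib, ← Finset.sum_add_distrib]
      exact Finset.sum_congr rfl fun m _ => by ring
    have e2 : ∑ m, (x j l m + sL ξ j l m) * (x i m n + sL ξ i m n) =
        ∑ m, x j l m * x i m n + ∑ m, (sL ξ j l m * x i m n + x j l m * sL ξ i m n) +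
          ∑ m, sL ξ j l m * sL ξ i m n := by
      rw [← Finset.sum_add_distrib, ← Finset.sum_add_distrib]
      exact Finset.sum_congr rfl fun m _ => by ring
    rw [e1, e2, h3] at h1
    linear_combination h1
  have hs : sL ξ = 0 := by
    apply hinj
    have h1 := hl ξ
    rw [hlin, hanti] at h1
    have h3 : ((-assoc2 (sL ξ) (sL ξ), 0) : (N → N → N → N → k) × (N → N → N → k)) =
        -(assoc2 (sL ξ) (sL ξ), 0) := by
      rw [Prod.neg_mk, neg_zero]
    rw [h3, LinearMap.map_neg] at h1
    nth_rewrite 1 [← h1]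
    exact neg_add_cancel _
  refine ⟨Matrix.of fun i j => (if i = j then 1 else 0) + tL ξ i j, isUnit_iff_ne_zero.2 hdet, ?_⟩
  intro i j l
  have h1 := hE i j l
  simp only [hs, Pi.zero_apply, add_zero] at h1
  exact h1

end Helper49.RA
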