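import Pool.Agent.Helper49.RA.Defs

/-!
Project RA (MP_16b052_ag, a rigid local Artinian algebra), statements of part 3 (Heisenberg
combinatorics), with proofs in the docstrings.

Notation of the docstrings: `n = card K` (as an element of `k`), `q(a) = qq e a`,
`s(b,a) = ss e b a`, `β(a,b) = bb e a b`, `p_a = pp k e a`, `D_b = Db k e b`, `x_j = X j`,
`S_d` = the homogeneous polynomials of degree `d`, `Z = {a : q(a) = 1, f a = 0}`,
`T = {c : f c ≠ 0}` (then `q(c) = 1` by `IsCode`), `I = annI Φ`.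
Elementary facts about `e` used everywhere: values `1, -1`; `e (x + y) z = e x z * e y z` and the
same in the second variable (by symmetry); `e 0 y = 1`; `x + x = 0`, so `x + y = z ↔ x = y + z` and
`x + y = 0 ↔ x = y`; `Σ_v e v x * e v y = n` if `x = y` and `0` otherwise;
`q(a + b) = q(a) q(b) β(a,b)`.
-/

namespace Helper49.RA

open MvPolynomial

universe u

/-- PZ (no dependence).  `p_a = 0` when `q(a) ≠ 1`; and `p_a` is homogeneous of degree two; and the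
partial derivatives of `p_a` for `q(a) = 1`.

PROOF.  Reindex the sum by `j ↦ j + a_1` (a bijection, `a_1 + a_1 = 0`):
`p_a = Σ_j e(a_2, j + a_1) x_j x_{j + a_1} = q(a) p_a`.  If `q(a) ≠ 1` then `q(a) = -1`, so
`2 p_a = 0` and `p_a = 0`.  Homogeneity is clear.  Derivative: the terms of `p_a` which contain
`x_i` are `j = i` and `j = i + a_1`; in general
`pderiv i p_a = Σ_j e(a_2,j) ([j + a_1 = i] x_j + [j = i] x_{j + a_1})
= e(a_2, i + a_1) x_{i + a_1} + e(a_2, i) x_{i + a_1} = (q(a) + 1) e(a_2,i) x_{i+a_1}`. -/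
def StPZ : Prop := ∀ (k : Type u) [Field k] (K : Type) [AddCommGroup K] [Fintype K]
  [DecidableEq K] (e : K → K → ℤ), IsPair e → (2 : k) ≠ 0 → ∀ a : K × K,
  (qq e a ≠ 1 → pp k e a = 0) ∧ (pp k e a).IsHomogeneous 2 ∧
  (qq e a = 1 → ∀ i, pderiv i (pp k e a) = C (2 * ((e a.2 i : ℤ) : k)) * X (i + a.1))

/-- XX (no dependence).  The products `x_i x_j` in terms of the `p_a`.

PROOF.  `Σ_v e(v,j) p_{(i+j,v)} = Σ_v Σ_l e(v,j) e(v,l) x_{l+i+j} x_l
= Σ_l (Σ_v e(v,j) e(v,l)) x_{l+i+j} x_l = n x_{j+i+j} x_j = n x_i x_j`. -/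
def StXX : Prop := ∀ (k : Type u) [Field k] (K : Type) [AddCommGroup K] [Fintype K]
  [DecidableEq K] (e : K → K → ℤ), IsPair e → ∀ i j : K,
  C ((Fintype.card K : ℕ) : k) * (X i * X j) = ∑ v, C ((e v j : ℤ) : k) * pp k e (i + j, v)

/-- DP (to prove: `theorem dP : StPZ.{u} → StDP.{u}`).  Action of `D_b` on `p_a`.

PROOF.  `D_b p_a = Σ_j e(a_2,j) (e(b_2, j + a_1) x_{j+a_1+b_1} x_j + x_{j+a_1} e(b_2,j) x_{j+b_1})`.
The first sum is `e(b_2,a_1) Σ_j e(a_2+b_2,j) x_{j+a_1+b_1} x_j = s(b,a) p_{a+b}`; in the second put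
`j = l + b_1`: `Σ_l e(a_2 + b_2, l + b_1) x_{l+a_1+b_1} x_l = e(a_2,b_1) q(b) p_{a+b}`
(`e(b_2,b_1) = q(b)`).  If `q(a+b) ≠ 1`, both sides of the claim are `0` by PZ.  If
`q(a+b) = 1 = q(a)` then `q(b) = β(a,b) = e(a_1,b_2) e(a_2,b_1)`, so
`e(a_2,b_1) q(b) = e(a_1,b_2) = s(b,a)`, and the sum is `2 s(b,a) p_{a+b}`. -/
def StDP : Prop := ∀ (k : Type u) [Field k] (K : Type) [AddCommGroup K] [Fintype K]
  [DecidableEq K] (e : K → K → ℤ), IsPair e → (2 : k) ≠ 0 → ∀ a b : K × K, qq e a = 1 →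
  Db k e b (pp k e a) = C (2 * ((ss e b a : ℤ) : k)) * pp k e (a + b)

/-- PR (no dependence).  The pairing.

PROOF.  Second formula first:
`Φ(x_i x_j p_c) = Σ_l e(c_2,l) Φ(x_i x_j x_{l+c_1} x_l)
= Σ_l e(c_2,l) [i + j + c_1 = 0] sig (i+j) (i+l+c_1)`; the condition is `i = j + c_1`, then
`i + j = c_1`, `i + l + c_1 = j + l` and
`Σ_l e(c_2,l) sig c_1 (j+l) = Σ_l Σ_v e(c_2,l) f(c_1,v) e(v,j) e(v,l) = n f(c_1,c_2) e(c_2,j)`.
First formula: `Φ(p_a p_c) = Σ_j e(a_2,j) Φ(x_{j+a_1} x_j p_c)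
= Σ_j e(a_2,j) [j + a_1 = j + c_1] n f(c) e(c_2,j) = [a_1 = c_1] n f(c) Σ_j e(a_2,j) e(c_2,j)
= [a = c] n² f(c)`. -/
def StPR : Prop := ∀ (k : Type u) [Field k] (K : Type) [AddCommGroup K] [Fintype K]
  [DecidableEq K] (e : K → K → ℤ), IsPair e → ∀ (f : K × K → ℤ) (Φ : MvPolynomial K k →ₗ[k] k),
  IsPhi k e f Φ →
  (∀ a c : K × K, Φ (pp k e a * pp k e c) =
    if a = c then ((Fintype.card K : ℕ) : k) ^ 2 * ((f a : ℤ) : k) else 0) ∧
  ∀ (i j : K) (c : K × K), Φ (X i * X j * pp k e c) =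
    if i = j + c.1 then ((Fintype.card K : ℕ) : k) * ((f c : ℤ) : k) * ((e c.2 j : ℤ) : k) else 0

/-- PDD (to prove: `theorem pDD : StDP.{u} → StPR.{u} → StPDD.{u}`).

PROOF.  Leibniz and DP: `D_b (p_a p_c) = p_a D_b p_c + p_c D_b p_a
= 2 s(b,c) p_a p_{c+b} + 2 s(b,a) p_c p_{a+b}`.  Apply `Φ` with PR: the first term contributes
`2 s(b,c) n² f(a)` if `a = c + b`, the second `2 s(b,a) n² f(a+b)` if `c = a + b`; both conditions
are `a + b = c`, and then `dd e f b a = s(b,a) f(a+b) + s(b,a+b) f(a)`. -/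
def StPDD : Prop := ∀ (k : Type u) [Field k] (K : Type) [AddCommGroup K] [Fintype K]
  [DecidableEq K] (e : K → K → ℤ), IsPair e → (2 : k) ≠ 0 →
  ∀ (f : K × K → ℤ) (Φ : MvPolynomial K k →ₗ[k] k), IsPhi k e f Φ →
  ∀ a b c : K × K, qq e a = 1 → qq e c = 1 →
  Φ (Db k e b (pp k e a * pp k e c)) =
    if a + b = c then 2 * ((Fintype.card K : ℕ) : k) ^ 2 * ((dd e f b a : ℤ) : k) else 0

/-- GEN (no dependence).  A subspace which contains `x_y t` for all variables and all `t` of degree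
`d` contains all `s` of degree `d + 1`.

PROOF.  `s` is the sum of its monomials `monomial m c` with `degree m = d + 1` for `c ≠ 0`; such an
`m` has some `m y > 0`, and `monomial m c = X y * monomial (m - single y 1) c`, of degree `d`. -/
def StGen : Prop := ∀ (k : Type u) [Field k] (K : Type) (W : Submodule k (MvPolynomial K k))
  (d : ℕ), (∀ (y : K) (t : MvPolynomial K k), t.IsHomogeneous d → X y * t ∈ W) →
  ∀ s : MvPolynomial K k, s.IsHomogeneous (d + 1) → s ∈ W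

/-- SP4 (to prove: `theorem sP4 : StPZ.{u} → StXX.{u} → StGen.{u} → StSP4.{u}`).  A functional which
vanishes on all products `p_a p_c` with `q(a) = q(c) = 1` vanishes on `S_4`.

PROOF.  By GEN (three times, starting from degree `1`, `X`-products; or directly by monomials) it is
enough that `G (x_i x_j x_l x_m) = 0`.  By XX, `n² x_i x_j x_l x_m` is a combination of products
`p_a p_c`; those with `q(a) ≠ 1` or `q(c) ≠ 1` are `0` by PZ. -/
def StSP4 : Prop := ∀ (k : Type u) [Field k] (K : Type) [AddCommGroup K] [Fintype K]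
  [DecidableEq K] (e : K → K → ℤ), IsPair e → (2 : k) ≠ 0 → ((Fintype.card K : ℕ) : k) ≠ 0 →
  ∀ G : MvPolynomial K k →ₗ[k] k,
  (∀ a c, qq e a = 1 → qq e c = 1 → G (pp k e a * pp k e c) = 0) →
  ∀ s : MvPolynomial K k, s.IsHomogeneous 4 → G s = 0

/-- ZI (to prove: `theorem zI : StPR.{u} → StZI.{u}`).  Membership facts about `I = annI Φ`.

PROOF.  `Φ` vanishes on `S_d` for `d ≠ 4`.  (1) Homogeneous components: let `s ∈ I`,
`s_d = homogeneousComponent d s`.  For `t` homogeneous of degree `j`: if `d + j ≠ 4` then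
`Φ (s_d t) = 0` as `s_d t` is homogeneous of degree `d + j`; if `d + j = 4` then
`Φ (s t) = Σ_i Φ (s_i t) = Φ (s_d t)`, so it is `0`.  A general `t` is the sum of its components.
(2) Let `s` be homogeneous of degree `3` with `Φ (x_j s) = 0` for all `j`; for `t` only the
component of degree `1`, a combination of the `x_j`, matters, so `s ∈ I`.  (3) Let `s` be
homogeneous of degree `4` with `Φ s = 0`; only the constant component of `t` matters, so `s ∈ I`.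
(4) `a ∈ Z`: `p_a` is homogeneous of degree two, only the component `t_2` matters, a combination
of products `x_i x_j`, and `Φ (x_i x_j p_a) = 0` by PR as `f a = 0`.
(5) If `c ∈ T` and `n ≠ 0` then `Φ (x_z x_w p_c) = n f(c) e(c_2,w) ≠ 0` for `w = z + c_1`; so a
homogeneous `s` of degree `1` in `I` is zero: `s = Σ a_i x_i`,
`0 = Φ (s x_w p_c) = a_{w + c_1} n f(c) e(c_2,w)` for all `w`. -/
def StZI : Prop := ∀ (k : Type u) [Field k] (K : Type) [AddCommGroup K] [Fintype K]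
  [DecidableEq K] (e : K → K → ℤ), IsPair e → ∀ (f : K × K → ℤ), FieldOK k e f →
  ∀ (Φ : MvPolynomial K k →ₗ[k] k), IsPhi k e f Φ →
  (∀ s ∈ annI Φ, ∀ d, homogeneousComponent d s ∈ annI Φ) ∧
  (∀ s : MvPolynomial K k, s.IsHomogeneous 3 → (∀ j, Φ (X j * s) = 0) → s ∈ annI Φ) ∧
  (∀ s : MvPolynomial K k, s.IsHomogeneous 4 → Φ s = 0 → s ∈ annI Φ) ∧
  (∀ a, f a = 0 → pp k e a ∈ annI Φ) ∧
  ((∃ c, f c ≠ 0) → ∀ s : MvPolynomial K k, s.IsHomogeneous 1 → s ∈ annI Φ → s = 0)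

/-- D4 (to prove: `theorem d4 : StPDD.{u} → StSP4.{u} → StD4.{u}`).  Degree four.

PROOF.  For every `b` apply `Uniq` to `G`: `c_b` with `G (p_a p_{a+b}) = c_b * dd e f b a` for all
`a` with `q(a) = q(a+b) = 1`.  Put `m b := c_b / (2 n²)`.  The functional
`G' s := G s - Σ_b m b * Φ (D_b s)` vanishes on `p_a p_c` for `q(a) = q(c) = 1`: by PDD only
`b = a + c` contributes (`a + b = c ↔ b = a + c`), with value
`m (a+c) * 2 n² dd e f (a+c) a = c_{a+c} dd e f (a+c) a = G (p_a p_c)`.  By SP4 it vanishes on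
`S_4`. -/
def StD4 : Prop := ∀ (k : Type u) [Field k] (K : Type) [AddCommGroup K] [Fintype K]
  [DecidableEq K] (e : K → K → ℤ), IsPair e → ∀ (f : K × K → ℤ), FieldOK k e f →
  (∀ b, Uniq k e f b) → ∀ (Φ : MvPolynomial K k →ₗ[k] k), IsPhi k e f Φ →
  ∀ G : MvPolynomial K k →ₗ[k] k,
    (∀ a c, qq e a = 1 → qq e c = 1 → f a = 0 → f c = 0 → G (pp k e a * pp k e c) = 0) →
    ∃ m : K × K → k, ∀ s : MvPolynomial K k, s.IsHomogeneous 4 →
      G s = ∑ b, m b * Φ (Db k e b s)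

/-- D5 (to prove: `theorem d5 : StPZ.{u} → StPR.{u} → StPDD.{u} → StGen.{u} → StZI.{u} → StD4.{u} → StD5.{u}`).
Degree five.

PROOF.  Step 1.  For `y ∈ K` the functional `G_y s := G (x_y s)` satisfies the hypothesis of D4: for
`a, c ∈ Z`, `x_y p_c ∈ I` is homogeneous of degree `3`, so `G (p_a (x_y p_c)) = 0`.  So
`G (x_y s) = Σ_b m_y(b) Φ (D_b s)` for `s ∈ S_4`.
Step 2.  For `a ∈ Z` there is `v_a : K → k` with `G (p_a s) = Σ_j v_a(j) Φ (x_j s)` for `s ∈ S_3`: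
on the vector space `S_3` (`homogeneousSubmodule K k 3`) the functional `s ↦ G (p_a s)` vanishes on
the common kernel of the functionals `s ↦ Φ (x_j s)` (such an `s` is in `I` by ZI (2)), so it is a
linear combination of them (`mem_span_of_iInf_ker_le_ker`).
Step 3.  For `a ∈ Z`, `c ∈ T`, `y`: `G (x_y p_a p_c)` is on one hand `m_y(a+c) 2 n² dd e f (a+c) a
= m_y(a+c) 2 n² s(a+c,a) f(c)` (PDD; `f a = 0`, `a + (a + c) = c`), on the other hand
`Σ_j v_a(j) Φ (x_j x_y p_c) = v_a(y + c_1) n f(c) e(c_2,y)`.  So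
`2 n s(a+c,a) m_y(a+c) = v_a(y + c_1) e(c_2,y)`.
Step 4.  Put `ℓ_a(i) := (1/2) e(a_2,i) v_a(i + a_1)`, so `v_a(j) = 2 e(a_2, j + a_1) ℓ_a(j + a_1)`.
With `b = a + c`: `m_y(b) = (1/n) e(a_2+c_2,a_1) e(c_2,y) e(a_2, y + c_1 + a_1) ℓ_a(y + b_1)`, and the
sign is `e(a_2,a_1)² e(c_2,a_1) e(a_2,c_1) e(b_2,y) = q(b) e(b_2,y)` because
`q(b) = q(a) q(c) e(a_1,c_2) e(a_2,c_1)` and `q(a) = q(c) = 1`.  So
(*) `m_y(b) = (1/n) q(b) e(b_2,y) ℓ_a(y + b_1)` for all `y`, whenever `b = a + c`, `a ∈ Z`, `c ∈ T`;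
in particular `ℓ_a(i) = n q(b) e(b_2, i + b_1) m_{i + b_1}(b)` depends only on `b`.
Step 5.  For `a, a' ∈ Z`: by `Good.tt`, `a + a' = c + c'` with `c, c' ∈ T`, so `a + c = a' + c'` and
`ℓ_a = ℓ_{a'}`.  `Z` is not empty (`Good.zz`); let `ℓ` be the common value.  By `Good.zt` every
`b ≠ 0` is `a + c`, so (*) holds for all `b ≠ 0` with `ℓ` in place of `ℓ_a`.
Step 6.  Let `G' s := Σ_i ℓ(i) Φ (∂_i s)` and `m'_y(b) := (1/n) q(b) e(b_2,y) ℓ(y + b_1)` for all `b`.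
The derivations `Σ_b m'_y(b) D_b` and `Σ_i ℓ(i) x_y ∂_i` agree: on `x_j` the first gives
`Σ_{b_1} Σ_{b_2} (1/n) e(b_2, b_1 + y + j) ℓ(y + b_1) x_{j + b_1}`, only `b_1 = y + j` survives
(`q(b) = e(b_2,b_1)`), which is `ℓ(j) x_y`; the second gives `ℓ(j) x_y`.  So for `s ∈ S_4`:
`G' (x_y s) = ℓ(y) Φ s + Σ_i ℓ(i) Φ (x_y ∂_i s) = ℓ(y) Φ s + Σ_b m'_y(b) Φ (D_b s)`, hence
`(G - G') (x_y s) = (m_y(0) - m'_y(0)) Φ (D_0 s) - ℓ(y) Φ s = ρ_y Φ s` with
`ρ_y := 4 (m_y(0) - m'_y(0)) - ℓ(y)`, because `D_0 s = Σ_j x_j ∂_j s = 4 s` (Euler).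
Step 7.  `ρ_y = 0`: take `z ≠ y` (exists: `Good.zz` gives two different elements of `K`), `c ∈ T`
and `w := z + c_1`, `s := x_w p_c ∈ S_3`.  `(G - G') (x_y x_z s) = ρ_y Φ (x_z x_w p_c)
= ρ_z Φ (x_y x_w p_c)`; by PR the first value is `ρ_y n f(c) e(c_2,w)`, the second `0` as
`y ≠ w + c_1 = z`.
Step 8.  So `G - G'` vanishes on `x_y S_4` for all `y`, hence on `S_5` by GEN. -/
def StD5 : Prop := ∀ (k : Type u) [Field k] (K : Type) [AddCommGroup K] [Fintype K]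
  [DecidableEq K] (e : K → K → ℤ), IsPair e → ∀ (f : K × K → ℤ), FieldOK k e f → Good e f →
  (∀ b, Uniq k e f b) → ∀ (Φ : MvPolynomial K k →ₗ[k] k), IsPhi k e f Φ →
  ∀ G : MvPolynomial K k →ₗ[k] k,
    (∀ a, qq e a = 1 → f a = 0 → ∀ t : MvPolynomial K k, t.IsHomogeneous 3 → t ∈ annI Φ →
      G (pp k e a * t) = 0) →
    ∃ l : K → k, ∀ s : MvPolynomial K k, s.IsHomogeneous 5 →
      G s = ∑ i, l i * Φ (pderiv i s)

/-- D6 (to prove: `theorem d6 : StPZ.{u} → StPR.{u} → StGen.{u} → StZI.{u} → StD5.{u} → StD6.{u}`).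
Degree six.

PROOF.  `G` vanishes on `I²`.  For `y ∈ K`, `G_y s := G (x_y s)` satisfies the hypothesis of D5
(`p_a ∈ I` for `a ∈ Z` by ZI, `t ∈ I`, so `x_y p_a t ∈ I²`): `G (x_y s) = Σ_i l_y(i) Φ (∂_i s)` for
`s ∈ S_5`.  For `a ∈ Z` there is `g_a ∈ k` with `G (p_a s) = g_a Φ s` for `s ∈ S_4`: choose
`s_0 ∈ S_4` with `Φ s_0 ≠ 0` (e.g. `p_c p_c`, `c ∈ T`, PR), `g_a := G (p_a s_0) / Φ s_0`; then
`s - (Φ s / Φ s_0) s_0 ∈ S_4` has `Φ = 0`, so it is in `I` (ZI (3)) and `p_a` times it is in `I²`.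
Let `c ∈ T`, `w ∈ K`, `t := x_w p_c`.  `G (x_y p_a t) = g_a Φ (x_y t) = g_a n f(c) e(c_2,w)
[y = w + c_1]`.  It is also `Σ_i l_y(i) Φ (∂_i (p_a t)) = Σ_i l_y(i) Φ (t ∂_i p_a)` (as `p_a ∈ I`)
`= Σ_i l_y(i) 2 e(a_2,i) Φ (x_{i + a_1} x_w p_c)
= 2 l_y(w + c_1 + a_1) e(a_2, w + c_1 + a_1) n f(c) e(c_2,w)`.  With `j = w + c_1` arbitrary:
`g_a [y = j] = 2 l_y(j + a_1) e(a_2, j + a_1)`; so `l_y(i) = 0` unless `i = y + a_1`.  By `Good.zz`
there are `a, a' ∈ Z` with `a_1 ≠ a'_1`; so `l_y = 0`.  So `G (x_y s) = 0` for `s ∈ S_5`, and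
`G = 0` on `S_6` by GEN (with `W = ker G`). -/
def StD6 : Prop := ∀ (k : Type u) [Field k] (K : Type) [AddCommGroup K] [Fintype K]
  [DecidableEq K] (e : K → K → ℤ), IsPair e → ∀ (f : K × K → ℤ), FieldOK k e f → Good e f →
  (∀ b, Uniq k e f b) → ∀ (Φ : MvPolynomial K k →ₗ[k] k), IsPhi k e f Φ →
  ∀ G : MvPolynomial K k →ₗ[k] k, (∀ s ∈ annI Φ ^ 2, G s = 0) →
    ∀ s : MvPolynomial K k, s.IsHomogeneous 6 → G s = 0

/-- D3 (to prove: `theorem d3 : StPR.{u} → StD3.{u}`).  Degree three.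

PROOF.  Let `t(i,j,l) ∈ k` be the constant coefficient of `∂_i ∂_j ∂_l s`, symmetric in `i,j,l`
(partial derivatives commute).  Let `c ∈ T`, `i ∈ K`, `r := ∂_i s ∈ S_2 ∩ I`.  Euler twice:
`2 r = Σ_{j,l} r_{jl} x_j x_l`, `r_{jl}` the constant `∂_j ∂_l r`.  So
`0 = 2 Φ (r p_c) = Σ_{j,l} t(i,j,l) Φ (x_j x_l p_c) = Σ_l t(i, l + c_1, l) n f(c) e(c_2,l)`, hence
(+) `Σ_l t(i, l + c_1, l) e(c_2,l) = 0`.
For `z ∈ K` put `γ_z(u,w) := t(z+u, z+w, z+u+w)`.  It satisfies `IsTab k e 0`: `s1` by symmetry,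
`s2, s3`: `γ_z(u, u+w) = t(z+u, z+u+w, z+w)` and `e 0 u = 1`.  For `(u,v) = c ∈ T`:
`four γ_z u v = Σ_w t(z+u, z+w, z+u+w) e(v,w) = Σ_l t(z+u, l, l+u) e(v, l + z)
= e(v,z) Σ_l t(z+u, l + u, l) e(v,l) = 0` by (+) with `i = z + u`.  By `TabA`, `γ_z = 0` for all
`z`; with `z = i+j+l`, `u = j+l`, `w = i+l` this is `t(i,j,l) = 0`.
The constant coefficient of `∂_i ∂_j ∂_l s` is `1, 2` or `6` times the coefficient of
`x_i x_j x_l` in `s`, according to whether the indices are distinct, two of them are equal, or all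
are equal.  So all coefficients of `s` vanish (`2 ≠ 0`), except possibly those of `x_i³` when
`3 = 0` in `k`; then `FieldOK.s0` gives `sig e f 0 0 ≠ 0` in `k`, `s = Σ_i a_i x_i³` and
`0 = Φ (s x_j) = Σ_i a_i Φ (x_i x_i x_i x_j) = a_j sig e f 0 0` (`i + i + i + j = 0 ↔ i = j`). -/
def StD3 : Prop := ∀ (k : Type u) [Field k] (K : Type) [AddCommGroup K] [Fintype K]
  [DecidableEq K] (e : K → K → ℤ), IsPair e → ∀ (f : K × K → ℤ), FieldOK k e f →
  TabA k e f → ∀ (Φ : MvPolynomial K k →ₗ[k] k), IsPhi k e f Φ →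
  ∀ s : MvPolynomial K k, s.IsHomogeneous 3 → s ∈ annI Φ → (∀ i, pderiv i s ∈ annI Φ) → s = 0

/-- SEC (to prove: `theorem sec : StGen.{u} → StZI.{u} → StD4.{u} → StD5.{u} → StD6.{u} → StD3.{u} → StSec.{u}`).
The criterion `I^(2) = I²`.

PROOF.  Let `s ∈ I` with all `∂_i s ∈ I`, `s_d = homogeneousComponent d s`.  By ZI (1), `s_d ∈ I`,
and `∂_i (s_d)` is the component of degree `d - 1` of `∂_i s` (for `d ≥ 1`; for `d = 0` it is `0`),
so it is in `I`.  As `s = Σ_d s_d` it is enough that `s_d ∈ I²` for every `d`.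
`d = 0`: `s_0 = C c` and `0 = Φ (s_0 t) = c Φ t` for some `t` with `Φ t ≠ 0` (e.g. `p_c p_c`), so
`s_0 = 0`.  `d = 1`: `s_1 = 0` by ZI (5).  `d = 2`: `∂_i s_2 ∈ I` is homogeneous of degree one, so
`0`; Euler: `2 s_2 = Σ x_i ∂_i s_2 = 0`.  `d = 3`: D3.
Separation: `I²` is a `k`-subspace of `S`; if `x ∉ I²` there is a linear functional `G` with
`G x ≠ 0` and `G = 0` on `I²` (`Submodule.exists_le_ker_of_notMem` or similar).
`d = 4`: if `s_4 ∉ I²` take such a `G`; it vanishes on `p_a p_c`, `a, c ∈ Z` (ZI (4)), so D4 gives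
`G s_4 = Σ_b m(b) Φ (D_b s_4)`, and `D_b s_4 = Σ_i D_b(x_i) ∂_i s_4 ∈ I` (chain rule for a
derivation, `mkDerivation` and `pderiv`: e.g. `MvPolynomial.mkDerivation_...` or both sides are
derivations), so `Φ` of it is `0`; contradiction.
`d = 5`: the same with D5: `G s_5 = Σ_i l(i) Φ (∂_i s_5) = 0`.
`d = 6`: by D6 and separation all of `S_6` is in `I²`.  `d > 6`: all of `S_d` is in `I²` by
induction with GEN (`W = I²` as a `k`-subspace; `x_y t ∈ I²` for `t ∈ I²`). -/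
def StSec : Prop := ∀ (k : Type u) [Field k] (K : Type) [AddCommGroup K] [Fintype K]
  [DecidableEq K] (e : K → K → ℤ), IsPair e → ∀ (f : K × K → ℤ), FieldOK k e f → Good e f →
  (∀ b, Uniq k e f b) → TabA k e f → ∀ (Φ : MvPolynomial K k →ₗ[k] k), IsPhi k e f Φ →
  SecondPower Φ

/-- PHI (no dependence).  Existence of the functional.

PROOF.  `R(i,j,l,m) := if i + j + l + m = 0 then sig (i+j) (i+l) else 0` is symmetric in its four
arguments: `sig` is symmetric (`IsCode`), and `sig u (u + w) = sig u w` because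
`sig u (u+w) = Σ_v f(u,v) e(v,u) e(v,w)` and `f(u,v) = 0` unless `e(v,u) = q(u,v) = 1`.
Transposition of `j, l`: `sig (i+j) (i+l) = sig (i+l) (i+j)`.  Of `l, m` (when the sum is zero
`m = i+j+l`): `sig (i+j) (i+m) = sig (i+j) (j+l) = sig (i+j) ((i+j) + (i+l)) = sig (i+j) (i+l)`.  Of
`i, j`: `sig (j+i) (j+l) = sig (i+j) (i+l)` in the same way.  These generate all permutations.
Define `Φ` on the basis of monomials: for a monomial `m` with `degree m = 4` pick (by choice)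
`i,j,l,m'` with `m = single i 1 + single j 1 + single l 1 + single m' 1` and give it the value
`R`; all other monomials get `0`.  The value does not depend on the choice: if two such sums of
singles agree then the multisets `{i,j,l,m'}` agree (`Finsupp.toMultiset`), the lists are
permutations of each other (`List.Perm` induction or decide over the cases), and `R` is symmetric.
(One can also define `R` on `Sym K 4` or on multisets through `Quot.lift`.)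
Then `Φ (x_i x_j x_l x_m) = R`, and `Φ` vanishes on homogeneous `s` of degree `≠ 4` since it
vanishes on all its monomials. -/
def StPhi : Prop := ∀ (k : Type u) [Field k] (K : Type) [AddCommGroup K] [Fintype K]
  [DecidableEq K] (e : K → K → ℤ), IsPair e → ∀ (f : K × K → ℤ), IsCode e f →
  ∃ Φ : MvPolynomial K k →ₗ[k] k, IsPhi k e f Φ

/-- GF (no dependence).  The table of `D_b F`.

PROOF.  Write `σ = sig e f`; `σ(x,y) = σ(y,x)` and `σ(x, x + y) = σ(x,y)` (see PHI).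
`s1`: the expression is symmetric in `u, w`.
`s2`: `gamF(u, u+w+b_1) = σ(u+b_1, u+w) + e(b_2,u) σ(u+b_1, u+w+b_1) + e(b_2,u+w+b_1) σ(u, u+w)
+ e(b_2,w) σ(u, u+w+b_1)` (using `x + x = 0`), and `σ(u+b_1,u+w) = σ(u+b_1,w+b_1)`,
`σ(u+b_1,u+w+b_1) = σ(u+b_1,w)`, `σ(u,u+w) = σ(u,w)`, `σ(u,u+w+b_1) = σ(u,w+b_1)`.
`s3`: `e(b_2,u) gamF(u,u+w) = e(b_2,u) σ(u+b_1,u+w+b_1) + σ(u+b_1,u+w) + e(b_2,w) σ(u,u+w+b_1)
+ e(b_2,w+b_1) e(b_2,u) ... ` and the same replacements give `gamF(u,w)`.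
Transform: use `Σ_w σ(u',w) e(v',w) = n f(u',v')`.  With `a = (u,v)`, `v' = v + b_2`:
the four terms of `gamF` give `e(v',b_1) n f(a+b)`, `e(b_2,u) n f(a+b)`, `e(v,b_1) n f(a)`
(as `e(b_2,w) e(v',w) = e(v,w)`) and `e(b_2,u+b_1) n f(a)` (same).  Since
`q(a) = q(a+b) = 1` we have `e(b_1, v') = e(u,b_2)`, so the sum is
`2 n e(b_2,u) f(a+b) + 2 n e(b_2,u+b_1) f(a) = 2 n dd e f b a`. -/
def StGF : Prop := ∀ (k : Type u) [Field k] (K : Type) [AddCommGroup K] [Fintype K]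
  [DecidableEq K] (e : K → K → ℤ), IsPair e → ∀ (f : K × K → ℤ), IsCode e f → ∀ b : K × K,
  IsTab k e b (fun u w => ((gamF e f b u w : ℤ) : k)) ∧
  ∀ a, qq e a = 1 → qq e (a + b) = 1 →
    four k e (fun u w => ((gamF e f b u w : ℤ) : k)) a.1 (a.2 + b.2) =
      2 * ((Fintype.card K : ℕ) : k) * ((dd e f b a : ℤ) : k)

/-- CO (to prove: `theorem cO : StGF.{u} → StCO.{u}`).  From tables to `Uniq`.

PROOF.  Given `G`, put `γ(u,w) := Σ_z e(b_2,z) G (x_z x_{u+z} x_{w+z} x_{u+w+b_1+z})`.  `IsTab`: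
`s1` exchange the second and third factor; `s2` exchange the third and fourth:
`γ(u, u+w+b_1)` has the factors `x_z x_{u+z} x_{u+w+b_1+z} x_{w+z}`; `s3`: substitute `z ↦ z + u`
in `γ(u,u+w) = Σ_z e(b_2,z) G (x_z x_{u+z} x_{u+w+z} x_{w+b_1+z})`: it becomes
`Σ_z e(b_2,z) e(b_2,u) G (x_{u+z} x_z x_{w+z} x_{u+w+b_1+z}) = e(b_2,u) γ(u,w)`.
For all `a = (u,v)`: `G (p_a p_{a+b}) = Σ_j Σ_l e(v,j) e(v+b_2,l) G (x_{j+u} x_j x_{l+u+b_1} x_l)`,
put `l = j + w`: the sign is `e(b_2,j) e(v+b_2,w)` and the factors are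
`x_j x_{j+u} x_{j+w} x_{j+w+u+b_1}`; so `G (p_a p_{a+b}) = four γ u (v + b_2)`.
Let `g0 := gamF e f b m0`, nonzero in `k`, and `γ' := γ - (γ(m0) / g0) gamF`.  It is a table of
character `b` (these form a linear space, GF), vanishes at `m0`, and
`four γ' a.1 (a.2 + b.2) = 0` for the pairs `a, a + b` with `f a = f (a+b) = 0`: for `γ` by the
hypothesis on `G`, for `gamF` by GF (`dd e f b a = 0`).  By `TabB`, `γ' = 0`.  So
`G (p_a p_{a+b}) = four γ a.1 (a.2 + b.2) = (γ(m0)/g0) 2 n dd e f b a`. -/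
def StCO : Prop := ∀ (k : Type u) [Field k] (K : Type) [AddCommGroup K] [Fintype K]
  [DecidableEq K] (e : K → K → ℤ), IsPair e → ∀ (f : K × K → ℤ), IsCode e f →
  ∀ b m0 : K × K, TabB k e f b m0 → ((gamF e f b m0.1 m0.2 : ℤ) : k) ≠ 0 → Uniq k e f b

/-- TR (no dependence; large).  Transfer of `Uniq` by the signed affine action of `v`.

PROOF.  Put `q := q(v)` and let `ω² = - q`.  Let `U : MvPolynomial K k →ₐ MvPolynomial K k` be
`x_j ↦ x_j + ω e(v_2,j) x_{j+v_1}` and `U'` the same with `-ω`.  On variables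
`U' (U x_j) = x_j + ω e(v_2,j) x_{j+v_1} - ω (e(v_2,j) x_{j+v_1} + ω e(v_2,j) e(v_2,j+v_1) x_j)
= x_j - ω² q x_j = 2 x_j` (`q² = 1`), so `U' (U s) = 2^d s` for `s ∈ S_d`.
(i) `U p_a = κ_a p_{t(a)}` for `q(a) = 1`, where `t(a) = ta e v a`, `κ_a = 2` if `β(a,v) = -q` and
`κ_a = 2 ω q s(v,a)` if `β(a,v) = q`:
`U p_a = Σ_j e(a_2,j) (x_{j+a_1} + ω e(v_2,j+a_1) x_{j+a_1+v_1}) (x_j + ω e(v_2,j) x_{j+v_1})`.
The four sums: `p_a`; `ω Σ_j e(a_2,j) e(v_2,j) x_{j+a_1} x_{j+v_1} = ω e(a_2+v_2,v_1) p_{a+v}`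
(substitute `j ↦ j + v_1`); `ω e(v_2,a_1) p_{a+v}`; and
`ω² Σ_j e(a_2,j) e(v_2,a_1) x_{j+a_1+v_1} x_{j+v_1} = ω² e(v_2,a_1) e(a_2,v_1) p_a
= - q β(a,v) p_a`.  Here `e(v_2,v_1) = q` and `e(a_2,v_1) = β(a,v) e(v_2,a_1)`, so the middle two
sums give `ω s(v,a) (q β(a,v) + 1) p_{a+v}`.  If `β(a,v) = -q` this is `2 p_a`; if `β(a,v) = q` it
is `2 ω s(v,a) p_{a+v}`.
NOTE: so in the second case `κ_a = 2 ω s(v,a)` (the sign `q` above is superfluous); only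
`κ_a ≠ 0` and the identity (iii) below are used, in which a common factor may be changed.
(ii) `q(t(a)) = q(a)`; `t (t a) = a`; and `t(a) + t(a + b') = tv e v b'` when we write
`b' = tv e v b` (so `b = tv e v b'`), i.e. `t(a + b') = t(a) + b`: check the cases
`β(b',v) = 1` (then `b = b'` and `β(a+b',v) = β(a,v)`) and `β(b',v) = -1` (then `b = b' + v` and
exactly one of `a, a + b'` is moved).  `β(v,v) = 1`, so `β(b',v) = β(b,v)`.
(iii) SIGN IDENTITY.  There is `μ ∈ k` (depending on `b, v` only) with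
`4 κ_a s(b, t(a)) = μ s(b',a) κ_{a+b'}` for all `a` with `q(a) = q(a+b') = 1`.  Cases, with
`κ = 2` or `2 ω s(v,·)`:
`β(b,v) = 1`, `β(a,v) = -q`: `8 s(b,a) = 2 μ s(b,a)`: `μ = 4`.
`β(b,v) = 1`, `β(a,v) = q`: `8 ω s(v,a) s(b,a+v) = 2 μ s(b,a) ω s(v,a+b)`, i.e.
`4 s(b,v) = μ s(v,b)`, `μ = 4 β(b,v) = 4`.
`β(b,v) = -1` (so `b' = b + v`), `β(a,v) = -q`, `t(a) = a`, `κ_a = 2`, `κ_{a+b'} = 2 ω s(v,a+b+v)`:
`8 s(b,a) = μ s(b,a) s(v,a) 2 ω s(v,a) s(v,b) q`, `μ = 4 q s(v,b) / ω`.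
`β(b,v) = -1`, `β(a,v) = q`, `t(a) = a + v`, `κ_a = 2 ω s(v,a)`, `κ_{a+b'} = 2`:
`8 ω s(v,a) s(b,a) s(b,v) = 2 μ s(b,a) s(v,a)`, `μ = 4 ω s(b,v)`.  The two values agree:
`q s(v,b) / ω = ω s(b,v)` iff `q s(v,b) s(b,v) = ω² = -q` iff `β(b,v) = -1`.
(Here `s(v,b) s(b,v) = e(v_2,b_1) e(b_2,v_1) = β(b,v)`, `s` is multiplicative in both arguments.)
(iv) `κ_a² = 4 ε_a` with `ε_a = 1` if `β(a,v) = -q` and `ε_a = ω² = -q` if `β(a,v) = q`; and
`f' a := tf e v f a = ε_a f(t a)`.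
Now let `G` be a functional for `f', b'`: `G (p_a p_{a+b'}) = 0` when `q(a) = q(a+b') = 1`,
`f' a = f' (a+b') = 0`.  Put `G1 := G ∘ U'`.  Let `c` with `q(c) = q(c+b) = 1`,
`f c = f (c+b) = 0`, `a := t(c)`, so `t(a) = c`, `t(a+b') = c + b`, `f' a = f' (a+b') = 0` and
`U (p_a p_{a+b'}) = κ_a κ_{a+b'} p_c p_{c+b}`; apply `U'` (degree 4):
`16 p_a p_{a+b'} = κ_a κ_{a+b'} U' (p_c p_{c+b})`, so `G1 (p_c p_{c+b}) = 0`.  By `Uniq` for
`f, b` there is `c0` with `G1 (p_c p_{c+b}) = c0 dd e f b c` for all `c` with `q(c) = q(c+b) = 1`.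
So for all `a` with `q(a) = q(a+b') = 1`:
`G (p_a p_{a+b'}) = (c0/16) κ_a κ_{a+b'} (s(b,ta) f(t(a+b')) + s(b,t(a+b')) f(ta))`.
By (iii) `κ_a s(b,ta) = (μ/4) s(b',a) κ_{a+b'}`, and (iii) for `a + b'` in place of `a`:
`κ_{a+b'} s(b,t(a+b')) = (μ/4) s(b',a+b') κ_a`.  With (iv) the right side is
`(c0/16)(μ/4)(s(b',a) κ_{a+b'}² f(t(a+b')) + s(b',a+b') κ_a² f(ta))
= (c0/16) μ (s(b',a) f'(a+b') + s(b',a+b') f'(a)) = (c0 μ/16) dd e f' b' a`. -/
def StTR : Prop := ∀ (k : Type u) [Field k] (K : Type) [AddCommGroup K] [Fintype K]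
  [DecidableEq K] (e : K → K → ℤ), IsPair e → (2 : k) ≠ 0 → ∀ (f : K × K → ℤ) (v b : K × K) (w : k),
  w * w = - ((qq e v : ℤ) : k) → Uniq k e f b → Uniq k e (tf e v f) (tv e v b)

end Helper49.RA
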