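import Pool.Agent.Helper49.RA.StB
import Pool.Agent.Helper49.RA.Data2
import Pool.Agent.Helper47.Rig.Defs

/-!
Project RA (MP_16b052_ag, a rigid local Artinian algebra), statements of part 4 (lifting from
`ZMod 3` to fields, concrete data, closure under the symmetry group), with proofs in the
docstrings.
-/

namespace Helper49.RA

open MvPolynomial

universe u

/-- Parity of the number of binary digits `1` of `n < 64` (Thue-Morse word). -/
def par6 (n : ℕ) : Bool := Nat.testBit 0x6996966996696996 n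

/-- `e6` on codes. -/
def eN (x y : ℕ) : ℤ := if par6 (x &&& y) then -1 else 1

/-- `qq e6` on codes `u + 64 v`. -/
def qN (a : ℕ) : ℤ := eN (a % 64) (a / 64)

/-- `bb e6` on codes. -/
def bN (a b : ℕ) : ℤ := eN (a % 64) (b / 64) * eN (a / 64) (b % 64)

/-- `tv e6` on codes. -/
def tvN (v b : ℕ) : ℕ := if bN b v = 1 then b else b ^^^ v

/-- `tf e6` on functions of codes. -/
def tfN (v : ℕ) (F : ℕ → ℤ) (a : ℕ) : ℤ :=
  if bN a v = qN v then - qN v * F (a ^^^ v) else F a

/-- A list of transvections on functions of codes, leftmost first. -/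
def tfsN (l : List ℕ) (F : ℕ → ℤ) : ℕ → ℤ := l.foldl (fun F v => tfN v F) F

/-- A list of transvections on codes, leftmost first. -/
def tvsN (l : List ℕ) (b : ℕ) : ℕ := l.foldl (fun b v => tvN v b) b

/-- LIFT (no dependence).  Injectivity modulo `3` of an integer matrix implies injectivity over
every field in which a certain integer `D ≡ 1 (mod 3)` does not vanish.

PROOF.  Let `M3` be the matrix over `ZMod 3`.  `Matrix.mulVec` by `M3` is injective, so the linear
map has a linear left inverse, given by a matrix `N3 : Matrix α β (ZMod 3)` with `N3 * M3 = 1`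
(`LinearMap.exists_leftInverse_of_injective`, `LinearMap.toMatrix'`).  Lift `N3` to an integer
matrix `N` entry by entry (`ZMod.intCast_surjective`).  `D := det (N * M)`; reduction modulo `3` is
`det (N3 * M3) = 1`.  Over `k` with `(D : k) ≠ 0`: if `M x = 0` then `(N * M) x = 0`, and the matrix
`N * M` over `k` has determinant `(D : k) ≠ 0` (`Int.cast_det` / `RingHom.map_det`), so `x = 0`. -/
def StLIFT : Prop := ∀ (α β : Type) [Fintype α] [DecidableEq α] [Fintype β] (M : β → α → ℤ),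
  (∀ x : α → ZMod 3, (∀ r, ∑ a, ((M r a : ℤ) : ZMod 3) * x a = 0) → x = 0) →
  ∃ D : ℤ, (D : ZMod 3) = 1 ∧ ∀ (k : Type u) [Field k], (D : k) ≠ 0 →
    ∀ x : α → k, (∀ r, ∑ a, ((M r a : ℤ) : k) * x a = 0) → x = 0

/-- LTB (to prove: `theorem lTB : StLIFT.{u} → StLTB.{u}`).  Lifting of `TabB` and `TabA`.

PROOF.  `TabB k e f b m0` says that a system of linear equations with integer coefficients in the
unknown `x (u,w) = γ u w`, `α = K × K`, has only the zero solution.  Rows, indexed by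
`β = Fin 5 × (K × K)` (`δ_c` = the indicator of `c ∈ K × K`):
`(0, (u,w)) : δ_(u,w) - δ_(w,u)`; `(1, (u,w)) : δ_(u,w) - δ_(u, u+w+b.1)`;
`(2, (u,w)) : δ_(u,w) - e b.2 u • δ_(u,u+w)`; `(3, a) : Σ_w e (a.2+b.2) w • δ_(a.1,w)` if
`q(a) = q(a+b) = 1`, `f a = f (a+b) = 0`, and the zero row otherwise; `(4, _) : δ_m0`.
The equations of this matrix over a field `k` are equivalent to `IsTab`, the vanishing of `four`
and of `γ m0.1 m0.2`.  Apply LIFT.  `TabA` in the same way with `b = 0` and the rows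
`(3, a) : Σ_w e a.2 w • δ_(a.1,w)` if `f a ≠ 0`, without the last kind of row. -/
def StLTB : Prop := ∀ (K : Type) [AddCommGroup K] [Fintype K] [DecidableEq K] (e : K → K → ℤ)
  (f : K × K → ℤ),
  (∀ b m0 : K × K, TabB (ZMod 3) e f b m0 → ∃ D : ℤ, (D : ZMod 3) = 1 ∧
    ∀ (k : Type u) [Field k], (D : k) ≠ 0 → TabB k e f b m0) ∧
  (TabA (ZMod 3) e f → ∃ D : ℤ, (D : ZMod 3) = 1 ∧
    ∀ (k : Type u) [Field k], (D : k) ≠ 0 → TabA k e f)

/-- NEG (no dependence).  `Uniq` for `-f`.

PROOF.  The zeros of `-f` and `f` agree and `dd e (-f) b a = - dd e f b a`; replace `c` by `-c`. -/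
def StNEG : Prop := ∀ (k : Type u) [Field k] (K : Type) [AddCommGroup K] [Fintype K]
  [DecidableEq K] (e : K → K → ℤ) (f : K × K → ℤ) (b : K × K),
  Uniq k e (fun a => - f a) b → Uniq k e f b

/-- BR (no dependence).  Comparison of codes with `K6 × K6`.

PROOF.  Finite checks; `enc` of a xor: `Nat.testBit_xor`, in `ZMod 2` the four cases; `dec`/`enc`:
binary expansion of six digits, or decide over the 64 vectors / numbers; `e6 (enc x) (enc y)`: decide
over the `64 * 64` pairs (`decide +kernel` on a Boolean check over `List.range`), or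
`Σ_i x_i y_i` counts the common bits.  `IsPair e6`: `e6 x y = ∏_i (-1)^{x_i y_i}`; `two` from
`ZMod 2`; `sq`, `symm` clear; `addl`: the sum in `ZMod 2` is additive and
`if s + t = 0 ...` by cases `s, t ∈ {0,1}`; `sum`: if `x ≠ 0`, `x i ≠ 0` for some `i`, and
`y ↦ y + single i 1` changes the sign, so the sum is its own negative; if `x = 0` all terms are `1`.
The statements on `qq, bb, tv` follow from the one on `e6` by `a % 64, a / 64 < 64` for `a < 4096`;
the xor of two numbers `< 4096` is `< 4096`, and `(a ^^^ b) % 64 = a % 64 ^^^ b % 64`,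
`(a ^^^ b) / 64 = a / 64 ^^^ b / 64` (`Nat.xor_mod_two_pow`, `Nat.xor_div_two_pow` or testBit). -/
structure BRfacts : Prop where
  pair : IsPair e6
  xor : ∀ a b : ℕ, encE (a ^^^ b) = encE a + encE b
  xorlt : ∀ a b : ℕ, a < 4096 → b < 4096 → a ^^^ b < 4096
  zero : encE 0 = 0
  dec : ∀ a : K6 × K6, decE a < 4096 ∧ encE (decE a) = a
  enc : ∀ a : ℕ, a < 4096 → decE (encE a) = a
  e : ∀ x y : ℕ, x < 64 → y < 64 → e6 (Helper49.RA.enc x) (Helper49.RA.enc y) = eN x y
  q : ∀ a : ℕ, a < 4096 → qq e6 (encE a) = qN a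
  b : ∀ a b : ℕ, a < 4096 → b < 4096 → bb e6 (encE a) (encE b) = bN a b
  tv : ∀ v b : ℕ, v < 4096 → b < 4096 → tv e6 (encE v) (encE b) = encE (tvN v b)
  f : ∀ a : ℕ, a < 4096 → f0 (encE a) = fN a

/-- See `BRfacts`. -/
def StBR : Prop := BRfacts

/-- CK1 (no dependence; kernel check).  The two generators preserve the word up to sign.

PROOF.  `4096 * 29` evaluations; e.g. first show that `tfsN l F a` is `s * F a'` where `(a', s)` is
obtained by folding the list from the right (the last transvection acts first on the point):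
start with `(a, 1)`, and for `v` replace `(a, s)` by `(a ^^^ v, -qN v * s)` if `bN a v = qN v`.  Then a
Boolean check over `List.range 4096` by `decide +kernel` (signs as Booleans, split into several
ranges if slow). -/
def StCK1 : Prop := ∀ a : ℕ, a < 4096 → tfsN gen1 fN a = fN a ∧ tfsN gen2 fN a = - fN a

/-- CK2 (no dependence; kernel check).  The orbits of the representatives cover everything.

PROOF.  For `r ∈ reps6`, `i < 13`, `j < 4` compute the `98 * 52` codes
`(tvsN gen1)^[i] ((tvsN gen2)^[j] r)`, collect them in the bit set `Σ_or 2 ^ code` and check that it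
is `2 ^ 4096 - 2`.  If bit `b` of an iterated `|||` of powers `2 ^ c` is set then `b` is one of the
`c`. -/
def StCK2 : Prop := ∀ b : ℕ, b < 4096 → b ≠ 0 → ∃ r ∈ reps6, ∃ i j : ℕ,
  b = (tvsN gen1)^[i] ((tvsN gen2)^[j] r)

/-- CK3 (no dependence; kernel check).  `f0` is a word of the code.

PROOF.  Boolean checks over ranges by `decide +kernel` (`64 * 64 * 64` terms for the first: store the
`64 * 64` sums, or pack the `64` values `w` of `Σ_v (f(u,v) + 2) [e(v,w) = 1]` in one number). -/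
def StCK3 : Prop :=
  (∀ u w : ℕ, u < 64 → w < 64 →
    ∑ v ∈ Finset.range 64, fN (u + 64 * v) * eN v w =
      ∑ v ∈ Finset.range 64, fN (w + 64 * v) * eN v u) ∧
  (∀ a : ℕ, a < 4096 → qN a ≠ 1 → fN a = 0) ∧
  ∑ v ∈ Finset.range 64, fN (64 * v) = 14

/-- CK4 (no dependence; kernel check).  `T + T` is everything, `Z + T` everything nonzero.

PROOF.  Witnesses `c = (ttBig >>> (12 * x)) % 4096`, `a = (ztBig >>> (12 * b)) % 4096`; a Boolean check
over `List.range 4096` by `decide +kernel` (that the witness is `< 4096` is clear). -/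
def StCK4 : Prop :=
  (∀ x : ℕ, x < 4096 → ∃ c : ℕ, c < 4096 ∧ fN c ≠ 0 ∧ fN (c ^^^ x) ≠ 0) ∧
  ∀ b : ℕ, b < 4096 → b ≠ 0 → ∃ a : ℕ, a < 4096 ∧ qN a = 1 ∧ fN a = 0 ∧ fN (a ^^^ b) ≠ 0

/-- GOOD (to prove: `theorem good : StBR → StCK3 → StCK4 → StGOOD.{u}`).

PROOF.  Every element of `K6 × K6` is `encE a` with `a < 4096`.  `IsCode`: `qq ≠ 1 → f = 0` from CK3
(2); `sig e6 f0 (enc u) (enc w)` is the sum over all `v : K6`, i.e. over `enc v`, `v < 64`
(`enc` is a bijection from `{0..63}`; `(enc u, enc v) = encE (u + 64 v)`), of `fN (u + 64 v) * eN v w`;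
use CK3 (1).  `tt`: for `x = encE x'` take `c = encE c'`, `c' = encE (c ^^^ x)`
(`encE c + encE (c ^^^ x) = encE x` by exponent two).  `zt`: the same.  `zz`: `a = encE 0 = 0` and
`a' = encE 1` (`fN 0 = fN 1 = 0`, `qN 0 = qN 1 = 1`, different first coordinate) by `decide`.
`FieldOK`: `card K6 = 64 = 2 ^ 6`; the values of `fN a` for `a < 4096` are in `{-2,-1,0,1,2}`
(`(x % 8) - 2` a priori in `-2..5`, so a Boolean check over the range is needed that `x % 8 ≤ 4`), all
nonzero ones are nonzero in `k` because `2 ≠ 0`; `s0`: if `3 = 0` in `k` then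
`sig e6 f0 0 0 = 14 = 4 * 3 + 2` is `2 ≠ 0`. -/
def StGOOD : Prop := IsPair e6 ∧ Good e6 f0 ∧
  (∀ (k : Type u) [Field k], (2 : k) ≠ 0 → FieldOK k e6 f0) ∧ sig e6 f0 0 0 = 14

/-- CL (to prove: `theorem cL : StTR.{u} → StNEG.{u} → StBR → StCK1 → StCK2 → StCL.{u}`).  Closure
under the group.

PROOF.  `k` is algebraically closed, so for every `v` there is `w` with `w * w = -(qq e6 v)`
(`IsAlgClosed.exists_pow_nat_eq` or `exists_eq_mul_self`).  Iterating TR along a list `l` of codes:
`Uniq k e6 f (encE b) → Uniq k e6 (F_l) (encE (tvsN l b))` where `F_l` is the result of the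
successive `tf e6 (encE v)`; on codes `F_l (encE a) = tfsN l F a` if `f (encE a) = F a` (induction on
`l`, for codes `< 4096`; all members of `gen1, gen2` are `< 4096`).  By CK1 for `l = gen1` the function
`F_l` is `f0`, for `l = gen2` it is `-f0` (functions on `K6 × K6`: every element is `encE a`), so with
NEG: `Uniq k e6 f0 (encE b) → Uniq k e6 f0 (encE (tvsN gen b))` for both generators and `b < 4096`
(and `tvsN gen b < 4096`).  Iterate, use CK2 for `b ≠ 0`; `b = 0` is a hypothesis. -/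
def StCL : Prop := ∀ (k : Type u) [Field k] [IsAlgClosed k], (2 : k) ≠ 0 →
  (∀ r ∈ reps6, Uniq k e6 f0 (encE r)) → Uniq k e6 f0 0 → ∀ b, Uniq k e6 f0 b

/-- FIN (to prove: `theorem fin : StLTB.{u} → StCO.{u} → StCL.{u} → StGOOD.{u} → StSec.{u} →
StPhi.{u} → StFIN.{u}`).  Assembly.

PROOF.  By LTB choose `D_0, D_A` and `D_r` for `r ∈ reps6` (a function on the list).  Put
`N := |2 * D_0 * D_A * Π_r D_r * Π_{b ∈ {0} ∪ encE reps6} gamF e6 f0 b 0 0|`.  Each factor is nonzero
modulo `3`: for `gamF e6 f0 b 0 0 = sig b_1 b_1 + sig b_1 0 + sig 0 b_1 + e(b_2,b_1) sig 0 0` use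
`sig b_1 b_1 = sig b_1 (b_1 + 0) = sig b_1 0 = sig 0 b_1` (code) and `sig 0 0 = 14`: it is
`3 sig(b_1,0) ± 14`.  So `N` is not divisible by `3`, `N > 0`.  Let `(N : k) ≠ 0`; then all
factors are nonzero in `k`, so `TabB k e6 f0 (encE r) 0`, `TabB k e6 f0 0 0`, `TabA k e6 f0` hold, by
CO `Uniq k e6 f0` for the representatives and for `0`, by CL for all `b`.  Let `Φ` be from PHI; SEC
gives `SecondPower Φ`.  `Φ ≠ 0`: otherwise `sig e6 f0 0 0 = Φ (x_0⁴) = 0` in `k`... use PR or: for
`c` with `f c ≠ 0`, some `sig` value is nonzero in `k`; simplest: by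
`Σ_w sig u w e(v,w) = 64 f(u,v)`, if `Φ = 0` then all `sig` vanish in `k`, so `64 f(c) = 0` in `k`,
against `FieldOK`. -/
def StFIN : Prop :=
  (∀ r ∈ reps6, TabB (ZMod 3) e6 f0 (encE r) 0) → TabB (ZMod 3) e6 f0 0 0 →
  TabA (ZMod 3) e6 f0 →
  ∃ N : ℕ, 0 < N ∧ ¬ 3 ∣ N ∧ ∀ (k : Type u) [Field k] [IsAlgClosed k], ((N : ℕ) : k) ≠ 0 →
    ∃ Φ : MvPolynomial K6 k →ₗ[k] k, IsPhi k e6 f0 Φ ∧ Φ ≠ 0 ∧ SecondPower Φ

end Helper49.RA
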